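import Pool.Agent.MldG.Fin2

/-!
# Reduction to fixed points for triples without ideals

The variant of `FXP` for triples without ideals: it keeps a property of all coefficients of `B` and
does not need log canonicity.
-/

namespace MldG

open MldGeo

noncomputable section

/-- The hypotheses on the triple: it is invariant, has no ideals, and the coefficients have the
property `Q`. -/
structure GoodE {n m : ℕ} {X : Germ n} (A : TorusAction X m) (T : Triple X) (Q : ℝ → Prop) :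
    Prop where
  inv : A.InvTriple T
  co : ∀ P b, T.Coeff P b → Q b
  emp : IsEmpty T.J

namespace FXE

open TRF in
theorem trf {n m m' : ℕ} {X X' : Germ n} (j : X'.K ≃ₐ[ℂ] X.K) (A : TorusAction X m)
    (A' : TorusAction X' m') (T : Triple X) (T' : Triple X') (Q : ℝ → Prop)
    (hTh : ∀ v : DivVal n X.K, X.Through v ↔ X'.Through (comap j v))
    (hAt : ∀ v : DivVal n X.K, X.At v ↔ X'.At (comap j v))
    (hAT : ∀ v : DivVal n X.K, X.At v → X.Through v)
    (hD : ∀ v : DivVal n X.K, X.Through v →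
      T'.logDisc (comap j v) = T.logDisc v ∧ T'.disc (comap j v) = T.disc v)
    (hr : ∀ i, ∃ k, T'.r i = T.r k) (hA' : ∀ i, A'.Inv (T'.a i))
    (hP : ∀ (v : DivVal n X.K) (P' : Ideal X'.R), X.Through v → X'.IsOrdAlong (comap j v) P' →
      ∃ P : Ideal X.R, X.IsOrdAlong v P ∧ (A.Inv P → A'.Inv P'))
    (hg : GoodE A T Q) : GoodE A' T' Q ∧ T'.mld = T.mld := by
  have key : ∀ (P' : Ideal X'.R) (b : ℝ), T'.Coeff P' b →
      ∃ P : Ideal X.R, T.Coeff P b ∧ (A.Inv P → A'.Inv P') := by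
    rintro P' b ⟨hP', v', hv', hl⟩
    have e : comap j (comap j.symm v') = v' := comap_comap j v'
    have h1 : X'.Through v' := through_of_ordAlong hv' hP'
    have h2 : X.Through (comap j.symm v') := by
      rw [hTh, e]
      exact h1
    obtain ⟨P, hPo, hPi⟩ := hP (comap j.symm v') P' h2 (by rw [e]; exact hv')
    refine ⟨P, ⟨le_of_through hPo h2, comap j.symm v', hPo, ?_⟩, hPi⟩
    have h3 := (hD _ h2).1
    rw [e] at h3
    rw [← h3, hl]
  refine ⟨⟨⟨fun P' b hb hb0 => ?_, hA'⟩, fun P' b hb => ?_, ⟨fun i => ?_⟩⟩, ?_⟩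
  · obtain ⟨P, h1, h2⟩ := key P' b hb
    exact h2 (hg.inv.1 P b h1 hb0)
  · obtain ⟨P, h1, h2⟩ := key P' b hb
    exact hg.co P b h1
  · obtain ⟨k, -⟩ := hr i
    exact hg.emp.false k
  · have e : {a : ℝ | ∃ v, X'.At v ∧ T'.disc v = a} = {a : ℝ | ∃ v, X.At v ∧ T.disc v = a} := by
      ext a
      constructor
      · rintro ⟨v', hv', rfl⟩
        have e : comap j (comap j.symm v') = v' := comap_comap j v'
        have h1 : X.At (comap j.symm v') := by
          rw [hAt, e]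
          exact hv'
        have h3 := (hD _ (hAT _ h1)).2
        rw [e] at h3
        exact ⟨_, h1, h3.symm⟩
      · rintro ⟨v, hv, rfl⟩
        exact ⟨comap j v, (hAt v).mp hv, (hD v (hAT v hv)).2⟩
    unfold Triple.mld
    rw [e]

/-- Localization. -/
theorem lcz {n m : ℕ} {X : Germ n} (A : TorusAction X m) (T : Triple X) (Q : ℝ → Prop)
    (hG : GoodE A T Q) : ∃ (X' : Germ n) (A' : TorusAction X' m) (T' : Triple X'),
      GoodE A' T' Q ∧ T'.mld = T.mld ∧ ClosedOrbit A' := by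
  classical
  have hATH : Stmt_ATH := t_ATH
  have hHOU : Stmt_HOU := t_HOU
  have hOLI : Stmt_OLI := t_OLI
  obtain ⟨F, hF, hom⟩ := LCZ.gens A
  set f : X.R := ∏ g ∈ F with g ∉ X.m, g with hfdef
  have hf : f ∉ X.m := by
    intro h
    obtain ⟨g, hg, hgm⟩ := (X.max.isPrime.prod_mem_iff).mp h
    exact (Finset.mem_filter.mp hg).2 hgm
  have hfe : ∃ e, f ∈ A.gr e := by
    have h1 : f ∈ SetLike.homogeneousSubmonoid A.gr :=
      Submonoid.prod_mem _ fun g hg => hom g (Finset.mem_filter.mp hg).1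
    exact h1
  obtain ⟨e, hfe⟩ := hfe
  have hdiv : ∀ g ∈ F, g ∉ X.m → g ∣ f := fun g hg hgm =>
    Finset.dvd_prod_of_mem _ (Finset.mem_filter.mpr ⟨hg, hgm⟩)
  have hcl := LCZ.closed A hATH hHOU hf hfe F hF hom hdiv
  have htr := trf (X := X) (X' := LCZ.locG hATH hf) (AlgEquiv.refl : X.K ≃ₐ[ℂ] X.K) A
    (LCZ.act A hATH hf hfe) T (LCZ.tri hATH hf T) Q
    (fun v => LCZ.through_iff hATH hf v) (fun v => LCZ.at_iff hATH hf v) (hATH X).2
    (fun v hv => ⟨rfl, ?_⟩) (fun i => ⟨i, rfl⟩) (fun i => LCZ.inv_map A hATH hf hfe (hG.inv.2 i))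
    (fun v P' hv hP' => LCZ.primes A hOLI hATH hHOU hf hfe v P' hv hP') hG
  · exact ⟨_, _, _, htr.1, htr.2, hcl⟩
  · unfold Triple.disc
    refine congrArg₂ (· - ·) rfl ?_
    refine Finset.sum_congr rfl fun j _ => ?_
    change T.r j * _ = T.r j * _
    rw [← LCZ.idealOrd_map hATH hf hv (T.a_ne j)]
    rfl

open KM1 in
/-- Adjoining a root. -/
theorem km1 {n m : ℕ} {X : Germ n} (A : TorusAction X m) (T : Triple X) (Q : ℝ → Prop)
    (hn : 0 < n) (hG : GoodE A T Q) (hcl : ClosedOrbit A) (p : ℕ) (u : Fin m → ℤ) (hp : p.Prime)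
    (hu : ¬ UnitWt A u) (hpu : UnitWt A ((p : ℤ) • u)) :
    ∃ (X' : Germ n) (A' : TorusAction X' m) (T' : Triple X'),
      GoodE A' T' Q ∧ T'.mld = T.mld ∧ ClosedOrbit A' ∧
        ∀ w, UnitWt A' w ↔ ∃ i : ℤ, UnitWt A (w - i • u) := by
  have hATH : Stmt_ATH := t_ATH
  have hHOU : Stmt_HOU := t_HOU
  have hKUX : Stmt_KUX := t_KUX t_ATH
  have hKUV : Stmt_KUV := t_KUV t_HTC t_ATH
  have hKUT : Stmt_KUT := t_KUT
  have hKUA : Stmt_KUA := t_KUA t_HOU
  obtain ⟨g, hg, hgu⟩ := hpu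
  obtain ⟨k⟩ := hKUX X p g hp hgu (not_pow hHOU A hp hu hg hgu)
  obtain ⟨A', hA', hcl', hwt⟩ := hKUA A p g u hn hp hgu hg hcl k
  obtain ⟨T', hT', hI'⟩ := hKUT X p g hn hp hgu k T
  obtain ⟨hV1, hV2⟩ := hKUV X p g hn hp hgu k
  -- prime divisors
  have key : ∀ (P' : Ideal k.X'.R) (b : ℝ), T'.Coeff P' b →
      ∃ P : Ideal X.R, T.Coeff P b ∧ (A.Inv P → A'.Inv P') := by
    rintro P' b ⟨hP'm, v', hv', hb⟩
    obtain ⟨v, hext, -, hth, -, hal⟩ := hV1 v' hv'.2.2.1
    obtain ⟨P, hP, himg⟩ := hal P' hv'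
    refine ⟨P, ⟨le_of_through hP (hth (through_of_along hv' hP'm)), v, hP, ?_⟩, ?_⟩
    · rw [← hb, (hT' v' v hext hv'.2.2.1).1]
    · intro hinv
      obtain ⟨w, a, haw, ha0, haP⟩ := exists_hom A hP hinv
      obtain ⟨h1, h2⟩ := hA' w a haw
      obtain ⟨h3, h4⟩ := himg a haP
      refine (hHOU A').2.2.2.2 P' v' hv' ⟨w, ⟨_, h1⟩, h2, ?_, h4⟩
      intro h0
      apply ha0
      have h5 : algebraMap X.K k.X'.K (a : X.K) = 0 := congrArg Subtype.val h0
      exact Subtype.ext ((map_eq_zero _).1 h5)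
  refine ⟨k.X', A', T', ⟨⟨?_, ?_⟩, ?_, ⟨?_⟩⟩, ?_, hcl', hwt⟩
  · intro P' b hb hb0
    obtain ⟨P, hP, hPi⟩ := key P' b hb
    exact hPi (hG.inv.1 P b hP hb0)
  · intro i'
    obtain ⟨i, -, -⟩ := hI' i'
    exact (hG.emp.false i).elim
  · intro P' b hb
    obtain ⟨P, hP, -⟩ := key P' b hb
    exact hG.co P b hP
  · intro i'
    obtain ⟨i, -, -⟩ := hI' i'
    exact hG.emp.false i
  · unfold Triple.mld
    congr 1
    ext a
    constructor
    · rintro ⟨v', hv', rfl⟩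
      obtain ⟨v, hext, -, -, hat, -⟩ := hV1 v' hv'.1
      exact ⟨v, hat hv', ((hT' v' v hext hv'.1).2).symm⟩
    · rintro ⟨v, hv, rfl⟩
      obtain ⟨v', hext, hat⟩ := hV2 v hv
      exact ⟨v', hat, (hT' v' v hext hat.1).2⟩

/-- Saturation. -/
theorem kms {n m : ℕ} {X : Germ n} (A : TorusAction X m) (T : Triple X) (Q : ℝ → Prop)
    (hn : 0 < n) (hG : GoodE A T Q) (hC : ClosedOrbit A) :
    ∃ (X' : Germ n) (A' : TorusAction X' m) (T' : Triple X'),
      GoodE A' T' Q ∧ T'.mld = T.mld ∧ ClosedOrbit A' ∧ Sat A' := by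
  classical
  have hHOU : Stmt_HOU := t_HOU
  suffices H : ∀ N : Submodule ℤ (Fin m → ℤ), ∀ (X : Germ n) (A : TorusAction X m)
      (T : Triple X), KMS.U A hHOU = N → GoodE A T Q → ClosedOrbit A →
      ∃ (X' : Germ n) (A' : TorusAction X' m) (T' : Triple X'),
        GoodE A' T' Q ∧ T'.mld = T.mld ∧ ClosedOrbit A' ∧ Sat A' from
    H _ X A T rfl hG hC
  intro N
  induction N using IsNoetherian.induction with
  | _ N ih =>
    intro X A T hN hG hC
    by_cases hS : Sat A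
    · exact ⟨X, A, T, hG, rfl, hC, hS⟩
    · unfold Sat at hS
      push Not at hS
      obtain ⟨u, k0, hk0, hk0u, hu⟩ := hS
      have hex : ∃ k : ℕ, 0 < k ∧ UnitWt A ((k : ℤ) • u) := ⟨k0, hk0, hk0u⟩
      obtain ⟨hk, hku⟩ := Nat.find_spec hex
      have hmin : ∀ j : ℕ, j < Nat.find hex → 0 < j → ¬ UnitWt A ((j : ℤ) • u) :=
        fun j hj hj0 h => Nat.find_min hex hj ⟨hj0, h⟩
      set k := Nat.find hex with hkdef
      have hk1 : k ≠ 1 := by
        intro h
        rw [h, Nat.cast_one, one_smul] at hku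
        exact hu hku
      set p := k.minFac with hp
      have hpp : p.Prime := Nat.minFac_prime hk1
      obtain ⟨q, hq⟩ : p ∣ k := Nat.minFac_dvd k
      have hq0 : 0 < q := by
        rcases Nat.eq_zero_or_pos q with h | h
        · rw [h, mul_zero] at hq
          omega
        · exact h
      have hqk : q < k := by
        rw [hq]
        exact lt_mul_of_one_lt_left hq0 hpp.one_lt
      have hqu : ¬ UnitWt A ((q : ℤ) • u) := hmin q hqk hq0
      have hpqu : UnitWt A ((p : ℤ) • ((q : ℤ) • u)) := by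
        rw [smul_smul, ← Nat.cast_mul, ← hq]
        exact hku
      obtain ⟨X', A', T', hG', hmld, hC', hU'⟩ := km1 A T Q hn hG hC p ((q : ℤ) • u) hpp hqu hpqu
      have hgt : KMS.U A' hHOU > N := by
        rw [← hN]
        refine lt_of_le_of_ne ?_ ?_
        · intro w hw
          rw [KMS.mem_U] at hw ⊢
          rw [hU']
          exact ⟨0, by rw [zero_smul, sub_zero]; exact hw⟩
        · intro h
          have h1 : (q : ℤ) • u ∈ KMS.U A' hHOU := by
            rw [KMS.mem_U, hU']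
            exact ⟨1, by rw [one_smul, sub_self]; exact KMS.zero A⟩
          rw [← h, KMS.mem_U] at h1
          exact hqu h1
      obtain ⟨X2, A2, T2, h1, h2, h3, h4⟩ := ih _ hgt X' A' T' rfl hG' hC'
      exact ⟨X2, A2, T2, h1, h2.trans hmld, h3, h4⟩

/-- Replacing a factor `ℂ^*` by the affine line. -/
theorem af1 {n m : ℕ} {X : Germ n} (A : TorusAction X m) (T : Triple X) (Q : ℝ → Prop)
    (hn : 0 < n) (hG : GoodE A T Q) (hCO : ClosedOrbit A) (hSat : Sat A)
    (φ : (Fin m → ℤ) →+ ℤ) (u : Fin m → ℤ) (hUW : UnitWt A u) (hφ : φ u = 1) :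
    ∃ (X' : Germ n) (A' : TorusAction X' m) (T' : Triple X'),
      GoodE A' T' Q ∧ T'.mld = T.mld ∧ ClosedOrbit A' ∧ Sat A' ∧
        ∀ w, UnitWt A' w ↔ UnitWt A w ∧ φ w = 0 := by
  have hAFX : Stmt_AFX := t_AFX t_ATH t_HOU t_OLI
  have hHOU : Stmt_HOU := t_HOU
  have hISO : Stmt_ISO := t_ISO
  have hATH : Stmt_ATH := t_ATH
  obtain ⟨g, hg, hgu⟩ := hUW
  obtain ⟨X', j, A', h1, h2, h3, h4, h5, h6, h7⟩ := hAFX A φ u g hn hgu hg hφ hCO hSat
  obtain ⟨ω', hω0, hω⟩ := hISO j T.ω T.ω_ne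
  let T' : Triple X' :=
    { ω := ω'
      ω_ne := hω0
      I := T.I
      finI := T.finI
      f := fun i => j.symm (T.f i)
      f_ne := fun i => by simpa using T.f_ne i
      c := T.c
      J := T.J
      finJ := T.finJ
      a := fun i => Ideal.span (AF1.gens j A φ (T.a i))
      a_ne := fun i => AF1.gens_ne j A A' φ hHOU hg hgu hφ h4 (hG.inv.2 i) (T.a_ne i)
      r := T.r
      r_nonneg := T.r_nonneg }
  have hlog : ∀ v : DivVal n X.K, T'.logDisc (comap j v) = T.logDisc v := by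
    intro v
    show 1 + ((comap j v).formOrd ω' : ℝ) +
      ∑ i, T.c i * ((v.ord (j (j.symm (T.f i))) : ℤ) : ℝ) = _
    rw [hω v]
    simp only [AlgEquiv.apply_symm_apply]
    rfl
  obtain ⟨k1, k2⟩ := trf j A A' T T' Q h1 h2 (hATH X).2
    (fun v hv => by
      refine ⟨hlog v, ?_⟩
      show T'.logDisc (comap j v) - ∑ i, T.r i *
        ((idealOrd (comap j v) (Ideal.span (AF1.gens j A φ (T.a i))) : ℤ) : ℝ) = _
      rw [hlog v]
      show _ = T.logDisc v - ∑ i, T.r i * ((idealOrd v (T.a i) : ℤ) : ℝ)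
      congr 1
      refine Finset.sum_congr rfl fun i _ => ?_
      rw [AF1.ord_eq j A A' φ hHOU hg hgu hφ h4 (hG.inv.2 i) (T.a_ne i) hv ((h1 v).1 hv)])
    (fun i => ⟨i, rfl⟩) (fun i => AF1.gens_inv j A A' φ h4 (T.a i))
    (fun v P' hv hP' => by
      obtain ⟨P, hP⟩ := h3 v P' hv hP'
      refine ⟨P, hP, fun hInv => ?_⟩
      have hPne : P ≠ ⊥ := by
        rintro rfl
        have h8 := hP.2.1
        rw [Ideal.height_bot] at h8
        exact zero_ne_one h8
      obtain ⟨s, hs, rfl⟩ := hInv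
      obtain ⟨a, ha, ha0⟩ : ∃ a ∈ s, a ≠ 0 := by
        by_contra hno
        push Not at hno
        apply hPne
        rw [Ideal.span_eq_bot]
        exact hno
      obtain ⟨w, hw⟩ := hs a ha
      obtain ⟨h, a', w', k1, k2, -, k4, k5⟩ := AF1.exists_gen j A A' φ hHOU hg hgu hφ h4 hw
        (Ideal.subset_span ha) ha0
      have hpos : 0 < v.ord (a : X.K) :=
        ((hP.2.2.2 a).1 (Ideal.subset_span ha)).resolve_left ha0
      refine (hHOU A').2.2.2.2 P' (comap j v) hP' ⟨w', a', k5, k4, ?_⟩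
      refine (hP'.2.2.2 a').2 (Or.inr ?_)
      show 0 < v.ord (j (a' : X'.K))
      rw [k2, AF1.ord_mul_unit hv ha0 k1]
      exact hpos) hG
  exact ⟨X', A', T', k1, k2, h5, h6, h7⟩

/-- The induction. -/
theorem step {n m : ℕ} (Q : ℝ → Prop) (hn : 0 < n) (hHOU : Stmt_HOU) (r : ℕ) :
    ∀ (X : Germ n) (A : TorusAction X m) (T : Triple X), FXP.rk (FXP.unitWts hHOU A) = r →
      GoodE A T Q → ClosedOrbit A → Sat A →
      ∃ (X' : Germ n) (A' : TorusAction X' m) (T' : Triple X'),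
        GoodE A' T' Q ∧ T'.mld = T.mld ∧ Fixed A' := by
  induction r using Nat.strong_induction_on with
  | _ r ih =>
    intro X A T hr hG hC hS
    by_cases h : ∃ w, w ≠ 0 ∧ UnitWt A w
    · obtain ⟨w, hw, hwU⟩ := h
      obtain ⟨k, u, φ, hk, hwu, hφ⟩ := FXP.exists_primitive w hw
      have hu : UnitWt A u := hS u k hk (by rwa [← hwu])
      obtain ⟨X', A', T', hG', hT', hC', hS', hU'⟩ := af1 A T Q hn hG hC hS φ u hu hφ
      have hlt : FXP.rk (FXP.unitWts hHOU A') < r := by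
        rw [← hr]
        exact FXP.rk_lt _ _ φ u hu hφ hU'
      obtain ⟨X'', A'', T'', hG'', hT'', hF''⟩ := ih _ hlt X' A' T' rfl hG' hC' hS'
      exact ⟨X'', A'', T'', hG'', by rw [hT'', hT'], hF''⟩
    · refine ⟨X, A, T, hG, rfl, fun u hu a ha => ?_⟩
      by_contra hm
      exact h ⟨u, hu, hC u ⟨a, ha, hm⟩⟩

end FXE

/-- One may assume that `x` is a fixed point. -/
theorem fxe {n m : ℕ} {X : Germ n} (A : TorusAction X m) (T : Triple X) (Q : ℝ → Prop)
    (hn : 0 < n) (hG : GoodE A T Q) :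
    ∃ (X' : Germ n) (A' : TorusAction X' m) (T' : Triple X'),
      GoodE A' T' Q ∧ T'.mld = T.mld ∧ Fixed A' := by
  obtain ⟨X1, A1, T1, hG1, hT1, hC1⟩ := FXE.lcz A T Q hG
  obtain ⟨X2, A2, T2, hG2, hT2, hC2, hS2⟩ := FXE.kms A1 T1 Q hn hG1 hC1
  obtain ⟨X3, A3, T3, hG3, hT3, hF3⟩ := FXE.step Q hn t_HOU _ X2 A2 T2 rfl hG2 hC2 hS2
  exact ⟨X3, A3, T3, hG3, by rw [hT3, hT2, hT1], hF3⟩

end

end MldG
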