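import Pool.Agent.MldG.StmtsZ
import Pool.Agent.MldTv.Final
import Pool.Agent.MldAcc.Toric
import Pool.Agent.MldGeo.TAC

/-!
# TAG: the ascending chain condition for torus actions of complexity at most one at arbitrary
closed points
-/

namespace MldG

open MldGeo

noncomputable section

namespace TAG

/-- An action with constant invariant functions and fixed point `x`, seen as an action with an
attractive fixed point. -/
def toGeo {n m : ℕ} {X : Germ n} (A : TorusAction X m)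
    (hc : ∀ a ∈ A.gr 0, ∃ c : ℂ, a = algebraMap ℂ X.R c) (hF : Fixed A) :
    MldGeo.TorusAction X m where
  gr := A.gr
  graded := A.graded
  effective := A.effective
  const := hc
  vanish := hF

theorem inv_toGeo {n m : ℕ} {X : Germ n} (A : TorusAction X m)
    (hc : ∀ a ∈ A.gr 0, ∃ c : ℂ, a = algebraMap ℂ X.R c) (hF : Fixed A) {T : Triple X}
    (h : A.InvTriple T) : (toGeo A hc hF).InvTriple T := h

/-- If the dimension of the torus is the dimension of `X` then the invariant functions are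
constant. -/
theorem const_of_full (hTRD : MldG.Stmt_TRD) {n : ℕ} {X : Germ n} (A : TorusAction X n) :
    ∀ a ∈ A.gr 0, ∃ c : ℂ, a = algebraMap ℂ X.R c := by
  intro a ha
  have h1 := hTRD A
  have h2 : Algebra.trdeg ℂ A.K0 = 0 := by
    have h3 : Algebra.trdeg ℂ A.K0 + (n : Cardinal) = 0 + (n : Cardinal) := by
      rw [h1, zero_add]
    exact (Cardinal.add_right_inj_of_lt_aleph0 (Cardinal.natCast_lt_aleph0)).1 h3
  have h3 : Algebra.IsAlgebraic ℂ A.K0 := trdeg_eq_zero_iff.1 h2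
  have h4 : (a : X.K) ∈ A.K0 := TorusAction.Hom.of_mem ha
  obtain ⟨c, hc⟩ := (IsAlgClosed.algebraMap_bijective_of_isIntegral (k := ℂ) (K := A.K0)).2
    ⟨(a : X.K), h4⟩
  refine ⟨c, ?_⟩
  apply Subtype.ext
  have h5 := congrArg (fun z : A.K0 => (z : X.K)) hc
  exact h5.symm

/-- A strictly increasing sequence does not stay in the union of two sets without strictly
increasing sequences. -/
theorem no_mono {A B : Set ℝ} (hA : ∀ x : ℕ → ℝ, (∀ k, x k ∈ A) → ¬ StrictMono x)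
    (hB : ∀ x : ℕ → ℝ, (∀ k, x k ∈ B) → ¬ StrictMono x) (x : ℕ → ℝ)
    (hx : ∀ k, x k ∈ A ∨ x k ∈ B) : ¬ StrictMono x := by
  intro hmono
  by_cases h : ∃ᶠ k in Filter.atTop, x k ∈ A
  · obtain ⟨φ, hφ, h1⟩ := Filter.extraction_of_frequently_atTop h
    exact hA (x ∘ φ) h1 (hmono.comp hφ)
  · have h2 : ∃ᶠ k in Filter.atTop, x k ∈ B := by
      rw [Filter.not_frequently] at h
      exact (h.mono fun k hk => (hx k).resolve_left hk).frequently
    obtain ⟨φ, hφ, h1⟩ := Filter.extraction_of_frequently_atTop h2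
    exact hB (x ∘ φ) h1 (hmono.comp hφ)

/-- Actions whose invariant functions are constant. -/
theorem mem_tv (hCRS : MldGeo.Stmt_CRS) (hDAT : MldGeo.Stmt_DAT) (hCMB : MldGeo.Stmt_CMB)
    {n m : ℕ} (hm : m = n + 1 ∨ m = n + 1 + 1) {X : Germ (n + 1 + 1)}
    (A : MldGeo.TorusAction X m) (T : Triple X) (hinv : A.InvTriple T) (heff : T.Effective)
    (hlc : T.LC) (S : Set ℝ) (hco : T.CoeffIn S) : T.mld ∈ MldTv.mldSet (n + 1 + 1) S := by
  obtain ⟨A', hA'⟩ : ∃ A' : MldGeo.TorusAction X (n + 1), A'.InvTriple T := by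
    revert A
    rcases hm with h5 | h5
    · rw [h5]
      intro B hB
      exact ⟨B, hB⟩
    · rw [h5]
      intro B hB
      obtain ⟨B', hB'⟩ := hCRS (Nat.succ_pos n) B
      exact ⟨B', fun P b hP hb => hB' P (hB.1 P b hP hb), fun j => hB' _ (hB.2 j)⟩
  obtain ⟨d⟩ := hDAT A' T hA'
  exact hCMB d heff hlc S hco

/-- Actions with nonconstant invariant functions. -/
theorem mem_acc (hTRD : MldG.Stmt_TRD) (hDAZ : Stmt_DAZ) (hCMZ : Stmt_CMZ)
    {n m : ℕ} (hm : m = n + 1 ∨ m = n + 1 + 1) {X : Germ (n + 1 + 1)}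
    (A : TorusAction X m) (T : Triple X) (hinv : A.InvTriple T) (heff : T.Effective)
    (hlc : T.LC) (S : Set ℝ) (hco : T.CoeffIn S) (hF : Fixed A)
    (hc : ¬ ∀ a ∈ A.gr 0, ∃ c : ℂ, a = algebraMap ℂ X.R c) :
    T.mld ∈ MldAcc.mldSet (n + 1 + 1) (insert 0 S) := by
  rcases hm with h5 | h5
  · subst h5
    have h6 : ∃ a ∈ A.gr 0, ∀ c : ℂ, a ≠ algebraMap ℂ X.R c := by
      by_contra h7
      apply hc
      intro a ha
      by_contra h8
      exact h7 ⟨a, ha, fun c h9 => h8 ⟨c, h9⟩⟩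
    obtain ⟨d⟩ := hDAZ A T hinv hF h6
    exact hCMZ d heff hlc S hco
  · subst h5
    exact absurd (const_of_full hTRD A) hc

end TAG

theorem t_TAG (hFXP : Stmt_FXP) (hTRD : MldG.Stmt_TRD) (hCRS : MldGeo.Stmt_CRS)
    (hDAT : MldGeo.Stmt_DAT) (hCMB : MldGeo.Stmt_CMB) (hDM1 : MldGeo.Stmt_DM1)
    (hDAZ : Stmt_DAZ) (hCMZ : Stmt_CMZ) : Stmt_TAG := by
  intro n S hS X T m A hm hinv heff hlc hco
  rcases n with _ | _ | n
  · intro h
    have h1 := h (show (0 : ℕ) < 1 by norm_num)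
    simp only [TAC.mld_zero] at h1
    exact lt_irrefl _ h1
  · exact hDM1 S hS X T heff hlc hco
  · refine TAG.no_mono (A := MldTv.mldSet (n + 1 + 1) S)
      (B := MldAcc.mldSet (n + 1 + 1) (insert 0 S)) (fun x hx => MldTv.acc hS x hx)
      (fun x hx => MldAcc.acc_mld (hS.insert 0) x hx) _ fun k => ?_
    have h5 : m k = n + 1 ∨ m k = n + 1 + 1 := by
      have h1 : m k ≤ n + 1 + 1 := by
        have h2 := hTRD (A k)
        have h3 : ((m k : ℕ) : Cardinal) ≤ ((n + 1 + 1 : ℕ) : Cardinal) := by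
          rw [← h2]
          exact le_add_self
        exact_mod_cast h3
      have h4 := hm k
      omega
    obtain ⟨X', A', T', hG, hmld, hF⟩ := hFXP (A k) (T k) S (Nat.succ_pos _)
      ⟨hinv k, heff k, hlc k, hco k⟩
    rw [← hmld]
    by_cases hc : ∀ a ∈ A'.gr 0, ∃ c : ℂ, a = algebraMap ℂ X'.R c
    · exact Or.inl (TAG.mem_tv hCRS hDAT hCMB h5 (TAG.toGeo A' hc hF) T'
        (TAG.inv_toGeo A' hc hF hG.inv) hG.eff hG.lc S hG.coeff)
    · exact Or.inr (TAG.mem_acc hTRD hDAZ hCMZ h5 A' T' hG.inv hG.eff hG.lc S hG.coeff hF hc)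

end

end MldG
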