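import Pool.Agent.MldG.StmtsF
import Pool.Agent.MldGeo.OLC

/-!
# AF1: replacing a factor `ℂ^*` by the affine line, one step
-/

namespace MldG

open MldGeo

noncomputable section

namespace AF1

variable {n m : ℕ} {X : Germ n}

/-- The powers of an invertible homogeneous function. -/
theorem unit_pow (hHOU : Stmt_HOU) (A : TorusAction X m) {u : Fin m → ℤ} {g : X.R}
    (hg : g ∈ A.gr u) (hu : IsUnit g) (k : ℤ) : ∃ h : X.R, IsUnit h ∧ h ∈ A.gr (k • u) := by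
  have key : ∀ (w : Fin m → ℤ) (a : X.R), a ∈ A.gr w → IsUnit a → ∀ k : ℕ,
      ∃ h : X.R, IsUnit h ∧ h ∈ A.gr (k • w) := by
    intro w a ha hau k
    exact ⟨a ^ k, hau.pow k, SetLike.pow_mem_graded k ha⟩
  obtain ⟨g', hg'⟩ := hu.exists_right_inv
  have hg'u : IsUnit g' := IsUnit.of_mul_eq_one g (by rw [mul_comm]; exact hg')
  have hg'm : g' ∈ A.gr (-u) := (hHOU A).2.2.1 u g g' hg hg'
  cases k with
  | ofNat k =>
    obtain ⟨h, h1, h2⟩ := key u g hg hu k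
    refine ⟨h, h1, ?_⟩
    simpa using h2
  | negSucc k =>
    obtain ⟨h, h1, h2⟩ := key (-u) g' hg'm hg'u (k + 1)
    refine ⟨h, h1, ?_⟩
    rw [negSucc_zsmul]
    rwa [smul_neg] at h2

/-- Moving a homogeneous element to the kernel of the weight function. -/
theorem move (hHOU : Stmt_HOU) (A : TorusAction X m) (φ : (Fin m → ℤ) →+ ℤ) {u : Fin m → ℤ}
    {g : X.R} (hg : g ∈ A.gr u) (hu : IsUnit g) (hφ : φ u = 1) {w : Fin m → ℤ} {a : X.R}
    (ha : a ∈ A.gr w) : ∃ (h : X.R) (w' : Fin m → ℤ), IsUnit h ∧ φ w' = 0 ∧ a * h ∈ A.gr w' := by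
  obtain ⟨h, h1, h2⟩ := unit_pow hHOU A hg hu (-φ w)
  refine ⟨h, w + (-φ w) • u, h1, ?_, SetLike.GradedMul.mul_mem ha h2⟩
  rw [map_add, map_zsmul, hφ]
  simp

theorem ord_unit {v : DivVal n X.K} (hv : X.Through v) {h : X.R} (hh : IsUnit h) :
    v.ord (h : X.K) = 0 := by
  refine hv.2 h fun hm => ?_
  exact X.max.ne_top (Ideal.eq_top_of_isUnit_mem _ hm hh)

theorem ord_mul_unit {v : DivVal n X.K} (hv : X.Through v) {a h : X.R} (ha : a ≠ 0)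
    (hh : IsUnit h) : v.ord ((a * h : X.R) : X.K) = v.ord (a : X.K) := by
  have h0 : h ≠ 0 := hh.ne_zero
  have ha' : (a : X.K) ≠ 0 := fun h' => ha (Subtype.ext h')
  have hh' : (h : X.K) ≠ 0 := fun h' => h0 (Subtype.ext h')
  push_cast
  rw [v.ord_mul _ _ ha' hh', ord_unit hv hh, add_zero]

/-- The generators of the new ideal. -/
def gens {X' : Germ n} (j : X'.K ≃ₐ[ℂ] X.K) (A : TorusAction X m) (φ : (Fin m → ℤ) →+ ℤ)
    (I : Ideal X.R) : Set X'.R :=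
  {a' | ∃ (w : Fin m → ℤ) (a : X.R), φ w = 0 ∧ a ∈ I ∧ a ∈ A.gr w ∧ j (a' : X'.K) = a}

section ideals

variable {X' : Germ n} (j : X'.K ≃ₐ[ℂ] X.K) (A : TorusAction X m) (A' : TorusAction X' m)
  (φ : (Fin m → ℤ) →+ ℤ) {u : Fin m → ℤ} {g : X.R}

theorem exists_gen (hHOU : Stmt_HOU) (hg : g ∈ A.gr u) (hu : IsUnit g) (hφ : φ u = 1)
    (h4 : ∀ (w : Fin m → ℤ) (a : X.R), φ w = 0 → a ∈ A.gr w →
      ∃ h : j.symm (a : X.K) ∈ X'.R, (⟨j.symm (a : X.K), h⟩ : X'.R) ∈ A'.gr w)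
    {I : Ideal X.R} {w : Fin m → ℤ} {a : X.R} (ha : a ∈ A.gr w) (haI : a ∈ I) (h0 : a ≠ 0) :
    ∃ (h : X.R) (a' : X'.R) (w' : Fin m → ℤ), IsUnit h ∧ j (a' : X'.K) = ((a * h : X.R) : X.K) ∧
      a' ∈ gens j A φ I ∧ a' ≠ 0 ∧ a' ∈ A'.gr w' := by
  obtain ⟨h, w', h1, h2, h3⟩ := move hHOU A φ hg hu hφ ha
  obtain ⟨hm, hm'⟩ := h4 w' (a * h) h2 h3
  have e : j (j.symm ((a * h : X.R) : X.K)) = ((a * h : X.R) : X.K) := j.apply_symm_apply _
  refine ⟨h, ⟨_, hm⟩, w', h1, e, ⟨w', a * h, h2, I.mul_mem_right _ haI, h3, e⟩, ?_, hm'⟩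
  intro h5
  have h6 : j.symm ((a * h : X.R) : X.K) = 0 := congrArg Subtype.val h5
  have h7 : ((a * h : X.R) : X.K) = 0 := by rw [← e, h6, map_zero]
  exact mul_ne_zero h0 h1.ne_zero (Subtype.ext h7)

theorem gens_ne (hHOU : Stmt_HOU) (hg : g ∈ A.gr u) (hu : IsUnit g) (hφ : φ u = 1)
    (h4 : ∀ (w : Fin m → ℤ) (a : X.R), φ w = 0 → a ∈ A.gr w →
      ∃ h : j.symm (a : X.K) ∈ X'.R, (⟨j.symm (a : X.K), h⟩ : X'.R) ∈ A'.gr w)
    {I : Ideal X.R} (hI : A.Inv I) (h0 : I ≠ ⊥) : Ideal.span (gens j A φ I) ≠ ⊥ := by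
  obtain ⟨s, hs, rfl⟩ := hI
  obtain ⟨a, ha, ha0⟩ : ∃ a ∈ s, a ≠ 0 := by
    by_contra hno
    push Not at hno
    apply h0
    rw [Ideal.span_eq_bot]
    exact hno
  obtain ⟨w, hw⟩ := hs a ha
  obtain ⟨h, a', w', -, -, h5, h6, -⟩ := exists_gen j A A' φ hHOU hg hu hφ h4 hw
    (Ideal.subset_span ha) ha0
  intro h7
  rw [Ideal.span_eq_bot] at h7
  exact h6 (h7 a' h5)

theorem gens_inv (h4 : ∀ (w : Fin m → ℤ) (a : X.R), φ w = 0 → a ∈ A.gr w →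
      ∃ h : j.symm (a : X.K) ∈ X'.R, (⟨j.symm (a : X.K), h⟩ : X'.R) ∈ A'.gr w)
    (I : Ideal X.R) : A'.Inv (Ideal.span (gens j A φ I)) := by
  refine ⟨_, ?_, rfl⟩
  rintro a' ⟨w, a, hw, -, ha, e⟩
  obtain ⟨hm, hm'⟩ := h4 w a hw ha
  refine ⟨w, ?_⟩
  have h5 : a' = ⟨j.symm (a : X.K), hm⟩ := by
    apply Subtype.ext
    show (a' : X'.K) = j.symm (a : X.K)
    rw [← e, AlgEquiv.symm_apply_apply]
  rw [h5]
  exact hm'

theorem ord_eq (hHOU : Stmt_HOU) (hg : g ∈ A.gr u) (hu : IsUnit g) (hφ : φ u = 1)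
    (h4 : ∀ (w : Fin m → ℤ) (a : X.R), φ w = 0 → a ∈ A.gr w →
      ∃ h : j.symm (a : X.K) ∈ X'.R, (⟨j.symm (a : X.K), h⟩ : X'.R) ∈ A'.gr w)
    {I : Ideal X.R} (hI : A.Inv I) (h0 : I ≠ ⊥) {v : DivVal n X.K} (hv : X.Through v)
    (hv' : X'.Through (comap j v)) :
    idealOrd (comap j v) (Ideal.span (gens j A φ I)) = idealOrd v I := by
  have hne := gens_ne j A A' φ hHOU hg hu hφ h4 hI h0
  obtain ⟨-, -, i3, -⟩ := t_IDO v hv.1
  obtain ⟨-, -, j3, j4⟩ := t_IDO (comap j v) hv'.1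
  apply le_antisymm
  · obtain ⟨s, hs, rfl⟩ := hI
    obtain ⟨-, -, -, i4⟩ := t_IDO v hv.1
    obtain ⟨a, ha, ha0, e, -⟩ := i4 s h0
    obtain ⟨w, hw⟩ := hs a ha
    obtain ⟨h, a', w', h1, h2, h5, h6, -⟩ := exists_gen j A A' φ hHOU hg hu hφ h4 hw
      (Ideal.subset_span ha) ha0
    have h7 := j3 _ a' (Ideal.subset_span h5) h6
    have h8 : (comap j v).ord (a' : X'.K) = v.ord (a : X.K) := by
      show v.ord (j (a' : X'.K)) = _
      rw [h2, ord_mul_unit hv ha0 h1]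
    rw [h8, e] at h7
    exact h7
  · obtain ⟨b', ⟨w, a, hw, haI, ha, e⟩, hb0, e', -⟩ := j4 _ hne
    rw [← e']
    show _ ≤ v.ord (j (b' : X'.K))
    rw [e]
    refine i3 _ a haI ?_
    rintro rfl
    apply hb0
    apply Subtype.ext
    apply j.injective
    rw [e]
    simp

end ideals

end AF1

theorem t_AF1 (hAFX : Stmt_AFX) (hTRF : Stmt_TRF) (hISO : Stmt_ISO) (hHOU : Stmt_HOU)
    (hATH : Stmt_ATH) : Stmt_AF1 := by
  intro n m X A T S hn hG hCO hSat φ u hUW hφ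
  obtain ⟨g, hg, hgu⟩ := hUW
  obtain ⟨X', j, A', h1, h2, h3, h4, h5, h6, h7⟩ := hAFX A φ u g hn hgu hg hφ hCO hSat
  obtain ⟨ω', hω0, hω⟩ := hISO j T.ω T.ω_ne
  let T' : Triple X' :=
    { ω := ω'
      ω_ne := hω0
      I := T.I
      finI := T.finI
      f := fun i => j.symm (T.f i)
      f_ne := fun i => by simpa using T.f_ne i
      c := T.c
      J := T.J
      finJ := T.finJ
      a := fun i => Ideal.span (AF1.gens j A φ (T.a i))
      a_ne := fun i => AF1.gens_ne j A A' φ hHOU hg hgu hφ h4 (hG.inv.2 i) (T.a_ne i)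
      r := T.r
      r_nonneg := T.r_nonneg }
  have hlog : ∀ v : DivVal n X.K, T'.logDisc (comap j v) = T.logDisc v := by
    intro v
    show 1 + ((comap j v).formOrd ω' : ℝ) +
      ∑ i, T.c i * ((v.ord (j (j.symm (T.f i))) : ℤ) : ℝ) = _
    rw [hω v]
    simp only [AlgEquiv.apply_symm_apply]
    rfl
  obtain ⟨k1, k2⟩ := hTRF j A A' T T' S hn h1 h2 (hATH X).2
    (fun v hv => by
      refine ⟨hlog v, ?_⟩
      show T'.logDisc (comap j v) - ∑ i, T.r i *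
        ((idealOrd (comap j v) (Ideal.span (AF1.gens j A φ (T.a i))) : ℤ) : ℝ) = _
      rw [hlog v]
      show _ = T.logDisc v - ∑ i, T.r i * ((idealOrd v (T.a i) : ℤ) : ℝ)
      congr 1
      refine Finset.sum_congr rfl fun i _ => ?_
      rw [AF1.ord_eq j A A' φ hHOU hg hgu hφ h4 (hG.inv.2 i) (T.a_ne i) hv ((h1 v).1 hv)])
    (fun i => ⟨i, rfl⟩) (fun i => AF1.gens_inv j A A' φ h4 (T.a i))
    (fun v P' hv hP' => by
      obtain ⟨P, hP⟩ := h3 v P' hv hP'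
      refine ⟨P, hP, fun hInv => ?_⟩
      have hPne : P ≠ ⊥ := by
        rintro rfl
        have h8 := hP.2.1
        rw [Ideal.height_bot] at h8
        exact zero_ne_one h8
      obtain ⟨s, hs, rfl⟩ := hInv
      obtain ⟨a, ha, ha0⟩ : ∃ a ∈ s, a ≠ 0 := by
        by_contra hno
        push Not at hno
        apply hPne
        rw [Ideal.span_eq_bot]
        exact hno
      obtain ⟨w, hw⟩ := hs a ha
      obtain ⟨h, a', w', k1, k2, -, k4, k5⟩ := AF1.exists_gen j A A' φ hHOU hg hgu hφ h4 hw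
        (Ideal.subset_span ha) ha0
      have hpos : 0 < v.ord (a : X.K) :=
        ((hP.2.2.2 a).1 (Ideal.subset_span ha)).resolve_left ha0
      refine (hHOU A').2.2.2.2 P' (comap j v) hP' ⟨w', a', k5, k4, ?_⟩
      refine (hP'.2.2.2 a').2 (Or.inr ?_)
      show 0 < v.ord (j (a' : X'.K))
      rw [k2, AF1.ord_mul_unit hv ha0 k1]
      exact hpos) hG
  exact ⟨X', A', T', k1, k2, h5, h6, h7⟩

end

end MldG
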