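import Pool.Agent.MldG.StmtsF
import Pool.Agent.MldGeo.OLC

/-!
# Replacing a factor `ℂ^*` by the affine line
-/

namespace MldG

open MldGeo DirectSum Polynomial

noncomputable section

namespace AFX

/-! ### fields of fractions -/

theorem exists_ext {S K : Type} [CommRing S] [Algebra ℂ S] [Field K] [Algebra ℂ K]
    (f : S →ₐ[ℂ] K) (hf : Function.Injective f) (hfr : ∀ a : K, ∃ p q : S, q ≠ 0 ∧ a * f q = f p)
    (e : S ≃ₐ[ℂ] S) : ∃ σ : K ≃ₐ[ℂ] K, ∀ p, σ (f p) = f (e p) := by
  let _ : Algebra S K := f.toRingHom.toAlgebra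
  have hmap : ∀ p : S, algebraMap S K p = f p := fun _ => rfl
  have hfs : FaithfulSMul S K := (faithfulSMul_iff_algebraMap_injective S K).2 hf
  have hfrac : IsFractionRing S K := by
    refine IsFractionRing.of_field S K fun a => ?_
    obtain ⟨p, q, hq, h⟩ := hfr a
    refine ⟨p, q, ?_⟩
    rw [hmap, hmap, ← h, mul_div_cancel_right₀]
    exact fun h0 => hq (hf (by rw [h0, map_zero]))
  let σ0 : K ≃+* K := IsFractionRing.ringEquivOfRingEquiv e.toRingEquiv
  have h0 : ∀ p : S, σ0 (f p) = f (e p) := fun p =>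
    IsFractionRing.ringEquivOfRingEquiv_algebraMap (K := K) (L := K) e.toRingEquiv p
  refine ⟨AlgEquiv.ofRingEquiv (f := σ0) fun c => ?_, h0⟩
  rw [← f.commutes, h0, e.commutes]

/-! ### components -/

variable {n m : ℕ} {X : Germ n} (A : TorusAction X m)

/-- The component of weight `w`. -/
def cp (a : X.R) (w : Fin m → ℤ) : X.R := (decompose A.gr a w : X.R)

variable {A}

theorem cp_mem (a : X.R) (w : Fin m → ℤ) : cp A a w ∈ A.gr w := (decompose A.gr a w).2

theorem cp_zero (w : Fin m → ℤ) : cp A 0 w = 0 := by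
  unfold cp
  rw [decompose_zero]
  rfl

theorem cp_add (a b : X.R) (w : Fin m → ℤ) : cp A (a + b) w = cp A a w + cp A b w := by
  unfold cp
  rw [decompose_add]
  rfl

theorem cp_sum {ι : Type} (s : Finset ι) (f : ι → X.R) (w : Fin m → ℤ) :
    cp A (∑ i ∈ s, f i) w = ∑ i ∈ s, cp A (f i) w := by
  classical
  induction s using Finset.induction_on with
  | empty => simp [cp_zero]
  | insert i s hi ih => rw [Finset.sum_insert hi, Finset.sum_insert hi, cp_add, ih]

theorem cp_same {a : X.R} {w : Fin m → ℤ} (h : a ∈ A.gr w) : cp A a w = a :=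
  decompose_of_mem_same A.gr h

theorem cp_ne {a : X.R} {w w' : Fin m → ℤ} (h : a ∈ A.gr w) (hne : w ≠ w') : cp A a w' = 0 :=
  decompose_of_mem_ne A.gr h hne

theorem cp_mul {a b : X.R} {i j : Fin m → ℤ} (h : b ∈ A.gr j) :
    cp A (a * b) (i + j) = cp A a i * b :=
  coe_decompose_mul_add_of_right_mem A.gr h

theorem cp_ext {a : X.R} (h : ∀ w, cp A a w = 0) : a = 0 := by
  have h1 : decompose A.gr a = 0 := by
    ext w
    exact congrArg Subtype.val (h w)
  have h2 := (decompose A.gr).symm_apply_apply a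
  rw [h1] at h2
  rw [← h2]
  exact decompose_symm_zero A.gr

theorem cp_ext2 {a b : X.R} (h : ∀ w, cp A a w = cp A b w) : a = b := by
  have h1 : decompose A.gr a = decompose A.gr b := by
    ext w
    exact congrArg Subtype.val (h w)
  exact (decompose A.gr).injective h1

/-- every function is the sum of its components -/
theorem cp_decomp (a : X.R) : ∃ s : Finset (Fin m → ℤ), a = ∑ w ∈ s, cp A a w := by
  classical
  exact ⟨_, (sum_support_decompose A.gr a).symm⟩

variable (A)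

/-- The functions whose weights belong to `s`. -/
def sub (s : AddSubmonoid (Fin m → ℤ)) : Subalgebra ℂ X.R where
  carrier := {a | ∀ w, w ∉ s → cp A a w = 0}
  mul_mem' := by
    classical
    intro a b ha hb w hw
    unfold cp
    rw [decompose_mul, coe_mul_apply]
    refine Finset.sum_eq_zero fun ij hij => ?_
    have h1 := (Finset.mem_filter.1 hij).2
    by_cases h2 : ij.1 ∈ s
    · have h3 : ij.2 ∉ s := fun h3 => hw (h1 ▸ s.add_mem h2 h3)
      have h4 := hb _ h3
      unfold cp at h4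
      rw [h4, mul_zero]
    · have h4 := ha _ h2
      unfold cp at h4
      rw [h4, zero_mul]
  add_mem' := by
    intro a b ha hb w hw
    rw [cp_add, ha w hw, hb w hw, add_zero]
  algebraMap_mem' := by
    intro c w hw
    refine cp_ne (w := 0) (SetLike.algebraMap_mem_graded A.gr c) ?_
    rintro rfl
    exact hw s.zero_mem

variable {A}

theorem mem_sub {s : AddSubmonoid (Fin m → ℤ)} {a : X.R} :
    a ∈ sub A s ↔ ∀ w, w ∉ s → cp A a w = 0 := Iff.rfl

theorem sub_hom {s : AddSubmonoid (Fin m → ℤ)} {a : X.R} {w : Fin m → ℤ} (h : a ∈ A.gr w)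
    (hw : w ∈ s) : a ∈ sub A s := by
  intro w' hw'
  refine cp_ne h ?_
  rintro rfl
  exact hw' hw

theorem sub_cp {s : AddSubmonoid (Fin m → ℤ)} {a : X.R} (h : a ∈ sub A s) (w : Fin m → ℤ) :
    cp A a w ∈ sub A s := by
  by_cases hw : w ∈ s
  · exact sub_hom (cp_mem a w) hw
  · rw [h w hw]
    exact zero_mem _

/-! ### the coordinate `g` -/

variable (φ : (Fin m → ℤ) →+ ℤ)

/-- The weights in the kernel of `φ`. -/
def ker0 : AddSubmonoid (Fin m → ℤ) where
  carrier := {w | φ w = 0}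
  add_mem' := by
    intro a b ha hb
    change φ (a + b) = 0
    rw [map_add, show φ a = 0 from ha, show φ b = 0 from hb, add_zero]
  zero_mem' := map_zero φ

/-- The weights on which `φ` is nonnegative. -/
def pos0 : AddSubmonoid (Fin m → ℤ) where
  carrier := {w | 0 ≤ φ w}
  add_mem' := by
    intro a b ha hb
    change 0 ≤ φ (a + b)
    rw [map_add]
    exact add_nonneg ha hb
  zero_mem' := (map_zero φ).ge

theorem mem_ker0 {w : Fin m → ℤ} : w ∈ ker0 φ ↔ φ w = 0 := Iff.rfl

theorem mem_pos0 {w : Fin m → ℤ} : w ∈ pos0 φ ↔ 0 ≤ φ w := Iff.rfl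

theorem ker0_le : sub A (ker0 φ) ≤ sub A (pos0 φ) := by
  intro a ha w hw
  refine ha w fun h => hw ?_
  rw [mem_pos0, (mem_ker0 φ).1 h]

variable (A) {u : Fin m → ℤ} (g : X.Rˣ)

/-- The hypotheses on `g`. -/
structure GU (u : Fin m → ℤ) : Prop where
  mem : (g : X.R) ∈ A.gr u
  inv : ((g⁻¹ : X.Rˣ) : X.R) ∈ A.gr (-u)
  one : φ u = 1

variable {A φ g}

theorem GU.pow (H : GU A φ g u) (k : ℕ) : ((g : X.R) ^ k) ∈ A.gr (k • u) := by
  induction k with
  | zero =>
    rw [pow_zero, zero_smul]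
    exact SetLike.GradedOne.one_mem
  | succ k ih =>
    rw [pow_succ, succ_nsmul]
    exact SetLike.GradedMul.mul_mem ih H.mem

theorem GU.zpow (H : GU A φ g u) (k : ℤ) : ((g ^ k : X.Rˣ) : X.R) ∈ A.gr (k • u) := by
  rcases k with k | k
  · have h := H.pow k
    simpa using h
  · rw [zpow_negSucc, negSucc_zsmul]
    have h : ∀ k : ℕ, (((g ^ k)⁻¹ : X.Rˣ) : X.R) ∈ A.gr (-(k • u)) := by
      intro k
      induction k with
      | zero =>
        rw [pow_zero, zero_smul, inv_one, neg_zero]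
        exact SetLike.GradedOne.one_mem
      | succ k ih =>
        rw [pow_succ, succ_nsmul, mul_inv, neg_add, Units.val_mul]
        exact SetLike.GradedMul.mul_mem ih H.inv
    exact h (k + 1)

/-- The polynomials in `g`. -/
def pol (A : TorusAction X m) (φ : (Fin m → ℤ) →+ ℤ) (g : X.Rˣ) :
    (sub A (ker0 φ))[X] →ₐ[ℂ] X.R :=
  (aeval (g : X.R) : (sub A (ker0 φ))[X] →ₐ[sub A (ker0 φ)] X.R).restrictScalars ℂ

theorem pol_C (r : sub A (ker0 φ)) : pol A φ g (C r) = r := by
  change aeval (g : X.R) (C r) = _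
  rw [aeval_C]
  rfl

theorem pol_X : pol A φ g Polynomial.X = g := by
  change aeval (g : X.R) Polynomial.X = _
  rw [aeval_X]

theorem pol_eq (p : (sub A (ker0 φ))[X]) :
    pol A φ g p = ∑ i ∈ Finset.range (p.natDegree + 1), (p.coeff i : X.R) * (g : X.R) ^ i := by
  change aeval (g : X.R) p = _
  rw [aeval_eq_sum_range]
  rfl

theorem cp_term (H : GU A φ g u) (r : sub A (ker0 φ)) (j i : ℕ) {w : Fin m → ℤ}
    (hw : φ w = 0) :
    cp A ((r : X.R) * (g : X.R) ^ j) (w + i • u) =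
      if j = i then cp A r w * (g : X.R) ^ i else 0 := by
  have h1 : w + i • u = (w + i • u - j • u) + j • u := by abel
  rw [h1, cp_mul (H.pow j)]
  split_ifs with hij
  · rw [hij, add_sub_cancel_right]
  · have h2 : cp A (r : X.R) (w + i • u - j • u) = 0 := by
      refine r.2 _ fun h3 => hij ?_
      rw [mem_ker0, map_sub, map_add, map_nsmul, map_nsmul, hw, H.one] at h3
      simp at h3
      omega
    rw [h2, zero_mul]

theorem pol_inj (H : GU A φ g u) : Function.Injective (pol A φ g) := by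
  rw [injective_iff_map_eq_zero]
  intro p hp
  ext i
  have h1 : ∀ w, cp A (p.coeff i : X.R) w = 0 := by
    intro w
    by_cases hw : φ w = 0
    · by_cases hi : i ≤ p.natDegree
      · have h2 : cp A (pol A φ g p) (w + i • u) = 0 := by
          rw [hp, cp_zero]
        rw [pol_eq, cp_sum, Finset.sum_congr rfl fun j _ => cp_term H (p.coeff j) j i hw,
          Finset.sum_ite_eq' , if_pos (Finset.mem_range.2 (by omega))] at h2
        exact (mul_eq_zero.1 h2).resolve_right (pow_ne_zero _ g.ne_zero)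
      · rw [coeff_eq_zero_of_natDegree_lt (by omega)]
        exact cp_zero w
    · exact (p.coeff i).2 w hw
  have h2 : (p.coeff i : X.R) = 0 := cp_ext h1
  rw [h2]
  rfl

theorem pol_mem (H : GU A φ g u) (p : (sub A (ker0 φ))[X]) : pol A φ g p ∈ sub A (pos0 φ) := by
  rw [pol_eq]
  refine sum_mem fun i _ => mul_mem (ker0_le φ (p.coeff i).2) ?_
  refine pow_mem (sub_hom H.mem ?_) i
  rw [mem_pos0, H.one]
  norm_num

/-- the function `a g^(-φ w)` for `a` of weight `w` -/
theorem retr_mem (H : GU A φ g u) {a : X.R} {w : Fin m → ℤ} (ha : a ∈ A.gr w) :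
    a * ((g ^ (-φ w) : X.Rˣ) : X.R) ∈ sub A (ker0 φ) := by
  refine sub_hom (SetLike.GradedMul.mul_mem ha (H.zpow (-φ w))) ?_
  rw [mem_ker0, map_add, map_zsmul, H.one]
  simp

theorem pol_surj (H : GU A φ g u) {b : X.R} (hb : b ∈ sub A (pos0 φ)) :
    ∃ p, pol A φ g p = b := by
  obtain ⟨s, hs⟩ := cp_decomp (A := A) b
  have h1 : ∀ w, ∃ p, pol A φ g p = cp A b w := by
    intro w
    by_cases hw : 0 ≤ φ w
    · refine ⟨C ⟨_, retr_mem H (cp_mem b w)⟩ * Polynomial.X ^ (φ w).toNat, ?_⟩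
      rw [map_mul, map_pow, pol_X, pol_C]
      change cp A b w * ((g ^ (-φ w) : X.Rˣ) : X.R) * _ = _
      have h2 : (g : X.R) ^ (φ w).toNat = ((g ^ (φ w) : X.Rˣ) : X.R) := by
        rw [← Units.val_pow_eq_pow_val, ← zpow_natCast, Int.toNat_of_nonneg hw]
      rw [h2, mul_assoc, ← Units.val_mul, ← zpow_add, neg_add_cancel, zpow_zero, Units.val_one,
        mul_one]
    · refine ⟨0, ?_⟩
      rw [map_zero, hb w hw]
  choose p hp using h1
  refine ⟨∑ w ∈ s, p w, ?_⟩
  rw [map_sum, Finset.sum_congr rfl fun w _ => hp w, ← hs]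

theorem exists_mul (H : GU A φ g u) (b : X.R) :
    ∃ N : ℕ, b * (g : X.R) ^ N ∈ sub A (pos0 φ) := by
  obtain ⟨s, hs⟩ := cp_decomp (A := A) b
  refine ⟨∑ w ∈ s, (φ w).natAbs, ?_⟩
  rw [hs, Finset.sum_mul]
  refine sum_mem fun w hw => ?_
  have h1 : (φ w).natAbs ≤ ∑ w ∈ s, (φ w).natAbs :=
    Finset.single_le_sum (f := fun w => (φ w).natAbs) (fun _ _ => Nat.zero_le _) hw
  refine sub_hom (SetLike.GradedMul.mul_mem (cp_mem b w) (H.pow _)) ?_
  rw [mem_pos0, map_add, map_nsmul, H.one]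
  simp only [nsmul_eq_mul, mul_one]
  omega

/-! ### the retraction -/

theorem exists_retr (H : GU A φ g u) : ∃ ρ : X.R →ₐ[ℂ] sub A (ker0 φ),
    ∀ (w : Fin m → ℤ) (a : X.R), a ∈ A.gr w →
      (ρ a : X.R) = a * ((g ^ (-φ w) : X.Rˣ) : X.R) := by
  let f : ∀ w : Fin m → ℤ, A.gr w →ₗ[ℂ] sub A (ker0 φ) := fun w =>
    { toFun := fun a => ⟨(a : X.R) * ((g ^ (-φ w) : X.Rˣ) : X.R), retr_mem H a.2⟩
      map_add' := fun a b => Subtype.ext (by
        change ((a : X.R) + (b : X.R)) * _ = (a : X.R) * _ + (b : X.R) * _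
        rw [add_mul])
      map_smul' := fun c a => Subtype.ext (by
        change (c • (a : X.R)) * _ = c • ((a : X.R) * _)
        rw [smul_mul_assoc]) }
  have hf : ∀ (w : Fin m → ℤ) (a : A.gr w),
      (f w a : X.R) = (a : X.R) * ((g ^ (-φ w) : X.Rˣ) : X.R) := fun _ _ => rfl
  have hone : f 0 (GradedMonoid.GOne.one (A := fun w => A.gr w)) = 1 := by
    apply Subtype.ext
    rw [hf]
    change (1 : X.R) * ((g ^ (-φ 0) : X.Rˣ) : X.R) = 1
    rw [map_zero, neg_zero, zpow_zero, Units.val_one, mul_one]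
  have hmul : ∀ {i j : Fin m → ℤ} (a : A.gr i) (b : A.gr j),
      f (i + j) (GradedMonoid.GMul.mul (A := fun w => A.gr w) a b) = f i a * f j b := by
    intro i j a b
    apply Subtype.ext
    rw [hf]
    change ((a : X.R) * (b : X.R)) * ((g ^ (-φ (i + j)) : X.Rˣ) : X.R) =
      ((a : X.R) * ((g ^ (-φ i) : X.Rˣ) : X.R)) * ((b : X.R) * ((g ^ (-φ j) : X.Rˣ) : X.R))
    rw [map_add, neg_add, zpow_add, Units.val_mul]
    ring
  refine ⟨(toAlgebra ℂ (fun w => A.gr w) f hone hmul).comp (decomposeAlgEquiv A.gr).toAlgHom, ?_⟩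
  intro w a ha
  rw [← hf w ⟨a, ha⟩]
  congr 1
  change toSemiring (fun w => (f w).toAddMonoidHom) hone hmul (decompose A.gr a) = _
  rw [decompose_of_mem A.gr ha]
  exact toSemiring_of _ _ _ _ _

theorem fg0 (H : GU A φ g u) : Algebra.FiniteType ℂ (sub A (ker0 φ)) := by
  obtain ⟨ρ, hρ⟩ := exists_retr H
  have hX : Algebra.FiniteType ℂ X.R := (Subalgebra.fg_iff_finiteType X.R).1 X.fg
  refine Algebra.FiniteType.of_surjective ρ fun r => ⟨r, ?_⟩
  apply Subtype.ext
  obtain ⟨s, hs⟩ := cp_decomp (A := A) (r : X.R)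
  have h1 : ∀ w, (ρ (cp A (r : X.R) w) : X.R) = cp A (r : X.R) w := by
    intro w
    rw [hρ w _ (cp_mem _ w)]
    by_cases hw : φ w = 0
    · rw [hw, neg_zero, zpow_zero, Units.val_one, mul_one]
    · rw [r.2 w hw, zero_mul]
  have h2 : (ρ (∑ w ∈ s, cp A (r : X.R) w) : X.R) = ∑ w ∈ s, cp A (r : X.R) w := by
    rw [map_sum]
    push_cast
    exact Finset.sum_congr rfl fun w _ => h1 w
  rw [← hs] at h2
  exact h2

/-! ### the ring `R0[g]` -/

/-- The polynomials in `g` as elements of the field. -/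
def polK (A : TorusAction X m) (φ : (Fin m → ℤ) →+ ℤ) (g : X.Rˣ) :
    (sub A (ker0 φ))[X] →ₐ[ℂ] X.K :=
  X.R.val.comp (pol A φ g)

theorem polK_eq (p : (sub A (ker0 φ))[X]) : polK A φ g p = (pol A φ g p : X.K) := rfl

theorem polK_inj (H : GU A φ g u) : Function.Injective (polK A φ g) :=
  Subtype.val_injective.comp (pol_inj H)

theorem mem_range (H : GU A φ g u) {a : X.K} :
    a ∈ (polK A φ g).range ↔ ∃ b ∈ sub A (pos0 φ), (b : X.K) = a := by
  constructor
  · rintro ⟨p, rfl⟩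
    exact ⟨pol A φ g p, pol_mem H p, rfl⟩
  · rintro ⟨b, hb, rfl⟩
    obtain ⟨p, rfl⟩ := pol_surj H hb
    exact ⟨p, rfl⟩

theorem range_le : (polK A φ g).range ≤ X.R := by
  rintro _ ⟨p, rfl⟩
  exact (pol A φ g p).2

theorem range_fg (H : GU A φ g u) : (polK A φ g).range.FG := by
  have h0 := fg0 H
  have h1 : Algebra.FiniteType ℂ (sub A (ker0 φ))[X] :=
    Algebra.FiniteType.trans h0 inferInstance
  rw [← Algebra.map_top]
  exact h1.out.map _

theorem range_frac (H : GU A φ g u) (a : X.K) :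
    ∃ p q : (sub A (ker0 φ))[X], q ≠ 0 ∧ a * polK A φ g q = polK A φ g p := by
  obtain ⟨r, hr, s, hs, hs0, h⟩ := X.frac a
  obtain ⟨N, hN⟩ := exists_mul H ⟨r, hr⟩
  obtain ⟨M, hM⟩ := exists_mul H ⟨s, hs⟩
  obtain ⟨p, hp⟩ := pol_surj H hN
  obtain ⟨q, hq⟩ := pol_surj H hM
  have hg : (g : X.R) ≠ 0 := g.ne_zero
  have hgK : ((g : X.R) : X.K) ≠ 0 := fun h => hg (Subtype.ext h)
  refine ⟨p * Polynomial.X ^ M, q * Polynomial.X ^ N, ?_, ?_⟩
  · refine mul_ne_zero ?_ (pow_ne_zero _ Polynomial.X_ne_zero)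
    rintro rfl
    rw [map_zero] at hq
    have h1 := congrArg Subtype.val hq
    change (0 : X.K) = s * ((g : X.R) : X.K) ^ M at h1
    exact mul_ne_zero hs0 (pow_ne_zero _ hgK) h1.symm
  · have hp' : polK A φ g p = r * ((g : X.R) : X.K) ^ N := congrArg Subtype.val hp
    have hq' : polK A φ g q = s * ((g : X.R) : X.K) ^ M := congrArg Subtype.val hq
    have hX' : polK A φ g Polynomial.X = ((g : X.R) : X.K) := congrArg Subtype.val pol_X
    rw [map_mul, map_mul, map_pow, map_pow, hp', hq', hX', ← h]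
    ring

theorem range_normal (H : GU A φ g u) (a : X.K) (ha : IsIntegral (polK A φ g).range a) :
    a ∈ (polK A φ g).range := by
  obtain ⟨P, hP, hroot⟩ := ha
  -- `a` is regular
  have haR : a ∈ X.R := by
    refine X.normal a ⟨P.map (Subalgebra.inclusion (range_le (A := A) (φ := φ) (g := g))).toRingHom,
      hP.map _, ?_⟩
    rw [eval₂_map]
    exact hroot
  obtain ⟨N, hN⟩ := exists_mul H ⟨a, haR⟩
  obtain ⟨p, hp⟩ := pol_surj H hN
  have hp' : polK A φ g p = a * ((g : X.R) : X.K) ^ N := congrArg Subtype.val hp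
  have hX' : polK A φ g Polynomial.X = ((g : X.R) : X.K) := congrArg Subtype.val pol_X
  have hg : (g : X.R) ≠ 0 := g.ne_zero
  have hgK : ((g : X.R) : X.K) ≠ 0 := fun h => hg (Subtype.ext h)
  let E := AlgEquiv.ofInjective (polK A φ g) (polK_inj H)
  have hroot' : (P.map (E.symm : (polK A φ g).range →+* (sub A (ker0 φ))[X])).eval₂
      (polK A φ g : (sub A (ker0 φ))[X] →+* X.K) a = 0 := by
    rw [eval₂_map]
    have h1 : (polK A φ g : (sub A (ker0 φ))[X] →+* X.K).comp
        (E.symm : (polK A φ g).range →+* (sub A (ker0 φ))[X]) =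
        algebraMap (polK A φ g).range X.K := by
      ext x
      change polK A φ g (E.symm x) = x
      exact congrArg Subtype.val (E.apply_symm_apply x)
    rw [h1]
    exact hroot
  have hdesc : ∀ (k : ℕ) (p : (sub A (ker0 φ))[X]),
      polK A φ g p = a * ((g : X.R) : X.K) ^ k → a ∈ (polK A φ g).range := by
    intro k
    induction k with
    | zero =>
      intro p hp
      rw [pow_zero, mul_one] at hp
      exact ⟨p, hp⟩
    | succ k ih =>
      intro p hp
      have h1 := dvd_pow_natDegree_of_eval₂_eq_zero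
        (f := (polK A φ g : (sub A (ker0 φ))[X] →+* X.K)) (polK_inj H) (hP.map _)
        (Polynomial.X ^ (k + 1)) p a hroot' (by
          change polK A φ g (Polynomial.X ^ (k + 1)) * a = polK A φ g p
          rw [map_pow, hX', hp, mul_comm])
      have h2 : (Polynomial.X : (sub A (ker0 φ))[X]) ∣ p :=
        Polynomial.prime_X.dvd_of_dvd_pow ((dvd_pow_self _ (Nat.succ_ne_zero k)).trans h1)
      obtain ⟨q, rfl⟩ := h2
      refine ih q ?_
      rw [map_mul, hX', pow_succ] at hp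
      refine mul_left_cancel₀ hgK ?_
      rw [hp]
      ring
  exact hdesc N p hp'

/-! ### the translation -/

theorem exists_shift (H : GU A φ g u) (c : ℂ) : ∃ σ : X.K ≃ₐ[ℂ] X.K,
    (∀ a ∈ (polK A φ g).range, σ a ∈ (polK A φ g).range) ∧
    (∀ a ∈ (polK A φ g).range, σ.symm a ∈ (polK A φ g).range) ∧
    (∀ r : X.R, r ∈ sub A (ker0 φ) → σ (r : X.K) = r) ∧
    σ ((g : X.R) : X.K) = ((g : X.R) : X.K) - algebraMap ℂ X.K c := by
  let e : (sub A (ker0 φ))[X] ≃ₐ[ℂ] (sub A (ker0 φ))[X] :=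
    (algEquivAevalXAddC (-algebraMap ℂ (sub A (ker0 φ)) c)).restrictScalars ℂ
  obtain ⟨σ, hσ⟩ := exists_ext (S := (sub A (ker0 φ))[X]) (K := X.K) (polK A φ g) (polK_inj H)
    (range_frac H) e
  refine ⟨σ, ?_, ?_, ?_, ?_⟩
  · rintro _ ⟨p, rfl⟩
    exact ⟨e p, (hσ p).symm⟩
  · rintro _ ⟨p, rfl⟩
    refine ⟨e.symm p, ?_⟩
    rw [AlgEquiv.eq_symm_apply]
    change σ (polK A φ g (e.symm p)) = polK A φ g p
    rw [hσ, e.apply_symm_apply]
  · intro r hr
    have h1 : polK A φ g (C ⟨r, hr⟩) = (r : X.K) := congrArg Subtype.val (pol_C _)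
    have h2 : e (C ⟨r, hr⟩) = C ⟨r, hr⟩ := by
      change aeval _ (C (⟨r, hr⟩ : sub A (ker0 φ))) = _
      rw [aeval_C]
      rfl
    rw [← h1, hσ, h2]
  · have h1 : polK A φ g Polynomial.X = ((g : X.R) : X.K) := congrArg Subtype.val pol_X
    have h2 : e Polynomial.X = Polynomial.X + C (-algebraMap ℂ (sub A (ker0 φ)) c) := by
      change aeval _ (Polynomial.X : (sub A (ker0 φ))[X]) = _
      rw [aeval_X]
    have h3 : polK A φ g (C (-algebraMap ℂ (sub A (ker0 φ)) c)) = -algebraMap ℂ X.K c := by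
      have h4 : polK A φ g (C (-algebraMap ℂ (sub A (ker0 φ)) c)) =
          ((-algebraMap ℂ (sub A (ker0 φ)) c : sub A (ker0 φ)) : X.R) :=
        congrArg Subtype.val (pol_C _)
      rw [h4]
      rfl
    rw [← h1, hσ, h2, map_add, h3, sub_eq_add_neg]

/-! ### the new variety -/

theorem max_comap (hATH : Stmt_ATH) {B : Type} [CommRing B] [Algebra ℂ B] (τ : B →ₐ[ℂ] X.R) :
    (X.m.comap τ).IsMaximal := by
  have hmax := X.max
  let q : B →+* X.R ⧸ X.m := (Ideal.Quotient.mk X.m).comp (τ : B →+* X.R)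
  have hq : Function.Surjective q := by
    intro y
    obtain ⟨a, rfl⟩ := Ideal.Quotient.mk_surjective y
    obtain ⟨c, hc⟩ := (hATH X).1 a
    refine ⟨algebraMap ℂ B c, ?_⟩
    change Ideal.Quotient.mk X.m (τ (algebraMap ℂ B c)) = _
    rw [AlgHom.commutes]
    exact (Ideal.Quotient.eq.2 hc).symm
  have h1 : (⊥ : Ideal (X.R ⧸ X.m)).IsMaximal := by
    let _ := Ideal.Quotient.field X.m
    exact Ideal.bot_isMaximal
  have h2 := Ideal.comap_isMaximal_of_surjective q hq (K := ⊥)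
  have h3 : X.m.comap τ = Ideal.comap q ⊥ := by
    ext b
    rw [Ideal.mem_comap, Ideal.mem_comap, Ideal.mem_bot]
    exact Ideal.Quotient.eq_zero_iff_mem.symm
  rw [h3]
  exact h2

/-- The variety whose ring of regular functions is `R0[g]`. -/
@[reducible] def newGerm (hATH : Stmt_ATH) (H : GU A φ g u)
    (τ : (polK A φ g).range →ₐ[ℂ] X.R) : Germ n where
  K := X.K
  fieldK := X.fieldK
  algK := X.algK
  R := (polK A φ g).range
  fg := range_fg H
  frac a := by
    obtain ⟨p, q, hq, h⟩ := range_frac H a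
    exact ⟨_, ⟨p, rfl⟩, _, ⟨q, rfl⟩, fun h0 => hq (polK_inj H (h0.trans (map_zero _).symm)), h⟩
  normal := range_normal H
  trdeg := X.trdeg
  m := X.m.comap τ
  max := max_comap hATH τ

/-! ### the new grading -/

/-- The inclusion of rings. -/
def inc (A : TorusAction X m) (φ : (Fin m → ℤ) →+ ℤ) (g : X.Rˣ) :
    (polK A φ g).range →ₐ[ℂ] X.R :=
  Subalgebra.inclusion range_le

theorem inc_coe (a : (polK A φ g).range) : (inc A φ g a : X.K) = a := rfl

theorem inc_inj : Function.Injective (inc A φ g) := fun _ _ h =>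
  Subtype.ext (congrArg (Subtype.val : X.R → X.K) h)

theorem inc_mem (H : GU A φ g u) (a : (polK A φ g).range) : inc A φ g a ∈ sub A (pos0 φ) := by
  obtain ⟨b, hb, h⟩ := (mem_range H).1 a.2
  have h1 : inc A φ g a = b := Subtype.ext h.symm
  rw [h1]
  exact hb

theorem exists_inc (H : GU A φ g u) {b : X.R} (hb : b ∈ sub A (pos0 φ)) :
    ∃ a, inc A φ g a = b :=
  ⟨⟨b, (mem_range H).2 ⟨b, hb, rfl⟩⟩, rfl⟩

/-- The new weight spaces. -/
def grd (A : TorusAction X m) (φ : (Fin m → ℤ) →+ ℤ) (g : X.Rˣ) (w : Fin m → ℤ) :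
    Submodule ℂ (polK A φ g).range :=
  (A.gr w).comap (inc A φ g).toLinearMap

theorem mem_grd {a : (polK A φ g).range} {w : Fin m → ℤ} :
    a ∈ grd A φ g w ↔ inc A φ g a ∈ A.gr w := Iff.rfl

instance grdMonoid : SetLike.GradedMonoid (grd A φ g) where
  one_mem := by
    rw [mem_grd, map_one]
    exact SetLike.GradedOne.one_mem
  mul_mem := by
    intro i j a b ha hb
    rw [mem_grd, map_mul]
    exact SetLike.GradedMul.mul_mem ha hb

theorem cp_coe (x : ⨁ w, grd A φ g w) (w : Fin m → ℤ) :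
    cp A (inc A φ g (DirectSum.coeAddMonoidHom (grd A φ g) x)) w = inc A φ g (x w) := by
  induction x using DirectSum.induction_on with
  | zero =>
    rw [map_zero, map_zero, cp_zero, DirectSum.zero_apply]
    rfl
  | of i y =>
    rw [DirectSum.coeAddMonoidHom_of]
    by_cases hi : i = w
    · subst hi
      rw [DirectSum.of_eq_same]
      exact cp_same y.2
    · rw [DirectSum.of_eq_of_ne _ _ _ (fun h => hi h.symm)]
      exact cp_ne (mem_grd.1 y.2) hi
  | add x y hx hy =>
    rw [map_add, map_add, cp_add, hx, hy, ← map_add]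
    rfl

open Classical in
/-- The decomposition in components. -/
def dec (H : GU A φ g u) (a : (polK A φ g).range) : ⨁ w, grd A φ g w :=
  DFinsupp.mk (decompose A.gr (inc A φ g a)).support fun w =>
    ⟨⟨cp A (inc A φ g a) w, (mem_range H).2 ⟨_, sub_cp (inc_mem H a) w, rfl⟩⟩,
      cp_mem (A := A) (inc A φ g a) (w : Fin m → ℤ)⟩

theorem dec_apply (H : GU A φ g u) (a : (polK A φ g).range) (w : Fin m → ℤ) :
    inc A φ g (dec H a w) = cp A (inc A φ g a) w := by
  classical
  unfold dec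
  rw [DFinsupp.mk_apply]
  split_ifs with hw
  · rfl
  · have h1 : decompose A.gr (inc A φ g a) w = 0 := by
      by_contra h2
      exact hw (DFinsupp.mem_support_iff.2 h2)
    unfold cp
    rw [h1]
    rfl

/-- The decomposition of the ring `R0[g]`. -/
@[reducible] def grdDecomp (H : GU A φ g u) : DirectSum.Decomposition (grd A φ g) where
  decompose' := dec H
  left_inv a := by
    apply inc_inj
    refine cp_ext2 (A := A) fun w => ?_
    rw [cp_coe, dec_apply]
  right_inv x := by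
    ext w
    have h1 : dec H (DirectSum.coeAddMonoidHom (grd A φ g) x) w = x w := by
      apply Subtype.ext
      apply inc_inj
      rw [dec_apply, cp_coe]
    rw [h1]

/-- The new torus action. -/
def newAct (hATH : Stmt_ATH) (H : GU A φ g u) (τ : (polK A φ g).range →ₐ[ℂ] X.R) :
    TorusAction (newGerm hATH H τ) m where
  gr := grd A φ g
  graded := { grdMonoid, grdDecomp H with }
  effective := by
    rw [eq_top_iff, ← A.effective, AddSubgroup.closure_le]
    intro w hw
    obtain ⟨a, ha, ha0⟩ := (Submodule.ne_bot_iff _).1 hw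
    have hu : u ∈ AddSubgroup.closure {w | grd A φ g w ≠ ⊥} := by
      apply AddSubgroup.subset_closure
      obtain ⟨b, hb⟩ := exists_inc H (sub_hom H.mem (show u ∈ pos0 φ from by
        rw [mem_pos0, H.one]; norm_num))
      refine (Submodule.ne_bot_iff _).2 ⟨b, ?_, ?_⟩
      · rw [mem_grd, hb]
        exact H.mem
      · rintro rfl
        rw [map_zero] at hb
        exact g.ne_zero hb.symm
    have hw0 : w + (-φ w) • u ∈ AddSubgroup.closure {w | grd A φ g w ≠ ⊥} := by
      apply AddSubgroup.subset_closure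
      obtain ⟨b, hb⟩ := exists_inc H (ker0_le φ (retr_mem H ha))
      refine (Submodule.ne_bot_iff _).2 ⟨b, ?_, ?_⟩
      · rw [mem_grd, hb]
        exact SetLike.GradedMul.mul_mem ha (H.zpow (-φ w))
      · rintro rfl
        rw [map_zero] at hb
        exact mul_ne_zero ha0 (Units.ne_zero _) hb.symm
    have h1 : w = (w + (-φ w) • u) + φ w • u := by
      rw [neg_smul]
      abel
    rw [h1]
    exact AddSubgroup.add_mem _ hw0 (AddSubgroup.zsmul_mem _ hu _)

theorem wt_nonneg (H : GU A φ g u) (a : (polK A φ g).range) {w : Fin m → ℤ}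
    (ha : inc A φ g a ∈ A.gr w) (h0 : inc A φ g a ≠ 0) : 0 ≤ φ w := by
  by_contra hw
  have h1 := inc_mem H a w hw
  rw [cp_same ha] at h1
  exact h0 h1

theorem unitWt_iff (hATH : Stmt_ATH) (hHOU : Stmt_HOU) (H : GU A φ g u)
    (τ : (polK A φ g).range →ₐ[ℂ] X.R) (w : Fin m → ℤ) :
    UnitWt (newAct hATH H τ) w ↔ UnitWt A w ∧ φ w = 0 := by
  constructor
  · rintro ⟨h, hw, hu⟩
    have hw' : inc A φ g h ∈ A.gr w := hw
    obtain ⟨h', hh⟩ := hu.exists_right_inv
    have hh' : inc A φ g h * inc A φ g h' = 1 := by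
      have h1 := congrArg (inc A φ g) hh
      rw [map_one] at h1
      rw [← h1]
      exact (map_mul (inc A φ g) h h').symm
    have hw'' := (hHOU A).2.2.1 w _ _ hw' hh'
    have h1 := wt_nonneg H h hw' (left_ne_zero_of_mul_eq_one hh')
    have h2 := wt_nonneg H h' hw'' (right_ne_zero_of_mul_eq_one hh')
    rw [map_neg] at h2
    exact ⟨⟨_, hw', IsUnit.of_mul_eq_one _ hh'⟩, by omega⟩
  · rintro ⟨⟨h, hw, hu⟩, hφ⟩
    obtain ⟨h', hh⟩ := hu.exists_right_inv
    have hw' := (hHOU A).2.2.1 w _ _ hw hh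
    obtain ⟨a, ha⟩ := exists_inc H (sub_hom hw (show w ∈ pos0 φ from hφ.ge))
    obtain ⟨a', ha'⟩ := exists_inc H (sub_hom hw' (show -w ∈ pos0 φ from by
      rw [mem_pos0, map_neg, hφ, neg_zero]))
    refine ⟨a, ?_, ?_⟩
    · change inc A φ g a ∈ A.gr w
      rw [ha]
      exact hw
    · refine IsUnit.of_mul_eq_one a' (inc_inj (?_ : inc A φ g (a * a') = inc A φ g 1))
      rw [map_mul, map_one, ha, ha', hh]

end AFX

open AFX

theorem t_AFX (hATH : Stmt_ATH) (hHOU : Stmt_HOU) (hOLI : Stmt_OLI) : Stmt_AFX := by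
  intro n m X A φ u g0 _ hgu hg hφ hcl hsat
  obtain ⟨g, rfl⟩ := hgu
  have H : GU A φ g u := ⟨hg, (hHOU A).2.2.1 u g _ hg g.mul_inv, hφ⟩
  obtain ⟨c, hc⟩ := (hATH X).1 g
  obtain ⟨σ, h1, h2, h3, h4⟩ := exists_shift H c
  let τ : (polK A φ g).range →ₐ[ℂ] X.R :=
    ((σ : X.K →ₐ[ℂ] X.K).comp (polK A φ g).range.val).codRestrict X.R
      fun a => range_le (h1 a a.2)
  have hτ : ∀ a, (τ a : X.K) = σ (a : X.K) := fun _ => rfl
  have hmp : X.m.IsPrime := X.max.isPrime
  have hgm : ∀ N : ℕ, (g : X.R) ^ N ∉ X.m := fun N h =>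
    X.max.ne_top (Ideal.eq_top_of_isUnit_mem _ h (g.isUnit.pow N))
  have hgK : ((g : X.R) : X.K) ≠ 0 := fun h => g.ne_zero (Subtype.ext h)
  -- every element of `R0[g]` is a value of `τ`
  have hsurj : ∀ b : X.R, b ∈ sub A (pos0 φ) → ∃ a, τ a = b := by
    intro b hb
    obtain ⟨a, ha⟩ := exists_inc H hb
    refine ⟨⟨σ.symm (a : X.K), h2 a a.2⟩, ?_⟩
    apply Subtype.ext
    rw [hτ]
    change σ (σ.symm (a : X.K)) = b
    rw [AlgEquiv.apply_symm_apply, ← ha]
    rfl
  have key : ∀ (v : DivVal n X.K), v.ord ((g : X.R) : X.K) = 0 → ∀ b : X.R,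
      ∃ (a : (polK A φ g).range) (N : ℕ), τ a = b * (g : X.R) ^ N ∧
        v.ord (b : X.K) = v.ord (τ a : X.K) := by
    intro v hv b
    obtain ⟨N, hN⟩ := exists_mul H b
    obtain ⟨a, ha⟩ := hsurj _ hN
    refine ⟨a, N, ha, ?_⟩
    rw [ha]
    change v.ord (b : X.K) = v.ord ((b : X.K) * ((g : X.R) : X.K) ^ N)
    by_cases hb : (b : X.K) = 0
    · rw [hb, zero_mul]
    · rw [v.ord_mul _ _ hb (pow_ne_zero _ hgK), v.ord_pow, hv, mul_zero, add_zero]
  have hgx : ∃ a, τ a = (g : X.R) := hsurj _ (sub_hom H.mem (show u ∈ pos0 φ from by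
    rw [mem_pos0, H.one]; norm_num))
  have hth : ∀ v : DivVal n X.K, (newGerm hATH H τ).Through (comap σ v) →
      v.ord ((g : X.R) : X.K) = 0 := by
    intro v hv
    obtain ⟨a, ha⟩ := hgx
    have h5 := hv.2 a (fun h => hgm 1 (by
      rw [pow_one, ← ha]
      exact h))
    change v.ord (τ a : X.K) = 0 at h5
    rwa [ha] at h5
  refine ⟨newGerm hATH H τ, σ, newAct hATH H τ, ?_, ?_, ?_, ?_, ?_, ?_,
    unitWt_iff hATH hHOU H τ⟩
  · intro v
    constructor
    · intro hv
      exact ⟨fun a => hv.1 (τ a), fun a ha => hv.2 (τ a) ha⟩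
    · intro hv
      have hg0 := hth v hv
      refine ⟨fun b => ?_, fun b hb => ?_⟩
      · obtain ⟨a, N, -, h⟩ := key v hg0 b
        rw [h]
        exact hv.1 a
      · obtain ⟨a, N, h, h'⟩ := key v hg0 b
        rw [h']
        refine hv.2 a fun h6 => ?_
        have h7 : τ a ∈ X.m := h6
        rw [h] at h7
        exact (hmp.mem_or_mem h7).elim hb (hgm N)
  · intro v
    constructor
    · intro hv
      refine ⟨fun a => hv.1 (τ a), fun a ha ha0 => hv.2 (τ a) ha fun h => ha0 ?_⟩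
      have h5 : σ (a : X.K) = 0 := congrArg Subtype.val h
      apply Subtype.ext
      exact (map_eq_zero σ).1 h5
    · intro hv
      have hg0 := hth v ((hATH (newGerm hATH H τ)).2 _ hv)
      refine ⟨fun b => ?_, fun b hb hb0 => ?_⟩
      · obtain ⟨a, N, -, h⟩ := key v hg0 b
        rw [h]
        exact hv.1 a
      · obtain ⟨a, N, h, h'⟩ := key v hg0 b
        rw [h']
        refine hv.2 a ?_ ?_
        · change τ a ∈ X.m
          rw [h]
          exact Ideal.mul_mem_right _ _ hb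
        · rintro rfl
          rw [map_zero] at h
          exact mul_ne_zero hb0 (pow_ne_zero _ g.ne_zero) h.symm
  · intro v P' hv hP'
    refine hOLI X v hv.1 fun a ha => ?_
    have ha' : (comap σ v).Ge 0 (σ.symm a) := by
      rcases ha with rfl | ha
      · exact Or.inl (map_zero _)
      · refine Or.inr ?_
        change 0 ≤ v.ord (σ (σ.symm a))
        rwa [AlgEquiv.apply_symm_apply]
    obtain ⟨r, s, hs, h⟩ := t_OLC (newGerm hATH H τ) P' (comap σ v) hP' _ ha'
    have hs0 : s ≠ 0 := by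
      rintro rfl
      exact hs P'.zero_mem
    refine ⟨τ r, τ s, ?_, ?_, ?_⟩
    · intro h5
      have h6 : σ (s : X.K) = 0 := congrArg Subtype.val h5
      exact hs0 (Subtype.ext ((map_eq_zero σ).1 h6))
    · have h5 : 0 ≤ v.ord (τ s : X.K) := hP'.2.2.1 s
      have h6 : ¬ 0 < v.ord (τ s : X.K) := fun h6 => hs ((hP'.2.2.2 s).2 (Or.inr h6))
      omega
    · rw [hτ, hτ]
      have h5 : σ (σ.symm a * (s : X.K)) = σ (r : X.K) := congrArg σ h
      rwa [map_mul, AlgEquiv.apply_symm_apply] at h5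
  · intro w a hw ha
    have hk : a ∈ sub A (ker0 φ) := sub_hom ha hw
    have h5 : σ.symm (a : X.K) = a := by
      rw [AlgEquiv.symm_apply_eq]
      exact (h3 a hk).symm
    have h6 : (a : X.K) ∈ (polK A φ g).range := (mem_range H).2 ⟨a, ker0_le φ hk, rfl⟩
    refine ⟨by rw [h5]; exact h6, ?_⟩
    change inc A φ g _ ∈ A.gr w
    have h7 : inc A φ g ⟨σ.symm (a : X.K), by rw [h5]; exact h6⟩ = a := Subtype.ext h5
    rw [h7]
    exact ha
  · rintro w ⟨a, haw, ham⟩
    rw [unitWt_iff hATH hHOU]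
    have haw' : inc A φ g a ∈ A.gr w := haw
    have ham' : τ a ∉ X.m := ham
    have ha0 : inc A φ g a ≠ 0 := by
      intro h
      have h5 : a = 0 := inc_inj (h.trans (map_zero _).symm)
      rw [h5, map_zero] at ham'
      exact ham' X.m.zero_mem
    have hw := wt_nonneg H a haw' ha0
    have hr := retr_mem H haw'
    have hτa : τ a = (inc A φ g a * ((g ^ (-φ w) : X.Rˣ) : X.R)) *
        ((g : X.R) - algebraMap ℂ X.R c) ^ (φ w).toNat := by
      apply Subtype.ext
      rw [hτ]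
      have h5 : (a : X.K) = ((inc A φ g a * ((g ^ (-φ w) : X.Rˣ) : X.R) : X.R) : X.K) *
          ((g : X.R) : X.K) ^ (φ w).toNat := by
        have h6 : (g : X.R) ^ (φ w).toNat = ((g ^ (φ w) : X.Rˣ) : X.R) := by
          rw [← Units.val_pow_eq_pow_val, ← zpow_natCast, Int.toNat_of_nonneg hw]
        have h7 : inc A φ g a = (inc A φ g a * ((g ^ (-φ w) : X.Rˣ) : X.R)) *
            (g : X.R) ^ (φ w).toNat := by
          rw [h6, mul_assoc, ← Units.val_mul, ← zpow_add, neg_add_cancel, zpow_zero,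
            Units.val_one, mul_one]
        exact congrArg (Subtype.val : X.R → X.K) h7
      conv_lhs => rw [h5]
      rw [map_mul, map_pow, h3 _ hr, h4]
      rfl
    have hφ0 : φ w = 0 := by
      by_contra hne
      refine ham' ?_
      rw [hτa]
      exact Ideal.mul_mem_left _ _ (Ideal.pow_mem_of_mem _ hc _ (by omega))
    refine ⟨hcl w ⟨inc A φ g a, haw', ?_⟩, hφ0⟩
    rw [hφ0] at hτa
    simp only [neg_zero, zpow_zero, Units.val_one, mul_one, Int.toNat_zero, pow_zero] at hτa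
    rw [← hτa]
    exact ham'
  · intro w k hk h
    rw [unitWt_iff hATH hHOU] at h ⊢
    refine ⟨hsat w k hk h.1, ?_⟩
    have h5 := h.2
    rw [map_zsmul, smul_eq_mul] at h5
    exact (mul_eq_zero.1 h5).resolve_left (by exact_mod_cast hk.ne')

end

end MldG
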