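import Pool.Agent.MldG.StmtsF

/-!
# ATH: the residue field of a closed point
-/

namespace MldG

open MldGeo

namespace ATH

theorem exists_const {n : ℕ} (X : Germ n) (a : X.R) : ∃ c : ℂ, a - algebraMap ℂ X.R c ∈ X.m := by
  have hft : Algebra.FiniteType ℂ X.R := (Subalgebra.fg_iff_finiteType _).mp X.fg
  let _ : Field (X.R ⧸ X.m) := Ideal.Quotient.field X.m
  have hft2 : Algebra.FiniteType ℂ (X.R ⧸ X.m) :=
    Algebra.FiniteType.of_surjective (Ideal.Quotient.mkₐ ℂ X.m) (Ideal.Quotient.mkₐ_surjective ℂ X.m)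
  have hfin : Module.Finite ℂ (X.R ⧸ X.m) := finite_of_finite_type_of_isJacobsonRing ℂ (X.R ⧸ X.m)
  have hint : Algebra.IsIntegral ℂ (X.R ⧸ X.m) := inferInstance
  obtain ⟨c, hc⟩ := (IsAlgClosed.algebraMap_bijective_of_isIntegral (k := ℂ) (K := X.R ⧸ X.m)).2
    (Ideal.Quotient.mk X.m a)
  refine ⟨c, ?_⟩
  rw [← Ideal.Quotient.eq]
  rw [← hc]
  rfl

end ATH

/-- ATH: the residue field of `x` is `ℂ`. -/
theorem t_ATH : Stmt_ATH := by
  intro n X
  refine ⟨ATH.exists_const X, ?_⟩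
  intro v hv
  refine ⟨hv.1, ?_⟩
  intro a ha
  obtain ⟨c, hc⟩ := ATH.exists_const X a
  set b : X.R := a - algebraMap ℂ X.R c with hb
  have hc0 : c ≠ 0 := by
    rintro rfl
    apply ha
    rw [map_zero, sub_zero] at hb
    rw [← hb]
    exact hc
  have hab : (a : X.K) = algebraMap ℂ X.K c + (b : X.K) := by
    rw [hb]
    change (a : X.K) = algebraMap ℂ X.K c + ((a : X.K) - algebraMap ℂ X.K c)
    ring
  by_cases hb0 : b = 0
  · rw [hab, hb0]
    simp only [ZeroMemClass.coe_zero, add_zero]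
    exact v.ord_const c
  have hbpos : 0 < v.ord (b : X.K) := hv.2 b hc hb0
  have hcK : algebraMap ℂ X.K c ≠ 0 := by
    rw [Ne, map_eq_zero]
    exact hc0
  have hbK : (b : X.K) ≠ 0 := fun h => hb0 (Subtype.ext h)
  have haK : (a : X.K) ≠ 0 := by
    intro h
    apply ha
    have : a = 0 := Subtype.ext h
    rw [this]
    exact X.m.zero_mem
  have h1 := hv.1 a
  by_contra hne
  have h2 : 0 < v.ord (a : X.K) := lt_of_le_of_ne h1 (Ne.symm hne)
  -- `c = a - b` has positive order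
  have hnb : v.ord (-(b : X.K)) = v.ord (b : X.K) := by
    have : -(b : X.K) = algebraMap ℂ X.K (-1) * (b : X.K) := by
      rw [map_neg, map_one]
      ring
    rw [this, v.ord_mul _ _ (by rw [Ne, map_eq_zero]; norm_num) hbK, v.ord_const, zero_add]
  have hsum : (a : X.K) + -(b : X.K) = algebraMap ℂ X.K c := by
    rw [hab]
    ring
  have h3 := v.ord_add (a : X.K) (-(b : X.K)) haK (neg_ne_zero.mpr hbK) (by rw [hsum]; exact hcK)
  rw [hsum, v.ord_const, hnb] at h3
  have h4 : 0 < min (v.ord (a : X.K)) (v.ord (b : X.K)) := lt_min h2 hbpos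
  omega

end MldG
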