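import Pool.Agent.MldGeo.Defs

/-!
# MP_fa3f7f_ag: torus actions

Effective actions of tori on affine varieties; the point `x` is an arbitrary closed point.
-/

namespace MldG

open MldGeo

noncomputable section

variable {n : ℕ}

/-- An effective action of the torus `(ℂ^*)^m` on `X`: a grading of the ring `R` of regular functions
by the group `ℤ^m` of characters, whose weights generate `ℤ^m`. -/
structure TorusAction (X : Germ n) (m : ℕ) where
  /-- the regular functions of weight `u` -/
  gr : (Fin m → ℤ) → Submodule ℂ X.R
  /-- `R` is the direct sum of the weight spaces, and the weights are additive -/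
  graded : GradedAlgebra gr
  /-- the action is effective -/
  effective : AddSubgroup.closure {u | gr u ≠ ⊥} = ⊤

variable {X : Germ n}

/-- The ideal is invariant: it is generated by semi-invariant functions. -/
def TorusAction.Inv {m : ℕ} (A : TorusAction X m) (I : Ideal X.R) : Prop :=
  ∃ s : Set X.R, (∀ a ∈ s, ∃ u, a ∈ A.gr u) ∧ I = Ideal.span s

/-- The triple is invariant: the components of `B` and the ideals are invariant. -/
def TorusAction.InvTriple {m : ℕ} (A : TorusAction X m) (T : Triple X) : Prop :=
  (∀ P b, T.Coeff P b → b ≠ 0 → A.Inv P) ∧ ∀ j, A.Inv (T.a j)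

end

end MldG
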