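import Pool.Agent.MldG.StmtsZ
import Pool.Agent.MldGeo.TVC
import Pool.Agent.MldGeo.BDR
import Pool.Agent.MldGeo.CMB
import Pool.Agent.MldGeo.INT
import Pool.Agent.MldGeo.MNR
import Pool.Agent.MldGeo.MWC

/-!
# The minimal log discrepancy of a formally toric triple is the one of a toric triple
-/

namespace MldG

open MldGeo MldGap MldAcc

noncomputable section

namespace CMZ

open scoped Pointwise

theorem minz_smul {m N : ℕ} (z : Fin N → Fin m → ℤ) (w : Fin m → ℤ) (g : ℕ) :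
    minz z (fun i => (g : ℤ) * w i) = g * minz z w := by
  unfold minz
  have h : (Set.range fun k => ((ip (fun i => (g : ℤ) * w i) (z k) : ℤ) : ℝ)) =
      (g : ℝ) • Set.range fun k => ((ip w (z k) : ℤ) : ℝ) := by
    rw [Set.smul_set_range]
    congr 1
    funext k
    rw [CMB.ip_smul, smul_eq_mul]
    push_cast
    ring
  rw [h, Real.sInf_smul_of_nonneg (Nat.cast_nonneg g), smul_eq_mul]

variable {m : ℕ} {X : Germ (m + 1)} {T : Triple X} (d : Daz T)

/-- the combinatorial log discrepancy -/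
def DD (w : Fin (m + 1) → ℤ) : ℝ := ∑ i, d.ψ i * w i - ∑ j, T.r j * minz (d.z j) w

theorem DD_smul (w : Fin (m + 1) → ℤ) (g : ℕ) :
    DD d (fun i => (g : ℤ) * w i) = g * DD d w := by
  unfold DD
  rw [mul_sub, Finset.mul_sum, Finset.mul_sum]
  congr 1
  · refine Finset.sum_congr rfl fun i _ => ?_
    push_cast
    ring
  · refine Finset.sum_congr rfl fun j _ => ?_
    rw [minz_smul]
    ring

theorem DD_zero : DD d 0 = 0 := by
  have h := DD_smul d 0 0
  have h1 : (fun i => ((0 : ℕ) : ℤ) * (0 : Fin (m + 1) → ℤ) i) = 0 := by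
    funext i
    simp
  rw [h1, Nat.cast_zero, zero_mul] at h
  exact h

theorem U_ne (i : Fin d.N) : d.U i ≠ 0 := by
  intro h
  obtain ⟨w, hw⟩ := d.int
  have h1 := hw i
  rw [h] at h1
  simp [ip] at h1

theorem N_pos : Nonempty (Fin d.N) := by
  by_contra h
  rw [not_nonempty_iff] at h
  have h1 := d.span (fun _ => 1) (fun i => h.elim i)
  have h2 := congrFun h1 0
  simp at h2

/-- the reduction to primitive vectors -/
theorem exists_val (hLC : T.LC) (w : Fin (m + 1) → ℤ) (h : ∀ i, 0 ≤ ip w (d.U i)) (h0 : w ≠ 0) :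
    ∃ v, X.Through v ∧ T.disc v ≤ DD d w ∧ ((∀ i, 0 < ip w (d.U i)) → X.At v) := by
  obtain ⟨g, w', l', hg, hw, hl', hl0, hP⟩ := CMB.exists_primv w 0 le_rfl (fun h1 => h0 h1.1)
  have hg' : (0 : ℤ) < g := by exact_mod_cast hg
  have hl0' : l' = 0 := by
    rcases mul_eq_zero.1 hl'.symm with h1 | h1
    · exact absurd h1 hg'.ne'
    · exact h1
  obtain ⟨a, u, hu⟩ := hP
  rw [hl0', zero_mul, zero_add] at hu
  have hi : ∀ i, ip w (d.U i) = g * ip w' (d.U i) := by
    intro i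
    rw [hw, CMB.ip_smul]
  obtain ⟨v, hv1, hv2, hv3⟩ := d.tor w' ⟨u, hu⟩ (fun i => by
    have h1 := h i
    rw [hi i] at h1
    by_contra h2
    rw [not_le] at h2
    have h3 := mul_neg_of_pos_of_neg hg' h2
    omega)
  refine ⟨v, hv1, ?_, fun hpos => hv3 fun i => ?_⟩
  · have h1 := hLC v hv1
    have h2 : DD d w = g * DD d w' := by
      rw [hw, DD_smul]
    have h3 : T.disc v = DD d w' := hv2
    rw [h2, ← h3]
    have h4 : (1 : ℝ) ≤ g := by exact_mod_cast hg
    nlinarith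
  · have h1 := hpos i
    rw [hi i] at h1
    exact (mul_pos_iff_of_pos_left hg').1 h1

theorem DD_nonneg (hLC : T.LC) (w : Fin (m + 1) → ℤ) (h : ∀ i, 0 ≤ ip w (d.U i)) :
    0 ≤ DD d w := by
  by_cases h0 : w = 0
  · rw [h0, DD_zero]
  · obtain ⟨v, hv1, hv2, -⟩ := exists_val d hLC w h h0
    exact (hLC v hv1).trans hv2

theorem cast_nonneg (w : Fin (m + 1) → ℤ) (i : Fin d.N) :
    0 ≤ pr (toR w) (d.U i) ↔ 0 ≤ ip w (d.U i) := by
  rw [BDR.pr_toR, Int.cast_nonneg_iff]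

theorem cast_pos (w : Fin (m + 1) → ℤ) (i : Fin d.N) :
    0 < pr (toR w) (d.U i) ↔ 0 < ip w (d.U i) := by
  rw [BDR.pr_toR, Int.cast_pos]

/-- A primitive integral vector. -/
theorem exists_ip {n : ℕ} (w : Fin n → ℤ) (hw : w ≠ 0)
    (h : ∀ t : ℝ, 0 < t → (∃ z : Fin n → ℤ, t • toR w = toR z) → 1 ≤ t) :
    ∃ u, ip w u = 1 := by
  have hP : Primv w 0 := by
    apply BDR.primv_of
    intro g _ hg2
    have hg0 : g ≠ 0 := by
      rintro rfl
      apply hw
      funext j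
      exact zero_dvd_iff.1 (hg2 j)
    have hgp : 0 < g.natAbs := Int.natAbs_pos.2 hg0
    have hd2 : ∀ j, ∃ t, w j = (g.natAbs : ℤ) * t := fun j => Int.natAbs_dvd.2 (hg2 j)
    choose t ht using hd2
    have h2 : (0 : ℝ) < (g.natAbs : ℝ) := by exact_mod_cast hgp
    have hle := h (g.natAbs : ℝ)⁻¹ (inv_pos.2 h2) ⟨t, by
      funext j
      simp only [toR, Pi.smul_apply, smul_eq_mul]
      rw [ht j, Int.cast_mul, Int.cast_natCast, inv_mul_cancel_left₀ h2.ne']⟩
    have h3 : (g.natAbs : ℝ) ≤ 1 := by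
      rw [← one_div, le_div_iff₀ h2] at hle
      linarith
    have h4 : g.natAbs ≤ 1 := by exact_mod_cast h3
    exact Int.isUnit_iff_natAbs_eq.2 (by omega)
  obtain ⟨a, u, hu⟩ := hP
  exact ⟨u, by rwa [zero_mul, zero_add] at hu⟩

end CMZ

open CMZ in
/-- CMZ. -/
theorem t_CMZ (hNRG : Stmt_NRG) : Stmt_CMZ := by
  classical
  intro m X T d hEff hLC S hS
  obtain ⟨k0, q, hq⟩ := t_MWC d.U
  set f : (Fin (m + 1) → ℝ) →ₗ[ℝ] ℝ := ∑ i, TVC.prL (d.U i) with hf
  have hfa : ∀ w, f w = ∑ i, pr w (d.U i) := fun w => by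
    simp [hf, LinearMap.sum_apply, TVC.prL_apply]
  have hqσ : ∀ j i, 0 ≤ pr (toR (q j)) (d.U i) := fun j => (hq _).mpr
    ⟨Pi.single j 1, fun j' => by
      rw [Pi.single_apply]
      split_ifs <;> norm_num, by
      rw [Finset.sum_eq_single j]
      · simp
      · intro j' _ hj'
        simp [hj']
      · simp⟩
  have hfpos : ∀ j, q j ≠ 0 → 0 < f (toR (q j)) := by
    intro j hj
    rw [hfa]
    refine lt_of_le_of_ne (Finset.sum_nonneg fun i _ => hqσ j i) fun h0 => hj ?_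
    have h1 := (Finset.sum_eq_zero_iff_of_nonneg fun i _ => hqσ j i).mp h0.symm
    have h2 := d.span _ fun i => h1 i (Finset.mem_univ i)
    funext i
    have h3 := congrFun h2 i
    simpa [toR] using h3
  obtain ⟨k, r, hprim, hrpos, hrext, hreq⟩ := t_MNR q f hfpos
  have hσ : ∀ w : Fin (m + 1) → ℝ,
      (∀ i, 0 ≤ pr w (d.U i)) ↔ w ∈ coneOf (fun j => toR (r j)) := by
    intro w
    rw [hreq]
    exact hq w
  have hrσ : ∀ j i, 0 ≤ ip (r j) (d.U i) := by
    intro j i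
    rw [← cast_nonneg]
    revert i
    rw [hσ]
    refine ⟨Pi.single j 1, fun j' => ?_, ?_⟩
    · rw [Pi.single_apply]
      split_ifs <;> norm_num
    · rw [Finset.sum_eq_single j]
      · simp
      · intro j' _ hj'
        simp [hj']
      · simp
  have hrne : ∀ j, r j ≠ 0 := by
    intro j h
    have h1 := hrpos j
    rw [h] at h1
    have h2 : toR (0 : Fin (m + 1) → ℤ) = 0 := by
      funext i
      simp [toR]
    rw [h2, map_zero] at h1
    exact lt_irrefl _ h1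
  have hrprim : ∀ j, ∃ u, ip (r j) u = 1 := fun j => exists_ip (r j) (hrne j) (hprim j)
  -- the coefficients
  have hcoef : ∀ j, ∃ P : Ideal X.R, T.Coeff P (1 - ∑ i, d.ψ i * r j i) := by
    intro j
    obtain ⟨Z, hZ, hZ2⟩ := hNRG r f hrpos hrext j
    refine d.ray (r j) (hrprim j) (hrσ j) Z hZ (fun i w' hw' => ?_) (fun i => (hZ2 i).1)
    have h1 : toR w' ∈ coneOf (fun j => toR (r j)) := (hσ _).1 fun i => by
      rw [cast_nonneg]
      exact hw' i
    obtain ⟨c, hc, hc2⟩ := h1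
    have h2 : 0 ≤ pr (toR w') (Z i) := by
      rw [hc2, BDR.pr_comb]
      refine Finset.sum_nonneg fun j' _ => mul_nonneg (hc j') ?_
      rw [BDR.pr_toR]
      by_cases h3 : j' = j
      · rw [h3, (hZ2 i).1]
        simp
      · exact_mod_cast ((hZ2 i).2 j' h3).le
    rw [BDR.pr_toR] at h2
    exact_mod_cast h2
  have hminz : ∀ (j : T.J) (w : Fin (m + 1) → ℤ), (∀ i, 0 ≤ ip w (d.U i)) →
      0 ≤ minz (d.z j) w := by
    intro j w hw
    apply Real.sInf_nonneg
    rintro x ⟨k, rfl⟩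
    exact Int.cast_nonneg (d.reg j k w hw)
  have hψr : ∀ j, 0 ≤ ∑ i, d.ψ i * r j i := by
    intro j
    obtain ⟨v, hv, hd, -⟩ := d.tor (r j) (hrprim j) (hrσ j)
    have h1 := hLC v hv
    rw [hd] at h1
    have h2 : 0 ≤ ∑ j', T.r j' * minz (d.z j') (r j) :=
      Finset.sum_nonneg fun j' _ => mul_nonneg (T.r_nonneg j') (hminz j' _ (hrσ j))
    linarith
  have hint : (interior (coneOf (fun j => toR (r j)))) =
      {w : Fin (m + 1) → ℝ | ∀ i, 0 < pr w (d.U i)} := by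
    have h1 := t_INT d.U (fun _ => 0) (U_ne d)
    have h2 : coneOf (fun j => toR (r j)) = {w : Fin (m + 1) → ℝ | ∀ i, 0 ≤ pr w (d.U i) + 0} := by
      ext w
      rw [← hσ]
      simp
    rw [h2, h1]
    ext w
    simp
  let G : ToricTriple (m + 1) :=
    { N := TVC.lat (m + 1)
      discrete := TVC.discrete_lat
      ι := Fin k
      fin := inferInstance
      ray := fun j => toR (r j)
      ray_mem := fun j => (TVC.mem_lat _).mpr ⟨r j, rfl⟩
      ray_primitive := fun j t ht h => hprim j t ht ((TVC.mem_lat _).mp h)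
      ray_extremal := hrext
      full := by
        obtain ⟨w, hw⟩ := d.int
        rw [hint]
        exact ⟨toR w, fun i => (cast_pos d w i).2 (hw i)⟩
      pointed := ⟨f, hrpos⟩
      b := fun j => 1 - ∑ i, d.ψ i * r j i
      b_nonneg := fun j => by
        obtain ⟨P, hP⟩ := hcoef j
        exact hEff P _ hP
      b_le_one := fun j => by
        have := hψr j
        linarith
      ψ := BDR.lin d.ψ
      ψ_ray := fun j => by
        rw [BDR.lin_apply]
        simp only [toR]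
        ring
      J := T.J
      finJ := T.finJ
      r := T.r
      r_nonneg := T.r_nonneg
      A := fun j => Set.range fun k => BDR.lin (fun i => (d.z j k i : ℝ))
      A_nonempty := fun j => ⟨_, ⟨⟨0, d.M_pos j⟩, rfl⟩⟩
      A_ray := by
        rintro j _ ⟨k', rfl⟩ i
        have h1 := d.reg j k' (r i) (hrσ i)
        obtain ⟨a, ha⟩ := Int.eq_ofNat_of_zero_le h1
        refine ⟨a, ?_⟩
        have h2 : BDR.lin (fun i => (d.z j k' i : ℝ)) (toR (r i)) =
            ((ip (r i) (d.z j k') : ℤ) : ℝ) := by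
          rw [BDR.lin_apply]
          unfold ip toR
          push_cast
          exact Finset.sum_congr rfl fun _ _ => mul_comm _ _
        rw [h2, ha]
        exact Int.cast_natCast a }
  have hdisc : ∀ w : Fin (m + 1) → ℤ, G.disc (toR w) = DD d w := by
    intro w
    unfold ToricTriple.disc DD
    have h1 : G.ψ (toR w) = ∑ i, d.ψ i * w i := rfl
    rw [h1]
    have h2 : ∀ j : T.J, MldAcc.ord (G.A j) (toR w) = minz (d.z j) w := by
      intro j
      unfold MldAcc.ord minz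
      have h3 : G.A j = Set.range fun k => BDR.lin (fun i => (d.z j k i : ℝ)) := rfl
      rw [h3, ← Set.range_comp]
      congr 2
      funext k'
      show BDR.lin (fun i => (d.z j k' i : ℝ)) (toR w) = _
      rw [BDR.lin_apply]
      unfold ip toR
      push_cast
      exact Finset.sum_congr rfl fun _ _ => mul_comm _ _
    have h5 : ∑ j, G.r j * MldAcc.ord (G.A j) (toR w) = ∑ j, T.r j * minz (d.z j) w :=
      Finset.sum_congr rfl fun j _ => by
        rw [h2 j]
    rw [h5]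
  have hval : ∀ v, v ∈ G.val ↔ ∃ w : Fin (m + 1) → ℤ, v = toR w ∧ ∀ i, 0 < ip w (d.U i) := by
    intro v
    have h0 : v ∈ G.val ↔ v ∈ TVC.lat (m + 1) ∧
        v ∈ interior (coneOf (fun j => toR (r j))) := Iff.rfl
    rw [h0, TVC.mem_lat, hint]
    constructor
    · rintro ⟨⟨w, rfl⟩, h1⟩
      exact ⟨w, rfl, fun i => (cast_pos d w i).1 (h1 i)⟩
    · rintro ⟨w, rfl, h1⟩
      exact ⟨⟨w, rfl⟩, fun i => (cast_pos d w i).2 (h1 i)⟩
  have hLC' : G.LC := by
    intro v hv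
    obtain ⟨w, rfl, hw⟩ := (hval v).1 hv
    rw [hdisc]
    exact DD_nonneg d hLC w fun i => (hw i).le
  refine ⟨G, hLC', ⟨fun j => ?_, fun j => ?_⟩, ?_⟩
  · obtain ⟨P, hP⟩ := hcoef j
    by_cases h : (1 - ∑ i, d.ψ i * r j i : ℝ) = 0
    · exact Or.inl h
    · exact Or.inr (hS.1 P _ hP h)
  · by_cases h : T.r j = 0
    · exact Or.inl h
    · exact Or.inr (hS.2 j h)
  · unfold ToricTriple.mld MldGeo.Triple.mld
    obtain ⟨C, hC⟩ : ∃ C : Set ℝ, C = G.disc '' G.val := ⟨_, rfl⟩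
    obtain ⟨G', hG⟩ : ∃ G' : Set ℝ, G' = {a : ℝ | ∃ v, X.At v ∧ T.disc v = a} := ⟨_, rfl⟩
    rw [← hC, ← hG]
    have hC0 : ∀ a ∈ C, 0 ≤ a := by
      rw [hC]
      rintro a ⟨v, hv, rfl⟩
      exact hLC' v hv
    have hG0 : ∀ a ∈ G', 0 ≤ a := by
      rw [hG]
      rintro a ⟨v, h1, rfl⟩
      exact hLC v (d.ath v h1)
    have hCG : ∀ a ∈ C, ∃ b ∈ G', b ≤ a := by
      rw [hC]
      rintro a ⟨v, hv, rfl⟩
      obtain ⟨w, rfl, hw⟩ := (hval v).1 hv
      have h5 : w ≠ 0 := by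
        rintro rfl
        obtain ⟨i⟩ := N_pos d
        have h7 := hw i
        simp [ip] at h7
      obtain ⟨v, hv1, hv2, hv3⟩ := exists_val d hLC w (fun i => (hw i).le) h5
      rw [hdisc, hG]
      exact ⟨_, ⟨v, hv3 hw, rfl⟩, hv2⟩
    have hGC : ∀ a ∈ G', ∃ b ∈ C, b ≤ a := by
      rw [hG]
      rintro a ⟨v, h1, rfl⟩
      obtain ⟨w, h2, h3, h4⟩ := d.low v (d.ath v h1)
      rw [hC]
      refine ⟨_, ⟨toR w, (hval _).2 ⟨w, rfl, h3 h1⟩, rfl⟩, ?_⟩
      rw [hdisc]
      exact h4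
    have hCne : C.Nonempty := by
      obtain ⟨w, hw⟩ := d.int
      rw [hC]
      exact ⟨_, toR w, (hval _).2 ⟨w, rfl, hw⟩, rfl⟩
    obtain ⟨a₀, ha₀⟩ := hCne
    obtain ⟨b₀, hb₀, -⟩ := hCG a₀ ha₀
    apply le_antisymm
    · refine le_csInf ⟨b₀, hb₀⟩ fun a ha => ?_
      obtain ⟨b, hb, hba⟩ := hGC a ha
      exact (csInf_le ⟨0, fun x hx => hC0 x hx⟩ hb).trans hba
    · refine le_csInf ⟨a₀, ha₀⟩ fun a ha => ?_
      obtain ⟨b, hb, hba⟩ := hCG a ha
      exact (csInf_le ⟨0, fun x hx => hG0 x hx⟩ hb).trans hba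

end

end MldG
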