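import Pool.Agent.MldG.StmtsZ
import Pool.Agent.TD.Y.Cone

/-!
# NRG: the facets dual to the extremal rays of a strongly convex rational cone
-/

namespace MldG

open MldGeo MldGap MldTv

namespace NRG

/-- A functional which vanishes at the ray `j` and is positive at the other rays. -/
theorem exists_g {m K : ℕ} (r : Fin K → Fin m → ℝ) (f : (Fin m → ℝ) →ₗ[ℝ] ℝ)
    (hf : ∀ j, 0 < f (r j)) (j : Fin K)
    (hext : ¬ ∃ a : Fin K → ℝ, (∀ i, 0 ≤ a i) ∧ a j = 0 ∧ r j = ∑ i, a i • r i) :
    ∃ g : Fin m → ℝ, ∑ i, g i * r j i = 0 ∧ ∀ j', j' ≠ j → 0 < ∑ i, g i * r j' i := by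
  classical
  -- the functional x ↦ - x · ray i on the dual space
  let F : Fin K → ((Fin m → ℝ) →ₗ[ℝ] ℝ) := fun k =>
    { toFun := fun x => - ∑ i, x i * r k i
      map_add' := fun x y => by
        simp only [Pi.add_apply, add_mul, Finset.sum_add_distrib]; ring
      map_smul' := fun t x => by
        simp only [Pi.smul_apply, smul_eq_mul, RingHom.id_apply, mul_assoc, ← Finset.mul_sum]
        ring }
  have h1 : ∃ x : Fin m → ℝ, (∀ k, k ≠ j → 0 ≤ ∑ i, x i * r k i) ∧
      ∑ i, x i * r j i < 0 := by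
    by_contra hcon
    push Not at hcon
    obtain ⟨l, hl, he⟩ := Pool.Agent.TD.farkas_field (Finset.univ.filter fun k => k ≠ j) F (F j) (by
      intro x hx
      have h2 := hcon x (fun k hk => by
        have h3 : - ∑ i, x i * r k i ≤ 0 := hx k (by simp [hk])
        linarith)
      show - ∑ i, x i * r j i ≤ 0
      linarith)
    apply hext
    refine ⟨fun k => if k = j then 0 else l k, fun k => ?_, by simp, ?_⟩
    · dsimp only
      split_ifs
      · exact le_rfl
      · exact hl k
    · funext i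
      have h2 := congrArg (fun f : (Fin m → ℝ) →ₗ[ℝ] ℝ => f (Pi.single i 1)) he
      simp only [LinearMap.sum_apply, LinearMap.smul_apply, smul_eq_mul, F, LinearMap.coe_mk,
        AddHom.coe_mk, Pi.single_apply, ite_mul, one_mul, zero_mul, Finset.sum_ite_eq',
        Finset.mem_univ, if_true] at h2
      simp only [Finset.sum_apply, Pi.smul_apply, smul_eq_mul, ite_mul, zero_mul]
      rw [Finset.sum_filter] at h2
      have h3 : r j i = - ∑ a, if a ≠ j then l a * -r a i else 0 := by linarith
      rw [h3, ← Finset.sum_neg_distrib]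
      refine Finset.sum_congr rfl fun a _ => ?_
      by_cases ha : a = j
      · simp [ha]
      · simp [ha]
  obtain ⟨x, hx, hxj⟩ := h1
  have hfs : ∀ w : Fin m → ℝ, f w = ∑ i, f (Pi.single i 1) * w i := by
    intro w
    rw [LinearMap.pi_apply_eq_sum_univ f w]
    refine Finset.sum_congr rfl fun i _ => ?_
    rw [smul_eq_mul, mul_comm]
    congr 2
    funext k
    simp [Pi.single_apply, eq_comm]
  have hfj := hf j
  refine ⟨fun i => x i + (-(∑ i, x i * r j i) / f (r j)) * f (Pi.single i 1), ?_, ?_⟩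
  · have h2 : ∑ i, (x i + (-(∑ i, x i * r j i) / f (r j)) * f (Pi.single i 1)) * r j i
        = ∑ i, x i * r j i + (-(∑ i, x i * r j i) / f (r j)) * f (r j) := by
      rw [hfs (r j)]
      simp only [add_mul, Finset.sum_add_distrib, Finset.mul_sum, mul_assoc]
    rw [h2]
    field_simp
    ring
  · intro k hk
    have h2 : ∑ i, (x i + (-(∑ i, x i * r j i) / f (r j)) * f (Pi.single i 1)) * r k i
        = ∑ i, x i * r k i + (-(∑ i, x i * r j i) / f (r j)) * f (r k) := by
      rw [hfs (r k)]
      simp only [add_mul, Finset.sum_add_distrib, Finset.mul_sum, mul_assoc]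
    rw [h2]
    have h3 := hx k hk
    have h4 : 0 < (-(∑ i, x i * r j i) / f (r j)) := div_pos (by linarith) hfj
    have h5 := mul_pos h4 (hf k)
    linarith

end NRG

/-- NRG: the facets dual to the extremal rays of a strongly convex rational cone. -/
theorem t_NRG : Stmt_NRG := by
  classical
  intro m' K s f hf hext j
  obtain ⟨r, hr⟩ : ∃ r : Fin K → Fin (m' + 1) → ℝ, r = fun k => toR (s k) := ⟨_, rfl⟩
  have hrk : ∀ k, r k = toR (s k) := fun k => by rw [hr]
  obtain ⟨z, hzs⟩ : ∃ z : Fin (m' + 1) → ℤ, z = s j := ⟨_, rfl⟩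
  have hz : r j = toR z := by rw [hzs, hrk]
  obtain ⟨g, hgj, hg⟩ := NRG.exists_g r f (fun k => by rw [hrk]; exact hf k) j
    (by rw [hr]; exact hext j)
  have hne : ∃ a, z a ≠ 0 := by
    by_contra hcon
    push Not at hcon
    have h1 := hf j
    have h2 : toR (s j) = 0 := by
      rw [← hzs]; funext i; simp [toR, hcon i]
    rw [h2, map_zero] at h1
    exact lt_irrefl _ h1
  obtain ⟨a, ha⟩ := hne
  have haR : (z a : ℝ) ≠ 0 := by exact_mod_cast ha
  -- coefficients
  let A : Fin K → Fin m' → ℝ := fun k l =>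
    (z a : ℝ) * r k (a.succAbove l) - (z (a.succAbove l) : ℝ) * r k a
  let cc : Fin m' → ℝ := fun l => g (a.succAbove l) / z a
  have hga : g a * z a + ∑ l, g (a.succAbove l) * z (a.succAbove l) = 0 := by
    have h1 := hgj
    rw [hz, Fin.sum_univ_succAbove _ a] at h1
    simpa [toR] using h1
  have hA : ∀ k, k ≠ j → 0 < ∑ l, cc l * A k l := by
    intro k hk
    have h1 := hg k hk
    rw [Fin.sum_univ_succAbove _ a] at h1
    have h2 : ∑ l, cc l * A k l = g a * r k a + ∑ l, g (a.succAbove l) * r k (a.succAbove l) := by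
      have h3 : ∀ l, cc l * A k l = g (a.succAbove l) * r k (a.succAbove l) -
          (r k a / z a) * (g (a.succAbove l) * z (a.succAbove l)) := by
        intro l
        simp only [cc, A]
        field_simp
      rw [Finset.sum_congr rfl fun l _ => h3 l, Finset.sum_sub_distrib, ← Finset.mul_sum]
      have h4 : ∑ l, g (a.succAbove l) * (z (a.succAbove l) : ℝ) = - (g a * z a) := by linarith
      rw [h4]
      field_simp
      ring
    rw [h2]; exact h1
  -- a large N
  obtain ⟨N, hNN⟩ : ∃ N : ℕ, ∀ k, k ≠ j → 3 * ∑ l, |A k l| < N * ∑ l, cc l * A k l := by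
    have h1 : ∀ k, ∃ N : ℕ, k ≠ j → 3 * ∑ l, |A k l| < N * ∑ l, cc l * A k l := by
      intro k
      by_cases hk : k = j
      · exact ⟨0, fun h => absurd hk h⟩
      · obtain ⟨N, hN⟩ := exists_nat_gt ((3 * ∑ l, |A k l|) / ∑ l, cc l * A k l)
        exact ⟨N, fun _ => (div_lt_iff₀ (hA k hk)).1 hN⟩
    choose N hN using h1
    refine ⟨∑ k, N k, fun k hk => lt_of_lt_of_le (hN k hk) ?_⟩
    refine mul_le_mul_of_nonneg_right ?_ (hA k hk).le
    exact_mod_cast Finset.single_le_sum (f := N) (fun _ _ => Nat.zero_le _) (Finset.mem_univ k)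
  let z0 : Fin m' → ℤ := fun l => ⌊(N : ℝ) * cc l⌋
  obtain ⟨ε, hε1, hε2, hε⟩ : ∃ ε : ℤ, 1 ≤ ε ∧ ε ≤ 2 ∧ ∑ l, z0 l + ε ≠ 0 := by
    by_cases h : ∑ l, z0 l + 1 = 0
    · exact ⟨2, by norm_num, le_rfl, by omega⟩
    · exact ⟨1, le_rfl, by norm_num, h⟩
  let w : Fin m' → Fin m' → ℤ := fun k l => z0 l + if l = k then ε else 0
  let u : Fin m' → (Fin (m' + 1) → ℤ) := fun k =>
    a.insertNth (α := fun _ => ℤ) (- ∑ l, w k l * z (a.succAbove l)) (fun l => z a * w k l)
  have hua : ∀ k, u k a = - ∑ l, w k l * z (a.succAbove l) := fun k => by simp [u]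
  have hul : ∀ k l, u k (a.succAbove l) = z a * w k l := fun k l => by simp [u]
  have hpr : ∀ (x : Fin (m' + 1) → ℝ) k, pr x (u k) =
      ∑ l, (w k l : ℝ) * ((z a : ℝ) * x (a.succAbove l) - (z (a.succAbove l) : ℝ) * x a) := by
    intro x k
    unfold pr
    rw [Fin.sum_univ_succAbove _ a, hua]
    simp only [hul]
    push_cast
    rw [mul_neg, Finset.mul_sum, ← sub_eq_neg_add, ← Finset.sum_sub_distrib]
    exact Finset.sum_congr rfl fun l _ => by ring
  have hip : ∀ k l, (ip (s k) (u l) : ℝ) = pr (r k) (u l) := by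
    intro k l
    rw [hrk]
    unfold ip pr toR
    push_cast
    exact Finset.sum_congr rfl fun i _ => by ring
  refine ⟨u, ?_, fun k => ⟨?_, fun j' hj' => ?_⟩⟩
  · rw [Fintype.linearIndependent_iff]
    intro n hn
    have h1 : ∀ l, (∑ k, n k) * z0 l + ε * n l = 0 := by
      intro l
      have h2 := congrFun hn (a.succAbove l)
      simp only [Finset.sum_apply, Pi.smul_apply, smul_eq_mul, Pi.zero_apply, hul] at h2
      have h3 : z a * ∑ k, n k * w k l = 0 := by
        rw [Finset.mul_sum, ← h2]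
        exact Finset.sum_congr rfl fun k _ => by ring
      have h4 := (mul_eq_zero.1 h3).resolve_left ha
      simp only [w, mul_add, Finset.sum_add_distrib, mul_ite, mul_zero, Finset.sum_ite_eq,
        Finset.mem_univ, if_true, ← Finset.sum_mul] at h4
      rw [mul_comm ε]; exact h4
    have h2 : (∑ k, n k) * (∑ l, z0 l + ε) = 0 := by
      have h3 : ∑ l, ((∑ k, n k) * z0 l + ε * n l) = 0 := Finset.sum_eq_zero fun l _ => h1 l
      rw [Finset.sum_add_distrib, ← Finset.mul_sum, ← Finset.mul_sum] at h3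
      have h4 : (∑ k, n k) * (∑ l, z0 l + ε) = (∑ k, n k) * ∑ i, z0 i + ε * ∑ i, n i := by ring
      rw [h4]
      exact h3
    have h3 := (mul_eq_zero.1 h2).resolve_right hε
    intro l
    have h4 := h1 l
    rw [h3, zero_mul, zero_add] at h4
    exact (mul_eq_zero.1 h4).resolve_left (by omega)
  · have hR : (ip (s j) (u k) : ℝ) = 0 := by
      rw [hip, hpr, hz]
      refine Finset.sum_eq_zero fun l _ => ?_
      simp only [toR]
      ring
    exact_mod_cast hR
  · suffices hR : (0 : ℝ) < (ip (s j') (u k) : ℝ) by exact_mod_cast hR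
    rw [hip, hpr]
    have h1 : ∑ l, (w k l : ℝ) * A j' l = N * ∑ l, cc l * A j' l +
        ∑ l, ((w k l : ℝ) - N * cc l) * A j' l := by
      rw [Finset.mul_sum, ← Finset.sum_add_distrib]
      exact Finset.sum_congr rfl fun l _ => by ring
    have h2 : |∑ l, ((w k l : ℝ) - N * cc l) * A j' l| ≤ 3 * ∑ l, |A j' l| := by
      refine (Finset.abs_sum_le_sum_abs _ _).trans ?_
      rw [Finset.mul_sum]
      refine Finset.sum_le_sum fun l _ => ?_
      rw [abs_mul]
      refine mul_le_mul_of_nonneg_right ?_ (abs_nonneg _)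
      have h3 := Int.floor_le ((N : ℝ) * cc l)
      have h4 := Int.lt_floor_add_one ((N : ℝ) * cc l)
      have h5 : (w k l : ℝ) = (⌊(N : ℝ) * cc l⌋ : ℝ) + if l = k then (ε : ℝ) else 0 := by
        simp only [w, z0]
        push_cast
        rfl
      have h6 : (0 : ℝ) ≤ if l = k then (ε : ℝ) else 0 := by
        split_ifs
        · have : (1 : ℝ) ≤ ε := by exact_mod_cast hε1
          linarith
        · exact le_rfl
      have h7 : (if l = k then (ε : ℝ) else 0) ≤ 2 := by
        split_ifs
        · exact_mod_cast hε2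
        · norm_num
      rw [h5, abs_le]
      constructor <;> linarith
    have h3 := (abs_le.1 h2).1
    have h4 := hNN j' hj'
    show 0 < ∑ l, (w k l : ℝ) * A j' l
    rw [h1]
    linarith

end MldG
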