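import Pool.Agent.MldG.StmtsF
import Pool.Agent.MldGeo.EXR
import Pool.Agent.MldGeo.EXT
import Pool.Agent.MldGeo.INE
import Pool.Agent.MldGeo.HT1
import Pool.Agent.MldGeo.Ord

/-!
# KUV: valuations and covers by roots of invertible functions
-/

namespace MldG

open MldGeo MvPolynomial

noncomputable section

namespace KUV

/-! ### transcendence degree along integral extensions -/

theorem exists_indep {R S : Type} [CommRing R] [CommRing S] [Algebra ℂ R] [Algebra ℂ S]
    (f : R →ₐ[ℂ] S) (hf : f.toRingHom.IsIntegral) (P : Ideal S) [P.IsPrime] {m : ℕ}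
    (u : Fin m → S) (hu : ∀ q : MvPolynomial (Fin m) ℂ, q ≠ 0 → aeval u q ∉ P) :
    ∃ w : Fin m → R, ∀ q : MvPolynomial (Fin m) ℂ, q ≠ 0 → f (aeval w q) ∉ P := by
  let Q : Ideal R := P.comap f
  let φ : R ⧸ Q →ₐ[ℂ] S ⧸ P := Ideal.quotientMapₐ P f le_rfl
  let : Algebra (R ⧸ Q) (S ⧸ P) := φ.toRingHom.toAlgebra
  have htow : IsScalarTower ℂ (R ⧸ Q) (S ⧸ P) := IsScalarTower.of_algebraMap_eq fun c =>
    (φ.commutes c).symm
  have hmk : ∀ a : R, algebraMap (R ⧸ Q) (S ⧸ P) (Ideal.Quotient.mk Q a) =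
      Ideal.Quotient.mk P (f a) := fun a => rfl
  have hinj : Function.Injective (algebraMap (R ⧸ Q) (S ⧸ P)) := by
    rw [injective_iff_map_eq_zero]
    intro a ha
    obtain ⟨a, rfl⟩ := Ideal.Quotient.mk_surjective a
    rw [hmk, Ideal.Quotient.eq_zero_iff_mem] at ha
    exact Ideal.Quotient.eq_zero_iff_mem.2 ha
  have : Q.IsPrime := Ideal.IsPrime.comap f
  have : FaithfulSMul (R ⧸ Q) (S ⧸ P) := (faithfulSMul_iff_algebraMap_injective _ _).2 hinj
  have : FaithfulSMul ℂ (R ⧸ Q) := (faithfulSMul_iff_algebraMap_injective _ _).2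
    (algebraMap ℂ (R ⧸ Q)).injective
  have : Algebra.IsIntegral (R ⧸ Q) (S ⧸ P) := by
    refine ⟨fun b => ?_⟩
    obtain ⟨b, rfl⟩ := Ideal.Quotient.mk_surjective b
    obtain ⟨q, hq, hq0⟩ := hf b
    refine ⟨q.map (Ideal.Quotient.mk Q), hq.map _, ?_⟩
    rw [Polynomial.eval₂_map]
    have h1 : (algebraMap (R ⧸ Q) (S ⧸ P)).comp (Ideal.Quotient.mk Q) =
        (Ideal.Quotient.mk P).comp f.toRingHom := by
      ext a
      exact hmk a
    rw [h1, ← Polynomial.hom_eval₂, hq0, map_zero]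
  have : Algebra.IsAlgebraic (R ⧸ Q) (S ⧸ P) := inferInstance
  have hind : AlgebraicIndependent ℂ fun i => Ideal.Quotient.mk P (u i) := by
    rw [algebraicIndependent_iff]
    intro q hq
    by_contra hq0
    apply hu q hq0
    rw [← Ideal.Quotient.eq_zero_iff_mem, ← hq]
    have h2 := MvPolynomial.comp_aeval_apply (R := ℂ) (f := u) (Ideal.Quotient.mkₐ ℂ P) q
    exact h2
  have h3 := hind.lift_cardinalMk_le_trdeg
  have h4 := trdeg_add_eq ℂ (R ⧸ Q) (A := S ⧸ P)
  rw [trdeg_eq_zero (R := R ⧸ Q) (A := S ⧸ P), add_zero] at h4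
  rw [← h4] at h3
  obtain ⟨s, hs⟩ := exists_isTranscendenceBasis ℂ (R ⧸ Q)
  have h5 := hs.cardinalMk_eq_trdeg
  rw [← h5] at h3
  have h6 : Nonempty (Fin m ↪ s) := Cardinal.lift_mk_le'.1 (by simpa using h3)
  obtain ⟨ι⟩ := h6
  have h7 : AlgebraicIndependent ℂ fun i => ((ι i : s) : R ⧸ Q) := hs.1.comp ι ι.injective
  choose w hw using fun i => Ideal.Quotient.mk_surjective ((ι i : s) : R ⧸ Q)
  refine ⟨w, fun q hq h8 => hq ?_⟩
  rw [algebraicIndependent_iff] at h7
  apply h7 q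
  have h9 := MvPolynomial.comp_aeval_apply (R := ℂ) (f := w) (Ideal.Quotient.mkₐ ℂ Q) q
  have h10 : (fun i => (Ideal.Quotient.mkₐ ℂ Q) (w i)) = fun i => ((ι i : s) : R ⧸ Q) := by
    funext i
    exact hw i
  rw [h10] at h9
  rw [← h9]
  exact Ideal.Quotient.eq_zero_iff_mem.2 h8

/-! ### roots of unity -/

theorem root_of_unity {K : Type} [Field K] [Algebra ℂ K] {p : ℕ} (hp : 0 < p) {y : K}
    (hy : y ^ p = 1) : ∃ ζ : ℂ, ζ ^ p = 1 ∧ algebraMap ℂ K ζ = y := by
  have : NeZero p := ⟨hp.ne'⟩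
  have h1 : IsPrimitiveRoot (Complex.exp (2 * Real.pi * Complex.I / p)) p :=
    Complex.isPrimitiveRoot_exp p hp.ne'
  have h2 : IsPrimitiveRoot (algebraMap ℂ K (Complex.exp (2 * Real.pi * Complex.I / p))) p :=
    h1.map_of_injective (algebraMap ℂ K).injective
  obtain ⟨i, _, hi⟩ := h2.eq_pow_of_pow_eq_one hy
  refine ⟨Complex.exp (2 * Real.pi * Complex.I / p) ^ i, ?_, ?_⟩
  · rw [← pow_mul, mul_comm i p, pow_mul, h1.pow_eq_one, one_pow]
  · rw [map_pow, hi]

variable {n : ℕ} {X : Germ n} {p : ℕ} {g : X.R}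

section basic

variable (k : RootCover X p g)

theorem g_ne (hg : IsUnit g) : (g : X.K) ≠ 0 := by
  intro h
  have : g = 0 := Subtype.ext h
  rw [this] at hg
  exact not_isUnit_zero hg

theorem ord_g (hg : IsUnit g) (v : DivVal n X.K) (hv : ∀ a : X.R, 0 ≤ v.ord a) :
    v.ord g = 0 := by
  obtain ⟨g', hg'⟩ := hg.exists_right_inv
  have h1 : (g : X.K) * (g' : X.K) = 1 := by
    have := congrArg (fun a : X.R => (a : X.K)) hg'
    simpa using this
  have h2 : (g : X.K) ≠ 0 := left_ne_zero_of_mul_eq_one h1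
  have h3 : (g' : X.K) ≠ 0 := right_ne_zero_of_mul_eq_one h1
  have h4 := v.ord_mul _ _ h2 h3
  rw [h1, DivVal.ord_one] at h4
  have h5 := hv g
  have h6 := hv g'
  omega

theorem z_ne (hp : p.Prime) (hg : IsUnit g) : k.z ≠ 0 := by
  intro h
  have h1 := k.pow
  rw [h, zero_pow hp.ne_zero] at h1
  exact g_ne hg ((map_eq_zero _).1 h1.symm)

theorem ord_z (hp : p.Prime) (v' : DivVal n k.X'.K) (h : v'.ord (algebraMap X.K k.X'.K g) = 0) :
    v'.ord k.z = 0 := by
  have h1 := DivVal.ord_pow v' k.z p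
  rw [k.pow, h] at h1
  have h2 : (p : ℤ) ≠ 0 := by exact_mod_cast hp.ne_zero
  rcases mul_eq_zero.1 h1.symm with h3 | h3
  · exact absurd h3 h2
  · exact h3

/-- the coefficients of an element of `R` -/
def cf (p : ℕ) (a : X.R) : Fin p → X.R := fun i => if (i : ℕ) = 0 then a else 0

theorem sum_cf (hp : p.Prime) (a : X.R) :
    ∑ i : Fin p, algebraMap X.K k.X'.K (cf p a i) * k.z ^ (i : ℕ) = algebraMap X.K k.X'.K a := by
  rw [Finset.sum_eq_single ⟨0, hp.pos⟩]
  · simp [cf]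
  · intro b _ hb
    have : (b : ℕ) ≠ 0 := fun h => hb (Fin.ext h)
    simp [cf, this]
  · intro h
    exact absurd (Finset.mem_univ _) h

theorem mem_of (hp : p.Prime) (a : X.R) : algebraMap X.K k.X'.K a ∈ k.X'.R :=
  (k.mem _).2 ⟨cf p a, (sum_cf k hp a).symm⟩

theorem mem_m_iff (hp : p.Prime) (a : X.R) (h : algebraMap X.K k.X'.K a ∈ k.X'.R) :
    (⟨algebraMap X.K k.X'.K a, h⟩ : k.X'.R) ∈ k.X'.m ↔ a ∈ X.m := by
  have h1 := k.pt (cf p a) (by rw [sum_cf k hp a]; exact h)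
  have h2 : (⟨∑ i : Fin p, algebraMap X.K k.X'.K (cf p a i) * k.z ^ (i : ℕ),
      by rw [sum_cf k hp a]; exact h⟩ : k.X'.R) = ⟨algebraMap X.K k.X'.K a, h⟩ :=
    Subtype.ext (sum_cf k hp a)
  rw [h2] at h1
  rw [h1, Finset.sum_eq_single ⟨0, hp.pos⟩]
  · simp [cf]
  · intro b _ hb
    have : (b : ℕ) ≠ 0 := fun h => hb (Fin.ext h)
    simp [cf, this]
  · intro h
    exact absurd (Finset.mem_univ _) h

theorem e_one (hp : p.Prime) (hg : IsUnit g) (v' : DivVal n k.X'.K) (v : DivVal n X.K) (e : ℕ)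
    (he : IsExt v' v e) (h : v.ord g = 0) : e = 1 := by
  have hz : k.z ≠ 0 := z_ne k hp hg
  have hz0 : v'.ord k.z = 0 := ord_z k hp v' (by rw [he.2, h, mul_zero])
  obtain ⟨σ, hσ, hσ2⟩ := t_INE v' v e he
  have h1 := hσ2 k.z hz
  rw [hz0] at h1
  have h1' : v'.Ge 1 (σ k.z - k.z) := by simpa using h1
  have h2 : (σ k.z / k.z) ^ p = 1 := by
    rw [div_pow, ← map_pow, k.pow, AlgEquiv.commutes, div_self]
    intro h3
    exact g_ne hg ((map_eq_zero _).1 h3)
  obtain ⟨ζ, _, hζ2⟩ := root_of_unity hp.pos h2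
  have h3 : σ k.z = algebraMap ℂ k.X'.K ζ * k.z := by
    rw [hζ2, div_mul_cancel₀ _ hz]
  have h4 : ζ = 1 := by
    by_contra hne
    have h5 : σ k.z - k.z = algebraMap ℂ k.X'.K (ζ - 1) * k.z := by
      rw [h3, map_sub, map_one]
      ring
    rw [h5] at h1'
    have h6 : ζ - 1 ≠ 0 := sub_ne_zero.2 hne
    have h7 := h1'.le (mul_ne_zero ((map_ne_zero (algebraMap ℂ k.X'.K)).2 h6) hz)
    rw [DivVal.ord_const_mul v' h6, hz0] at h7
    omega
  have h5 : σ k.z = k.z := by rw [h3, h4, map_one, one_mul]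
  have h6 : ∀ a, σ a = a := by
    intro a
    obtain ⟨c, rfl⟩ := k.span a
    rw [map_sum]
    refine Finset.sum_congr rfl fun i _ => ?_
    rw [map_mul, map_pow, h5, AlgEquiv.commutes]
  obtain ⟨t, ht, ht1⟩ := v'.unif
  have h7 := hσ2 t ht
  rw [h6, ht1] at h7
  have h8 : Complex.exp (2 * Real.pi * Complex.I * ((1 : ℤ) : ℂ) / e) = 1 := by
    by_contra hne
    have h9 : t - algebraMap ℂ k.X'.K
        (Complex.exp (2 * Real.pi * Complex.I * ((1 : ℤ) : ℂ) / e)) * t =
        algebraMap ℂ k.X'.K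
          (1 - Complex.exp (2 * Real.pi * Complex.I * ((1 : ℤ) : ℂ) / e)) * t := by
      rw [map_sub, map_one]
      ring
    rw [h9] at h7
    have h10 : 1 - Complex.exp (2 * Real.pi * Complex.I * ((1 : ℤ) : ℂ) / e) ≠ 0 :=
      sub_ne_zero.2 (Ne.symm hne)
    have h11 := h7.le (mul_ne_zero ((map_ne_zero (algebraMap ℂ k.X'.K)).2 h10) ht)
    rw [DivVal.ord_const_mul v' h10, ht1] at h11
    omega
  rw [Complex.exp_eq_one_iff] at h8
  obtain ⟨j, hj⟩ := h8
  have he0 : (e : ℂ) ≠ 0 := by exact_mod_cast he.1.ne'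
  have hpi : (2 * Real.pi * Complex.I : ℂ) ≠ 0 := Complex.two_pi_I_ne_zero
  have h12 : (1 : ℂ) = j * e := by
    rw [div_eq_iff he0] at hj
    have h13 : (2 * Real.pi * Complex.I : ℂ) * 1 = (2 * Real.pi * Complex.I : ℂ) * (j * e) := by
      push_cast at hj
      linear_combination hj
    exact mul_left_cancel₀ hpi h13
  have h13 : (1 : ℤ) = j * e := by exact_mod_cast h12
  have h14 : (e : ℤ) ∣ 1 := ⟨j, by rw [h13]; ring⟩
  have h15 : e ∣ 1 := by exact_mod_cast h14
  exact Nat.dvd_one.1 h15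

/-- the inclusion of the rings of regular functions -/
def incl (hp : p.Prime) : X.R →ₐ[ℂ] k.X'.R :=
  (((IsScalarTower.toAlgHom ℂ X.K k.X'.K).comp X.R.val)).codRestrict k.X'.R
    fun a => mem_of k hp a

theorem incl_val (hp : p.Prime) (a : X.R) :
    ((incl k hp a : k.X'.R) : k.X'.K) = algebraMap X.K k.X'.K a := rfl

theorem z_mem (hp : p.Prime) : k.z ∈ k.X'.R := by
  refine (k.mem _).2 ⟨fun i => if (i : ℕ) = 1 then 1 else 0, ?_⟩
  rw [Finset.sum_eq_single ⟨1, hp.one_lt⟩]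
  · simp
  · intro b _ hb
    have : (b : ℕ) ≠ 1 := fun h => hb (Fin.ext h)
    simp [this]
  · intro h
    exact absurd (Finset.mem_univ _) h

theorem incl_integral (hp : p.Prime) : (incl k hp).toRingHom.IsIntegral := by
  have hz : (incl k hp).toRingHom.IsIntegralElem (⟨k.z, z_mem k hp⟩ : k.X'.R) := by
    refine ⟨Polynomial.X ^ p - Polynomial.C g, Polynomial.monic_X_pow_sub_C _ hp.ne_zero, ?_⟩
    rw [Polynomial.eval₂_sub, Polynomial.eval₂_pow, Polynomial.eval₂_X, Polynomial.eval₂_C,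
      sub_eq_zero]
    exact Subtype.ext k.pow
  intro b
  obtain ⟨a, ha⟩ := (k.mem b).1 b.2
  have hb : b = ∑ i : Fin p, (incl k hp).toRingHom (a i) * (⟨k.z, z_mem k hp⟩ : k.X'.R) ^ (i : ℕ) := by
    apply Subtype.ext
    rw [ha, AddSubmonoidClass.coe_finsetSum]
    rfl
  let := (incl k hp).toRingHom.toAlgebra
  rw [hb]
  have hz' : IsIntegral X.R (⟨k.z, z_mem k hp⟩ : k.X'.R) := hz
  have : IsIntegral X.R (∑ i : Fin p, (incl k hp).toRingHom (a i) *
      (⟨k.z, z_mem k hp⟩ : k.X'.R) ^ (i : ℕ)) := by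
    refine IsIntegral.sum _ fun i _ => ?_
    exact (isIntegral_algebraMap (R := X.R) (A := k.X'.R) (x := a i)).mul (hz'.pow _)
  exact this

end basic

end KUV

open KUV in
theorem t_KUV (hHTC : Stmt_HTC) (_hATH : Stmt_ATH) : Stmt_KUV := by
  intro n X p g hn hp hg k
  have hinj : Function.Injective (algebraMap X.K k.X'.K) := (algebraMap X.K k.X'.K).injective
  have hz : k.z ≠ 0 := z_ne k hp hg
  refine ⟨?_, ?_⟩
  · intro v' hv'
    obtain ⟨v, e, he⟩ := t_EXR (K := X.K) v' hn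
    have hv : ∀ a : X.R, 0 ≤ v.ord a := by
      intro a
      have h1 := hv' ⟨_, mem_of k hp a⟩
      simp only at h1
      rw [he.2] at h1
      have h2 : (0 : ℤ) < e := by exact_mod_cast he.1
      by_contra h3
      have h4 : (e : ℤ) * v.ord a < 0 := mul_neg_of_pos_of_neg h2 (by omega)
      omega
    have he1 : e = 1 := e_one k hp hg v' v e he (ord_g hg v hv)
    rw [he1] at he
    have hord : ∀ a : X.K, v'.ord (algebraMap X.K k.X'.K a) = v.ord a := by
      intro a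
      rw [he.2]
      simp
    refine ⟨v, he, hv, ?_, ?_, ?_⟩
    · rintro ⟨_, h2⟩
      refine ⟨hv, fun a ha => ?_⟩
      rw [← hord]
      exact h2 ⟨_, mem_of k hp a⟩ fun h => ha ((mem_m_iff k hp a _).1 h)
    · rintro ⟨_, h2⟩
      refine ⟨hv, fun a ha ha0 => ?_⟩
      rw [← hord]
      refine h2 ⟨_, mem_of k hp a⟩ ((mem_m_iff k hp a _).2 ha) fun h => ha0 ?_
      have h3 : algebraMap X.K k.X'.K a = 0 := congrArg (fun b : k.X'.R => (b : k.X'.K)) h
      exact Subtype.ext ((map_eq_zero _).1 h3)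
    · intro P' hP'
      obtain ⟨u', hu'⟩ := hHTC k.X' v' P' hP'
      have : P'.IsPrime := hP'.1
      obtain ⟨w, hw⟩ := exists_indep (incl k hp) (incl_integral k hp) P' u' (by
        intro q hq h1
        rcases (hP'.2.2.2 _).1 h1 with h2 | h2
        · exact (hu' q hq).1 h2
        · rw [(hu' q hq).2] at h2
          exact lt_irrefl _ h2)
      obtain ⟨P, hP⟩ := t_HT1 X v hn hv ⟨w, fun q hq => by
        have h1 := hw q hq
        rw [hP'.2.2.2, not_or] at h1
        refine ⟨fun h => h1.1 (by rw [h, map_zero]), ?_⟩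
        have h2 := h1.2
        rw [incl_val, hord] at h2
        exact le_antisymm (not_lt.1 h2) (hv _)⟩
      refine ⟨P, hP, fun a ha => ⟨mem_of k hp a, ?_⟩⟩
      rw [hP'.2.2.2]
      rcases (hP.2.2.2 a).1 ha with h1 | h1
      · left
        apply Subtype.ext
        simp [h1]
      · right
        show 0 < v'.ord (algebraMap X.K k.X'.K a)
        rwa [hord]
  · intro v hv
    obtain ⟨v0, e, he⟩ := t_EXT (L := k.X'.K) v hn
    have he1 : e = 1 := e_one k hp hg v0 v e he (ord_g hg v hv.1)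
    rw [he1] at he
    have hord : ∀ a : X.K, v0.ord (algebraMap X.K k.X'.K a) = v.ord a := by
      intro a
      rw [he.2]
      simp
    have hzc : ∀ c : ℂ, k.z - algebraMap ℂ k.X'.K c ≠ 0 := by
      intro c hc
      have h1 := k.indep (fun i => if (i : ℕ) = 0 then - algebraMap ℂ X.K c else
        if (i : ℕ) = 1 then 1 else 0) (by
        have h01 : (⟨0, hp.pos⟩ : Fin p) ≠ ⟨1, hp.one_lt⟩ := by
          intro h
          have := congrArg Fin.val h
          simp at this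
        rw [Finset.sum_eq_add (⟨0, hp.pos⟩ : Fin p) ⟨1, hp.one_lt⟩ h01]
        · simp only [if_true, pow_zero, mul_one, one_ne_zero, if_false, map_one, one_mul, pow_one,
            map_neg]
          rw [← IsScalarTower.algebraMap_apply ℂ X.K k.X'.K]
          rw [← hc]
          ring
        · intro b _ hb
          have hb0 : (b : ℕ) ≠ 0 := fun h => hb.1 (Fin.ext h)
          have hb1 : (b : ℕ) ≠ 1 := fun h => hb.2 (Fin.ext h)
          simp [hb0, hb1]
        · intro h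
          exact absurd (Finset.mem_univ _) h
        · intro h
          exact absurd (Finset.mem_univ _) h)
      have h2 := congrFun h1 ⟨1, hp.one_lt⟩
      simp at h2
    -- one of the factors has positive order
    have hprod : ∃ ζ : ℂ, ζ ^ p = 1 ∧ 0 < v0.ord (k.z - algebraMap ℂ k.X'.K (ζ * k.c)) := by
      have : NeZero p := ⟨hp.ne_zero⟩
      have h1 : IsPrimitiveRoot (algebraMap ℂ k.X'.K
          (Complex.exp (2 * Real.pi * Complex.I / p))) p :=
        (Complex.isPrimitiveRoot_exp p hp.ne_zero).map_of_injective (algebraMap ℂ k.X'.K).injective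
      have h2 := h1.pow_sub_pow_eq_prod_sub_mul (x := k.z) (y := algebraMap ℂ k.X'.K k.c) hp.pos
      have h3 : k.z ^ p - algebraMap ℂ k.X'.K k.c ^ p =
          algebraMap X.K k.X'.K ((g - algebraMap ℂ X.R (k.c ^ p) : X.R) : X.K) := by
        rw [k.pow, ← map_pow, AddSubgroupClass.coe_sub, map_sub]
        congr 1
        have h4 : ((algebraMap ℂ X.R (k.c ^ p) : X.R) : X.K) = algebraMap ℂ X.K (k.c ^ p) := rfl
        rw [h4, ← IsScalarTower.algebraMap_apply ℂ X.K k.X'.K]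
      have hroot : ∀ y ∈ Polynomial.nthRootsFinset p (1 : k.X'.K), ∃ ζ : ℂ, ζ ^ p = 1 ∧
          k.z - y * algebraMap ℂ k.X'.K k.c = k.z - algebraMap ℂ k.X'.K (ζ * k.c) := by
        intro y hy
        rw [Polynomial.mem_nthRootsFinset hp.pos] at hy
        obtain ⟨ζ, hζ, hζ2⟩ := root_of_unity hp.pos hy
        exact ⟨ζ, hζ, by rw [map_mul, hζ2]⟩
      have hfac : ∀ y ∈ Polynomial.nthRootsFinset p (1 : k.X'.K),
          k.z - y * algebraMap ℂ k.X'.K k.c ≠ 0 := by
        intro y hy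
        obtain ⟨ζ, _, h⟩ := hroot y hy
        rw [h]
        exact hzc _
      have h5 : k.z ^ p - algebraMap ℂ k.X'.K k.c ^ p ≠ 0 := by
        rw [h2]
        exact Finset.prod_ne_zero_iff.2 hfac
      have h6 : 0 < v0.ord (k.z ^ p - algebraMap ℂ k.X'.K k.c ^ p) := by
        rw [h3, hord]
        refine hv.2 _ k.c_pow fun h => h5 ?_
        rw [h3, h]
        simp
      rw [h2, DivVal.ord_prod _ _ _ hfac] at h6
      obtain ⟨y, hy, hy2⟩ := Finset.exists_lt_of_sum_lt (s := Polynomial.nthRootsFinset p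
        (1 : k.X'.K)) (f := fun _ => (0 : ℤ)) (by simpa using h6)
      obtain ⟨ζ, hζ, h7⟩ := hroot y hy
      exact ⟨ζ, hζ, by rw [← h7]; exact hy2⟩
    obtain ⟨ζ, hζ, hζ2⟩ := hprod
    have hζ0 : ζ ≠ 0 := by
      rintro rfl
      rw [zero_pow hp.ne_zero] at hζ
      exact zero_ne_one hζ
    obtain ⟨σ, hσ⟩ := k.conj ζ⁻¹ (by rw [inv_pow, hζ, inv_one])
    have hv1 : ∀ a, (comap (σ.restrictScalars ℂ) v0).ord a = v0.ord (σ a) := fun a => rfl
    set v' : DivVal n k.X'.K := comap (σ.restrictScalars ℂ) v0 with hv'def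
    have hord' : ∀ a : X.K, v'.ord (algebraMap X.K k.X'.K a) = v.ord a := by
      intro a
      rw [hv1, AlgEquiv.commutes, hord]
    have hz0 : v'.ord k.z = 0 := ord_z k hp v' (by rw [hord', ord_g hg v hv.1])
    have hzc' : v'.Ge 1 (k.z - algebraMap ℂ k.X'.K k.c) := by
      right
      rw [hv1, map_sub, hσ]
      have h1 : σ (algebraMap ℂ k.X'.K k.c) = algebraMap ℂ k.X'.K k.c := by
        rw [IsScalarTower.algebraMap_apply ℂ X.K k.X'.K, AlgEquiv.commutes]
      have h2 : algebraMap ℂ k.X'.K ζ⁻¹ * k.z - σ (algebraMap ℂ k.X'.K k.c) =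
          algebraMap ℂ k.X'.K ζ⁻¹ * (k.z - algebraMap ℂ k.X'.K (ζ * k.c)) := by
        rw [h1, mul_sub, ← map_mul, ← mul_assoc, inv_mul_cancel₀ hζ0, one_mul]
      rw [h2, DivVal.ord_const_mul v0 (inv_ne_zero hζ0)]
      omega
    have hgez : v'.Ge 0 k.z := Or.inr hz0.ge
    have hR : ∀ a : X.R, v'.Ge 0 (algebraMap X.K k.X'.K a) := by
      intro a
      right
      rw [hord']
      exact hv.1 a
    refine ⟨v', ⟨one_pos, fun a => by rw [hord']; simp⟩, ?_, ?_⟩
    · intro a'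
      obtain ⟨a, ha⟩ := (k.mem a').1 a'.2
      have h1 : v'.Ge 0 (a' : k.X'.K) := by
        rw [ha]
        exact DivVal.Ge.sum _ _ fun i _ => (hR (a i)).mul_left (hgez.pow0 _)
      rcases h1 with h1 | h1
      · rw [h1, v'.ord_zero]
      · exact h1
    · intro a' ha' ha'0
      obtain ⟨a, ha⟩ := (k.mem a').1 a'.2
      have hsub : a' = ⟨∑ i : Fin p, algebraMap X.K k.X'.K (a i) * k.z ^ (i : ℕ),
          by rw [← ha]; exact a'.2⟩ := Subtype.ext ha
      rw [hsub, k.pt] at ha'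
      have h1 : v'.Ge 1 (algebraMap X.K k.X'.K
          ((∑ i : Fin p, algebraMap ℂ X.R (k.c ^ (i : ℕ)) * a i : X.R) : X.K)) := by
        by_cases h2 : (∑ i : Fin p, algebraMap ℂ X.R (k.c ^ (i : ℕ)) * a i : X.R) = 0
        · left
          rw [h2]
          simp
        · right
          rw [hord']
          exact hv.2 _ ha' h2
      have h3 : v'.Ge 1 (a' : k.X'.K) := by
        have h4 : (a' : k.X'.K) = algebraMap X.K k.X'.K
            ((∑ i : Fin p, algebraMap ℂ X.R (k.c ^ (i : ℕ)) * a i : X.R) : X.K) +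
            ∑ i : Fin p, algebraMap X.K k.X'.K (a i) *
              (k.z ^ (i : ℕ) - algebraMap ℂ k.X'.K k.c ^ (i : ℕ)) := by
          rw [ha, AddSubmonoidClass.coe_finsetSum, map_sum, ← Finset.sum_add_distrib]
          refine Finset.sum_congr rfl fun i _ => ?_
          have h5 : ((algebraMap ℂ X.R (k.c ^ (i : ℕ)) * a i : X.R) : X.K) =
              algebraMap ℂ X.K (k.c ^ (i : ℕ)) * (a i : X.K) := rfl
          rw [h5, map_mul, ← IsScalarTower.algebraMap_apply ℂ X.K k.X'.K, map_pow]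
          ring
        rw [h4]
        refine h1.add (DivVal.Ge.sum _ _ fun i _ => ?_)
        refine (hR (a i)).mul_left ?_
        obtain ⟨q, hq⟩ := sub_dvd_pow_sub_pow k.z (algebraMap ℂ k.X'.K k.c) (i : ℕ)
        have h6 : k.z ^ (i : ℕ) - algebraMap ℂ k.X'.K k.c ^ (i : ℕ) =
            (k.z - algebraMap ℂ k.X'.K k.c) *
              ∑ j ∈ Finset.range (i : ℕ), k.z ^ j * algebraMap ℂ k.X'.K k.c ^ ((i : ℕ) - 1 - j) := by
          rw [mul_comm, Commute.geom_sum₂_mul (Commute.all _ _)]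
        rw [h6]
        refine hzc'.mul_right (DivVal.Ge.sum _ _ fun j _ => ?_)
        exact (hgez.pow0 _).mul_left ((DivVal.Ge.const v' k.c).pow0 _)
      have h7 : (a' : k.X'.K) ≠ 0 := fun h => ha'0 (Subtype.ext h)
      have := h3.le h7
      omega

end

end MldG
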