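import Pool.Agent.MldG.StmtsZ
import Pool.Agent.MldG.ATH

/-!
# Fixed points with nonconstant invariant functions: the combinatorial data exist
-/

namespace MldG

open MldGeo MldGap MldAcc

noncomputable section

namespace DAZ

theorem ip_cons {m : ℕ} (w : Fin (m + 1) → ℤ) (a : ℤ) (u : Fin m → ℤ) :
    ip w (Fin.cons a u) = w 0 * a + ip (Fin.tail w) u := by
  unfold ip
  rw [Fin.sum_univ_succ]
  simp only [Fin.cons_zero, Fin.cons_succ]
  rfl

theorem ip_cons_cons {m : ℕ} (l : ℤ) (w : Fin m → ℤ) (a : ℤ) (u : Fin m → ℤ) :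
    ip (Fin.cons l w : Fin (m + 1) → ℤ) (Fin.cons a u) = l * a + ip w u := by
  rw [ip_cons]
  simp only [Fin.cons_zero, Fin.tail_cons]

theorem pr_cons {m : ℕ} (w : Fin (m + 1) → ℝ) (a : ℤ) (u : Fin m → ℤ) :
    pr w (Fin.cons a u) = w 0 * a + pr (Fin.tail w) u := by
  unfold pr
  rw [Fin.sum_univ_succ]
  simp only [Fin.cons_zero, Fin.cons_succ]
  rfl

theorem sum_cons {m : ℕ} (a : ℝ) (ψ : Fin m → ℝ) (w : Fin (m + 1) → ℤ) :
    ∑ i, (Fin.cons a ψ : Fin (m + 1) → ℝ) i * w i =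
      ∑ i, ψ i * (Fin.tail w) i + (w 0 : ℝ) * a := by
  rw [Fin.sum_univ_succ]
  simp only [Fin.cons_zero, Fin.cons_succ]
  rw [add_comm, mul_comm a]
  rfl

section

variable {n m : ℕ} {X : Germ n} {A : TorusAction X m} {S : Splitting A} {v : DivVal n X.K}
  {w : Fin m → ℤ} {l : ℤ} {y : DivVal 1 A.K0}

theorem along_of_isTor (h : IsTor S v w l y) : Along S v w l y := by
  intro b u hb
  have h1 := h {u} (fun _ => b) ⟨u, by simp, hb⟩
  obtain ⟨⟨u', hu', _, hk⟩, _⟩ := h1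
  rw [Finset.mem_singleton] at hu'
  subst hu'
  rw [Finset.sum_singleton] at hk
  exact hk

theorem idealOrd_eq {I : Ideal X.R} {N : ℕ} {z : Fin N → Fin m → ℤ} {c : Fin N → A.K0}
    (h : IsLeast {k : ℤ | ∃ j, k = l * y.ord (c j) + ip w (z j)} (idealOrd v I)) :
    (idealOrd v I : ℝ) = minz (fun k => (Fin.cons (y.ord (c k)) (z k) : Fin (m + 1) → ℤ))
      (Fin.cons l w) := by
  unfold minz
  obtain ⟨⟨j, hj⟩, h2⟩ := h
  symm
  apply IsLeast.csInf_eq
  constructor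
  · refine ⟨j, ?_⟩
    rw [hj]
    show ((ip (Fin.cons l w : Fin (m + 1) → ℤ) (Fin.cons (y.ord (c j)) (z j)) : ℤ) : ℝ) = _
    rw [ip_cons_cons]
  · rintro _ ⟨k, rfl⟩
    have h3 : idealOrd v I ≤ l * y.ord (c k) + ip w (z k) := h2 ⟨k, rfl⟩
    show ((idealOrd v I : ℤ) : ℝ) ≤ ((ip _ _ : ℤ) : ℝ)
    rw [ip_cons_cons]
    exact Int.cast_le.2 h3

theorem le_m {P : Ideal X.R} (hv : X.Through v) (hP : X.IsOrdAlong v P) : P ≤ X.m := by
  intro a ha
  by_contra h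
  rcases (hP.2.2.2 a).1 ha with h0 | h0
  · subst h0
    exact h (Submodule.zero_mem _)
  · rw [hv.2 a h] at h0
    exact lt_irrefl _ h0

end

end DAZ

open DAZ in
theorem t_DAZ (hSPL : Stmt_SPL) (hK0C : Stmt_K0C) (hDER : Stmt_DER) (hCAN : Stmt_CAN)
    (hRD1 : Stmt_RD1) (hIDL : Stmt_IDL) (hTOX : Stmt_TOX) (hCYZ : Stmt_CYZ) (hGEZ : Stmt_GEZ)
    (hNGZ : Stmt_NGZ) (hTHZ : Stmt_THZ) (hRAZ : Stmt_RAZ) : Stmt_DAZ := by
  classical
  intro m X A T hT hF hne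
  obtain ⟨y₀, hy₀⟩ := hCYZ A hne
  obtain ⟨S⟩ := hSPL A
  have hC := hK0C A
  obtain ⟨s, hs⟩ := hC.1
  obtain ⟨D, hD1, hD2⟩ := hDER hC s hs
  have hD0 : D ≠ 0 := by
    rintro rfl
    simp at hD1
  obtain ⟨κ, hκ⟩ := hCAN hC D hD0
  obtain ⟨ψ, α, -, -, -, htor, hlow⟩ := hRD1 S s hs D ⟨hD1, hD2⟩ κ hκ T hT
  obtain ⟨N, u, b, hb0, hbm, hgen, hspan, ⟨l0, w0, hw0⟩, hlnn⟩ := hGEZ A S y₀ hF hy₀
  have hI := fun j : T.J => hIDL S (T.a j) (T.a_ne j) (hT.2 j)
  choose M z c hM hc0 hcR hidl using hI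
  have hng := hNGZ A S y₀ hF hy₀ N u b hb0 hbm hgen
  obtain ⟨hth1, hth2⟩ := hTHZ A S y₀ hF hy₀
  have hU : ∀ (w : Fin (m + 1) → ℤ) (i : Fin N),
      ip w (Fin.cons (y₀.ord (b i)) (u i)) = w 0 * y₀.ord (b i) + ip (Fin.tail w) (u i) :=
    fun w i => ip_cons w _ _
  have hl0 : ∀ w : Fin (m + 1) → ℤ, (∀ i, 0 ≤ ip w (Fin.cons (y₀.ord (b i)) (u i))) → 0 ≤ w 0 :=
    fun w h => hlnn (w 0) (Fin.tail w) (fun i => by rw [← hU]; exact h i)
  have hnn : ∀ w : Fin (m + 1) → ℤ, (∀ i, 0 ≤ ip w (Fin.cons (y₀.ord (b i)) (u i))) →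
      NonnegR S (Fin.tail w) (w 0) y₀ :=
    fun w h => (hng (w 0) (Fin.tail w) (hl0 w h)).1 (fun i => by rw [← hU]; exact h i)
  have hkey : ∀ w : Fin (m + 1) → ℤ, (∃ u, ip w u = 1) →
      (∀ i, 0 ≤ ip w (Fin.cons (y₀.ord (b i)) (u i))) → ∃ v, IsTor S v (Fin.tail w) (w 0) y₀ ∧
        NonnegR S (Fin.tail w) (w 0) y₀ ∧ X.Through v := by
    intro w hp h
    have hl := hl0 w h
    have hN := hnn w h
    obtain ⟨v, hv⟩ := hTOX S (Fin.tail w) (w 0) y₀ hl (by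
      obtain ⟨x, hx⟩ := hp
      refine ⟨x 0, Fin.tail x, ?_⟩
      rw [← ip_cons, Fin.cons_self_tail]
      exact hx)
    exact ⟨v, hv, hN, (hth1 v _ _ hl hv hN).1⟩
  refine ⟨{
    N := N
    U := fun i => Fin.cons (y₀.ord (b i)) (u i)
    span := ?_
    int := ?_
    ψ := Fin.cons (α y₀) ψ
    M := M
    M_pos := hM
    z := fun j k => Fin.cons (y₀.ord (c j k)) (z j k)
    reg := ?_
    low := ?_
    tor := ?_
    ath := fun v hv => (t_ATH X).2 v hv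
    ray := ?_ }⟩
  · -- span
    intro w hw
    obtain ⟨h1, h2⟩ := hspan (w 0) (Fin.tail w) (fun i => by rw [← pr_cons]; exact hw i)
    rw [← Fin.cons_self_tail w, h1, h2]
    funext i
    refine Fin.cases ?_ (fun j => ?_) i
    · rw [Fin.cons_zero]; rfl
    · rw [Fin.cons_succ]; rfl
  · -- int
    exact ⟨Fin.cons l0 w0, fun i => by rw [ip_cons_cons]; exact hw0 i⟩
  · -- reg
    intro j k w h
    show 0 ≤ ip w (Fin.cons (y₀.ord (c j k)) (z j k))
    rw [ip_cons]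
    exact hnn w h (c j k) (z j k) (hc0 j k) (hcR j k)
  · -- low
    intro v hv
    obtain ⟨w, l, hl, hal, hN, hAt⟩ := hth2 v hv
    refine ⟨Fin.cons l w, fun i => ?_, fun h i => ?_, ?_⟩
    · show 0 ≤ ip _ (Fin.cons (y₀.ord (b i)) (u i))
      rw [ip_cons_cons]
      obtain ⟨h1, _⟩ := hbm i
      exact hN (b i) (u i) (hb0 i) h1
    · show 0 < ip _ (Fin.cons (y₀.ord (b i)) (u i))
      rw [ip_cons_cons]
      obtain ⟨h1, h2⟩ := hbm i
      exact hAt h (b i) (u i) h1 (hb0 i) h2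
    · have hRD := hlow v w l y₀ hl hal hv
      have h2 : ∀ j, (idealOrd v (T.a j) : ℝ) =
          minz (fun k => (Fin.cons (y₀.ord (c j k)) (z j k) : Fin (m + 1) → ℤ)) (Fin.cons l w) :=
        fun j => idealOrd_eq (hidl j v w l y₀ hv.1 hal)
      rw [sum_cons]
      unfold Triple.disc
      simp only [h2, Fin.tail_cons, Fin.cons_zero]
      linarith
  · -- tor
    intro w hp h
    obtain ⟨v, hv, hN, hth⟩ := hkey w hp h
    have hl := hl0 w h
    refine ⟨v, hth, ?_, fun hpos => (hth1 v _ _ hl hv hN).2 ?_⟩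
    · unfold Triple.disc
      rw [htor v (Fin.tail w) (w 0) y₀ hl hv hth, sum_cons]
      have h2 : ∀ j, (idealOrd v (T.a j) : ℝ) =
          minz (fun k => (Fin.cons (y₀.ord (c j k)) (z j k) : Fin (m + 1) → ℤ)) w := by
        intro j
        have h3 := idealOrd_eq (hidl j v (Fin.tail w) (w 0) y₀ hth.1 (along_of_isTor hv))
        rw [Fin.cons_self_tail] at h3
        exact h3
      simp only [h2]
    · exact (hng (w 0) (Fin.tail w) hl).2 (fun i => by rw [← hU]; exact hpos i)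
  · -- ray
    intro w hp h Z hli hZ hZ0
    obtain ⟨v, hv, hN, hth⟩ := hkey w hp h
    have hl := hl0 w h
    have hZe : ∀ k, (Fin.cons (Z k 0) (Fin.tail (Z k)) : Fin (m + 1) → ℤ) = Z k :=
      fun k => Fin.cons_self_tail _
    obtain ⟨P, hP⟩ := hRAZ A S y₀ hF hy₀ v (Fin.tail w) (w 0) hl hv hN
      (fun k => Fin.tail (Z k)) (fun k => Z k 0) (by simp only [hZe]; exact hli)
      (by
        intro k w' l' hl' hN'
        have h1 := hZ k (Fin.cons l' w') (by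
          intro i
          show 0 ≤ ip _ (Fin.cons (y₀.ord (b i)) (u i))
          rw [ip_cons_cons]
          obtain ⟨h1, _⟩ := hbm i
          exact hN' (b i) (u i) (hb0 i) h1)
        rw [← hZe k, ip_cons_cons] at h1
        exact h1)
      (by
        intro k
        have h1 := hZ0 k
        rw [← hZe k, ip_cons] at h1
        exact h1)
    refine ⟨P, le_m hth hP, v, hP, ?_⟩
    rw [htor v (Fin.tail w) (w 0) y₀ hl hv hth, sum_cons]
    ring

end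

end MldG
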