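import Pool.Agent.MldG.StmtsF

/-!
# FXP: one may assume that the point is a fixed point
-/

namespace MldG

open MldGeo

noncomputable section

namespace FXP

variable {n m : ℕ} {X : Germ n}

/-- The subgroup of the weights of the invertible semi-invariant functions. -/
def unitWts (hHOU : Stmt_HOU) (A : TorusAction X m) : AddSubgroup (Fin m → ℤ) where
  carrier := {w | UnitWt A w}
  zero_mem' := by
    let _ := A.graded
    exact ⟨1, SetLike.GradedOne.one_mem, isUnit_one⟩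
  add_mem' := by
    rintro a b ⟨g, hg, hgu⟩ ⟨h, hh, hhu⟩
    let _ := A.graded
    exact ⟨g * h, SetLike.GradedMul.mul_mem hg hh, hgu.mul hhu⟩
  neg_mem' := by
    rintro a ⟨g, hg, hgu⟩
    obtain ⟨g', hg'⟩ := hgu.exists_right_inv
    exact ⟨g', (hHOU A).2.2.1 a g g' hg hg', IsUnit.of_mul_eq_one g (by rw [mul_comm, hg'])⟩

theorem mem_unitWts (hHOU : Stmt_HOU) (A : TorusAction X m) {w : Fin m → ℤ} :
    w ∈ unitWts hHOU A ↔ UnitWt A w := Iff.rfl

/-- The rank of a subgroup. -/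
def rk (U : AddSubgroup (Fin m → ℤ)) : ℕ := Module.finrank ℤ (AddSubgroup.toIntSubmodule U)

/-- The rank drops. -/
theorem rk_lt (U U' : AddSubgroup (Fin m → ℤ)) (φ : (Fin m → ℤ) →+ ℤ) (u : Fin m → ℤ)
    (hu : u ∈ U) (hφ : φ u = 1) (h : ∀ w, w ∈ U' ↔ w ∈ U ∧ φ w = 0) : rk U' < rk U := by
  let V := AddSubgroup.toIntSubmodule U
  let V' := AddSubgroup.toIntSubmodule U'
  let e : V ≃ₗ[ℤ] V' × ℤ :=
    { toFun := fun w => (⟨w.1 - φ w.1 • u, (h _).2 ⟨U.sub_mem w.2 (U.zsmul_mem hu _), by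
        rw [map_sub, map_zsmul, hφ, smul_eq_mul, mul_one, sub_self]⟩⟩, φ w.1)
      invFun := fun w => ⟨w.1.1 + w.2 • u, U.add_mem ((h _).1 w.1.2).1 (U.zsmul_mem hu _)⟩
      map_add' := fun a b => by
        refine Prod.ext (Subtype.ext ?_) ?_
        · change (a.1 + b.1) - φ (a.1 + b.1) • u = (a.1 - φ a.1 • u) + (b.1 - φ b.1 • u)
          rw [map_add, add_smul]
          abel
        · exact map_add φ a.1 b.1
      map_smul' := fun c a => by
        refine Prod.ext (Subtype.ext ?_) ?_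
        · change c • a.1 - φ (c • a.1) • u = c • (a.1 - φ a.1 • u)
          rw [map_zsmul, smul_sub, smul_eq_mul, mul_smul]
        · exact map_zsmul φ c a.1
      left_inv := fun a => Subtype.ext (by
        change (a.1 - φ a.1 • u) + φ a.1 • u = a.1
        rw [sub_add_cancel])
      right_inv := fun a => by
        have h1 : φ (a.1.1 + a.2 • u) = a.2 := by
          rw [map_add, map_zsmul, hφ, ((h _).1 a.1.2).2, smul_eq_mul, mul_one, zero_add]
        refine Prod.ext (Subtype.ext ?_) h1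
        change (a.1.1 + a.2 • u) - φ (a.1.1 + a.2 • u) • u = a.1.1
        rw [h1, add_sub_cancel_right] }
  have h1 : Module.finrank ℤ V = Module.finrank ℤ V' + 1 := by
    rw [e.finrank_eq, Module.finrank_prod, Module.finrank_self]
  change Module.finrank ℤ V' < Module.finrank ℤ V
  omega

/-- A nonzero vector is a multiple of a primitive vector. -/
theorem exists_primitive (w : Fin m → ℤ) (hw : w ≠ 0) :
    ∃ (k : ℕ) (u : Fin m → ℤ) (φ : (Fin m → ℤ) →+ ℤ), 0 < k ∧ w = (k : ℤ) • u ∧ φ u = 1 := by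
  obtain ⟨d, hd⟩ := (IsPrincipalIdealRing.principal (Ideal.span (Set.range w))).principal
  have hd' : Ideal.span (Set.range w) = Ideal.span {((d.natAbs : ℕ) : ℤ)} := by
    rw [Int.span_natAbs]
    exact hd
  have hk : ((d.natAbs : ℕ) : ℤ) ∈ Ideal.span (Set.range w) := by
    rw [hd']
    exact Ideal.mem_span_singleton_self _
  obtain ⟨c, hc⟩ := Ideal.mem_span_range_iff_exists_fun.1 hk
  have hu : ∀ i, ∃ x, w i = ((d.natAbs : ℕ) : ℤ) * x := by
    intro i
    have h1 : w i ∈ Ideal.span {((d.natAbs : ℕ) : ℤ)} := by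
      rw [← hd']
      exact Ideal.subset_span ⟨i, rfl⟩
    exact Ideal.mem_span_singleton.1 h1
  choose u hu using hu
  have hk0 : 0 < d.natAbs := by
    rcases Nat.eq_zero_or_pos d.natAbs with h0 | h0
    · exfalso
      apply hw
      funext i
      rw [hu i, h0, Nat.cast_zero, zero_mul, Pi.zero_apply]
    · exact h0
  refine ⟨d.natAbs, u, ⟨⟨fun y => ∑ i, c i * y i, by simp⟩, fun x y => by
    simp only [Pi.add_apply, mul_add, Finset.sum_add_distrib]⟩, hk0, ?_, ?_⟩
  · funext i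
    rw [Pi.smul_apply, smul_eq_mul, hu i]
  · change ∑ i, c i * u i = 1
    have h1 : ((d.natAbs : ℕ) : ℤ) * ∑ i, c i * u i = ((d.natAbs : ℕ) : ℤ) * 1 := by
      rw [Finset.mul_sum, mul_one]
      conv_rhs => rw [← hc]
      refine Finset.sum_congr rfl fun i _ => ?_
      rw [hu i]
      ring
    exact mul_left_cancel₀ (by exact_mod_cast hk0.ne') h1

/-- The induction. -/
theorem step (hAF1 : Stmt_AF1) (hHOU : Stmt_HOU) (S : Set ℝ) (hn : 0 < n) (r : ℕ) :
    ∀ (X : Germ n) (A : TorusAction X m) (T : Triple X), rk (unitWts hHOU A) = r →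
      Good A T S → ClosedOrbit A → Sat A →
      ∃ (X' : Germ n) (A' : TorusAction X' m) (T' : Triple X'),
        Good A' T' S ∧ T'.mld = T.mld ∧ Fixed A' := by
  induction r using Nat.strong_induction_on with
  | _ r ih =>
    intro X A T hr hG hC hS
    by_cases h : ∃ w, w ≠ 0 ∧ UnitWt A w
    · obtain ⟨w, hw, hwU⟩ := h
      obtain ⟨k, u, φ, hk, hwu, hφ⟩ := exists_primitive w hw
      have hu : UnitWt A u := hS u k hk (by rwa [← hwu])
      obtain ⟨X', A', T', hG', hT', hC', hS', hU'⟩ := hAF1 A T S hn hG hC hS φ u hu hφ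
      have hlt : rk (unitWts hHOU A') < r := by
        rw [← hr]
        exact rk_lt _ _ φ u hu hφ hU'
      obtain ⟨X'', A'', T'', hG'', hT'', hF''⟩ := ih _ hlt X' A' T' rfl hG' hC' hS'
      exact ⟨X'', A'', T'', hG'', by rw [hT'', hT'], hF''⟩
    · refine ⟨X, A, T, hG, rfl, fun u hu a ha => ?_⟩
      by_contra hm
      exact h ⟨u, hu, hC u ⟨a, ha, hm⟩⟩

end FXP

theorem t_FXP (hLCZ : Stmt_LCZ) (hKMS : Stmt_KMS) (hAF1 : Stmt_AF1) (hHOU : Stmt_HOU) :
    Stmt_FXP := by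
  intro n m X A T S hn hG
  obtain ⟨X1, A1, T1, hG1, hT1, hC1⟩ := hLCZ A T S hn hG
  obtain ⟨X2, A2, T2, hG2, hT2, hC2, hS2⟩ := hKMS A1 T1 S hn hG1 hC1
  obtain ⟨X3, A3, T3, hG3, hT3, hF3⟩ := FXP.step hAF1 hHOU S hn _ X2 A2 T2 rfl hG2 hC2 hS2
  exact ⟨X3, A3, T3, hG3, by rw [hT3, hT2, hT1], hF3⟩

end

end MldG
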