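import Pool.Agent.MldG.StmtsF

/-!
# One step of the saturation of the group of weights of invertible functions
-/

namespace MldG

open MldGeo

noncomputable section

namespace KM1

variable {n m : ℕ} {X : Germ n}

/-- The unit `g` is not a `p`-th power. -/
theorem not_pow (hHOU : Stmt_HOU) (A : TorusAction X m) {p : ℕ} (hp : p.Prime) {u : Fin m → ℤ}
    (hu : ¬ UnitWt A u) {g : X.R} (hg : g ∈ A.gr ((p : ℤ) • u)) (hgu : IsUnit g) (b : X.K) :
    b ^ p ≠ g := by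
  intro hb
  have hbR : b ∈ X.R := by
    refine X.normal b (IsIntegral.of_pow hp.pos ?_)
    rw [hb]
    exact isIntegral_algebraMap (R := X.R) (A := X.K) (x := g)
  have hb' : (⟨b, hbR⟩ : X.R) ^ p = g := Subtype.ext (by push_cast; exact hb)
  obtain ⟨w, hw⟩ := (hHOU A).2.2.2.1 ⟨b, hbR⟩ p ((p : ℤ) • u) hp.pos (by rw [hb']; exact hg)
  have h1 : (⟨b, hbR⟩ : X.R) ^ p ∈ A.gr (p • w) := SetLike.pow_mem_graded p hw
  rw [hb'] at h1
  have h2 : p • w = (p : ℤ) • u := DirectSum.degree_eq_of_mem_mem A.gr h1 hg hgu.ne_zero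
  have h3 : w = u := by
    funext i
    have h4 := congrFun h2 i
    simp only [Pi.smul_apply, nsmul_eq_mul, smul_eq_mul] at h4
    exact mul_left_cancel₀ (by exact_mod_cast hp.ne_zero) h4
  refine hu ⟨⟨b, hbR⟩, h3 ▸ hw, ?_⟩
  rw [← hb'] at hgu
  exact (isUnit_pow_iff hp.ne_zero).1 hgu

/-- The regular functions on `X` are regular on the cover. -/
theorem mem_cover {p : ℕ} (hp : p.Prime) {g : X.R} (k : RootCover X p g) (a : X.R) :
    algebraMap X.K k.X'.K (a : X.K) ∈ k.X'.R := by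
  refine (k.mem _).2 ⟨fun i => if (i : ℕ) = 0 then a else 0, ?_⟩
  rw [Finset.sum_eq_single (⟨0, hp.pos⟩ : Fin p)]
  · simp
  · intro i _ hi
    have h0 : (i : ℕ) ≠ 0 := fun h => hi (Fin.ext h)
    simp [h0]
  · intro h
    exact absurd (Finset.mem_univ _) h

/-- The pullback of regular functions to the cover. -/
def pull {p : ℕ} (hp : p.Prime) {g : X.R} (k : RootCover X p g) : X.R →+* k.X'.R :=
  ((algebraMap X.K k.X'.K).comp X.R.val.toRingHom).codRestrict k.X'.R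
    (fun a => mem_cover hp k a)

theorem coe_pull {p : ℕ} (hp : p.Prime) {g : X.R} (k : RootCover X p g) (a : X.R) :
    ((pull hp k a : k.X'.R) : k.X'.K) = algebraMap X.K k.X'.K a := rfl

/-- A valuation along a prime divisor through `x` has its centre through `x`. -/
theorem through_of_along {v : DivVal n X.K} {P : Ideal X.R} (h : X.IsOrdAlong v P)
    (hP : P ≤ X.m) : X.Through v := by
  refine ⟨h.2.2.1, fun a ha => ?_⟩
  have h1 : a ∉ P := fun h' => ha (hP h')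
  rw [h.2.2.2 a] at h1
  push Not at h1
  exact le_antisymm h1.2 (h.2.2.1 a)

theorem le_of_through {v : DivVal n X.K} {P : Ideal X.R} (h : X.IsOrdAlong v P)
    (hv : X.Through v) : P ≤ X.m := by
  intro a ha
  by_contra hna
  rcases (h.2.2.2 a).1 ha with h0 | h0
  · exact hna (h0 ▸ X.m.zero_mem)
  · exact absurd (hv.2 a hna) h0.ne'

/-- An invariant prime of height one contains a nonzero semi-invariant function. -/
theorem exists_hom (A : TorusAction X m) {v : DivVal n X.K} {P : Ideal X.R}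
    (h : X.IsOrdAlong v P) (hinv : A.Inv P) :
    ∃ (u : Fin m → ℤ) (a : X.R), a ∈ A.gr u ∧ a ≠ 0 ∧ a ∈ P := by
  obtain ⟨s, hs, hP⟩ := hinv
  have hne : P ≠ ⊥ := by
    intro hb
    have h1 := h.2.1
    rw [hb, Ideal.height_bot] at h1
    exact zero_ne_one h1
  by_contra hcon
  push Not at hcon
  apply hne
  rw [hP, Ideal.span_eq_bot]
  intro a ha
  by_contra ha0
  obtain ⟨u, hu⟩ := hs a ha
  exact hcon u a hu ha0 (by rw [hP]; exact Ideal.subset_span ha)

end KM1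

open KM1 in
theorem t_KM1 (hKUX : Stmt_KUX) (hKUV : Stmt_KUV) (hKUT : Stmt_KUT) (hKUA : Stmt_KUA)
    (hATH : Stmt_ATH) (hHOU : Stmt_HOU) : Stmt_KM1 := by
  intro n m X A T S hn hG hcl p u hp hu hpu
  obtain ⟨g, hg, hgu⟩ := hpu
  obtain ⟨k⟩ := hKUX X p g hp hgu (not_pow hHOU A hp hu hg hgu)
  obtain ⟨A', hA', hcl', hwt⟩ := hKUA A p g u hn hp hgu hg hcl k
  obtain ⟨T', hT', hI'⟩ := hKUT X p g hn hp hgu k T
  obtain ⟨hV1, hV2⟩ := hKUV X p g hn hp hgu k
  -- prime divisors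
  have key : ∀ (P' : Ideal k.X'.R) (b : ℝ), T'.Coeff P' b →
      ∃ P : Ideal X.R, T.Coeff P b ∧ (A.Inv P → A'.Inv P') := by
    rintro P' b ⟨hP'm, v', hv', hb⟩
    obtain ⟨v, hext, -, hth, -, hal⟩ := hV1 v' hv'.2.2.1
    obtain ⟨P, hP, himg⟩ := hal P' hv'
    refine ⟨P, ⟨le_of_through hP (hth (through_of_along hv' hP'm)), v, hP, ?_⟩, ?_⟩
    · rw [← hb, (hT' v' v hext hv'.2.2.1).1]
    · intro hinv
      obtain ⟨w, a, haw, ha0, haP⟩ := exists_hom A hP hinv
      obtain ⟨h1, h2⟩ := hA' w a haw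
      obtain ⟨h3, h4⟩ := himg a haP
      refine (hHOU A').2.2.2.2 P' v' hv' ⟨w, ⟨_, h1⟩, h2, ?_, h4⟩
      intro h0
      apply ha0
      have h5 : algebraMap X.K k.X'.K (a : X.K) = 0 := congrArg Subtype.val h0
      exact Subtype.ext ((map_eq_zero _).1 h5)
  refine ⟨k.X', A', T', ⟨⟨?_, ?_⟩, ?_, ?_, ?_, ?_⟩, ?_, hcl', hwt⟩
  · intro P' b hb hb0
    obtain ⟨P, hP, hPi⟩ := key P' b hb
    exact hPi (hG.inv.1 P b hP hb0)
  · intro i'
    obtain ⟨i, -, hi⟩ := hI' i'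
    obtain ⟨s, hs, hT⟩ := hG.inv.2 i
    refine ⟨pull hp k '' s, ?_, ?_⟩
    · rintro _ ⟨a, ha, rfl⟩
      obtain ⟨w, hw⟩ := hs a ha
      obtain ⟨h1, h2⟩ := hA' w a hw
      exact ⟨w, h2⟩
    · rw [← Ideal.map_span, ← hT, hi, Ideal.map]
      congr 1
      ext a'
      constructor
      · rintro ⟨a, ha, h⟩
        exact ⟨a, ha, Subtype.ext h.symm⟩
      · rintro ⟨a, ha, rfl⟩
        exact ⟨a, ha, rfl⟩
  · intro P' b hb
    obtain ⟨P, hP, -⟩ := key P' b hb
    exact hG.eff P b hP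
  · intro v' hv'
    obtain ⟨v, hext, -, hth, -, -⟩ := hV1 v' hv'.1
    rw [(hT' v' v hext hv'.1).2]
    exact hG.lc v (hth hv')
  · intro P' b hb hb0
    obtain ⟨P, hP, -⟩ := key P' b hb
    exact hG.coeff.1 P b hP hb0
  · intro i' hi'
    obtain ⟨i, hr, -⟩ := hI' i'
    rw [hr] at hi' ⊢
    exact hG.coeff.2 i hi'
  · unfold Triple.mld
    congr 1
    ext a
    constructor
    · rintro ⟨v', hv', rfl⟩
      obtain ⟨v, hext, -, -, hat, -⟩ := hV1 v' hv'.1
      exact ⟨v, hat hv', ((hT' v' v hext hv'.1).2).symm⟩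
    · rintro ⟨v, hv, rfl⟩
      obtain ⟨v', hext, hat⟩ := hV2 v hv
      exact ⟨v', hat, (hT' v' v hext hat.1).2⟩

end

end MldG

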