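import Pool.Agent.MldG.Stmts4

/-!
# HLI: homogeneous functions of different weights are linearly independent
-/

namespace MldG

open MldGeo

noncomputable section

namespace HLI

variable {n m : ℕ} {X : Germ n} (A : TorusAction X m)

/-- a common homogeneous denominator -/
theorem common (s : Finset (Fin m → ℤ)) (h : (Fin m → ℤ) → X.K) (hh : ∀ u ∈ s, A.Hom u (h u)) :
    ∃ (b : Fin m → ℤ) (t : X.R) (r : (Fin m → ℤ) → X.R), t ∈ A.gr b ∧ t ≠ 0 ∧
      ∀ u ∈ s, r u ∈ A.gr (u + b) ∧ h u * (t : X.K) = r u := by
  classical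
  induction s using Finset.induction_on with
  | empty =>
    exact ⟨0, 1, fun _ => 0, SetLike.GradedOne.one_mem, one_ne_zero, fun u hu => by simp at hu⟩
  | insert v s hv ih =>
    obtain ⟨b, t, r, ht, ht0, hr⟩ := ih (fun u hu => hh u (Finset.mem_insert_of_mem hu))
    obtain ⟨a', b', r', s', hr', hs', h0', hab', e'⟩ := hh v (Finset.mem_insert_self v s)
    refine ⟨b + b', t * s', fun u => if u = v then r' * t else r u * s',
      SetLike.GradedMul.mul_mem ht hs', mul_ne_zero ht0 h0', ?_⟩
    intro u hu
    by_cases huv : u = v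
    · subst huv
      simp only [if_true]
      refine ⟨?_, ?_⟩
      · have h1 := SetLike.GradedMul.mul_mem (A := A.gr) hr' ht
        rwa [hab', show u + b' + b = u + (b + b') by abel] at h1
      · push_cast
        rw [← e']
        ring
    · simp only [huv, if_false]
      have hus : u ∈ s := (Finset.mem_insert.1 hu).resolve_left huv
      obtain ⟨h1, h2⟩ := hr u hus
      refine ⟨?_, ?_⟩
      · have h3 := SetLike.GradedMul.mul_mem (A := A.gr) h1 hs'
        rwa [add_assoc] at h3
      · push_cast
        rw [← h2]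
        ring

end HLI

theorem t_HLI : Stmt_HLI := by
  classical
  intro n m X A s h hh hsum u0 hu0
  obtain ⟨b, t, r, ht, ht0, hr⟩ := HLI.common A s h hh
  have h1 : ∑ u ∈ s, r u = 0 := by
    apply Subtype.ext
    rw [AddSubmonoidClass.coe_finsetSum, ZeroMemClass.coe_zero]
    have h2 : ∑ u ∈ s, ((r u : X.R) : X.K) = ∑ u ∈ s, h u * (t : X.K) :=
      Finset.sum_congr rfl fun u hu => (hr u hu).2.symm
    rw [h2, ← Finset.sum_mul, hsum, zero_mul]
  have h3 := congrArg (GradedRing.proj A.gr (u0 + b)) h1
  rw [map_sum, map_zero, Finset.sum_eq_single u0] at h3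
  · rw [GradedRing.proj_apply, DirectSum.decompose_of_mem_same A.gr (hr u0 hu0).1] at h3
    have h4 := (hr u0 hu0).2
    rw [h3, ZeroMemClass.coe_zero] at h4
    exact (mul_eq_zero.1 h4).resolve_right (TorusAction.coe_ne ht0)
  · intro u hu hne
    rw [GradedRing.proj_apply]
    exact DirectSum.decompose_of_mem_ne A.gr (hr u hu).1 (fun h5 => hne (add_right_cancel h5))
  · intro h5
    exact absurd hu0 h5

end

end MldG
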