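import Pool.Agent.MldG.StmtsF
import Pool.Agent.MldG.HLI
import Pool.Agent.MldGeo.OLC

/-!
# LCZ: localization at a semi-invariant function
-/

namespace MldG

open MldGeo

noncomputable section

namespace LCZ

variable {n m : ℕ} (X : Germ n) (f : X.R)

/-- The localization of the ring of regular functions at `f`. -/
def locR : Subalgebra ℂ X.K where
  carrier := {a | ∃ (k : ℕ) (b : X.R), a * (f : X.K) ^ k = b}
  mul_mem' := by
    rintro a a' ⟨k, b, h⟩ ⟨k', b', h'⟩
    refine ⟨k + k', b * b', ?_⟩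
    push_cast
    rw [← h, ← h', pow_add]
    ring
  add_mem' := by
    rintro a a' ⟨k, b, h⟩ ⟨k', b', h'⟩
    refine ⟨k + k', b * f ^ k' + b' * f ^ k, ?_⟩
    push_cast
    rw [← h, ← h', pow_add]
    ring
  algebraMap_mem' := fun c => ⟨0, algebraMap ℂ X.R c, by rw [pow_zero, mul_one]; rfl⟩

theorem mem_locR {a : X.K} : a ∈ locR X f ↔ ∃ (k : ℕ) (b : X.R), a * (f : X.K) ^ k = b := Iff.rfl

theorem le_locR (b : X.R) : (b : X.K) ∈ locR X f := ⟨0, b, by rw [pow_zero, mul_one]⟩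

/-- The ideal of the point. -/
def locM : Ideal (locR X f) where
  carrier := {a | ∃ (k : ℕ) (b : X.R), b ∈ X.m ∧ (a : X.K) * (f : X.K) ^ k = b}
  add_mem' := by
    rintro a a' ⟨k, b, hb, h⟩ ⟨k', b', hb', h'⟩
    refine ⟨k + k', b * f ^ k' + b' * f ^ k,
      X.m.add_mem (X.m.mul_mem_right _ hb) (X.m.mul_mem_right _ hb'), ?_⟩
    push_cast
    rw [← h, ← h', pow_add]
    ring
  zero_mem' := ⟨0, 0, X.m.zero_mem, by simp⟩
  smul_mem' := by
    rintro ⟨c, k, b, h⟩ a ⟨k', b', hb', h'⟩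
    refine ⟨k + k', b * b', X.m.mul_mem_left _ hb', ?_⟩
    rw [smul_eq_mul]
    push_cast
    rw [← h, ← h', pow_add]
    ring

theorem mem_locM {a : locR X f} : a ∈ locM X f ↔
    ∃ (k : ℕ) (b : X.R), b ∈ X.m ∧ (a : X.K) * (f : X.K) ^ k = b := Iff.rfl

variable {X f}

theorem f_ne (hf : f ∉ X.m) : f ≠ 0 := fun h => hf (h ▸ X.m.zero_mem)

theorem fK_ne (hf : f ∉ X.m) : (f : X.K) ≠ 0 := TorusAction.coe_ne (f_ne hf)

theorem pow_notMem (hf : f ∉ X.m) (k : ℕ) : f ^ k ∉ X.m := fun h =>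
  hf (X.max.isPrime.mem_of_pow_mem k h)

/-- Two representations of an element of the localization. -/
theorem rep_mem (hf : f ∉ X.m) {a : X.K} {k k' : ℕ} {b b' : X.R} (h : a * (f : X.K) ^ k = b)
    (h' : a * (f : X.K) ^ k' = b') (hb : b ∈ X.m) : b' ∈ X.m := by
  have e : b' * f ^ k = b * f ^ k' := by
    apply Subtype.ext
    push_cast
    rw [← h, ← h']
    ring
  have h1 : b' * f ^ k ∈ X.m := by rw [e]; exact X.m.mul_mem_right _ hb
  exact (X.max.isPrime.mem_or_mem h1).resolve_right (pow_notMem hf k)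

theorem locM_iff (hf : f ∉ X.m) {a : locR X f} {k : ℕ} {b : X.R}
    (h : (a : X.K) * (f : X.K) ^ k = b) : a ∈ locM X f ↔ b ∈ X.m :=
  ⟨fun ⟨_, _, hb', h'⟩ => rep_mem hf h' h hb', fun hb => ⟨k, b, hb, h⟩⟩

theorem inv_mem (hf : f ∉ X.m) : (f : X.K)⁻¹ ∈ locR X f :=
  ⟨1, 1, by rw [pow_one, inv_mul_cancel₀ (fK_ne hf)]; rfl⟩

theorem fg (hf : f ∉ X.m) : (locR X f).FG := by
  classical
  obtain ⟨t, ht⟩ := X.fg
  refine ⟨insert (f : X.K)⁻¹ t, le_antisymm ?_ ?_⟩
  · rw [Algebra.adjoin_le_iff]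
    intro x hx
    rw [Finset.coe_insert, Set.mem_insert_iff] at hx
    rcases hx with rfl | hx
    · exact inv_mem hf
    · have h1 : x ∈ X.R := ht ▸ Algebra.subset_adjoin hx
      exact le_locR X f ⟨x, h1⟩
  · rintro a ⟨k, b, h⟩
    have e : a = (b : X.K) * ((f : X.K)⁻¹) ^ k := by
      rw [← h, mul_assoc, ← mul_pow, mul_inv_cancel₀ (fK_ne hf), one_pow, mul_one]
    rw [e]
    refine mul_mem ?_ (pow_mem (Algebra.subset_adjoin (by simp)) k)
    have h1 : (b : X.K) ∈ Algebra.adjoin ℂ (t : Set X.K) := ht.symm ▸ b.2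
    exact Algebra.adjoin_mono (by simp) h1

theorem frac (a : X.K) : ∃ r ∈ locR X f, ∃ s ∈ locR X f, s ≠ 0 ∧ a * s = r := by
  obtain ⟨r, hr, s, hs, h0, e⟩ := X.frac a
  exact ⟨r, le_locR X f ⟨r, hr⟩, s, le_locR X f ⟨s, hs⟩, h0, e⟩

theorem normal (hf : f ∉ X.m) (a : X.K) (ha : IsIntegral (locR X f) a) : a ∈ locR X f := by
  let _ : Algebra X.R (locR X f) :=
    (Subalgebra.inclusion (fun x hx => le_locR X f ⟨x, hx⟩ : X.R ≤ locR X f)).toRingHom.toAlgebra
  have : IsScalarTower X.R (locR X f) X.K := IsScalarTower.of_algebraMap_eq fun _ => rfl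
  have hmap : ∀ b : X.R, ((algebraMap X.R (locR X f) b : locR X f) : X.K) = b := fun _ => rfl
  have : IsLocalization (Submonoid.powers f) (locR X f) := by
    refine ⟨?_, ?_, ?_⟩
    · rintro ⟨_, k, rfl⟩
      refine IsUnit.of_mul_eq_one ⟨((f : X.K)⁻¹) ^ k, pow_mem (inv_mem hf) k⟩ ?_
      apply Subtype.ext
      rw [Subalgebra.coe_mul, hmap]
      push_cast
      rw [← mul_pow, mul_inv_cancel₀ (fK_ne hf), one_pow]
    · rintro ⟨a, k, b, h⟩
      refine ⟨⟨b, ⟨f ^ k, k, rfl⟩⟩, ?_⟩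
      apply Subtype.ext
      rw [Subalgebra.coe_mul, hmap, hmap]
      push_cast
      exact h
    · intro x y h
      refine ⟨1, ?_⟩
      have h1 := congrArg Subtype.val h
      rw [hmap, hmap] at h1
      rw [Subtype.ext h1]
  obtain ⟨⟨_, k, rfl⟩, h⟩ :=
    IsIntegral.exists_multiple_integral_of_isLocalization (Submonoid.powers f) a ha
  have h1 := X.normal _ h
  refine ⟨k, ⟨_, h1⟩, ?_⟩
  rw [mul_comm]
  change _ = ((f ^ k : X.R) : X.K) • a
  rw [smul_eq_mul]
  push_cast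
  rfl

theorem congr_const (hATH : Stmt_ATH) (hf : f ∉ X.m) (a : locR X f) :
    ∃ c : ℂ, a - algebraMap ℂ (locR X f) c ∈ locM X f := by
  obtain ⟨a, k, b, h⟩ := a
  obtain ⟨c, hc⟩ := (hATH X).1 b
  obtain ⟨d, hd⟩ := (hATH X).1 (f ^ k)
  have hd0 : d ≠ 0 := by
    rintro rfl
    rw [map_zero, sub_zero] at hd
    exact pow_notMem hf k hd
  refine ⟨c / d, k, b - algebraMap ℂ X.R (c / d) * f ^ k, ?_, ?_⟩
  · have e : b - algebraMap ℂ X.R (c / d) * f ^ k = (b - algebraMap ℂ X.R c) -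
        algebraMap ℂ X.R (c / d) * (f ^ k - algebraMap ℂ X.R d) := by
      have h1 : algebraMap ℂ X.R c = algebraMap ℂ X.R (c / d) * algebraMap ℂ X.R d := by
        rw [← map_mul, div_mul_cancel₀ _ hd0]
      rw [h1]
      ring
    rw [e]
    exact X.m.sub_mem hc (X.m.mul_mem_left _ hd)
  · push_cast
    rw [← h]
    ring

theorem max (hATH : Stmt_ATH) (hf : f ∉ X.m) : (locM X f).IsMaximal := by
  rw [Ideal.isMaximal_iff]
  constructor
  · rintro ⟨k, b, hb, h⟩
    have h1 : b = f ^ k := by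
      apply Subtype.ext
      push_cast
      rw [← h]
      simp
    exact pow_notMem hf k (h1 ▸ hb)
  · intro J x hIJ hx hxJ
    obtain ⟨c, hc⟩ := congr_const hATH hf x
    have hc0 : c ≠ 0 := by
      rintro rfl
      rw [map_zero, sub_zero] at hc
      exact hx hc
    have h1 : algebraMap ℂ (locR X f) c ∈ J := by
      have h2 := J.sub_mem hxJ (hIJ hc)
      rwa [sub_sub_cancel] at h2
    have h3 := J.mul_mem_left (algebraMap ℂ (locR X f) c⁻¹) h1
    rwa [← map_mul, inv_mul_cancel₀ hc0, map_one] at h3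

/-- The open subset of `X` where `f` is invertible. -/
abbrev locG (hATH : Stmt_ATH) (hf : f ∉ X.m) : Germ n where
  K := X.K
  fieldK := X.fieldK
  algK := X.algK
  R := locR X f
  fg := fg hf
  frac := frac
  normal := normal hf
  trdeg := X.trdeg
  m := locM X f
  max := max hATH hf

/-! ### valuations -/

theorem ord_mul_pow {v : DivVal n X.K} (hf : f ∉ X.m) (hv : v.ord f = 0) {a : X.K} {k : ℕ}
    {b : X.R} (h : a * (f : X.K) ^ k = b) : v.ord b = v.ord a := by
  have hp : ∀ j : ℕ, v.ord ((f : X.K) ^ j) = 0 := by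
    intro j
    induction j with
    | zero => rw [pow_zero, ← map_one (algebraMap ℂ X.K), v.ord_const]
    | succ j ih => rw [pow_succ, v.ord_mul _ _ (pow_ne_zero _ (fK_ne hf)) (fK_ne hf), ih, hv, zero_add]
  by_cases ha : a = 0
  · rw [← h, ha, zero_mul]
  · rw [← h, v.ord_mul _ _ ha (pow_ne_zero _ (fK_ne hf)), hp, add_zero]

theorem through_f {v : DivVal n X.K} (hf : f ∉ X.m) (hv : X.Through v) : v.ord f = 0 := hv.2 f hf

theorem through_iff (hATH : Stmt_ATH) (hf : f ∉ X.m) (v : DivVal n X.K) :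
    X.Through v ↔ (locG hATH hf).Through v := by
  constructor
  · intro hv
    have h0 := through_f hf hv
    refine ⟨?_, ?_⟩
    · rintro ⟨a, k, b, h⟩
      have h1 := ord_mul_pow hf h0 h
      change 0 ≤ v.ord a
      rw [← h1]
      exact hv.1 b
    · rintro ⟨a, k, b, h⟩ ha
      have h1 := ord_mul_pow hf h0 h
      change v.ord a = 0
      rw [← h1]
      exact hv.2 b fun hb => ha ((locM_iff hf h).mpr hb)
  · intro hv
    have hr : ∀ b : X.R, (b : X.K) * (f : X.K) ^ 0 = b := fun b => by rw [pow_zero, mul_one]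
    refine ⟨fun a => hv.1 ⟨a, le_locR X f a⟩, fun a ha => hv.2 ⟨a, le_locR X f a⟩ fun h => ha ?_⟩
    exact (locM_iff hf (hr a)).mp h

theorem at_iff (hATH : Stmt_ATH) (hf : f ∉ X.m) (v : DivVal n X.K) :
    X.At v ↔ (locG hATH hf).At v := by
  constructor
  · intro hv
    have ht := (hATH X).2 v hv
    have h0 := through_f hf ht
    refine ⟨((through_iff hATH hf v).mp ht).1, ?_⟩
    rintro ⟨a, k, b, h⟩ ha hane
    have h1 := ord_mul_pow hf h0 h
    change 0 < v.ord a
    rw [← h1]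
    refine hv.2 b ((locM_iff hf h).mp ha) ?_
    rintro rfl
    apply hane
    apply Subtype.ext
    have h2 : a * (f : X.K) ^ k = 0 := h
    exact (mul_eq_zero.mp h2).resolve_right (pow_ne_zero _ (fK_ne hf))
  · intro hv
    have hr : ∀ b : X.R, (b : X.K) * (f : X.K) ^ 0 = b := fun b => by rw [pow_zero, mul_one]
    refine ⟨fun a => hv.1 ⟨a, le_locR X f a⟩, fun a ha hane => hv.2 ⟨a, le_locR X f a⟩ ?_ ?_⟩
    · exact (locM_iff hf (hr a)).mpr ha
    · intro h
      exact hane (Subtype.ext (congrArg (fun z : locR X f => (z : X.K)) h))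

/-! ### the action -/

variable (A : TorusAction X m)

/-- The homogeneous functions of the localization. -/
def gr' (w : Fin m → ℤ) : Submodule ℂ (locR X f) where
  carrier := {a | A.Hom w (a : X.K)}
  add_mem' := fun ha hb => TorusAction.Hom.add ha hb
  zero_mem' := TorusAction.Hom.zero w
  smul_mem' := by
    intro c a ha
    have h1 := (TorusAction.Hom.const (A := A) c).mul ha
    rw [zero_add] at h1
    change A.Hom w ((c • a : locR X f) : X.K)
    rw [Subalgebra.coe_smul, Algebra.smul_def]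
    exact h1

theorem mem_gr' {w : Fin m → ℤ} {a : locR X f} : a ∈ gr' (f := f) A w ↔ A.Hom w (a : X.K) :=
  Iff.rfl

instance gr'_monoid : SetLike.GradedMonoid (gr' (f := f) A) where
  one_mem := TorusAction.Hom.one
  mul_mem := fun _ _ _ _ ha hb => TorusAction.Hom.mul ha hb

theorem hom_of_rep (hf : f ∉ X.m) {e w : Fin m → ℤ} (hfe : f ∈ A.gr e) {a : X.K} {k : ℕ} {b : X.R}
    (h : a * (f : X.K) ^ k = b) (hb : b ∈ A.gr w) : A.Hom (w - k • e) a := by
  have h1 := (TorusAction.Hom.of_mem hb).mul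
    (((TorusAction.Hom.of_mem hfe).pow k).inv (pow_ne_zero _ (fK_ne hf)))
  rwa [← h, mul_assoc, mul_inv_cancel₀ (pow_ne_zero _ (fK_ne hf)), mul_one,
    ← sub_eq_add_neg] at h1

theorem internal (hf : f ∉ X.m) {e : Fin m → ℤ} (hfe : f ∈ A.gr e) :
    DirectSum.IsInternal (gr' (f := f) A) := by
  classical
  constructor
  · rw [injective_iff_map_eq_zero]
    intro x hx
    have h1 : ∑ w ∈ x.support, ((x w : locR X f) : X.K) = 0 := by
      have h2 := congrArg (Subalgebra.val (locR X f)) hx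
      rw [DirectSum.coeAddMonoidHom_eq_dfinsuppSum, DFinsupp.sum, map_sum, map_zero] at h2
      exact h2
    have h3 := t_HLI A x.support (fun w => ((x w : locR X f) : X.K)) (fun w _ => (x w).2) h1
    refine DFinsupp.ext fun w => ?_
    by_cases hw : w ∈ x.support
    · exact Subtype.ext (Subtype.ext (h3 w hw))
    · simpa using hw
  · rintro ⟨a, k, b, h⟩
    have hsum := DirectSum.sum_support_decompose A.gr b
    set s := (DirectSum.decompose A.gr b).support with hs
    let c : (w : Fin m → ℤ) → X.K := fun w =>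
      (((DirectSum.decompose A.gr b w : A.gr w) : X.R) : X.K) * ((f : X.K)⁻¹) ^ k
    have hc : ∀ w, c w * (f : X.K) ^ k = ((DirectSum.decompose A.gr b w : A.gr w) : X.R) := by
      intro w
      simp only [c]
      rw [mul_assoc, ← mul_pow, inv_mul_cancel₀ (fK_ne hf), one_pow, mul_one]
    have hcm : ∀ w, c w ∈ locR X f := fun w => ⟨k, _, hc w⟩
    have hch : ∀ w, A.Hom (w - k • e) (c w) := fun w =>
      hom_of_rep A hf hfe (hc w) (DirectSum.decompose A.gr b w).2
    refine ⟨∑ w ∈ s, DirectSum.of (fun w => gr' (f := f) A w) (w - k • e)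
      ⟨⟨c w, hcm w⟩, hch w⟩, ?_⟩
    rw [map_sum]
    apply Subtype.ext
    simp only [DirectSum.coeAddMonoidHom_of]
    rw [AddSubmonoidClass.coe_finsetSum]
    simp only [c]
    rw [← Finset.sum_mul]
    have h4 : ∑ w ∈ s, (((DirectSum.decompose A.gr b w : A.gr w) : X.R) : X.K) = b := by
      conv_rhs => rw [← hsum]
      rw [AddSubmonoidClass.coe_finsetSum]
    rw [h4, ← h, mul_assoc, ← mul_pow, mul_inv_cancel₀ (fK_ne hf), one_pow, mul_one]

/-- The action on the localization. -/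
def act (hATH : Stmt_ATH) (hf : f ∉ X.m) {e : Fin m → ℤ} (hfe : f ∈ A.gr e) :
    TorusAction (locG hATH hf) m where
  gr := gr' (f := f) A
  graded :=
    { gr'_monoid A, (internal A hf hfe).chooseDecomposition _ with }
  effective := by
    rw [eq_top_iff, ← A.effective]
    refine AddSubgroup.closure_mono fun u hu hbot => hu ?_
    rw [eq_bot_iff]
    intro a ha
    have h1 : (⟨(a : X.K), le_locR X f a⟩ : locR X f) ∈ gr' (f := f) A u :=
      TorusAction.Hom.of_mem ha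
    have h2 : (⟨(a : X.K), le_locR X f a⟩ : locR X f) ∈ (⊥ : Submodule ℂ (locR X f)) := hbot ▸ h1
    rw [Submodule.mem_bot] at h2
    rw [Submodule.mem_bot]
    exact Subtype.ext (congrArg (fun z : locR X f => (z : X.K)) h2)

/-! ### the triple -/

/-- The inclusion of the rings of regular functions. -/
def incl : X.R →ₐ[ℂ] locR X f := Subalgebra.inclusion fun x hx => le_locR X f ⟨x, hx⟩

theorem incl_coe (b : X.R) : ((incl (f := f) b : locR X f) : X.K) = b := rfl

theorem incl_ne {b : X.R} (h : b ≠ 0) : incl (f := f) b ≠ 0 := fun h' =>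
  h (Subtype.ext (congrArg (fun z : locR X f => (z : X.K)) h'))

theorem map_ne {I : Ideal X.R} (h : I ≠ ⊥) : Ideal.map (incl (f := f)) I ≠ ⊥ := by
  obtain ⟨b, hb, h0⟩ := Submodule.exists_mem_ne_zero_of_ne_bot h
  intro hbot
  have h1 := Ideal.mem_map_of_mem (incl (f := f)) hb
  rw [hbot, Submodule.mem_bot] at h1
  exact incl_ne h0 h1

/-- The triple on the localization. -/
abbrev tri (hATH : Stmt_ATH) (hf : f ∉ X.m) (T : Triple X) : Triple (locG hATH hf) where
  ω := T.ω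
  ω_ne := T.ω_ne
  I := T.I
  finI := T.finI
  f := T.f
  f_ne := T.f_ne
  c := T.c
  J := T.J
  finJ := T.finJ
  a := fun j => Ideal.map (incl (f := f)) (T.a j)
  a_ne := fun j => map_ne (T.a_ne j)
  r := T.r
  r_nonneg := T.r_nonneg

theorem idealOrd_map (hATH : Stmt_ATH) (hf : f ∉ X.m) {v : DivVal n X.K} (hv : X.Through v)
    {I : Ideal X.R} (hI : I ≠ ⊥) :
    idealOrd (X := locG hATH hf) v (Ideal.map (incl (f := f)) I) = idealOrd v I := by
  have hv' := (through_iff hATH hf v).mp hv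
  obtain ⟨-, h2, h3, -⟩ := t_IDO v hv.1
  obtain ⟨-, -, -, h4⟩ := t_IDO (X := locG hATH hf) v hv'.1
  obtain ⟨a, ⟨b, hb, rfl⟩, ha0, ha, hle⟩ := h4 (incl (f := f) '' (I : Set X.R)) (map_ne hI)
  obtain ⟨b', hb', hb0', hbo⟩ := h2 I hI
  have e : Ideal.map (incl (f := f)) I = Ideal.span (incl (f := f) '' (I : Set X.R)) := rfl
  rw [e, ← ha]
  apply le_antisymm
  · rw [← hbo]
    exact hle _ ⟨b', hb', rfl⟩ (incl_ne hb0')
  · refine h3 I b hb ?_
    rintro rfl
    exact ha0 (map_zero _)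

theorem inv_map (hATH : Stmt_ATH) (hf : f ∉ X.m) {e : Fin m → ℤ} (hfe : f ∈ A.gr e)
    {I : Ideal X.R} (hI : A.Inv I) : (act A hATH hf hfe).Inv (Ideal.map (incl (f := f)) I) := by
  obtain ⟨s, hs, rfl⟩ := hI
  refine ⟨incl (f := f) '' s, ?_, Ideal.map_span _ _⟩
  rintro _ ⟨b, hb, rfl⟩
  obtain ⟨u, hu⟩ := hs b hb
  exact ⟨u, TorusAction.Hom.of_mem hu⟩

/-- Transfer of the prime divisors through the point. -/
theorem primes (hOLI : Stmt_OLI) (hATH : Stmt_ATH) (hHOU : Stmt_HOU) (hf : f ∉ X.m)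
    {e : Fin m → ℤ} (hfe : f ∈ A.gr e) (v : DivVal n X.K) (P' : Ideal (locR X f))
    (hv : X.Through v) (hP' : (locG hATH hf).IsOrdAlong v P') :
    ∃ P : Ideal X.R, X.IsOrdAlong v P ∧ (A.Inv P → (act A hATH hf hfe).Inv P') := by
  have h0 := through_f hf hv
  obtain ⟨P, hP⟩ := hOLI X v hv.1 (by
    intro a ha
    obtain ⟨⟨r, k, b, hr⟩, ⟨s, l, c, hs⟩, hsP, e1⟩ := t_OLC (locG hATH hf) P' v hP' a ha
    have e2 : a * s = r := e1
    have hs0 : s ≠ 0 := by
      rintro rfl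
      exact hsP P'.zero_mem
    have hso : v.ord s = 0 := by
      have h1 : ¬ (0 < v.ord s) := fun h => hsP ((hP'.2.2.2 _).mpr (Or.inr h))
      have h2 : 0 ≤ v.ord s := hP'.2.2.1 ⟨s, l, c, hs⟩
      omega
    refine ⟨b * f ^ l, c * f ^ k, ?_, ?_, ?_⟩
    · intro h
      have h1 : ((c * f ^ k : X.R) : X.K) = 0 := by rw [h]; rfl
      push_cast at h1
      rw [← hs] at h1
      have hp : ∀ j : ℕ, (f : X.K) ^ j ≠ 0 := fun j => pow_ne_zero j (fK_ne hf)
      have hs0' : (s : X.K) ≠ 0 := hs0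
      rcases mul_eq_zero.mp h1 with h1 | h1
      · rcases mul_eq_zero.mp h1 with h1 | h1
        · exact hs0' h1
        · exact hp _ h1
      · exact hp _ h1
    · have h1 : s * (f : X.K) ^ (l + k) = ((c * f ^ k : X.R) : X.K) := by
        push_cast
        rw [← hs, pow_add]
        ring
      rw [ord_mul_pow hf h0 h1, hso]
    · push_cast
      rw [← hs, ← hr, ← e2]
      ring)
  refine ⟨P, hP, ?_⟩
  rintro ⟨s, hs, hPs⟩
  apply (hHOU (act A hATH hf hfe)).2.2.2.2 P' v hP'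
  have hne : ∃ g ∈ s, g ≠ 0 := by
    by_contra hcon
    push Not at hcon
    have hbot : P = ⊥ := by
      rw [hPs, Ideal.span_eq_bot]
      exact hcon
    have h1 := hP.2.1
    rw [hbot] at h1
    simp at h1
  obtain ⟨g, hg, hg0⟩ := hne
  obtain ⟨u, hu⟩ := hs g hg
  refine ⟨u, incl (f := f) g, TorusAction.Hom.of_mem hu, incl_ne hg0, ?_⟩
  have hgP : g ∈ P := hPs ▸ Ideal.subset_span hg
  have h1 := ((hP.2.2.2 g).mp hgP).resolve_left hg0
  exact (hP'.2.2.2 _).mpr (Or.inr h1)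

/-! ### homogeneous generators -/

theorem gens : ∃ F : Finset X.R, Algebra.adjoin ℂ (F : Set X.R) = ⊤ ∧
    ∀ g ∈ F, ∃ u, g ∈ A.gr u := by
  classical
  have h1 : Algebra.FiniteType ℂ X.R := (Subalgebra.fg_iff_finiteType X.R).mp X.fg
  obtain ⟨t, ht⟩ := h1.out
  refine ⟨t.biUnion fun r => (DirectSum.decompose A.gr r).support.image
    fun u => ((DirectSum.decompose A.gr r u : A.gr u) : X.R), ?_, ?_⟩
  · rw [← top_le_iff, ← ht, Algebra.adjoin_le_iff]
    intro r hr
    rw [SetLike.mem_coe, ← DirectSum.sum_support_decompose A.gr r]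
    refine sum_mem fun u hu => Algebra.subset_adjoin ?_
    rw [Finset.mem_coe, Finset.mem_biUnion]
    exact ⟨r, hr, Finset.mem_image.mpr ⟨u, hu, rfl⟩⟩
  · intro g hg
    rw [Finset.mem_biUnion] at hg
    obtain ⟨r, -, hg⟩ := hg
    obtain ⟨u, -, rfl⟩ := Finset.mem_image.mp hg
    exact ⟨u, (DirectSum.decompose A.gr r u).2⟩

/-- If every generator which does not vanish at the point divides `f`, the weights of the
homogeneous functions which do not vanish at the point are weights of divisors of powers of `f`. -/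
theorem weights (F : Finset X.R) (hF : Algebra.adjoin ℂ (F : Set X.R) = ⊤)
    (hom : ∀ g ∈ F, ∃ u, g ∈ A.gr u) (hdiv : ∀ g ∈ F, g ∉ X.m → g ∣ f) (w : Fin m → ℤ) (a : X.R)
    (ha : a ∈ A.gr w) (ham : a ∉ X.m) : ∃ (g : X.R) (k : ℕ), g ∈ A.gr w ∧ g ∣ f ^ k := by
  classical
  by_contra hcon
  push Not at hcon
  have hmon : ∀ M ∈ Submonoid.closure (F : Set X.R), ∃ u, M ∈ A.gr u ∧
      (M ∈ X.m ∨ ∃ k : ℕ, M ∣ f ^ k) := by
    intro M hM
    induction hM using Submonoid.closure_induction with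
    | mem g hg =>
      obtain ⟨u, hu⟩ := hom g hg
      refine ⟨u, hu, ?_⟩
      by_cases hgm : g ∈ X.m
      · exact Or.inl hgm
      · exact Or.inr ⟨1, by rw [pow_one]; exact hdiv g hg hgm⟩
    | one => exact ⟨0, SetLike.GradedOne.one_mem, Or.inr ⟨0, one_dvd _⟩⟩
    | mul M M' _ _ ih ih' =>
      obtain ⟨u, hu, h⟩ := ih
      obtain ⟨u', hu', h'⟩ := ih'
      refine ⟨u + u', SetLike.GradedMul.mul_mem hu hu', ?_⟩
      rcases h with h | ⟨k, h⟩
      · exact Or.inl (X.m.mul_mem_right _ h)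
      · rcases h' with h' | ⟨k', h'⟩
        · exact Or.inl (X.m.mul_mem_left _ h')
        · exact Or.inr ⟨k + k', by rw [pow_add]; exact mul_dvd_mul h h'⟩
  have hspan : ∀ b ∈ Submodule.span ℂ (Submonoid.closure (F : Set X.R) : Set X.R),
      ((DirectSum.decompose A.gr b w : A.gr w) : X.R) ∈ X.m := by
    intro b hb
    induction hb using Submodule.span_induction with
    | mem M hM =>
      obtain ⟨u, hu, h⟩ := hmon M hM
      by_cases huw : u = w
      · subst huw
        rw [DirectSum.decompose_of_mem_same A.gr hu]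
        rcases h with h | ⟨k, h⟩
        · exact h
        · exact absurd h (hcon M k hu)
      · rw [DirectSum.decompose_of_mem_ne A.gr hu huw]
        exact X.m.zero_mem
    | zero => simp
    | add b b' _ _ ih ih' =>
      rw [DirectSum.decompose_add, DirectSum.add_apply]
      push_cast
      exact X.m.add_mem ih ih'
    | smul c b _ ih =>
      rw [DirectSum.decompose_smul, DirectSum.smul_apply]
      rw [Submodule.coe_smul, Algebra.smul_def]
      exact X.m.mul_mem_left _ ih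
  have h1 : a ∈ Submodule.span ℂ (Submonoid.closure (F : Set X.R) : Set X.R) := by
    rw [← Algebra.adjoin_eq_span, hF]
    trivial
  have h2 := hspan a h1
  rw [DirectSum.decompose_of_mem_same A.gr ha] at h2
  exact ham h2

/-- The orbit of the point of the localization is closed. -/
theorem closed (hATH : Stmt_ATH) (hHOU : Stmt_HOU) (hf : f ∉ X.m) {e : Fin m → ℤ}
    (hfe : f ∈ A.gr e) (F : Finset X.R) (hF : Algebra.adjoin ℂ (F : Set X.R) = ⊤)
    (hom : ∀ g ∈ F, ∃ u, g ∈ A.gr u) (hdiv : ∀ g ∈ F, g ∉ X.m → g ∣ f) :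
    ClosedOrbit (act A hATH hf hfe) := by
  rintro w ⟨⟨a, k, b, h⟩, haw, ham⟩
  have hbm : b ∉ X.m := fun hb => ham ((locM_iff hf h).mpr hb)
  have haw' : A.Hom w a := haw
  have hb : b ∈ A.gr (w + k • e) := by
    apply (hHOU A).1
    rw [← h]
    exact haw'.mul ((TorusAction.Hom.of_mem hfe).pow k)
  obtain ⟨g, l, hg, c, hc⟩ := weights A F hF hom hdiv _ b hb hbm
  have hcK : (f : X.K) ^ l = (g : X.K) * c := by
    have h1 := congrArg (fun z : X.R => (z : X.K)) hc
    simpa using h1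
  have hp : ∀ j : ℕ, (f : X.K) ^ j ≠ 0 := fun j => pow_ne_zero j (fK_ne hf)
  have hgh : A.Hom w ((g : X.K) * ((f : X.K) ^ k)⁻¹) := by
    have h1 := (TorusAction.Hom.of_mem hg).mul
      (((TorusAction.Hom.of_mem hfe).pow k).inv (hp k))
    rwa [add_neg_cancel_right] at h1
  have hmem : (g : X.K) * ((f : X.K) ^ k)⁻¹ ∈ locR X f :=
    ⟨k, g, by rw [mul_assoc, inv_mul_cancel₀ (hp k), mul_one]⟩
  have hmem' : (c : X.K) * (f : X.K) ^ k * ((f : X.K) ^ l)⁻¹ ∈ locR X f :=
    ⟨l, c * f ^ k, by push_cast; rw [mul_assoc, inv_mul_cancel₀ (hp l), mul_one]⟩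
  refine ⟨⟨_, hmem⟩, hgh, IsUnit.of_mul_eq_one ⟨_, hmem'⟩ ?_⟩
  apply Subtype.ext
  change (g : X.K) * ((f : X.K) ^ k)⁻¹ * ((c : X.K) * (f : X.K) ^ k * ((f : X.K) ^ l)⁻¹) = 1
  have hpk := hp k
  have hpl := hp l
  rw [hcK] at hpl ⊢
  field_simp
  exact div_self hpl

end LCZ

theorem t_LCZ (hTRF : Stmt_TRF) (hOLI : Stmt_OLI) (hATH : Stmt_ATH) (hHOU : Stmt_HOU) :
    Stmt_LCZ := by
  classical
  intro n m X A T S hn hG
  obtain ⟨F, hF, hom⟩ := LCZ.gens A
  set f : X.R := ∏ g ∈ F with g ∉ X.m, g with hfdef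
  have hf : f ∉ X.m := by
    intro h
    obtain ⟨g, hg, hgm⟩ := (X.max.isPrime.prod_mem_iff).mp h
    exact (Finset.mem_filter.mp hg).2 hgm
  have hfe : ∃ e, f ∈ A.gr e := by
    have h1 : f ∈ SetLike.homogeneousSubmonoid A.gr :=
      Submonoid.prod_mem _ fun g hg => hom g (Finset.mem_filter.mp hg).1
    exact h1
  obtain ⟨e, hfe⟩ := hfe
  have hdiv : ∀ g ∈ F, g ∉ X.m → g ∣ f := fun g hg hgm =>
    Finset.dvd_prod_of_mem _ (Finset.mem_filter.mpr ⟨hg, hgm⟩)
  have hcl := LCZ.closed A hATH hHOU hf hfe F hF hom hdiv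
  have htr := hTRF (X := X) (X' := LCZ.locG hATH hf) (AlgEquiv.refl : X.K ≃ₐ[ℂ] X.K) A
    (LCZ.act A hATH hf hfe) T (LCZ.tri hATH hf T) S hn
    (fun v => LCZ.through_iff hATH hf v) (fun v => LCZ.at_iff hATH hf v) (hATH X).2
    (fun v hv => ⟨rfl, ?_⟩) (fun i => ⟨i, rfl⟩) (fun i => LCZ.inv_map A hATH hf hfe (hG.inv.2 i))
    (fun v P' hv hP' => LCZ.primes A hOLI hATH hHOU hf hfe v P' hv hP') hG
  · exact ⟨_, _, _, htr.1, htr.2, hcl⟩
  · unfold Triple.disc
    refine congrArg₂ (· - ·) rfl ?_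
    refine Finset.sum_congr rfl fun j _ => ?_
    change T.r j * _ = T.r j * _
    rw [← LCZ.idealOrd_map hATH hf hv (T.a_ne j)]
    rfl

end

end MldG
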