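import Pool.Agent.MldG.StmtsF
import Pool.Agent.MldGeo.Stmts9
import Pool.Agent.MldAcc.Defs

/-!
# Fixed points with nonconstant invariant functions

In complexity one, if `x` is a fixed point and there are nonconstant invariant regular functions,
then `X` is near `x` formally toric. The place of the field of invariants which is the image of `x`
is `y₀`.
-/

namespace MldG

open MldGeo MldGap MldAcc

noncomputable section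

/-- `y₀` is the image of `x` in the quotient curve. -/
structure Centre {m : ℕ} {X : Germ (m + 1)} (A : TorusAction X m) (y₀ : DivVal 1 A.K0) : Prop where
  nonneg : ∀ b : A.K0, (b : X.K) ∈ X.R → 0 ≤ y₀.ord b
  zero : ∀ (b : A.K0) (h : (b : X.K) ∈ X.R), (⟨(b : X.K), h⟩ : X.R) ∉ X.m → y₀.ord b = 0
  pos : ∀ (b : A.K0) (h : (b : X.K) ∈ X.R), (⟨(b : X.K), h⟩ : X.R) ∈ X.m → b ≠ 0 → 0 < y₀.ord b
  unique : ∀ y : DivVal 1 A.K0, (∀ b : A.K0, (b : X.K) ∈ X.R → 0 ≤ y.ord b) →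
    (∀ (b : A.K0) (h : (b : X.K) ∈ X.R), (⟨(b : X.K), h⟩ : X.R) ∉ X.m → y.ord b = 0) → y = y₀
  /-- there are invariant functions which vanish at `x` -/
  ex : ∃ b : A.K0, b ≠ 0 ∧ ∃ h : (b : X.K) ∈ X.R, (⟨(b : X.K), h⟩ : X.R) ∈ X.m

/-- CYZ: the centre. -/
def Stmt_CYZ : Prop :=
  ∀ {m : ℕ} {X : Germ (m + 1)} (A : TorusAction X m),
    (∃ a ∈ A.gr 0, ∀ c : ℂ, a ≠ algebraMap ℂ X.R c) → ∃ y₀ : DivVal 1 A.K0, Centre A y₀

/-- GEZ: generators which vanish at `x`. -/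
def Stmt_GEZ : Prop :=
  ∀ {m : ℕ} {X : Germ (m + 1)} (A : TorusAction X m) (S : Splitting A) (y₀ : DivVal 1 A.K0),
    Fixed A → Centre A y₀ →
    ∃ (N : ℕ) (u : Fin N → Fin m → ℤ) (b : Fin N → A.K0),
      (∀ i, b i ≠ 0) ∧
      (∀ i, ∃ h : (b i : X.K) * S.χ (u i) ∈ X.R, (⟨(b i : X.K) * S.χ (u i), h⟩ : X.R) ∈ X.m) ∧
      (∀ a ∈ X.R, a ∈ Algebra.adjoin ℂ (Set.range fun i => (b i : X.K) * S.χ (u i))) ∧
      (∀ (l : ℝ) (w : Fin m → ℝ), (∀ i, l * y₀.ord (b i) + pr w (u i) = 0) → l = 0 ∧ w = 0) ∧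
      (∃ (l : ℤ) (w : Fin m → ℤ), ∀ i, 0 < l * y₀.ord (b i) + ip w (u i)) ∧
      ∀ (l : ℤ) (w : Fin m → ℤ), (∀ i, 0 ≤ l * y₀.ord (b i) + ip w (u i)) → 0 ≤ l

/-- NGZ: it is enough to test the generators. -/
def Stmt_NGZ : Prop :=
  ∀ {m : ℕ} {X : Germ (m + 1)} (A : TorusAction X m) (S : Splitting A) (y₀ : DivVal 1 A.K0),
    Fixed A → Centre A y₀ → ∀ (N : ℕ) (u : Fin N → Fin m → ℤ) (b : Fin N → A.K0),
      (∀ i, b i ≠ 0) →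
      (∀ i, ∃ h : (b i : X.K) * S.χ (u i) ∈ X.R, (⟨(b i : X.K) * S.χ (u i), h⟩ : X.R) ∈ X.m) →
      (∀ a ∈ X.R, a ∈ Algebra.adjoin ℂ (Set.range fun i => (b i : X.K) * S.χ (u i))) →
      ∀ (l : ℤ) (w : Fin m → ℤ), 0 ≤ l →
        ((∀ i, 0 ≤ l * y₀.ord (b i) + ip w (u i)) → NonnegR S w l y₀) ∧
        ((∀ i, 0 < l * y₀.ord (b i) + ip w (u i)) →
          ∀ (c : A.K0) (z : Fin m → ℤ) (h : (c : X.K) * S.χ z ∈ X.R), c ≠ 0 →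
            (⟨(c : X.K) * S.χ z, h⟩ : X.R) ∈ X.m → 0 < l * y₀.ord c + ip w z)

/-- THZ: the centres of the valuations. -/
def Stmt_THZ : Prop :=
  ∀ {m : ℕ} {X : Germ (m + 1)} (A : TorusAction X m) (S : Splitting A) (y₀ : DivVal 1 A.K0),
    Fixed A → Centre A y₀ →
    (∀ (v : DivVal (m + 1) X.K) (w : Fin m → ℤ) (l : ℤ), 0 ≤ l → IsTor S v w l y₀ →
      NonnegR S w l y₀ → X.Through v ∧
        ((∀ (c : A.K0) (z : Fin m → ℤ) (h : (c : X.K) * S.χ z ∈ X.R), c ≠ 0 →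
            (⟨(c : X.K) * S.χ z, h⟩ : X.R) ∈ X.m → 0 < l * y₀.ord c + ip w z) → X.At v)) ∧
    ∀ (v : DivVal (m + 1) X.K), X.Through v → ∃ (w : Fin m → ℤ) (l : ℤ), 0 ≤ l ∧
      Along S v w l y₀ ∧ NonnegR S w l y₀ ∧
        (X.At v → ∀ (c : A.K0) (z : Fin m → ℤ) (h : (c : X.K) * S.χ z ∈ X.R), c ≠ 0 →
            (⟨(c : X.K) * S.χ z, h⟩ : X.R) ∈ X.m → 0 < l * y₀.ord c + ip w z)

/-- NOZ: regular homogeneous functions. -/
def Stmt_NOZ : Prop :=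
  ∀ {m : ℕ} {X : Germ (m + 1)} (A : TorusAction X m) (S : Splitting A) (y₀ : DivVal 1 A.K0),
    Fixed A → Centre A y₀ → ∀ (b : A.K0) (u : Fin m → ℤ), b ≠ 0 →
    (∀ (w : Fin m → ℤ) (l : ℤ), 0 ≤ l → NonnegR S w l y₀ → 0 ≤ l * y₀.ord b + ip w u) →
    ∃ s : A.K0, s ≠ 0 ∧ y₀.ord s = 0 ∧ (s : X.K) * ((b : X.K) * S.χ u) ∈ X.R

/-- RAZ: toroidal valuations which are orders along prime divisors. -/
def Stmt_RAZ : Prop :=
  ∀ {m : ℕ} {X : Germ (m + 1)} (A : TorusAction X m) (S : Splitting A) (y₀ : DivVal 1 A.K0),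
    Fixed A → Centre A y₀ → ∀ (v : DivVal (m + 1) X.K) (w : Fin m → ℤ) (l : ℤ), 0 ≤ l →
    IsTor S v w l y₀ → NonnegR S w l y₀ → ∀ (u : Fin m → (Fin m → ℤ)) (e : Fin m → ℤ),
    LinearIndependent ℤ (fun k => (Fin.cons (e k) (u k) : Fin (m + 1) → ℤ)) →
    (∀ k w' l', 0 ≤ l' → NonnegR S w' l' y₀ → 0 ≤ l' * e k + ip w' (u k)) →
    (∀ k, l * e k + ip w (u k) = 0) → ∃ P : Ideal X.R, X.IsOrdAlong v P

/-- The value of a finite family of linear functions. -/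
def minz {m N : ℕ} (z : Fin N → Fin m → ℤ) (w : Fin m → ℤ) : ℝ :=
  sInf (Set.range fun k => ((ip w (z k) : ℤ) : ℝ))

/-- The combinatorial data of a formally toric triple of dimension `m + 1`. -/
structure Daz {m : ℕ} {X : Germ (m + 1)} (T : Triple X) where
  N : ℕ
  U : Fin N → Fin (m + 1) → ℤ
  span : ∀ w : Fin (m + 1) → ℝ, (∀ i, pr w (U i) = 0) → w = 0
  int : ∃ w : Fin (m + 1) → ℤ, ∀ i, 0 < ip w (U i)
  ψ : Fin (m + 1) → ℝ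
  M : T.J → ℕ
  M_pos : ∀ j, 0 < M j
  z : ∀ j, Fin (M j) → Fin (m + 1) → ℤ
  reg : ∀ j k (w : Fin (m + 1) → ℤ), (∀ i, 0 ≤ ip w (U i)) → 0 ≤ ip w (z j k)
  low : ∀ v, X.Through v → ∃ w : Fin (m + 1) → ℤ, (∀ i, 0 ≤ ip w (U i)) ∧
    (X.At v → ∀ i, 0 < ip w (U i)) ∧ ∑ i, ψ i * w i - ∑ j, T.r j * minz (z j) w ≤ T.disc v
  tor : ∀ w : Fin (m + 1) → ℤ, (∃ u, ip w u = 1) → (∀ i, 0 ≤ ip w (U i)) → ∃ v, X.Through v ∧
    T.disc v = ∑ i, ψ i * w i - ∑ j, T.r j * minz (z j) w ∧ ((∀ i, 0 < ip w (U i)) → X.At v)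
  ath : ∀ v, X.At v → X.Through v
  ray : ∀ w : Fin (m + 1) → ℤ, (∃ u, ip w u = 1) → (∀ i, 0 ≤ ip w (U i)) →
    ∀ Z : Fin m → Fin (m + 1) → ℤ, LinearIndependent ℤ Z →
    (∀ k (w' : Fin (m + 1) → ℤ), (∀ i, 0 ≤ ip w' (U i)) → 0 ≤ ip w' (Z k)) →
    (∀ k, ip w (Z k) = 0) → ∃ P : Ideal X.R, T.Coeff P (1 - ∑ i, ψ i * w i)

/-- DAZ: the combinatorial data exist. -/
def Stmt_DAZ : Prop :=
  ∀ {m : ℕ} {X : Germ (m + 1)} (A : TorusAction X m) (T : Triple X), A.InvTriple T → Fixed A →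
    (∃ a ∈ A.gr 0, ∀ c : ℂ, a ≠ algebraMap ℂ X.R c) → Nonempty (Daz T)

/-- NRG: the facets dual to the extremal rays of a strongly convex rational cone. -/
def Stmt_NRG : Prop :=
  ∀ {m k : ℕ} (r : Fin k → Fin (m + 1) → ℤ) (f : (Fin (m + 1) → ℝ) →ₗ[ℝ] ℝ),
    (∀ j, 0 < f (toR (r j))) →
    (∀ j, ¬ ∃ a : Fin k → ℝ, (∀ i, 0 ≤ a i) ∧ a j = 0 ∧ toR (r j) = ∑ i, a i • toR (r i)) →
    ∀ j, ∃ Z : Fin m → Fin (m + 1) → ℤ, LinearIndependent ℤ Z ∧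
      ∀ i, ip (r j) (Z i) = 0 ∧ ∀ j', j' ≠ j → 0 < ip (r j') (Z i)

/-- CMZ: the minimal log discrepancy is the one of a toric triple. -/
def Stmt_CMZ : Prop :=
  ∀ {m : ℕ} {X : Germ (m + 1)} {T : Triple X} (_d : Daz T), T.Effective → T.LC →
    ∀ S : Set ℝ, T.CoeffIn S → T.mld ∈ MldAcc.mldSet (m + 1) (insert 0 S)

/-- TAG: the ascending chain condition for varieties with torus action of complexity at most one,
at arbitrary closed points. -/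
def Stmt_TAG : Prop :=
  ∀ (n : ℕ) (S : Set ℝ), S.IsWF → ∀ (X : ℕ → Germ n) (T : ∀ k, Triple (X k)) (m : ℕ → ℕ)
    (A : ∀ k, TorusAction (X k) (m k)), (∀ k, n ≤ m k + 1) → (∀ k, (A k).InvTriple (T k)) →
    (∀ k, (T k).Effective) → (∀ k, (T k).LC) → (∀ k, (T k).CoeffIn S) →
    ¬ StrictMono fun k => (T k).mld

end

end MldG
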