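import Pool.Agent.MldG.Stmts8

/-!
# Arbitrary closed points: reduction to fixed points

Three operations which do not change the local situation at `x`: localization at a semi-invariant
function which does not vanish at `x`; adjoining a root of an invertible semi-invariant function (an
étale cover); replacing a factor `ℂ^*` by the affine line.
-/

namespace MldG

open MldGeo

open MvPolynomial

noncomputable section

/-- The hypotheses on the triple. -/
structure Good {n m : ℕ} {X : Germ n} (A : TorusAction X m) (T : Triple X) (S : Set ℝ) : Prop where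
  inv : A.InvTriple T
  eff : T.Effective
  lc : T.LC
  coeff : T.CoeffIn S

/-- The weights of the invertible semi-invariant functions. -/
def UnitWt {n m : ℕ} {X : Germ n} (A : TorusAction X m) (u : Fin m → ℤ) : Prop :=
  ∃ g ∈ A.gr u, IsUnit g

/-- The orbit of `x` is closed. -/
def ClosedOrbit {n m : ℕ} {X : Germ n} (A : TorusAction X m) : Prop :=
  ∀ u, (∃ a ∈ A.gr u, a ∉ X.m) → UnitWt A u

/-- The point `x` is fixed. -/
def Fixed {n m : ℕ} {X : Germ n} (A : TorusAction X m) : Prop :=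
  ∀ u, u ≠ 0 → ∀ a ∈ A.gr u, a ∈ X.m

/-- The valuation `v ∘ j`. -/
def comap {n : ℕ} {K L : Type} [Field K] [Algebra ℂ K] [Field L] [Algebra ℂ L] (j : K ≃ₐ[ℂ] L)
    (v : DivVal n L) : DivVal n K where
  ord a := v.ord (j a)
  ord_zero := by rw [map_zero, v.ord_zero]
  ord_mul a b ha hb := by
    rw [map_mul, v.ord_mul _ _ (by simpa using ha) (by simpa using hb)]
  ord_add a b ha hb hab := by
    rw [map_add]
    exact v.ord_add _ _ (by simpa using ha) (by simpa using hb) (by simpa [← map_add] using hab)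
  ord_const c := by rw [AlgEquiv.commutes, v.ord_const]
  unif := by
    obtain ⟨t, h0, h1⟩ := v.unif
    exact ⟨j.symm t, by simpa using h0, by rw [AlgEquiv.apply_symm_apply, h1]⟩
  res := by
    obtain ⟨u, hu⟩ := v.res
    have key : ∀ p : MvPolynomial (Fin (n - 1)) ℂ,
        j (MvPolynomial.aeval (fun i => j.symm (u i)) p) = MvPolynomial.aeval u p := by
      intro p
      have h1 : j (MvPolynomial.aeval (fun i => j.symm (u i)) p)
          = (j : K →ₐ[ℂ] L) (MvPolynomial.aeval (fun i => j.symm (u i)) p) := rfl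
      rw [h1, ← AlgHom.comp_apply, MvPolynomial.comp_aeval]
      congr 1
      ext i
      simp
    refine ⟨fun i => j.symm (u i), fun p hp => ⟨?_, ?_⟩⟩
    · intro h
      have h2 := key p
      rw [h, map_zero] at h2
      exact (hu p hp).1 h2.symm
    · rw [key p]
      exact (hu p hp).2

/-- TRF: transfer of the hypotheses and of the minimal log discrepancy along an isomorphism of the
function fields which respects the valuations whose centre contains `x`. -/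
def Stmt_TRF : Prop :=
  ∀ {n m m' : ℕ} {X X' : Germ n} (j : X'.K ≃ₐ[ℂ] X.K) (A : TorusAction X m)
    (A' : TorusAction X' m') (T : Triple X) (T' : Triple X') (S : Set ℝ), 0 < n →
    (∀ v : DivVal n X.K, X.Through v ↔ X'.Through (comap j v)) →
    (∀ v : DivVal n X.K, X.At v ↔ X'.At (comap j v)) →
    (∀ v : DivVal n X.K, X.At v → X.Through v) →
    (∀ v : DivVal n X.K, X.Through v →
      T'.logDisc (comap j v) = T.logDisc v ∧ T'.disc (comap j v) = T.disc v) →
    (∀ i, ∃ k, T'.r i = T.r k) → (∀ i, A'.Inv (T'.a i)) →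
    (∀ (v : DivVal n X.K) (P' : Ideal X'.R), X.Through v → X'.IsOrdAlong (comap j v) P' →
      ∃ P : Ideal X.R, X.IsOrdAlong v P ∧ (A.Inv P → A'.Inv P')) →
    Good A T S → Good A' T' S ∧ T'.mld = T.mld

/-- HTC: along a prime divisor there are `n - 1` regular functions whose residues are algebraically
independent. -/
def Stmt_HTC : Prop :=
  ∀ {n : ℕ} (X : Germ n) (v : DivVal n X.K) (P : Ideal X.R), X.IsOrdAlong v P →
    ∃ u : Fin (n - 1) → X.R, ∀ p : MvPolynomial (Fin (n - 1)) ℂ, p ≠ 0 →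
      (aeval u p : X.R) ≠ 0 ∧ v.ord (aeval u p : X.R) = 0

/-- OLI: if every function which is regular along `v` is a fraction of regular functions whose
denominator has order zero, then `v` is the order along a prime divisor. -/
def Stmt_OLI : Prop :=
  ∀ {n : ℕ} (X : Germ n) (v : DivVal n X.K), (∀ a : X.R, 0 ≤ v.ord a) →
    (∀ a : X.K, v.Ge 0 a → ∃ r s : X.R, s ≠ 0 ∧ v.ord s = 0 ∧ a * (s : X.K) = r) →
    ∃ P : Ideal X.R, X.IsOrdAlong v P

/-- ATH: the residue field of `x` is `ℂ`. -/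
def Stmt_ATH : Prop :=
  ∀ {n : ℕ} (X : Germ n), (∀ a : X.R, ∃ c : ℂ, a - algebraMap ℂ X.R c ∈ X.m) ∧
    ∀ v, X.At v → X.Through v

/-- HOU: homogeneous elements. -/
def Stmt_HOU : Prop :=
  ∀ {n m : ℕ} {X : Germ n} (A : TorusAction X m),
    (∀ (u : Fin m → ℤ) (a : X.R), A.Hom u (a : X.K) → a ∈ A.gr u) ∧
    (∀ g : X.R, IsUnit g → ∃ u, g ∈ A.gr u) ∧
    (∀ (u : Fin m → ℤ) (g g' : X.R), g ∈ A.gr u → g * g' = 1 → g' ∈ A.gr (-u)) ∧
    (∀ (a : X.R) (k : ℕ) (u : Fin m → ℤ), 0 < k → a ^ k ∈ A.gr u → ∃ w, a ∈ A.gr w) ∧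
    ∀ (P : Ideal X.R) (v : DivVal n X.K), X.IsOrdAlong v P →
      (∃ (u : Fin m → ℤ) (a : X.R), a ∈ A.gr u ∧ a ≠ 0 ∧ a ∈ P) → A.Inv P

/-- LCZ: localization. One may assume that the orbit of `x` is closed. -/
def Stmt_LCZ : Prop :=
  ∀ {n m : ℕ} {X : Germ n} (A : TorusAction X m) (T : Triple X) (S : Set ℝ), 0 < n →
    Good A T S → ∃ (X' : Germ n) (A' : TorusAction X' m) (T' : Triple X'),
      Good A' T' S ∧ T'.mld = T.mld ∧ ClosedOrbit A'

/-! ## adjoining a root -/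

/-- The cover of `X` by the `p`-th root of an invertible function `g`. -/
structure RootCover {n : ℕ} (X : Germ n) (p : ℕ) (g : X.R) where
  /-- the cover -/
  X' : Germ n
  alg : Algebra X.K X'.K
  tower : IsScalarTower ℂ X.K X'.K
  finite : FiniteDimensional X.K X'.K
  galois : IsGalois X.K X'.K
  /-- the root -/
  z : X'.K
  pow : z ^ p = algebraMap X.K X'.K g
  mem : ∀ a' : X'.K, a' ∈ X'.R ↔ ∃ a : Fin p → X.R, a' = ∑ i : Fin p, algebraMap X.K X'.K (a i) * z ^ (i : ℕ)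
  indep : ∀ a : Fin p → X.K, ∑ i : Fin p, algebraMap X.K X'.K (a i) * z ^ (i : ℕ) = 0 → a = 0
  span : ∀ a' : X'.K, ∃ a : Fin p → X.K, a' = ∑ i : Fin p, algebraMap X.K X'.K (a i) * z ^ (i : ℕ)
  /-- the automorphisms multiply `z` by roots of unity -/
  conj : ∀ ζ : ℂ, ζ ^ p = 1 → ∃ σ : X'.K ≃ₐ[X.K] X'.K, σ z = algebraMap ℂ X'.K ζ * z
  /-- the value of `z` at the point -/
  c : ℂ
  pt : ∀ (a : Fin p → X.R) (h : ∑ i : Fin p, algebraMap X.K X'.K (a i) * z ^ (i : ℕ) ∈ X'.R),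
    (⟨∑ i : Fin p, algebraMap X.K X'.K (a i) * z ^ (i : ℕ), h⟩ : X'.R) ∈ X'.m ↔
      ∑ i : Fin p, algebraMap ℂ X.R (c ^ (i : ℕ)) * a i ∈ X.m
  c_pow : g - algebraMap ℂ X.R (c ^ p) ∈ X.m

attribute [instance] RootCover.alg RootCover.tower RootCover.finite RootCover.galois

/-- KUX: covers exist. -/
def Stmt_KUX : Prop :=
  ∀ {n : ℕ} (X : Germ n) (p : ℕ) (g : X.R), p.Prime → IsUnit g →
    (∀ b : X.K, b ^ p ≠ g) → Nonempty (RootCover X p g)

/-- KUV: valuations and covers. -/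
def Stmt_KUV : Prop :=
  ∀ {n : ℕ} (X : Germ n) (p : ℕ) (g : X.R), 0 < n → p.Prime → IsUnit g →
    ∀ k : RootCover X p g,
    (∀ v' : DivVal n k.X'.K, (∀ a : k.X'.R, 0 ≤ v'.ord a) →
      ∃ v : DivVal n X.K, IsExt v' v 1 ∧ (∀ a : X.R, 0 ≤ v.ord a) ∧
        (k.X'.Through v' → X.Through v) ∧ (k.X'.At v' → X.At v) ∧
        ∀ P' : Ideal k.X'.R, k.X'.IsOrdAlong v' P' → ∃ P : Ideal X.R, X.IsOrdAlong v P ∧
          ∀ a ∈ P, ∃ h : algebraMap X.K k.X'.K (a : X.K) ∈ k.X'.R,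
            (⟨algebraMap X.K k.X'.K (a : X.K), h⟩ : k.X'.R) ∈ P') ∧
    ∀ v : DivVal n X.K, X.At v → ∃ v' : DivVal n k.X'.K, IsExt v' v 1 ∧ k.X'.At v'

/-- KUT: triples and covers. -/
def Stmt_KUT : Prop :=
  ∀ {n : ℕ} (X : Germ n) (p : ℕ) (g : X.R), 0 < n → p.Prime → IsUnit g →
    ∀ (k : RootCover X p g) (T : Triple X), ∃ T' : Triple k.X',
      (∀ (v' : DivVal n k.X'.K) (v : DivVal n X.K), IsExt v' v 1 → (∀ a : k.X'.R, 0 ≤ v'.ord a) →
        T'.logDisc v' = T.logDisc v ∧ T'.disc v' = T.disc v) ∧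
      ∀ i' : T'.J, ∃ i : T.J, T'.r i' = T.r i ∧
        T'.a i' = Ideal.span {a' : k.X'.R | ∃ a ∈ T.a i, (a' : k.X'.K) = algebraMap X.K k.X'.K a}

/-- KUA: torus actions and covers. The root has weight `u`. -/
def Stmt_KUA : Prop :=
  ∀ {n m : ℕ} {X : Germ n} (A : TorusAction X m) (p : ℕ) (g : X.R) (u : Fin m → ℤ), 0 < n →
    p.Prime → IsUnit g → g ∈ A.gr ((p : ℤ) • u) → ClosedOrbit A → ∀ k : RootCover X p g,
    ∃ A' : TorusAction k.X' m,
      (∀ (w : Fin m → ℤ) (a : X.R), a ∈ A.gr w →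
        ∃ h : algebraMap X.K k.X'.K (a : X.K) ∈ k.X'.R,
          (⟨algebraMap X.K k.X'.K (a : X.K), h⟩ : k.X'.R) ∈ A'.gr w) ∧
      ClosedOrbit A' ∧ ∀ w, UnitWt A' w ↔ ∃ i : ℤ, UnitWt A (w - i • u)

/-- KM1: one step of the saturation of the group of weights of invertible functions. -/
def Stmt_KM1 : Prop :=
  ∀ {n m : ℕ} {X : Germ n} (A : TorusAction X m) (T : Triple X) (S : Set ℝ), 0 < n →
    Good A T S → ClosedOrbit A → ∀ (p : ℕ) (u : Fin m → ℤ), p.Prime → ¬ UnitWt A u →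
    UnitWt A ((p : ℤ) • u) → ∃ (X' : Germ n) (A' : TorusAction X' m) (T' : Triple X'),
      Good A' T' S ∧ T'.mld = T.mld ∧ ClosedOrbit A' ∧
        ∀ w, UnitWt A' w ↔ ∃ i : ℤ, UnitWt A (w - i • u)

/-- The group of weights of invertible functions is saturated. -/
def Sat {n m : ℕ} {X : Germ n} (A : TorusAction X m) : Prop :=
  ∀ (u : Fin m → ℤ) (k : ℕ), 0 < k → UnitWt A ((k : ℤ) • u) → UnitWt A u

/-- KMS: one may assume that the group of weights of invertible functions is saturated. -/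
def Stmt_KMS : Prop :=
  ∀ {n m : ℕ} {X : Germ n} (A : TorusAction X m) (T : Triple X) (S : Set ℝ), 0 < n →
    Good A T S → ClosedOrbit A → ∃ (X' : Germ n) (A' : TorusAction X' m) (T' : Triple X'),
      Good A' T' S ∧ T'.mld = T.mld ∧ ClosedOrbit A' ∧ Sat A'

/-! ## the affine line -/

/-- ISO: forms and isomorphisms of the function fields. -/
def Stmt_ISO : Prop :=
  ∀ {n : ℕ} {K L : Type} [Field K] [Algebra ℂ K] [Field L] [Algebra ℂ L] (j : K ≃ₐ[ℂ] L)
    (ω : Forms n L), ω ≠ 0 → ∃ ω' : Forms n K, ω' ≠ 0 ∧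
      ∀ v : DivVal n L, (comap j v).formOrd ω' = v.formOrd ω

/-- AFX: replacing a factor `ℂ^*` by the affine line. The isomorphism `j` is the translation which
maps the coordinate `g` to `g - g(x)`; it is the identity on the functions whose weight is in the
kernel of `φ`. -/
def Stmt_AFX : Prop :=
  ∀ {n m : ℕ} {X : Germ n} (A : TorusAction X m) (φ : (Fin m → ℤ) →+ ℤ) (u : Fin m → ℤ)
    (g : X.R), 0 < n → IsUnit g → g ∈ A.gr u → φ u = 1 → ClosedOrbit A → Sat A →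
    ∃ (X' : Germ n) (j : X'.K ≃ₐ[ℂ] X.K) (A' : TorusAction X' m),
      (∀ v : DivVal n X.K, X.Through v ↔ X'.Through (comap j v)) ∧
      (∀ v : DivVal n X.K, X.At v ↔ X'.At (comap j v)) ∧
      (∀ (v : DivVal n X.K) (P' : Ideal X'.R), X.Through v → X'.IsOrdAlong (comap j v) P' →
        ∃ P : Ideal X.R, X.IsOrdAlong v P) ∧
      (∀ (w : Fin m → ℤ) (a : X.R), φ w = 0 → a ∈ A.gr w →
        ∃ h : j.symm (a : X.K) ∈ X'.R, (⟨j.symm (a : X.K), h⟩ : X'.R) ∈ A'.gr w) ∧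
      ClosedOrbit A' ∧ Sat A' ∧ ∀ w, UnitWt A' w ↔ UnitWt A w ∧ φ w = 0

/-- AF1: one step. -/
def Stmt_AF1 : Prop :=
  ∀ {n m : ℕ} {X : Germ n} (A : TorusAction X m) (T : Triple X) (S : Set ℝ), 0 < n →
    Good A T S → ClosedOrbit A → Sat A → ∀ (φ : (Fin m → ℤ) →+ ℤ) (u : Fin m → ℤ),
    UnitWt A u → φ u = 1 → ∃ (X' : Germ n) (A' : TorusAction X' m) (T' : Triple X'),
      Good A' T' S ∧ T'.mld = T.mld ∧ ClosedOrbit A' ∧ Sat A' ∧
        ∀ w, UnitWt A' w ↔ UnitWt A w ∧ φ w = 0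

/-- FXP: one may assume that `x` is a fixed point. -/
def Stmt_FXP : Prop :=
  ∀ {n m : ℕ} {X : Germ n} (A : TorusAction X m) (T : Triple X) (S : Set ℝ), 0 < n →
    Good A T S → ∃ (X' : Germ n) (A' : TorusAction X' m) (T' : Triple X'),
      Good A' T' S ∧ T'.mld = T.mld ∧ Fixed A'

end

end MldG
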