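import Pool.Agent.MldG.StmtsZ
import Pool.Agent.MldG.SPL
import Pool.Agent.MldGeo.AFF
import Pool.Agent.MldGeo.DIV
import Pool.Agent.MldGeo.RS1

/-!
# CYZ: the centre

If there are nonconstant invariant regular functions, the point `x` defines a place of the field of
invariants.
-/

namespace MldG

open MldGeo

noncomputable section

namespace CYZ

open Polynomial

open AFF IntermediateField.algebraAdjoinAdjoin in
/-- the functions which are integral over `ℂ[s]` -/
theorem affi {F : Type} [Field F] [Algebra ℂ F] (hF : IsCurve F) (s : F)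
    (hs : Transcendental ℂ s) :
    ∃ S : Subalgebra ℂ F, (∀ a ∈ S, IsIntegral (Algebra.adjoin ℂ {s}) a) ∧
      ∀ y : DivVal 1 F, y.Ge 0 s → ∀ a : F, y.Ge 0 a → ∃ r ∈ S, ∃ q ∈ S, q ≠ 0 ∧ y.ord q = 0 ∧
        a * q = r := by
  have hfd : FiniteDimensional (IntermediateField.adjoin ℂ {s}) F := hF.2 s hs
  let A : Subalgebra ℂ F := Algebra.adjoin ℂ {s}
  let L : IntermediateField ℂ F := IntermediateField.adjoin ℂ {s}
  let e : Polynomial ℂ ≃ₐ[ℂ] A := Polynomial.algEquivOfTranscendental ℂ s hs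
  have hA1 : IsPrincipalIdealRing A := IsPrincipalIdealRing.of_surjective e.toRingEquiv.toRingHom
    e.surjective
  have : IsDedekindDomain A := inferInstance
  have : IsFractionRing A L := inferInstanceAs
    (IsFractionRing (Algebra.adjoin ℂ {s}) (IntermediateField.adjoin ℂ {s}))
  have : IsScalarTower A L F := inferInstanceAs
    (IsScalarTower (Algebra.adjoin ℂ {s}) (IntermediateField.adjoin ℂ {s}) F)
  have : Algebra.IsSeparable L F := inferInstance
  have hD : IsDedekindDomain (integralClosure A F) := integralClosure.isDedekindDomain A L F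
  have hFr : IsFractionRing (integralClosure A F) F :=
    integralClosure.isFractionRing_of_finite_extension L F
  let S : Subalgebra ℂ F := (integralClosure A F).restrictScalars ℂ
  have hmem : ∀ a : F, a ∈ S ↔ IsIntegral A a := fun a => Iff.rfl
  have hint : ∀ y : DivVal 1 F, y.Ge 0 s → ∀ a ∈ S, y.Ge 0 a := by
    intro y hy a ha
    have hAO : ∀ b ∈ A, b ∈ y.OV := by
      intro b hb
      induction hb using Algebra.adjoin_induction with
      | mem x hx =>
        rw [Set.mem_singleton_iff] at hx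
        rw [hx]
        exact hy
      | algebraMap c => exact DivVal.Ge.const y c
      | add x y' _ _ hx hy' => exact hx.add hy'
      | mul x y' _ _ hx hy' => exact hx.mul_left hy'
    let ι : A →+* y.OV := (A.toSubring.subtype.codRestrict y.OV.toSubring fun b => hAO b b.2)
    obtain ⟨p, hp1, hp2⟩ := (hmem a).1 ha
    have h1 : IsIntegral y.OV a := by
      refine ⟨p.map ι, hp1.map ι, ?_⟩
      rw [Polynomial.eval₂_map]
      exact hp2
    obtain ⟨b, rfl⟩ := (IsIntegrallyClosed.isIntegral_iff (R := y.OV) (K := F)).1 h1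
    exact b.2
  refine ⟨S, fun a ha => ha, ?_⟩
  intro y hy a ha
  by_cases ha0 : a = 0
  · exact ⟨0, S.zero_mem, 1, S.one_mem, one_ne_zero, DivVal.ord_one y, by rw [ha0, zero_mul]⟩
  let P : Ideal (integralClosure A F) :=
    { carrier := {b | y.Ge 1 (b : F)}
      add_mem' := fun h1 h2 => h1.add h2
      zero_mem' := DivVal.Ge.zero y 1
      smul_mem' := fun c b hb => (hint y hy c c.2).mul_left hb }
  have hPt : P ≠ ⊤ := by
    rw [Ideal.ne_top_iff_one]
    intro h
    have h1 : y.Ge 1 (1 : F) := h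
    have h2 := h1.le one_ne_zero
    rw [DivVal.ord_one] at h2
    omega
  have hq : ∀ q : integralClosure A F, q ∉ P → (q : F) ≠ 0 ∧ y.ord (q : F) = 0 := by
    intro q hq
    have h1 : ¬ y.Ge 1 (q : F) := hq
    have h2 : y.Ge 0 (q : F) := hint y hy q q.2
    have h3 : (q : F) ≠ 0 := fun h => h1 (Or.inl h)
    refine ⟨h3, ?_⟩
    have h4 := h2.le h3
    have h5 : ¬ 1 ≤ y.ord (q : F) := fun h => h1 (Or.inr h)
    omega
  obtain ⟨r, q, hqP, h | h⟩ := ded P hPt a ha0
  · obtain ⟨h3, h4⟩ := hq q hqP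
    exact ⟨r, r.2, q, q.2, h3, h4, h⟩
  · -- then `a` is a unit at `y`
    obtain ⟨h3, h4⟩ := hq q hqP
    have h5 : a⁻¹ * (q : F) = (r : F) := h
    have hr0 : (r : F) ≠ 0 := by
      rw [← h5]
      exact mul_ne_zero (inv_ne_zero ha0) h3
    have h6 : y.ord (r : F) = - y.ord a := by
      rw [← h5, y.ord_mul _ _ (inv_ne_zero ha0) h3, DivVal.ord_inv, h4, add_zero]
    have h7 := (hint y hy r r.2).le hr0
    have h8 := ha.le ha0
    refine ⟨q, q.2, r, r.2, hr0, by omega, ?_⟩
    rw [← h5]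
    field_simp

/-- functions with zeros are transcendental -/
theorem transc {F : Type} [Field F] [Algebra ℂ F] (y : DivVal 1 F) {t : F} (h : 0 < y.ord t) :
    Transcendental ℂ t := by
  intro hal
  have hint : IsIntegral ℂ t := hal.isIntegral
  obtain ⟨c, hc⟩ := minpoly.mem_range_of_degree_eq_one ℂ t
    (IsAlgClosed.degree_eq_one_of_irreducible ℂ (minpoly.irreducible hint))
  have := y.ord_const c
  rw [hc] at this
  omega

theorem ext1 {F : Type} [Field F] [Algebra ℂ F] {y y' : DivVal 1 F} (h : ∀ a, y.ord a = y'.ord a) :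
    y = y' := by
  obtain ⟨o, _, _, _, _, _, _⟩ := y
  obtain ⟨o', _, _, _, _, _, _⟩ := y'
  have : o = o' := funext h
  subst this
  rfl

/-- a prime divisor through `x` on which a given function vanishes -/
theorem exists_div {n : ℕ} (X : Germ n) (b : X.R) (hb : b ∈ X.m) (hb0 : b ≠ 0) :
    ∃ v : DivVal n X.K, X.Through v ∧ 0 < v.ord b ∧ ∀ a : X.R, 0 < v.ord a → a ∈ X.m := by
  have hn : IsNoetherianRing X.R := DIV.noeth X
  have hle : Ideal.span {b} ≤ X.m := by
    rw [Ideal.span_singleton_le_iff_mem]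
    exact hb
  have hmp : X.m.IsPrime := X.max.isPrime
  obtain ⟨P, hP, hPm⟩ := Ideal.exists_minimalPrimes_le hle
  have hPp : P.IsPrime := hP.1.1
  have hbP : b ∈ P := hP.1.2 (Ideal.mem_span_singleton_self b)
  have h1 : P.height ≤ 1 :=
    Ideal.height_le_one_of_isPrincipal_of_mem_minimalPrimes (Ideal.span {b}) P hP
  have h2 : P.height ≠ 0 := by
    intro h0
    rw [Ideal.height_eq_zero_iff_eq_bot] at h0
    rw [h0] at hbP
    exact hb0 (by simpa using hbP)
  have h3 : P.height = 1 := by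
    refine le_antisymm h1 ?_
    exact Order.one_le_iff_ne_zero.2 h2
  obtain ⟨v, hv, -⟩ := t_DIV X P hPp h3
  obtain ⟨-, -, hge, hiff⟩ := hv
  refine ⟨v, ⟨hge, ?_⟩, ?_, ?_⟩
  · intro a ha
    by_contra h
    have h4 := hge a
    exact ha (hPm ((hiff a).2 (Or.inr (by omega))))
  · rcases (hiff b).1 hbP with h | h
    · exact absurd h hb0
    · exact h
  · intro a ha
    exact hPm ((hiff a).2 (Or.inr ha))

end CYZ

open CYZ in
theorem t_CYZ (hATH : Stmt_ATH) (hHOU : Stmt_HOU) (hK0C : Stmt_K0C) (hAFF : Stmt_AFF)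
    (hRSV : Stmt_RSV) : Stmt_CYZ := by
  intro m X A hex
  have hF : IsCurve A.K0 := hK0C A
  obtain ⟨a, ha0, hac⟩ := hex
  obtain ⟨c, hc⟩ := (hATH X).1 a
  set b : X.R := a - algebraMap ℂ X.R c with hb
  have hbg : b ∈ A.gr 0 := sub_mem ha0 (SetLike.algebraMap_mem_graded A.gr c)
  have hb0 : b ≠ 0 := fun h => hac c (sub_eq_zero.1 h)
  have hbK : (b : X.K) ∈ A.K0 := TorusAction.Hom.of_mem hbg
  let b1 : A.K0 := ⟨(b : X.K), hbK⟩
  have hb1 : b1 ≠ 0 := by
    intro h
    apply hb0
    apply Subtype.ext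
    exact congrArg (fun z : A.K0 => (z : X.K)) h
  obtain ⟨v, hv, hvb, hvm⟩ := exists_div X b hc hb0
  obtain ⟨S⟩ := t_SPL A
  obtain ⟨w, l, y0, hl, hal⟩ := hRSV S v
  have hord : ∀ g : A.K0, g ≠ 0 → v.ord (g : X.K) = l * y0.ord g := by
    intro g hg
    have h1 := hal g 0 hg
    rw [S.zero, mul_one] at h1
    rw [h1]
    simp [ip]
  have hl0 : 0 < l := by
    rcases hl.lt_or_eq with h | h
    · exact h
    · exfalso
      have h1 := hord b1 hb1
      rw [← h, zero_mul] at h1
      have h2 : v.ord (b1 : X.K) = v.ord b := rfl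
      omega
  have hnn : ∀ g : A.K0, (g : X.K) ∈ X.R → 0 ≤ y0.ord g := by
    intro g hg
    by_cases hg0 : g = 0
    · rw [hg0, y0.ord_zero]
    · have h1 := hord g hg0
      have h2 := hv.1 ⟨(g : X.K), hg⟩
      have h3 : 0 ≤ l * y0.ord g := by
        rw [← h1]
        exact h2
      exact nonneg_of_mul_nonneg_right h3 hl0
  have hze : ∀ (g : A.K0) (h : (g : X.K) ∈ X.R), (⟨(g : X.K), h⟩ : X.R) ∉ X.m → y0.ord g = 0 := by
    intro g hg hgm
    by_cases hg0 : g = 0
    · rw [hg0, y0.ord_zero]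
    · have h1 := hord g hg0
      have h2 : v.ord (g : X.K) = 0 := hv.2 ⟨(g : X.K), hg⟩ hgm
      rw [h2] at h1
      rcases mul_eq_zero.1 h1.symm with h | h
      · omega
      · exact h
  have hpos : ∀ (g : A.K0) (h : (g : X.K) ∈ X.R), (⟨(g : X.K), h⟩ : X.R) ∈ X.m → g ≠ 0 →
      0 < y0.ord g := by
    intro g hg hgm hg0
    rcases (hnn g hg).lt_or_eq with h | h
    · exact h
    exfalso
    obtain ⟨d, hd⟩ := t_RS1 hF y0 g (Or.inr (by omega))
    have hd0 : d ≠ 0 := by
      rintro rfl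
      rw [map_zero, sub_zero] at hd
      have := hd.le hg0
      omega
    have hdR : ((g - algebraMap ℂ A.K0 d : A.K0) : X.K) ∈ X.R := by
      have h1 : ((g - algebraMap ℂ A.K0 d : A.K0) : X.K) = (g : X.K) - algebraMap ℂ X.K d := rfl
      rw [h1]
      exact X.R.sub_mem hg (X.R.algebraMap_mem d)
    have hdm : (⟨((g - algebraMap ℂ A.K0 d : A.K0) : X.K), hdR⟩ : X.R) ∈ X.m := by
      by_cases h0 : g - algebraMap ℂ A.K0 d = 0
      · have h1 : (⟨((g - algebraMap ℂ A.K0 d : A.K0) : X.K), hdR⟩ : X.R) = 0 := by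
          apply Subtype.ext
          exact congrArg (fun z : A.K0 => (z : X.K)) h0
        rw [h1]
        exact X.m.zero_mem
      · apply hvm
        have h1 := hord _ h0
        have h2 := hd.le h0
        have h3 : v.ord ((⟨((g - algebraMap ℂ A.K0 d : A.K0) : X.K), hdR⟩ : X.R) : X.K)
            = l * y0.ord (g - algebraMap ℂ A.K0 d) := h1
        rw [h3]
        exact mul_pos hl0 (by omega)
    have hdd : algebraMap ℂ X.R d ∈ X.m := by
      have h1 := X.m.sub_mem hgm hdm
      have h2 : (⟨(g : X.K), hg⟩ : X.R) - ⟨((g - algebraMap ℂ A.K0 d : A.K0) : X.K), hdR⟩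
          = algebraMap ℂ X.R d := by
        apply Subtype.ext
        show (g : X.K) - ((g : X.K) - algebraMap ℂ X.K d) = algebraMap ℂ X.K d
        ring
      rwa [h2] at h1
    exact X.max.ne_top (Ideal.eq_top_of_isUnit_mem _ hdd
      ((isUnit_iff_ne_zero.2 hd0).map (algebraMap ℂ X.R)))
  have hy0b : 0 < y0.ord b1 := hpos b1 b.2 hc hb1
  refine ⟨y0, hnn, hze, hpos, ?_, b1, hb1, b.2, hc⟩
  intro y hy1 hy2
  have htr : Transcendental ℂ b1 := transc y0 hy0b
  obtain ⟨S', hS1, hS2⟩ := affi hF b1 htr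
  have hSR : ∀ g ∈ S', (g : X.K) ∈ X.R := by
    intro g hg
    apply X.normal
    obtain ⟨p, hp1, hp2⟩ := hS1 g hg
    have hmem : ∀ z ∈ Algebra.adjoin ℂ ({b1} : Set A.K0), (z : X.K) ∈ X.R := by
      intro z hz
      induction hz using Algebra.adjoin_induction with
      | mem x hx =>
        rw [Set.mem_singleton_iff] at hx
        rw [hx]
        exact b.2
      | algebraMap c => exact X.R.algebraMap_mem c
      | add x y' _ _ hx hy' => exact X.R.add_mem hx hy'
      | mul x y' _ _ hx hy' => exact X.R.mul_mem hx hy'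
    let ι : Algebra.adjoin ℂ ({b1} : Set A.K0) →+* X.R :=
      { toFun := fun z => ⟨((z : A.K0) : X.K), hmem z z.2⟩
        map_one' := rfl
        map_mul' := fun _ _ => rfl
        map_zero' := rfl
        map_add' := fun _ _ => rfl }
    refine ⟨p.map ι, hp1.map ι, ?_⟩
    rw [Polynomial.eval₂_map]
    have h1 := congrArg (algebraMap A.K0 X.K) hp2
    rw [Polynomial.hom_eval₂, map_zero] at h1
    exact h1
  have key : ∀ g : A.K0, y0.Ge 0 g → y.Ge 0 g := by
    intro g hg
    obtain ⟨r, hr, q, hq, hq0, hq1, hgq⟩ := hS2 y0 (Or.inr hy0b.le) g hg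
    by_cases hg0 : g = 0
    · exact Or.inl hg0
    have h1 : y.ord q = 0 := by
      apply hy2 q (hSR q hq)
      intro h
      have := hpos q (hSR q hq) h hq0
      omega
    have h2 : 0 ≤ y.ord r := hy1 r (hSR r hr)
    rw [← hgq, y.ord_mul _ _ hg0 hq0, h1, add_zero] at h2
    exact Or.inr h2
  exact ext1 fun g => (DivVal.ord_eq_of_OV y0 key g).symm

end

end MldG
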