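import Pool.Agent.MldG.StmtsZ
import Pool.Agent.MldG.HFR
import Pool.Agent.MldG.HFK
import Pool.Agent.MldG.HLI
import Pool.Agent.MldG.TRB
import Pool.Agent.MldGeo.ATT
import Pool.Agent.MldGeo.Ord

/-!
# GEZ: homogeneous generators which vanish at the fixed point
-/

set_option autoImplicit false

namespace MldG

open MldGeo

namespace GEZ

variable {n m : ℕ} {X : Germ n} {A : TorusAction X m}

/-- A regular function is a polynomial in finitely many homogeneous functions which vanish at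
the fixed point. -/
theorem exists_one (hATH : Stmt_ATH) (A : TorusAction X m) (hF : Fixed A) (r : X.R) :
    ∃ G : Finset (X.R × (Fin m → ℤ)), (∀ p ∈ G, p.1 ∈ A.gr p.2 ∧ p.1 ≠ 0 ∧ p.1 ∈ X.m) ∧
      (r : X.K) ∈ Algebra.adjoin ℂ ((fun p : X.R × (Fin m → ℤ) => (p.1 : X.K)) '' G) := by
  classical
  obtain ⟨s, h, h1, -, h3⟩ := t_HFR A r
  obtain ⟨c, hc⟩ := (hATH X).1 (h 0)
  let f : (Fin m → ℤ) → X.R := fun u => if u = 0 then h 0 - algebraMap ℂ X.R c else h u
  have hf0 : f 0 = h 0 - algebraMap ℂ X.R c := if_pos rfl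
  have hf1 : ∀ u, u ≠ 0 → f u = h u := fun u hu => if_neg hu
  have hfg : ∀ u, f u ∈ A.gr u := by
    intro u
    by_cases hu : u = 0
    · rw [hu, hf0]
      exact sub_mem (h1 0) (SetLike.algebraMap_mem_graded A.gr c)
    · rw [hf1 u hu]
      exact h1 u
  have hfm : ∀ u, f u ∈ X.m := by
    intro u
    by_cases hu : u = 0
    · rw [hu, hf0]
      exact hc
    · rw [hf1 u hu]
      exact hF u hu _ (h1 u)
  refine ⟨(s.filter fun u => f u ≠ 0).image fun u => (f u, u), ?_, ?_⟩
  · intro p hp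
    obtain ⟨u, hu, rfl⟩ := Finset.mem_image.1 hp
    exact ⟨hfg u, (Finset.mem_filter.1 hu).2, hfm u⟩
  · have e : (r : X.K) = ∑ u ∈ s, (h u : X.K) := by
      rw [h3]
      exact map_sum X.R.val h s
    rw [e]
    have key : ∀ u ∈ s, (f u : X.K) ∈
        Algebra.adjoin ℂ ((fun p : X.R × (Fin m → ℤ) => (p.1 : X.K)) ''
          (((s.filter fun u => f u ≠ 0).image fun u => (f u, u) :
            Finset (X.R × (Fin m → ℤ))) : Set (X.R × (Fin m → ℤ)))) := by
      intro u hu
      by_cases h0 : f u = 0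
      · rw [h0, ZeroMemClass.coe_zero]
        exact Subalgebra.zero_mem _
      · refine Algebra.subset_adjoin ⟨(f u, u), ?_, rfl⟩
        exact Finset.mem_coe.2 (Finset.mem_image.2 ⟨u, Finset.mem_filter.2 ⟨hu, h0⟩, rfl⟩)
    refine Subalgebra.sum_mem _ fun u hu => ?_
    by_cases hu0 : u = 0
    · have e2 : (h u : X.K) = (f u : X.K) + algebraMap ℂ X.K c := by
        have e3 : (f 0 : X.K) = (h 0 : X.K) - algebraMap ℂ X.K c := by
          rw [hf0]
          rfl
        rw [hu0, e3, sub_add_cancel]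
      rw [e2]
      exact Subalgebra.add_mem _ (key u hu) (Subalgebra.algebraMap_mem _ c)
    · rw [← hf1 u hu0]
      exact key u hu

/-- Finitely many homogeneous functions which vanish at the fixed point generate the ring. -/
theorem exists_all (hATH : Stmt_ATH) (A : TorusAction X m) (hF : Fixed A) :
    ∃ G : Finset (X.R × (Fin m → ℤ)), (∀ p ∈ G, p.1 ∈ A.gr p.2 ∧ p.1 ≠ 0 ∧ p.1 ∈ X.m) ∧
      ∀ a ∈ X.R, a ∈ Algebra.adjoin ℂ ((fun p : X.R × (Fin m → ℤ) => (p.1 : X.K)) '' G) := by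
  classical
  obtain ⟨t, ht⟩ := X.fg
  have htR : ∀ g ∈ t, g ∈ X.R := fun g hg => by
    rw [← ht]
    exact Algebra.subset_adjoin hg
  choose G hG1 hG2 using fun r : X.R => exists_one hATH A hF r
  refine ⟨t.attach.biUnion fun g => G ⟨g.1, htR g.1 g.2⟩, ?_, ?_⟩
  · intro p hp
    obtain ⟨g, -, hg⟩ := Finset.mem_biUnion.1 hp
    exact hG1 _ p hg
  · intro a ha
    rw [← ht] at ha
    refine (Algebra.adjoin_le ?_ : Algebra.adjoin ℂ (t : Set X.K) ≤ _) ha
    intro g hg
    refine Algebra.adjoin_mono ?_ (hG2 ⟨g, htR g hg⟩)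
    refine Set.image_mono fun p hp => ?_
    exact Finset.mem_coe.2 (Finset.mem_biUnion.2 ⟨⟨g, hg⟩, Finset.mem_attach _ _, hp⟩)

/-- The sums of homogeneous functions whose weights are orthogonal to `w`. -/
def Sub (A : TorusAction X m) (w : Fin m → ℝ) : AddSubmonoid X.R :=
  AddSubmonoid.closure {x | ∃ u, pr w u = 0 ∧ x ∈ A.gr u}

theorem pr_add (w : Fin m → ℝ) (u v : Fin m → ℤ) : pr w (u + v) = pr w u + pr w v := by
  simp only [pr, Pi.add_apply, Int.cast_add, mul_add, Finset.sum_add_distrib]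

theorem pr_zero (w : Fin m → ℝ) : pr w 0 = 0 := by
  simp [pr]

theorem pr_neg (w : Fin m → ℝ) (u : Fin m → ℤ) : pr w (-u) = - pr w u := by
  simp [pr, Finset.sum_neg_distrib]

theorem sub_mul (w : Fin m → ℝ) {x y : X.R} (hx : x ∈ Sub A w) (hy : y ∈ Sub A w) :
    x * y ∈ Sub A w := by
  induction hx using AddSubmonoid.closure_induction with
  | mem x hx =>
    obtain ⟨u, hu, hxu⟩ := hx
    induction hy using AddSubmonoid.closure_induction with
    | mem y hy =>
      obtain ⟨v, hv, hyv⟩ := hy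
      refine AddSubmonoid.subset_closure ⟨u + v, ?_, SetLike.GradedMul.mul_mem hxu hyv⟩
      rw [pr_add, hu, hv, add_zero]
    | zero => rw [mul_zero]; exact zero_mem _
    | add y z _ _ h1 h2 => rw [mul_add]; exact add_mem h1 h2
  | zero => rw [zero_mul]; exact zero_mem _
  | add x z _ _ h1 h2 => rw [add_mul]; exact add_mem h1 h2

theorem sub_comp (w : Fin m → ℝ) {x : X.R} (hx : x ∈ Sub A w) (v : Fin m → ℤ)
    (hv : pr w v ≠ 0) : ((DirectSum.decompose A.gr x) v : X.R) = 0 := by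
  classical
  induction hx using AddSubmonoid.closure_induction with
  | mem x hx =>
    obtain ⟨u, hu, hxu⟩ := hx
    refine DirectSum.decompose_of_mem_ne A.gr hxu ?_
    rintro rfl
    exact hv hu
  | zero => rw [DirectSum.decompose_zero]; rfl
  | add x z _ _ h1 h2 =>
    rw [DirectSum.decompose_add, DirectSum.add_apply, Submodule.coe_add, h1, h2, add_zero]

theorem mem_sub (w : Fin m → ℝ) (s : Set X.K)
    (hs : ∀ x ∈ s, ∃ (y : X.R) (u : Fin m → ℤ), (y : X.K) = x ∧ y ∈ A.gr u ∧ pr w u = 0)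
    (x : X.K) (hx : x ∈ Algebra.adjoin ℂ s) : ∃ y : X.R, (y : X.K) = x ∧ y ∈ Sub A w := by
  induction hx using Algebra.adjoin_induction with
  | mem x hx =>
    obtain ⟨y, u, hy, hyu, hu⟩ := hs x hx
    exact ⟨y, hy, AddSubmonoid.subset_closure ⟨u, hu, hyu⟩⟩
  | algebraMap c =>
    refine ⟨algebraMap ℂ X.R c, rfl, AddSubmonoid.subset_closure ⟨0, pr_zero w, ?_⟩⟩
    exact SetLike.algebraMap_mem_graded A.gr c
  | add x z _ _ h1 h2 =>
    obtain ⟨y1, e1, m1⟩ := h1
    obtain ⟨y2, e2, m2⟩ := h2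
    exact ⟨y1 + y2, by push_cast; rw [e1, e2], add_mem m1 m2⟩
  | mul x z _ _ h1 h2 =>
    obtain ⟨y1, e1, m1⟩ := h1
    obtain ⟨y2, e2, m2⟩ := h2
    exact ⟨y1 * y2, by push_cast; rw [e1, e2], sub_mul w m1 m2⟩

/-- The weights of the generators span. -/
theorem span (A : TorusAction X m) (G : Finset (X.R × (Fin m → ℤ)))
    (hG : ∀ p ∈ G, p.1 ∈ A.gr p.2)
    (hgen : ∀ a ∈ X.R, a ∈ Algebra.adjoin ℂ ((fun p : X.R × (Fin m → ℤ) => (p.1 : X.K)) '' G))
    (w : Fin m → ℝ) (hw : ∀ p ∈ G, pr w p.2 = 0) : w = 0 := by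
  classical
  have hall : ∀ v : Fin m → ℤ, pr w v = 0 := by
    intro v
    have hv : v ∈ AddSubgroup.closure {u | A.gr u ≠ ⊥} := by
      rw [A.effective]
      exact AddSubgroup.mem_top v
    induction hv using AddSubgroup.closure_induction with
    | mem v hv =>
      by_contra hne
      obtain ⟨r, hr, hr0⟩ := Submodule.exists_mem_ne_zero_of_ne_bot hv
      obtain ⟨y, hy, hys⟩ := mem_sub (A := A) w
        ((fun p : X.R × (Fin m → ℤ) => (p.1 : X.K)) '' G) (by
          rintro x ⟨p, hp, rfl⟩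
          exact ⟨p.1, p.2, rfl, hG p hp, hw p hp⟩) (r : X.K) (hgen r r.2)
      have hyr : y = r := Subtype.ext hy
      rw [hyr] at hys
      have h1 := sub_comp w hys v hne
      rw [DirectSum.decompose_of_mem_same A.gr hr] at h1
      exact hr0 h1
    | zero => exact pr_zero w
    | add u v _ _ h1 h2 => rw [pr_add, h1, h2, add_zero]
    | neg u _ h1 => rw [pr_neg, h1, neg_zero]
  funext j
  have h1 := hall (Pi.single j 1)
  rw [pr, Finset.sum_eq_single j] at h1
  · simpa using h1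
  · intro k _ hk
    rw [Pi.single_eq_of_ne hk, Int.cast_zero, mul_zero]
  · intro h
    exact absurd (Finset.mem_univ j) h

end GEZ

open GEZ in
/-- GEZ: generators which vanish at the fixed point. -/
theorem t_GEZ (hATH : Stmt_ATH) : Stmt_GEZ := by
  classical
  intro m X A S y₀ hF hC
  obtain ⟨G, hG, hgen⟩ := exists_all hATH A hF
  set e := G.equivFin with he
  obtain ⟨b0, hb0, hb0R, hb0m⟩ := hC.ex
  have hmem : ∀ i : Fin G.card, (e.symm i).1.1 ∈ A.gr (e.symm i).1.2 := fun i =>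
    (hG _ (e.symm i).2).1
  have hb' : ∀ i : Fin G.card, ∃ b : A.K0, ((e.symm i).1.1 : X.K) =
      (b : X.K) * S.χ (e.symm i).1.2 := fun i =>
    (t_HFK t_HLI t_HFR A S).1 _ _ (TorusAction.Hom.of_mem (hmem i))
  choose b' hb' using hb'
  let u : Fin (G.card + 1) → Fin m → ℤ := Fin.cons 0 fun i => (e.symm i).1.2
  let b : Fin (G.card + 1) → A.K0 := Fin.cons b0 b'
  let f : Fin (G.card + 1) → X.R := Fin.cons ⟨(b0 : X.K), hb0R⟩ fun i => (e.symm i).1.1
  have hf : ∀ i, (f i : X.K) = (b i : X.K) * S.χ (u i) := by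
    intro i
    refine Fin.cases ?_ (fun i => ?_) i
    · change (b0 : X.K) = (b0 : X.K) * S.χ 0
      rw [S.zero, mul_one]
    · exact hb' i
  have hfm : ∀ i, f i ∈ X.m := by
    intro i
    refine Fin.cases hb0m (fun i => ?_) i
    exact (hG _ (e.symm i).2).2.2
  have hf0 : ∀ i, f i ≠ 0 := by
    intro i
    refine Fin.cases ?_ (fun i => ?_) i
    · intro h
      exact hb0 (Subtype.ext (congrArg (fun z : X.R => (z : X.K)) h))
    · exact (hG _ (e.symm i).2).2.1
  have hbne : ∀ i, b i ≠ 0 := by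
    intro i h
    apply hf0 i
    apply Subtype.ext
    rw [hf, h, ZeroMemClass.coe_zero, zero_mul]
    rfl
  have hpos0 : 0 < y₀.ord b0 := hC.pos b0 hb0R hb0m hb0
  refine ⟨G.card + 1, u, b, hbne, fun i => ?_, fun a ha => ?_, fun l w hlw => ?_, ?_,
    fun l w hlw => ?_⟩
  · have h1 : (b i : X.K) * S.χ (u i) ∈ X.R := by
      rw [← hf]
      exact (f i).2
    refine ⟨h1, ?_⟩
    have h2 : (⟨(b i : X.K) * S.χ (u i), h1⟩ : X.R) = f i := Subtype.ext (hf i).symm
    rw [h2]
    exact hfm i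
  · refine Algebra.adjoin_mono ?_ (hgen a ha)
    rintro x ⟨p, hp, rfl⟩
    refine ⟨(e ⟨p, hp⟩).succ, ?_⟩
    change (b (e ⟨p, hp⟩).succ : X.K) * S.χ (u (e ⟨p, hp⟩).succ) = (p.1 : X.K)
    rw [← hf]
    change ((e.symm (e ⟨p, hp⟩)).1.1 : X.K) = (p.1 : X.K)
    rw [Equiv.symm_apply_apply]
  · have h1 : l * (y₀.ord b0 : ℝ) + pr w 0 = 0 := hlw 0
    rw [pr_zero, add_zero] at h1
    have hl : l = 0 := by
      rcases mul_eq_zero.1 h1 with h2 | h2
      · exact h2
      · exact absurd (by exact_mod_cast h2) hpos0.ne'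
    refine ⟨hl, span A G (fun p hp => (hG p hp).1) hgen w fun p hp => ?_⟩
    have h2 : l * (y₀.ord (b' (e ⟨p, hp⟩)) : ℝ) + pr w (e.symm (e ⟨p, hp⟩)).1.2 = 0 :=
      hlw (e ⟨p, hp⟩).succ
    rw [hl, zero_mul, zero_add, Equiv.symm_apply_apply] at h2
    exact h2
  · obtain ⟨w, hw⟩ := t_ATT
      (fun i : Fin (G.card + 1) => (Fin.cons (y₀.ord (b i)) (u i) : Fin (m + 1) → ℤ)) (by
      intro a ha
      by_contra hne
      obtain ⟨j, hj⟩ := Function.ne_iff.1 hne
      have hj' : a j ≠ 0 := hj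
      have ha0 : ∑ i, (a i : ℤ) * y₀.ord (b i) = 0 := by
        have h1 := congrFun ha 0
        rw [Finset.sum_apply] at h1
        simpa using h1
      have ha1 : ∑ i, (a i) • u i = 0 := by
        funext k
        have h1 := congrFun ha k.succ
        rw [Finset.sum_apply] at h1 ⊢
        simpa using h1
      set P : X.R := ∏ i, (f i) ^ (a i) with hP
      have hP0 : P ≠ 0 := Finset.prod_ne_zero_iff.2 fun i _ => pow_ne_zero _ (hf0 i)
      have hPX : P ∈ X.m := by
        rw [hP, ← Finset.mul_prod_erase _ _ (Finset.mem_univ j)]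
        refine Ideal.mul_mem_right _ _ ?_
        exact Ideal.pow_mem_of_mem _ (hfm j) _ (Nat.pos_of_ne_zero hj')
      set B : A.K0 := ∏ i, (b i) ^ (a i) with hB
      have hPB : (P : X.K) = (B : X.K) := by
        have h1 : (P : X.K) = ∏ i, (f i : X.K) ^ (a i) := by
          rw [hP]
          exact (map_prod X.R.val _ _).trans (Finset.prod_congr rfl fun i _ => map_pow X.R.val _ _)
        have h2 : (B : X.K) = ∏ i, (b i : X.K) ^ (a i) := by
          rw [hB]
          exact (map_prod A.K0.val _ _).trans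
            (Finset.prod_congr rfl fun i _ => map_pow A.K0.val _ _)
        have h3 : ∏ i, S.χ (u i) ^ (a i) = 1 := by
          rw [← S.zero, ← ha1, TRB.chi_sum]
          exact Finset.prod_congr rfl fun i _ => (TRB.chi_nsmul S _ _).symm
        rw [h1, h2, ← mul_one (∏ i, (b i : X.K) ^ (a i)), ← h3, ← Finset.prod_mul_distrib]
        exact Finset.prod_congr rfl fun i _ => by rw [hf, mul_pow]
      have hBR : (B : X.K) ∈ X.R := by
        rw [← hPB]
        exact P.2
      have hBP : (⟨(B : X.K), hBR⟩ : X.R) = P := Subtype.ext hPB.symm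
      have hB0 : B ≠ 0 := Finset.prod_ne_zero_iff.2 fun i _ => pow_ne_zero _ (hbne i)
      have h4 := hC.pos B hBR (by rw [hBP]; exact hPX) hB0
      rw [hB, DivVal.ord_prod _ _ _ (fun i _ => pow_ne_zero _ (hbne i))] at h4
      simp only [DivVal.ord_pow] at h4
      rw [ha0] at h4
      exact lt_irrefl _ h4)
    refine ⟨w 0, fun k => w k.succ, fun i => ?_⟩
    have h1 := hw i
    rw [Fin.sum_univ_succ] at h1
    simpa [ip] using h1
  · have h1 : 0 ≤ l * y₀.ord b0 + ip w 0 := hlw 0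
    have h2 : ip w (0 : Fin m → ℤ) = 0 := by simp [ip]
    rw [h2, add_zero] at h1
    exact nonneg_of_mul_nonneg_left h1 hpos0

end MldG
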