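import Pool.Agent.MldG.StmtsF
import Pool.Agent.MldG.GHO

/-!
# HOU: homogeneous elements

The factors of a homogeneous element of a domain graded by `ℤ^m` are homogeneous.
-/

namespace MldG

open MldGeo

namespace HOU

open DirectSum

noncomputable section

variable {n m : ℕ} {X : Germ n} (A : TorusAction X m)

/-- A regular function which is homogeneous as a rational function. -/
theorem mem_of_hom {u : Fin m → ℤ} {r : X.R} (h : A.Hom u (r : X.K)) : r ∈ A.gr u := by
  classical
  obtain ⟨a, b, p, s, hp, hs, hs0, hab, e⟩ := h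
  have e' : r * s = p := Subtype.ext e
  have h1 : ∀ v, v ≠ u → ((DirectSum.decompose A.gr r v : A.gr v) : X.R) = 0 := by
    intro v hv
    have h2 := DirectSum.coe_decompose_mul_add_of_right_mem A.gr (a := r) (i := v) hs
    rw [e', DirectSum.decompose_of_mem_ne A.gr hp (by
      rw [hab]
      intro h3
      exact hv (add_right_cancel h3).symm)] at h2
    rcases mul_eq_zero.1 h2.symm with h3 | h3
    · exact h3
    · exact absurd h3 hs0
  rw [← DirectSum.sum_support_decompose A.gr r]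
  refine Submodule.sum_mem _ fun v _ => ?_
  by_cases hv : v = u
  · subst hv
    exact (DirectSum.decompose A.gr r v).2
  · rw [h1 v hv]
    exact Submodule.zero_mem _

theorem cp_sum {ι : Type*} (z : Fin m → ℤ) (s : Finset ι) (f : ι → X.R) :
    GHO.cp A z (∑ i ∈ s, f i) = ∑ i ∈ s, GHO.cp A z (f i) := by
  unfold GHO.cp
  rw [DirectSum.decompose_sum, DFinsupp.finsetSum_apply, Submodule.coe_sum]

theorem cp_ne {z w : Fin m → ℤ} {r : X.R} (hr : r ∈ A.gr w) (h : w ≠ z) : GHO.cp A z r = 0 :=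
  DirectSum.decompose_of_mem_ne A.gr hr h

theorem cp_same {w : Fin m → ℤ} {r : X.R} (hr : r ∈ A.gr w) : GHO.cp A w r = r :=
  DirectSum.decompose_of_mem_same A.gr hr

/-- The weights of a function. -/
theorem exists_supp (r : X.R) : ∃ s : Finset (Fin m → ℤ), r = ∑ u ∈ s, GHO.cp A u r ∧
    ∀ u ∈ s, GHO.cp A u r ≠ 0 := by
  classical
  obtain ⟨s, hs⟩ := GHO.exists_sum A r
  refine ⟨s.filter fun u => GHO.cp A u r ≠ 0, ?_, fun u hu => (Finset.mem_filter.1 hu).2⟩
  rw [Finset.sum_filter_ne_zero]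
  exact hs

/-- The component of a product, for a weight which is a sum of weights in one way. -/
theorem cp_mul {a b : X.R} {s t : Finset (Fin m → ℤ)} (ha : a = ∑ u ∈ s, GHO.cp A u a)
    (hb : b = ∑ u ∈ t, GHO.cp A u b) {p q : Fin m → ℤ} (hp : p ∈ s) (hq : q ∈ t)
    (h : UniqueAdd s t p q) : GHO.cp A (p + q) (a * b) = GHO.cp A p a * GHO.cp A q b := by
  classical
  have e : a * b = ∑ v ∈ s, ∑ w ∈ t, GHO.cp A v a * GHO.cp A w b := by
    conv_lhs => rw [ha, hb]
    rw [Finset.sum_mul_sum]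
  have h1 : ∀ v ∈ s, ∀ w ∈ t, v ≠ p ∨ w ≠ q →
      GHO.cp A (p + q) (GHO.cp A v a * GHO.cp A w b) = 0 := by
    intro v hv w hw hne
    refine cp_ne A (SetLike.GradedMul.mul_mem (GHO.cp_mem A v a) (GHO.cp_mem A w b)) ?_
    intro h2
    obtain ⟨h3, h4⟩ := h hv hw h2
    rcases hne with h5 | h5
    · exact h5 h3
    · exact h5 h4
  rw [e, cp_sum, Finset.sum_eq_single p, cp_sum, Finset.sum_eq_single q]
  · exact cp_same A (SetLike.GradedMul.mul_mem (GHO.cp_mem A p a) (GHO.cp_mem A q b))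
  · exact fun w hw hne => h1 p hp w hw (Or.inr hne)
  · exact fun h2 => absurd hq h2
  · intro v hv hne
    rw [cp_sum]
    exact Finset.sum_eq_zero fun w hw => h1 v hv w hw (Or.inl hne)
  · exact fun h2 => absurd hp h2

/-- The factors of a homogeneous element are homogeneous. -/
theorem factor {a b : X.R} {u : Fin m → ℤ} (ha : a ≠ 0) (hb : b ≠ 0) (h : a * b ∈ A.gr u) :
    ∃ w, a ∈ A.gr w := by
  classical
  obtain ⟨s, hs, hs0⟩ := exists_supp A a
  obtain ⟨t, ht, ht0⟩ := exists_supp A b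
  have hsn : s.Nonempty := by
    rw [Finset.nonempty_iff_ne_empty]
    rintro rfl
    exact ha hs
  have htn : t.Nonempty := by
    rw [Finset.nonempty_iff_ne_empty]
    rintro rfl
    exact hb ht
  have key : ∀ p q, p ∈ s → q ∈ t → UniqueAdd s t p q → p + q = u := by
    intro p q hp hq hu
    by_contra hne
    have h1 := cp_mul A hs ht hp hq hu
    rw [cp_ne A h (Ne.symm hne)] at h1
    rcases mul_eq_zero.1 h1.symm with h2 | h2
    · exact hs0 p hp h2
    · exact ht0 q hq h2
  have hcard : s.card ≤ 1 := by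
    by_contra hlt
    push Not at hlt
    have h1 : 1 < s.card * t.card :=
      lt_of_lt_of_le hlt (Nat.le_mul_of_pos_right _ (Finset.card_pos.2 htn))
    obtain ⟨p1, hp1, p2, hp2, hne, u1, u2⟩ := TwoUniqueSums.uniqueAdd_of_one_lt_card h1
    rw [Finset.mem_product] at hp1 hp2
    have e1 := key _ _ hp1.1 hp1.2 u1
    have e2 := key _ _ hp2.1 hp2.2 u2
    obtain ⟨e3, e4⟩ := u1 hp2.1 hp2.2 (e2.trans e1.symm)
    exact hne (Prod.ext e3.symm e4.symm)
  obtain ⟨w, hw⟩ := Finset.card_eq_one.1 (le_antisymm hcard (Finset.card_pos.2 hsn))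
  refine ⟨w, ?_⟩
  rw [hs, hw, Finset.sum_singleton]
  exact GHO.cp_mem A w a

end

end HOU

/-- Homogeneous elements. -/
theorem t_HOU : Stmt_HOU := by
  intro n m X A
  refine ⟨fun u a h => HOU.mem_of_hom A h, ?_, ?_, ?_, ?_⟩
  · intro g hg
    obtain ⟨g', hg'⟩ := hg.exists_right_inv
    have h0 : g * g' ≠ 0 := by
      rw [hg']
      exact one_ne_zero
    refine HOU.factor A (left_ne_zero_of_mul h0) (right_ne_zero_of_mul h0) (u := 0) ?_
    rw [hg']
    exact SetLike.GradedOne.one_mem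
  · intro u g g' hg h1
    have h0 : g * g' ≠ 0 := by
      rw [h1]
      exact one_ne_zero
    have hg0 : (g : X.K) ≠ 0 := TorusAction.coe_ne (left_ne_zero_of_mul h0)
    apply HOU.mem_of_hom A
    have h2 : (g' : X.K) = (g : X.K)⁻¹ := by
      have h3 : (g : X.K) * g' = 1 := by exact_mod_cast congrArg Subtype.val h1
      exact eq_inv_of_mul_eq_one_right h3
    rw [h2]
    exact (TorusAction.Hom.of_mem hg).inv hg0
  · intro a k u hk h
    by_cases ha : a = 0
    · exact ⟨0, by rw [ha]; exact Submodule.zero_mem _⟩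
    · obtain ⟨j, rfl⟩ := Nat.exists_eq_succ_of_ne_zero hk.ne'
      rw [pow_succ'] at h
      exact HOU.factor A ha (pow_ne_zero j ha) h
  · rintro P v hv ⟨u, a, ha, ha0, haP⟩
    exact GHO.inv_of_mem A hv.1 hv.2.1 ha ha0 haP

end MldG
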