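import Pool.Agent.MldG.StmtsF
import Pool.Agent.MldGeo.DIV

/-!
# Functions whose residues along a prime divisor are algebraically independent (module HTC)
-/

set_option autoImplicit false

namespace MldG

open MldGeo MvPolynomial

/-- HTC: along a prime divisor there are `n - 1` regular functions whose residues are algebraically
independent. -/
theorem t_HTC : Stmt_HTC := by
  rintro n X v P ⟨hprime, hP, hge, hiff⟩
  haveI := hprime
  obtain ⟨m, rfl, u, hu⟩ := DIV.indep X P hP
  refine ⟨u, fun p hp => ?_⟩
  have h1 := hu p hp
  have h2 : (aeval u p : X.R) ≠ 0 := by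
    intro h
    exact h1 (by rw [h]; exact P.zero_mem)
  refine ⟨h2, le_antisymm ?_ (hge _)⟩
  by_contra h3
  exact h1 ((hiff _).mpr (Or.inr (not_le.mp h3)))

end MldG
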