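import Pool.Agent.MldG.Stmts8
import Pool.Agent.MldGeo.OLC

/-!
# The order of an invariant ideal
-/

namespace MldG

open MldGeo

namespace IDL

/-- The ring of regular functions is noetherian. -/
theorem noeth {n : ℕ} (X : Germ n) : IsNoetherianRing X.R := by
  have h1 : Algebra.FiniteType ℂ X.R := Subalgebra.fg_iff_finiteType _ |>.1 X.fg
  exact Algebra.FiniteType.isNoetherianRing ℂ X.R

end IDL

/-- IDL. -/
theorem t_IDL (hHFK : Stmt_HFK) : Stmt_IDL := by
  classical
  intro n m X A S I hI hinv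
  obtain ⟨s, hs, rfl⟩ := hinv
  have hn := IDL.noeth X
  have hfg : (Submodule.span X.R s).FG := IsNoetherian.noetherian _
  obtain ⟨t, hts, ht⟩ := (Submodule.fg_span_iff_fg_span_finset_subset s).1 hfg
  have hspan : Ideal.span s = Ideal.span (t : Set X.R) := ht
  have hex : ∀ a : X.R, a ∈ t → ∃ (z : Fin m → ℤ) (c : A.K0),
      (a : X.K) = (c : X.K) * S.χ z := by
    intro a ha
    obtain ⟨u, hu⟩ := hs a (hts ha)
    obtain ⟨b, hb⟩ := (hHFK A S).1 u (a : X.K) (TorusAction.Hom.of_mem hu)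
    exact ⟨u, b, hb⟩
  choose z c hzc using hex
  set t' : Finset X.R := t.filter (fun a => a ≠ 0) with ht'
  have hmem : ∀ i : Fin t'.card, (t'.equivFin.symm i : X.R) ∈ t :=
    fun i => (Finset.mem_filter.1 (t'.equivFin.symm i).2).1
  have hne : ∀ i : Fin t'.card, (t'.equivFin.symm i : X.R) ≠ 0 :=
    fun i => (Finset.mem_filter.1 (t'.equivFin.symm i).2).2
  refine ⟨t'.card, fun i => z _ (hmem i), fun i => c _ (hmem i), ?_, ?_, ?_, ?_⟩
  · rw [Finset.card_pos]
    by_contra h0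
    rw [Finset.not_nonempty_iff_eq_empty] at h0
    apply hI
    rw [hspan, Ideal.span_eq_bot]
    intro a ha
    by_contra ha0
    have h1 : a ∈ t' := Finset.mem_filter.2 ⟨ha, ha0⟩
    rw [h0] at h1
    exact absurd h1 (Finset.notMem_empty _)
  · intro i (h0 : c _ (hmem i) = 0)
    have h1 := hzc _ (hmem i)
    rw [h0, ZeroMemClass.coe_zero, zero_mul] at h1
    exact hne i (Subtype.ext h1)
  · intro i
    rw [← hzc _ (hmem i)]
    exact Subtype.mem _
  · intro v w l y hv hA
    have hc0 : ∀ (a : X.R) (ha : a ∈ t), a ≠ 0 → c a ha ≠ 0 := by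
      intro a ha ha0 h0
      have h1 := hzc a ha
      rw [h0, ZeroMemClass.coe_zero, zero_mul] at h1
      exact ha0 (Subtype.ext h1)
    have hord : ∀ (a : X.R) (ha : a ∈ t), a ≠ 0 →
        v.ord (a : X.K) = l * y.ord (c a ha) + ip w (z a ha) := by
      intro a ha ha0
      rw [hzc a ha]
      exact hA _ _ (hc0 a ha ha0)
    have hI' : Ideal.span (t : Set X.R) ≠ ⊥ := by rwa [← hspan]
    obtain ⟨a, ha, ha0, hao, hmin⟩ := (t_IDO v hv).2.2.2 (t : Set X.R) hI'
    rw [← hspan] at hao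
    constructor
    · have ha' : a ∈ t' := Finset.mem_filter.2 ⟨ha, ha0⟩
      refine ⟨t'.equivFin ⟨a, ha'⟩, ?_⟩
      rw [← hao, ← hord _ (hmem (t'.equivFin ⟨a, ha'⟩)) (hne _), Equiv.symm_apply_apply]
    · rintro k ⟨j, rfl⟩
      rw [← hao, ← hord _ (hmem j) (hne j)]
      exact hmin _ (hmem j) (hne j)

end MldG
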