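import Pool.Agent.MldG.StmtsF

/-!
# ISO: forms and isomorphisms of the function fields
-/

set_option autoImplicit false

namespace MldG

open MldGeo

noncomputable section

namespace ISO

variable {K L : Type} [Field K] [Algebra ℂ K] [Field L] [Algebra ℂ L]

/-- The semilinear map of the differentials. -/
theorem exists_delta (τ : L →ₐ[ℂ] K) : ∃ δ : Ω[L⁄ℂ] →+ Ω[K⁄ℂ],
    (∀ (g : L) (x : Ω[L⁄ℂ]), δ (g • x) = τ g • δ x) ∧
    ∀ a : L, δ (KaehlerDifferential.D ℂ L a) = KaehlerDifferential.D ℂ K (τ a) := by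
  let _ : Algebra L K := τ.toRingHom.toAlgebra
  have : IsScalarTower ℂ L K := IsScalarTower.of_algebraMap_eq fun c => (τ.commutes c).symm
  refine ⟨(KaehlerDifferential.map ℂ ℂ L K).toAddMonoidHom, fun g x => ?_, fun a => ?_⟩
  · have h1 : (KaehlerDifferential.map ℂ ℂ L K) (g • x) = g • (KaehlerDifferential.map ℂ ℂ L K) x :=
      map_smul _ _ _
    have h2 : g • (KaehlerDifferential.map ℂ ℂ L K) x
        = (algebraMap L K g) • (KaehlerDifferential.map ℂ ℂ L K) x :=
      (algebraMap_smul K g _).symm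
    exact h1.trans h2
  · exact KaehlerDifferential.map_D ℂ ℂ L K a

/-- The semilinear map of the forms. -/
theorem exists_Phi (n : ℕ) (τ : L →+* K) (δ : Ω[L⁄ℂ] →+ Ω[K⁄ℂ])
    (hδ : ∀ (g : L) (x : Ω[L⁄ℂ]), δ (g • x) = τ g • δ x) :
    ∃ Φ : Forms n L →+ Forms n K, (∀ (g : L) (η : Forms n L), Φ (g • η) = τ g • Φ η) ∧
      ∀ x : Fin n → Ω[L⁄ℂ], Φ (exteriorPower.ιMulti L n x)
        = exteriorPower.ιMulti K n fun i => δ (x i) := by
  let _ : Module L (Forms n K) := Module.compHom _ τ
  have hsm : ∀ (g : L) (η : Forms n K), g • η = τ g • η := fun g η => rfl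
  have hup : ∀ (d : DecidableEq (Fin n)) (x : Fin n → Ω[L⁄ℂ]) (i : Fin n) (y : Ω[L⁄ℂ]),
      (fun k => δ (Function.update x i y k)) = Function.update (fun k => δ (x k)) i (δ y) := by
    intro d x i y
    funext k
    by_cases h : k = i
    · subst h
      rw [Function.update_self, Function.update_self]
    · rw [Function.update_of_ne h, Function.update_of_ne h]
  let A : Ω[L⁄ℂ] [⋀^Fin n]→ₗ[L] Forms n K :=
    { toFun := fun x => exteriorPower.ιMulti K n fun i => δ (x i)
      map_update_add' := by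
        intro d x i y z
        rw [hup, hup, hup, map_add]
        exact (exteriorPower.ιMulti K n).map_update_add _ _ _ _
      map_update_smul' := by
        intro d x i g y
        rw [hup, hup, hδ, hsm]
        exact (exteriorPower.ιMulti K n).map_update_smul _ _ _ _
      map_eq_zero_of_eq' := by
        intro x i k h hik
        exact (exteriorPower.ιMulti K n).map_eq_zero_of_eq _ (by rw [h]) hik }
  refine ⟨(exteriorPower.alternatingMapLinearEquiv A).toAddMonoidHom, fun g η => ?_, fun x => ?_⟩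
  · exact map_smul (exteriorPower.alternatingMapLinearEquiv A) g η
  · exact exteriorPower.alternatingMapLinearEquiv_apply_ιMulti A x

/-- The equivalence of the forms. -/
theorem exists_pair (n : ℕ) (j : K ≃ₐ[ℂ] L) :
    ∃ (Φ : Forms n L →+ Forms n K) (Ψ : Forms n K →+ Forms n L),
      (∀ (g : L) (η : Forms n L), Φ (g • η) = j.symm g • Φ η) ∧
      (∀ (g : K) (η : Forms n K), Ψ (g • η) = j g • Ψ η) ∧
      (∀ a : Fin n → L, Φ (dforms a) = dforms fun i => j.symm (a i)) ∧
      (∀ a : Fin n → K, Ψ (dforms a) = dforms fun i => j (a i)) ∧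
      ∀ η, Ψ (Φ η) = η := by
  obtain ⟨δ, hδ1, hδ2⟩ := exists_delta (j.symm : L →ₐ[ℂ] K)
  obtain ⟨ε, hε1, hε2⟩ := exists_delta (j : K →ₐ[ℂ] L)
  obtain ⟨Φ, hΦ1, hΦ2⟩ := exists_Phi n ((j.symm : L →ₐ[ℂ] K) : L →+* K) δ hδ1
  obtain ⟨Ψ, hΨ1, hΨ2⟩ := exists_Phi n ((j : K →ₐ[ℂ] L) : K →+* L) ε hε1
  have hed : ∀ x, ε (δ x) = x := by
    intro x
    have hx : x ∈ Submodule.span L (Set.range (KaehlerDifferential.D ℂ L)) := by
      rw [KaehlerDifferential.span_range_derivation]
      trivial
    induction hx using Submodule.span_induction with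
    | mem x h =>
      obtain ⟨a, rfl⟩ := h
      rw [hδ2, hε2]
      congr 1
      exact j.apply_symm_apply a
    | zero => rw [map_zero, map_zero]
    | add x y _ _ hx hy => rw [map_add, map_add, hx, hy]
    | smul g x _ hx =>
      rw [hδ1, hε1, hx]
      congr 1
      exact j.apply_symm_apply g
  refine ⟨Φ, Ψ, hΦ1, hΨ1, fun a => ?_, fun a => ?_, fun η => ?_⟩
  · unfold dforms
    rw [hΦ2]
    congr 1
    funext i
    exact hδ2 (a i)
  · unfold dforms
    rw [hΨ2]
    congr 1
    funext i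
    exact hε2 (a i)
  · have hη : η ∈ Submodule.span L (Set.range (exteriorPower.ιMulti L n (M := Ω[L⁄ℂ]))) := by
      rw [exteriorPower.ιMulti_span]
      trivial
    induction hη using Submodule.span_induction with
    | mem x h =>
      obtain ⟨a, rfl⟩ := h
      rw [hΦ2, hΨ2]
      congr 1
      funext i
      exact hed (a i)
    | zero => rw [map_zero, map_zero]
    | add x y _ _ hx hy => rw [map_add, map_add, hx, hy]
    | smul g x _ hx =>
      rw [hΦ1, hΨ1, hx]
      congr 1
      exact j.apply_symm_apply g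

/-- Regular forms are mapped to regular forms. -/
theorem reg {n : ℕ} (τ : L → K) (v : DivVal n L) (w : DivVal n K) (Φ : Forms n L →+ Forms n K)
    (h1 : ∀ (g : L) (η : Forms n L), Φ (g • η) = τ g • Φ η)
    (h2 : ∀ a : Fin n → L, Φ (dforms a) = dforms fun i => τ (a i))
    (hw : ∀ a, w.ord (τ a) = v.ord a) (η : Forms n L) (hη : η ∈ v.regForms) :
    Φ η ∈ w.regForms := by
  unfold DivVal.regForms at hη
  induction hη using AddSubgroup.closure_induction with
  | mem x h =>
    obtain ⟨g, a, hg, ha, rfl⟩ := h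
    refine AddSubgroup.subset_closure ⟨τ g, fun i => τ (a i), ?_, fun i => ?_, ?_⟩
    · rw [hw]
      exact hg
    · rw [hw]
      exact ha i
    · rw [h1, h2]
  | zero =>
    rw [map_zero]
    exact zero_mem _
  | add x y _ _ hx hy =>
    rw [map_add]
    exact add_mem hx hy
  | neg x _ hx =>
    rw [map_neg]
    exact neg_mem hx

end ISO

theorem t_ISO : Stmt_ISO := by
  intro n K L _ _ _ _ j ω hω
  obtain ⟨Φ, Ψ, hΦ1, hΨ1, hΦ2, hΨ2, hid⟩ := ISO.exists_pair n j
  refine ⟨Φ ω, fun h => hω ?_, fun v => ?_⟩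
  · rw [← hid ω, h, map_zero]
  · unfold DivVal.formOrd
    congr 1
    ext k
    constructor
    · rintro ⟨g, hg, hk, η, hη, he⟩
      refine ⟨j g, by simpa using hg, hk, Ψ η, ?_, ?_⟩
      · exact ISO.reg (fun a => j a) (comap j v) v Ψ hΨ1 hΨ2 (fun a => rfl) η hη
      · rw [← hid ω, he, hΨ1]
    · rintro ⟨g, hg, hk, η, hη, he⟩
      refine ⟨j.symm g, by simpa using hg, ?_, Φ η, ?_, ?_⟩
      · change v.ord (j (j.symm g)) = k
        rw [AlgEquiv.apply_symm_apply, hk]
      · refine ISO.reg (fun a => j.symm a) v (comap j v) Φ hΦ1 hΦ2 (fun a => ?_) η hη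
        change v.ord (j (j.symm a)) = v.ord a
        rw [AlgEquiv.apply_symm_apply]
      · rw [he, hΦ1]

end

end MldG
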