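import Pool.Agent.MldG.StmtsF

/-!
# KUA: torus actions and covers
-/

namespace MldG

open MldGeo

noncomputable section

namespace KUA

variable {n m : ℕ} {X : Germ n} {p : ℕ} {g : X.R} (k : RootCover X p g) (hp : p.Prime)

include hp in
theorem mem_alg (a : X.R) : algebraMap X.K k.X'.K (a : X.K) ∈ k.X'.R := by
  rw [k.mem]
  refine ⟨Pi.single ⟨0, hp.pos⟩ a, ?_⟩
  rw [Finset.sum_eq_single ⟨0, hp.pos⟩]
  · rw [Pi.single_eq_same, pow_zero, mul_one]
  · intro i _ hi
    rw [Pi.single_eq_of_ne hi, ZeroMemClass.coe_zero, map_zero, zero_mul]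
  · intro h
    exact absurd (Finset.mem_univ _) h

include hp in
theorem mem_z : k.z ∈ k.X'.R := by
  rw [k.mem]
  refine ⟨Pi.single ⟨1, hp.one_lt⟩ 1, ?_⟩
  rw [Finset.sum_eq_single ⟨1, hp.one_lt⟩]
  · rw [Pi.single_eq_same, pow_one, OneMemClass.coe_one, map_one, one_mul]
  · intro i _ hi
    rw [Pi.single_eq_of_ne hi, ZeroMemClass.coe_zero, map_zero, zero_mul]
  · intro h
    exact absurd (Finset.mem_univ _) h

/-- The inclusion of the rings of regular functions. -/
def io : X.R →ₐ[ℂ] k.X'.R :=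
  AlgHom.codRestrict ((IsScalarTower.toAlgHom ℂ X.K k.X'.K).comp X.R.val) k.X'.R
    fun a => mem_alg k hp a

/-- The root as a regular function. -/
def Z : k.X'.R := ⟨k.z, mem_z k hp⟩

theorem io_coe (a : X.R) : (io k hp a : k.X'.K) = algebraMap X.K k.X'.K (a : X.K) := rfl

theorem io_inj : Function.Injective (io k hp) := by
  intro a b h
  apply Subtype.ext
  apply (algebraMap X.K k.X'.K).injective
  rw [← io_coe k hp, ← io_coe k hp, h]

theorem Z_pow : Z k hp ^ p = io k hp g := by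
  apply Subtype.ext
  rw [io_coe, ← k.pow]
  rfl

/-- The sums `∑ a_i z^i`. -/
def lin : (Fin p → X.R) →ₗ[ℂ] k.X'.R where
  toFun a := ∑ i : Fin p, io k hp (a i) * Z k hp ^ (i : ℕ)
  map_add' a b := by
    rw [← Finset.sum_add_distrib]
    refine Finset.sum_congr rfl fun i _ => ?_
    rw [Pi.add_apply, map_add, add_mul]
  map_smul' c a := by
    rw [Finset.smul_sum]
    refine Finset.sum_congr rfl fun i _ => ?_
    rw [Pi.smul_apply, map_smul, smul_mul_assoc]
    rfl

theorem lin_apply (a : Fin p → X.R) :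
    lin k hp a = ∑ i : Fin p, io k hp (a i) * Z k hp ^ (i : ℕ) := rfl

theorem lin_coe (a : Fin p → X.R) : (lin k hp a : k.X'.K) =
    ∑ i : Fin p, algebraMap X.K k.X'.K (a i) * k.z ^ (i : ℕ) := by
  rw [lin_apply]
  push_cast
  rfl

theorem lin_bij : Function.Bijective (lin k hp) := by
  constructor
  · rw [injective_iff_map_eq_zero]
    intro a ha
    have h1 := lin_coe k hp a
    rw [ha, ZeroMemClass.coe_zero] at h1
    have h2 := k.indep (fun i => (a i : X.K)) h1.symm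
    funext i
    exact Subtype.ext (congrFun h2 i)
  · intro b
    obtain ⟨a, ha⟩ := (k.mem b).1 b.2
    exact ⟨a, Subtype.ext ((lin_coe k hp a).trans ha.symm)⟩

/-- The coordinates. -/
def eqv : (Fin p → X.R) ≃ₗ[ℂ] k.X'.R := LinearEquiv.ofBijective (lin k hp) (lin_bij k hp)

variable (A : TorusAction X m) (u : Fin m → ℤ)

/-- The vectors of weight `w`. -/
def P (p : ℕ) (w : Fin m → ℤ) : Submodule ℂ (Fin p → X.R) :=
  Submodule.pi Set.univ fun i => A.gr (w - ((i : ℕ) : ℤ) • u)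

theorem mem_P {w : Fin m → ℤ} {a : Fin p → X.R} :
    a ∈ P A u p w ↔ ∀ i : Fin p, a i ∈ A.gr (w - ((i : ℕ) : ℤ) • u) := by
  unfold P
  rw [Submodule.mem_pi]
  exact ⟨fun h i => h i trivial, fun h i _ => h i⟩

theorem single_mem {w : Fin m → ℤ} (i : Fin p) {a : X.R}
    (h : a ∈ A.gr (w - ((i : ℕ) : ℤ) • u)) : (Pi.single i a : Fin p → X.R) ∈ P A u p w := by
  rw [mem_P]
  intro j
  by_cases hj : j = i
  · subst hj
    rw [Pi.single_eq_same]
    exact h
  · rw [Pi.single_eq_of_ne hj]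
    exact Submodule.zero_mem _

theorem P_internal : DirectSum.IsInternal (P A u p) := by
  have h0 : DirectSum.IsInternal A.gr := DirectSum.Decomposition.isInternal _
  refine DirectSum.isInternal_submodule_of_iSupIndep_of_iSup_eq_top ?_ ?_
  · intro w
    rw [Submodule.disjoint_def]
    intro x hx hx'
    funext i
    have h1 := h0.submodule_iSupIndep (w - ((i : ℕ) : ℤ) • u)
    rw [Submodule.disjoint_def] at h1
    refine h1 (x i) ((mem_P A u).1 hx i) ?_
    have h2 : (⨆ j, ⨆ (_ : j ≠ w), P A u p j) ≤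
        (⨆ v, ⨆ (_ : v ≠ w - ((i : ℕ) : ℤ) • u), A.gr v).comap (LinearMap.proj i) := by
      refine iSup₂_le fun j hj y hy => ?_
      refine Submodule.mem_iSup_of_mem (j - ((i : ℕ) : ℤ) • u) ?_
      refine Submodule.mem_iSup_of_mem (fun h => hj (sub_left_injective h)) ?_
      exact (mem_P A u).1 hy i
    exact h2 hx'
  · rw [eq_top_iff]
    intro x _
    have h1 : x = ∑ i, Pi.single i (x i) := (Finset.univ_sum_single x).symm
    rw [h1]
    refine Submodule.sum_mem _ fun i _ => ?_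
    have h2 : (⨆ v, A.gr v) ≤ (⨆ w, P A u p w).comap (LinearMap.single ℂ (fun _ => X.R) i) := by
      refine iSup_le fun v a ha => ?_
      refine Submodule.mem_iSup_of_mem (v + ((i : ℕ) : ℤ) • u) ?_
      refine single_mem A u i ?_
      rw [add_sub_cancel_right]
      exact ha
    rw [h0.submodule_iSup_eq_top] at h2
    exact h2 (Submodule.mem_top (x := x i))

/-- The grading of the cover. -/
def gr (w : Fin m → ℤ) : Submodule ℂ k.X'.R := (P A u p w).map (eqv k hp).toLinearMap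

theorem mem_gr {w : Fin m → ℤ} {b : k.X'.R} : b ∈ gr k hp A u w ↔
    ∃ a : Fin p → X.R, (∀ i : Fin p, a i ∈ A.gr (w - ((i : ℕ) : ℤ) • u)) ∧ lin k hp a = b := by
  constructor
  · rintro ⟨a, ha, rfl⟩
    exact ⟨a, (mem_P A u).1 ha, rfl⟩
  · rintro ⟨a, ha, rfl⟩
    exact ⟨a, (mem_P A u).2 ha, rfl⟩

theorem gr_internal : DirectSum.IsInternal (gr k hp A u) := by
  have h1 : gr k hp A u = fun w => Submodule.orderIsoMapComap (eqv k hp) (P A u p w) := rfl
  have h0 := P_internal (p := p) A u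
  refine DirectSum.isInternal_submodule_of_iSupIndep_of_iSup_eq_top ?_ ?_
  · rw [h1]
    exact h0.submodule_iSupIndep.map_orderIso _
  · rw [h1, ← OrderIso.map_iSup, h0.submodule_iSup_eq_top]
    exact OrderIso.map_top _

theorem pow_mem {v : Fin m → ℤ} {a : X.R} (h : a ∈ A.gr v) (q : ℕ) :
    a ^ q ∈ A.gr ((q : ℤ) • v) := by
  have h1 := SetLike.pow_mem_graded q h
  rwa [← natCast_zsmul] at h1

theorem lin_single (i : Fin p) (a : X.R) :
    lin k hp (Pi.single i a) = io k hp a * Z k hp ^ (i : ℕ) := by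
  rw [lin_apply, Finset.sum_eq_single i]
  · rw [Pi.single_eq_same]
  · intro j _ hj
    rw [Pi.single_eq_of_ne hj, map_zero, zero_mul]
  · intro h
    exact absurd (Finset.mem_univ _) h

theorem mul_mem (hg : g ∈ A.gr ((p : ℤ) • u)) {v : Fin m → ℤ} (j : ℕ) {a : X.R}
    (ha : a ∈ A.gr (v - (j : ℤ) • u)) : io k hp a * Z k hp ^ j ∈ gr k hp A u v := by
  have hr : j % p < p := Nat.mod_lt _ hp.pos
  have h1 : Z k hp ^ j = io k hp (g ^ (j / p)) * Z k hp ^ (j % p) := by
    conv_lhs => rw [← Nat.div_add_mod j p]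
    rw [pow_add, pow_mul, Z_pow, map_pow]
  rw [h1, ← mul_assoc, ← map_mul]
  refine (mem_gr k hp A u).2 ⟨Pi.single ⟨j % p, hr⟩ (a * g ^ (j / p)), ?_, ?_⟩
  · refine (mem_P A u).1 (single_mem A u _ ?_)
    have h2 := SetLike.GradedMul.mul_mem ha (pow_mem A hg (j / p))
    have h3 : v - (j : ℤ) • u + ((j / p : ℕ) : ℤ) • (p : ℤ) • u =
        v - ((j % p : ℕ) : ℤ) • u := by
      have h4 : (j : ℤ) = ((j / p : ℕ) : ℤ) * p + ((j % p : ℕ) : ℤ) := by
        have := Nat.div_add_mod j p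
        push_cast
        nlinarith [Int.emod_add_mul_ediv (j : ℤ) p]
      rw [smul_smul]
      nth_rewrite 1 [h4]
      rw [add_smul]
      abel
    rwa [h3] at h2
  · exact lin_single k hp _ _

theorem mem_gr_io (hg : g ∈ A.gr ((p : ℤ) • u)) {w : Fin m → ℤ} {a : X.R} (ha : a ∈ A.gr w) :
    io k hp a ∈ gr k hp A u w := by
  have h1 := mul_mem k hp A u hg (v := w) 0 (a := a) (by
    rw [Nat.cast_zero, zero_smul, sub_zero]
    exact ha)
  rwa [pow_zero, mul_one] at h1

theorem graded_mono (hg : g ∈ A.gr ((p : ℤ) • u)) : SetLike.GradedMonoid (gr k hp A u) where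
  one_mem := by
    have h1 := mem_gr_io k hp A u hg (w := 0) (a := 1) SetLike.GradedOne.one_mem
    rwa [map_one] at h1
  mul_mem := by
    intro w w' x y hx hy
    obtain ⟨a, ha, rfl⟩ := (mem_gr k hp A u).1 hx
    obtain ⟨b, hb, rfl⟩ := (mem_gr k hp A u).1 hy
    rw [lin_apply, lin_apply, Finset.sum_mul]
    refine Submodule.sum_mem _ fun i _ => ?_
    rw [Finset.mul_sum]
    refine Submodule.sum_mem _ fun j _ => ?_
    have h1 : io k hp (a i) * Z k hp ^ (i : ℕ) * (io k hp (b j) * Z k hp ^ (j : ℕ)) =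
        io k hp (a i * b j) * Z k hp ^ ((i : ℕ) + (j : ℕ)) := by
      rw [map_mul, pow_add]
      ring
    rw [h1]
    refine mul_mem k hp A u hg _ ?_
    have h2 := SetLike.GradedMul.mul_mem (ha i) (hb j)
    have h3 : w - ((i : ℕ) : ℤ) • u + (w' - ((j : ℕ) : ℤ) • u) =
        w + w' - (((i : ℕ) + (j : ℕ) : ℕ) : ℤ) • u := by
      push_cast
      rw [add_smul]
      abel
    rwa [h3] at h2

/-- The torus action on the cover. -/
def act (hg : g ∈ A.gr ((p : ℤ) • u)) : TorusAction k.X' m where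
  gr := gr k hp A u
  graded :=
    { toDecomposition := (gr_internal k hp A u).chooseDecomposition
      toGradedMonoid := graded_mono k hp A u hg }
  effective := by
    rw [eq_top_iff, ← A.effective]
    refine AddSubgroup.closure_mono fun v hv h => hv ?_
    rw [eq_bot_iff]
    intro a ha
    have h1 := mem_gr_io k hp A u hg ha
    have h2 : io k hp a ∈ (⊥ : Submodule ℂ k.X'.R) := by
      rwa [show gr k hp A u v = ⊥ from h] at h1
    rw [Submodule.mem_bot] at h2 ⊢
    exact io_inj k hp (h2.trans (map_zero _).symm)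

variable {A}

theorem unit_zero : UnitWt A 0 := ⟨1, SetLike.GradedOne.one_mem, isUnit_one⟩

theorem unit_add {v w : Fin m → ℤ} (h : UnitWt A v) (h' : UnitWt A w) : UnitWt A (v + w) := by
  obtain ⟨a, ha, ua⟩ := h
  obtain ⟨b, hb, ub⟩ := h'
  exact ⟨a * b, SetLike.GradedMul.mul_mem ha hb, ua.mul ub⟩

theorem unit_neg (H : Stmt_HOU) {v : Fin m → ℤ} (h : UnitWt A v) : UnitWt A (-v) := by
  obtain ⟨a, ha, ua⟩ := h
  obtain ⟨b, hb⟩ := ua.exists_right_inv
  exact ⟨b, (H A).2.2.1 v a b ha hb, IsUnit.of_mul_eq_one a (by rw [mul_comm, hb])⟩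

theorem unit_nsmul {v : Fin m → ℤ} (h : UnitWt A v) (q : ℕ) : UnitWt A (q • v) := by
  induction q with
  | zero =>
    rw [zero_smul]
    exact unit_zero
  | succ q ih =>
    rw [succ_nsmul]
    exact unit_add ih h

theorem unit_zsmul (H : Stmt_HOU) {v : Fin m → ℤ} (h : UnitWt A v) (q : ℤ) :
    UnitWt A (q • v) := by
  cases q with
  | ofNat q =>
    have h1 := unit_nsmul h q
    rwa [← natCast_zsmul] at h1
  | negSucc q =>
    rw [negSucc_zsmul]
    exact unit_neg H (unit_nsmul h (q + 1))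

theorem isUnit_Z (hu : IsUnit g) : IsUnit (Z k hp) := by
  rw [← isUnit_pow_iff hp.ne_zero, Z_pow]
  exact hu.map (io k hp)

theorem unit_cover (hg : g ∈ A.gr ((p : ℤ) • u)) (hu : IsUnit g) {w : Fin m → ℤ} (i : ℕ)
    (h : UnitWt A (w - (i : ℤ) • u)) : UnitWt (act k hp A u hg) w := by
  obtain ⟨a, ha, ua⟩ := h
  exact ⟨io k hp a * Z k hp ^ i, mul_mem k hp A u hg i ha,
    (ua.map (io k hp)).mul ((isUnit_Z k hp hu).pow i)⟩

theorem unit_of_not_mem (hg : g ∈ A.gr ((p : ℤ) • u)) (hc : ClosedOrbit A) {w : Fin m → ℤ}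
    {b : k.X'.R} (hb : b ∈ (act k hp A u hg).gr w) (hm : b ∉ k.X'.m) :
    ∃ i : Fin p, UnitWt A (w - ((i : ℕ) : ℤ) • u) := by
  obtain ⟨a, ha, rfl⟩ := (mem_gr k hp A u).1 hb
  have h1 : ∑ i : Fin p, algebraMap X.K k.X'.K (a i) * k.z ^ (i : ℕ) ∈ k.X'.R := by
    rw [← lin_coe k hp]
    exact (lin k hp a).2
  have h2 : lin k hp a = ⟨_, h1⟩ := Subtype.ext (lin_coe k hp a)
  rw [h2, k.pt] at hm
  by_contra hno
  refine hm (Ideal.sum_mem _ fun i _ => Ideal.mul_mem_left _ _ ?_)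
  by_contra hi
  exact hno ⟨i, hc _ ⟨a i, ha i, hi⟩⟩

end KUA

open KUA in
theorem t_KUA (hHOU : Stmt_HOU) : Stmt_KUA := by
  intro n m X A p g u _ hp hu hg hc k
  refine ⟨act k hp A u hg, fun w a ha => ⟨mem_alg k hp a, mem_gr_io k hp A u hg ha⟩, ?_, ?_⟩
  · rintro w ⟨b, hb, hm⟩
    obtain ⟨i, hi⟩ := unit_of_not_mem k hp u hg hc hb hm
    exact unit_cover k hp u hg hu i hi
  · intro w
    constructor
    · rintro ⟨b, hb, ub⟩
      obtain ⟨i, hi⟩ := unit_of_not_mem k hp u hg hc hb fun h =>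
        k.X'.max.ne_top (Ideal.eq_top_of_isUnit_mem _ h ub)
      exact ⟨_, hi⟩
    · rintro ⟨i, hi⟩
      have hp0 : (p : ℤ) ≠ 0 := by exact_mod_cast hp.ne_zero
      obtain ⟨r, hr⟩ := Int.eq_ofNat_of_zero_le (Int.emod_nonneg i hp0)
      refine unit_cover k hp u hg hu r ?_
      have h1 : UnitWt A ((i / p) • (p : ℤ) • u) := unit_zsmul hHOU ⟨g, hg, hu⟩ _
      have h2 := unit_add hi h1
      have h3 : w - i • u + (i / p) • (p : ℤ) • u = w - (r : ℤ) • u := by
        rw [← hr, smul_smul]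
        nth_rewrite 1 [← Int.emod_add_mul_ediv i p]
        rw [add_smul, mul_comm (p : ℤ)]
        abel
      rwa [h3] at h2

end

end MldG
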