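import Pool.Agent.MldG.StmtsF
import Pool.Agent.MldGeo.PUL
import Pool.Agent.MldGeo.EXF
import Pool.Agent.MldGeo.TXT
import Pool.Agent.MldGeo.TBAS
import Pool.Agent.MldGeo.OLC
import Pool.Agent.MldGeo.FRA
import Pool.Agent.MldGeo.LOGD
import Pool.Agent.MldGeo.FSM

/-!
# KUT: triples and covers
-/

namespace MldG

open MldGeo

noncomputable section

namespace KUT

variable {n : ℕ} {X : Germ n} {p : ℕ} {g : X.R}

theorem exists_dlogs {K : Type} [Field K] [Algebra ℂ K] (h3 : Stmt_TBAS)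
    (htr : Algebra.trdeg ℂ K = (n : Cardinal)) (ω : Forms n K) (hω : ω ≠ 0) :
    ∃ (g : K) (a : Fin n → K), AlgebraicIndependent ℂ a ∧ g ≠ 0 ∧ (∀ i, a i ≠ 0) ∧ dlogs a ≠ 0 ∧
      ω = g • dlogs a := by
  obtain ⟨a, ha, ha0⟩ := PUL.exists_basis htr
  obtain ⟨g, hg⟩ := PUL.exists_dforms h3 htr a ha ω
  have hp : ∏ i, a i ≠ 0 := Finset.prod_ne_zero_iff.2 fun i _ => ha0 i
  have hp' : ∏ i, (a i)⁻¹ ≠ 0 := Finset.prod_ne_zero_iff.2 fun i _ => inv_ne_zero (ha0 i)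
  have hg0 : g ≠ 0 := by
    rintro rfl
    exact hω (by rw [hg, zero_smul])
  refine ⟨g * ∏ i, a i, a, ha, mul_ne_zero hg0 hp, ha0, ?_, ?_⟩
  · rw [PUL.dlogs_eq]
    exact smul_ne_zero hp' (PUL.dforms_ne h3 htr a ha)
  · rw [PUL.dlogs_eq, smul_smul, mul_assoc, ← Finset.prod_mul_distrib]
    have h1 : ∀ i ∈ (Finset.univ : Finset (Fin n)), a i * (a i)⁻¹ = 1 := fun i _ =>
      mul_inv_cancel₀ (ha0 i)
    rw [Finset.prod_congr rfl h1, Finset.prod_const_one, mul_one]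
    exact hg

/-- The images of the regular functions are regular. -/
theorem mem_image (k : RootCover X p g) (hp : 0 < p) (a : X.R) :
    algebraMap X.K k.X'.K (a : X.K) ∈ k.X'.R := by
  rw [k.mem]
  refine ⟨fun i => if i = ⟨0, hp⟩ then a else 0, ?_⟩
  rw [Finset.sum_eq_single (⟨0, hp⟩ : Fin p)]
  · simp
  · intro b _ hb
    simp [hb]
  · intro h
    exact absurd (Finset.mem_univ _) h

/-- The images of the elements of an ideal. -/
def imageSet (k : RootCover X p g) (I : Ideal X.R) : Set k.X'.R :=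
  {a' : k.X'.R | ∃ a ∈ I, (a' : k.X'.K) = algebraMap X.K k.X'.K a}

theorem image_ne {k : RootCover X p g} (hp : 0 < p) {a : X.R} (ha : a ≠ 0) :
    (⟨algebraMap X.K k.X'.K (a : X.K), mem_image k hp a⟩ : k.X'.R) ≠ 0 := by
  intro h
  apply ha
  have h1 : algebraMap X.K k.X'.K (a : X.K) = 0 := congrArg Subtype.val h
  exact Subtype.ext ((map_eq_zero _).1 h1)

theorem span_ne (k : RootCover X p g) (hp : 0 < p) {I : Ideal X.R} (hI : I ≠ ⊥) :
    Ideal.span (imageSet k I) ≠ ⊥ := by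
  obtain ⟨a, haI, ha⟩ := Submodule.exists_mem_ne_zero_of_ne_bot hI
  intro h
  rw [Ideal.span_eq_bot] at h
  exact image_ne (k := k) hp ha (h _ ⟨a, haI, rfl⟩)

theorem idealOrd_eq (k : RootCover X p g) (hp : 0 < p) {I : Ideal X.R} (hI : I ≠ ⊥)
    (v' : DivVal n k.X'.K) (v : DivVal n X.K) (h : IsExt v' v 1)
    (hv' : ∀ a : k.X'.R, 0 ≤ v'.ord a) :
    idealOrd v' (Ideal.span (imageSet k I)) = idealOrd v I := by
  have he : ∀ a : X.K, v'.ord (algebraMap X.K k.X'.K a) = v.ord a := fun a => by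
    have := h.2 a
    simpa using this
  have hv : ∀ a : X.R, 0 ≤ v.ord a := fun a => by
    have h1 := hv' ⟨algebraMap X.K k.X'.K (a : X.K), mem_image k hp a⟩
    rwa [← he]
  obtain ⟨-, h2, h3, -⟩ := t_IDO v hv
  obtain ⟨-, -, -, h4'⟩ := t_IDO v' hv'
  obtain ⟨a', ⟨a, haI, haa⟩, ha0, hao, hmin⟩ := h4' (imageSet k I) (span_ne k hp hI)
  obtain ⟨b, hb, hb0, hbo⟩ := h2 I hI
  have ha : a ≠ 0 := by
    rintro rfl
    apply ha0
    apply Subtype.ext
    rw [haa]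
    simp
  have h5 := h3 I a haI ha
  have h6 := hmin _ ⟨b, hb, rfl⟩ (image_ne (k := k) hp hb0)
  have h7 : v'.ord (a' : k.X'.K) = v.ord (a : X.K) := by rw [haa, he]
  rw [h7] at hao h6
  have h8 : v'.ord ((⟨algebraMap X.K k.X'.K (b : X.K), mem_image k hp b⟩ : k.X'.R) : k.X'.K)
      = v.ord (b : X.K) := he b
  rw [h8] at h6
  omega

end KUT

theorem t_KUT : Stmt_KUT := by
  intro n X p g hn hp hg k T
  have hTBAS : Stmt_TBAS := t_TBAS
  have hLOGD : Stmt_LOGD := t_LOGD t_FRA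
  have hCOE : Stmt_COE := t_COE t_FRA hLOGD hTBAS
  have hFRM : Stmt_FRM := t_FRM t_FRA hTBAS hCOE
  have hEXF : Stmt_EXF := t_EXF t_FRA hTBAS hLOGD hFRM (t_FSM t_FRA hFRM)
  have hTXT : Stmt_TXT := t_TXT t_FRA hLOGD hTBAS hFRM
  obtain ⟨g0, a, hai, hg0, ha, hda, hω⟩ := KUT.exists_dlogs hTBAS X.trdeg T.ω T.ω_ne
  have hg0' : algebraMap X.K k.X'.K g0 ≠ 0 := (map_ne_zero _).2 hg0
  have hai' : AlgebraicIndependent ℂ fun i => algebraMap X.K k.X'.K (a i) := by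
    have h := hai.map' (f := IsScalarTower.toAlgHom ℂ X.K k.X'.K) (algebraMap X.K k.X'.K).injective
    exact h
  have hne : dlogs (fun i => algebraMap X.K k.X'.K (a i)) ≠ 0 := by
    rw [PUL.dlogs_eq]
    refine smul_ne_zero (Finset.prod_ne_zero_iff.2 fun i _ => inv_ne_zero ?_)
      (PUL.dforms_ne hTBAS k.X'.trdeg _ hai')
    exact (map_ne_zero _).2 (ha i)
  refine ⟨{
    ω := algebraMap X.K k.X'.K g0 • dlogs fun i => algebraMap X.K k.X'.K (a i)
    ω_ne := smul_ne_zero hg0' hne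
    I := T.I
    finI := T.finI
    f := fun i => algebraMap X.K k.X'.K (T.f i)
    f_ne := fun i => (map_ne_zero _).2 (T.f_ne i)
    c := T.c
    J := T.J
    finJ := T.finJ
    a := fun i => Ideal.span (KUT.imageSet k (T.a i))
    a_ne := fun i => KUT.span_ne k hp.pos (T.a_ne i)
    r := T.r
    r_nonneg := T.r_nonneg }, ?_, fun i => ⟨i, rfl, rfl⟩⟩
  intro v' v h hv'
  have he : ∀ a : X.K, v'.ord (algebraMap X.K k.X'.K a) = v.ord a := fun a => by
    have := h.2 a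
    simpa using this
  have h1 := (hEXF v' v 1 X.trdeg hn h g0 a hg0 ha hda).2
  rw [← hω] at h1
  have h2 : v'.formOrd (algebraMap X.K k.X'.K g0 • dlogs fun i => algebraMap X.K k.X'.K (a i)) =
      v.formOrd T.ω := by
    rw [hTXT k.X'.trdeg v' _ hn (smul_ne_zero hg0' hne), hTXT X.trdeg v _ hn T.ω_ne, h1]
    simp
  have h3 : ∀ i, v'.ord (algebraMap X.K k.X'.K (T.f i)) = v.ord (T.f i) := fun i => he _
  have h4 : ∀ i, idealOrd v' (Ideal.span (KUT.imageSet k (T.a i))) = idealOrd v (T.a i) :=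
    fun i => KUT.idealOrd_eq k hp.pos (T.a_ne i) v' v h hv'
  constructor
  · simp only [Triple.logDisc, h2, h3]
  · simp only [Triple.disc, Triple.logDisc, h2, h3, h4]

end

end MldG
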