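import Pool.Agent.MldG.StmtsF
import Mathlib

/-!
# Covers exist

`K' = K[z]/(z^p - g)`, `R' = R[z]`.
-/

namespace MldG

open MldGeo

open Polynomial

noncomputable section

namespace KUX

/-- The field. -/
theorem ex_field (K : Type) [Field K] [Algebra ℂ K] (p : ℕ) (hp : p.Prime) (g : K)
    (hg : ∀ b : K, b ^ p ≠ g) :
    ∃ (L : Type) (_ : Field L) (_ : Algebra K L) (_ : Algebra ℂ L) (_ : IsScalarTower ℂ K L)
      (z : L), z ^ p = algebraMap K L g ∧ FiniteDimensional K L ∧ IsGalois K L ∧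
      (∀ f : K[X], f.natDegree < p → aeval z f = 0 → f = 0) ∧
      (∀ a' : L, ∃ f : K[X], aeval z f = a') ∧
      ∀ ζ : ℂ, ζ ^ p = 1 → ∃ σ : L ≃ₐ[K] L, σ z = algebraMap ℂ L ζ * z := by
  have H : Irreducible (X ^ p - C g : K[X]) := X_pow_sub_C_irreducible_of_prime hp hg
  have hne : (X ^ p - C g : K[X]) ≠ 0 := H.ne_zero
  have := Fact.mk H
  have hζ : (primitiveRoots p K).Nonempty := by
    refine ⟨algebraMap ℂ K (Complex.exp (2 * Real.pi * Complex.I / p)), ?_⟩
    rw [mem_primitiveRoots hp.pos]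
    exact (Complex.isPrimitiveRoot_exp p hp.ne_zero).map_of_injective (algebraMap ℂ K).injective
  have : IsSplittingField K (AdjoinRoot (X ^ p - C g : K[X])) (X ^ p - C g : K[X]) :=
    isSplittingField_AdjoinRoot_X_pow_sub_C hζ H
  refine ⟨AdjoinRoot (X ^ p - C g : K[X]), inferInstance, inferInstance, inferInstance,
    inferInstance, AdjoinRoot.root _, ?_, ?_, ?_, ?_, ?_, ?_⟩
  · exact root_X_pow_sub_C_pow p g
  · exact (AdjoinRoot.powerBasis hne).finite
  · exact isGalois_of_isSplittingField_X_pow_sub_C hζ H _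
  · intro f hf h0
    rw [AdjoinRoot.aeval_eq, AdjoinRoot.mk_eq_zero] at h0
    by_contra hf0
    have h1 := natDegree_le_of_dvd h0 hf0
    rw [natDegree_X_pow_sub_C] at h1
    omega
  · intro a'
    obtain ⟨f, rfl⟩ := AdjoinRoot.mk_surjective a'
    exact ⟨f, AdjoinRoot.aeval_eq f⟩
  · intro ζ hζ1
    have hζ0 : ζ ≠ 0 := by
      rintro rfl
      rw [zero_pow hp.ne_zero] at hζ1
      exact zero_ne_one hζ1
    have hζK : algebraMap ℂ K ζ ≠ 0 := by simpa using hζ0
    let η : Kˣ := Units.mk0 (algebraMap ℂ K ζ) hζK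
    have hη : η ∈ rootsOfUnity p K := by
      rw [mem_rootsOfUnity']
      change (algebraMap ℂ K ζ) ^ p = 1
      rw [← map_pow, hζ1, map_one]
    refine ⟨autAdjoinRootXPowSubC p g ⟨η, hη⟩, ?_⟩
    rw [autAdjoinRootXPowSubC_root, Algebra.smul_def, IsScalarTower.algebraMap_apply ℂ K]
    rfl

/-- Division by `X^p - g`. -/
theorem red {R : Type} [CommRing R] [Nontrivial R] {p : ℕ} (hp : p ≠ 0) (g : R) (f : R[X]) :
    ∃ r q : R[X], r.natDegree < p ∧ f = r + (X ^ p - C g) * q := by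
  have hm : (X ^ p - C g : R[X]).Monic := monic_X_pow_sub_C g hp
  refine ⟨f %ₘ (X ^ p - C g), f /ₘ (X ^ p - C g), ?_, (modByMonic_add_div f _).symm⟩
  have h1 : (X ^ p - C g : R[X]).natDegree = p := natDegree_X_pow_sub_C
  have h2 := natDegree_modByMonic_lt f hm (by
    intro h
    rw [h, natDegree_one] at h1
    exact hp h1.symm)
  rwa [h1] at h2

/-- Sums and polynomials. -/
theorem sum_form {R L : Type} [CommRing R] [CommRing L] [Algebra R L] {p : ℕ} (z : L) (f : R[X])
    (hf : f.natDegree < p) : aeval z f = ∑ i : Fin p, algebraMap R L (f.coeff i) * z ^ (i : ℕ) := by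
  rw [aeval_eq_sum_range' hf, Fin.sum_univ_eq_sum_range (fun i => algebraMap R L (f.coeff i) * z ^ i)]
  refine Finset.sum_congr rfl fun i _ => ?_
  rw [Algebra.smul_def]

/-- The polynomial with given coefficients. -/
def pol {R : Type} [CommRing R] {p : ℕ} (a : Fin p → R) : R[X] := ∑ i : Fin p, C (a i) * X ^ (i : ℕ)

theorem aeval_pol {R L : Type} [CommRing R] [CommRing L] [Algebra R L] {p : ℕ} (z : L)
    (a : Fin p → R) : aeval z (pol a) = ∑ i : Fin p, algebraMap R L (a i) * z ^ (i : ℕ) := by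
  simp [pol, map_sum]

theorem coeff_pol {R : Type} [CommRing R] {p : ℕ} (a : Fin p → R) (i : Fin p) :
    (pol a).coeff i = a i := by
  rw [pol, finsetSum_coeff, Finset.sum_eq_single i]
  · simp
  · intro j _ hj
    rw [coeff_C_mul, coeff_X_pow, if_neg, mul_zero]
    intro h
    exact hj (Fin.ext h.symm)
  · intro h
    exact absurd (Finset.mem_univ _) h

theorem natDegree_pol {R : Type} [CommRing R] {p : ℕ} (hp : p ≠ 0) (a : Fin p → R) :
    (pol a).natDegree < p := by
  have h : (pol a).natDegree ≤ p - 1 := by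
    refine natDegree_sum_le_of_forall_le _ _ fun i _ => ?_
    refine (natDegree_C_mul_X_pow_le _ _).trans ?_
    have := i.2
    omega
  omega

section cover

variable {n : ℕ} (X : Germ n) {p : ℕ} {g : X.R} {L : Type} [Field L] [Algebra X.K L] [Algebra ℂ L]
  [IsScalarTower ℂ X.K L] (z : L)

/-- The ring. -/
def rng : Subalgebra ℂ L := (Algebra.adjoin X.R {z}).restrictScalars ℂ

theorem mem_rng (a' : L) : a' ∈ rng X z ↔ ∃ f : X.R[X], aeval z f = a' := by
  rw [rng, Subalgebra.mem_restrictScalars, Algebra.adjoin_singleton_eq_range_aeval]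
  rfl

theorem map_R (a : X.R) : algebraMap X.R L a = algebraMap X.K L (a : X.K) := rfl

variable {X z}

theorem mem_rng' (hp : p ≠ 0) (hz : z ^ p = algebraMap X.K L (g : X.K)) (a' : L) :
    a' ∈ rng X z ↔ ∃ a : Fin p → X.R, a' = ∑ i : Fin p, algebraMap X.K L (a i) * z ^ (i : ℕ) := by
  rw [mem_rng]
  constructor
  · rintro ⟨f, rfl⟩
    obtain ⟨r, q, hr, rfl⟩ := red hp g f
    refine ⟨fun i => r.coeff i, ?_⟩
    rw [map_add, map_mul, map_sub, map_pow, aeval_X, aeval_C, hz, ← map_R, sub_self, zero_mul,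
      add_zero, sum_form z r hr]
    rfl
  · rintro ⟨a, rfl⟩
    exact ⟨pol a, aeval_pol z a⟩

theorem span' (hp : p ≠ 0) (hz : z ^ p = algebraMap X.K L (g : X.K))
    (hspan : ∀ a' : L, ∃ f : X.K[X], aeval z f = a') (a' : L) :
    ∃ a : Fin p → X.K, a' = ∑ i : Fin p, algebraMap X.K L (a i) * z ^ (i : ℕ) := by
  obtain ⟨f, rfl⟩ := hspan a'
  obtain ⟨r, q, hr, rfl⟩ := red hp (g : X.K) f
  refine ⟨fun i => r.coeff i, ?_⟩
  rw [map_add, map_mul, map_sub, map_pow, aeval_X, aeval_C, hz, sub_self, zero_mul,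
    add_zero, sum_form z r hr]

theorem indep' (hp : p ≠ 0) (hind : ∀ f : X.K[X], f.natDegree < p → aeval z f = 0 → f = 0)
    (a : Fin p → X.K) (h : ∑ i : Fin p, algebraMap X.K L (a i) * z ^ (i : ℕ) = 0) : a = 0 := by
  rw [← aeval_pol] at h
  have h1 := hind _ (natDegree_pol hp a) h
  funext i
  rw [← coeff_pol a i, h1]
  simp

/-- The kernel. -/
theorem ker_eq (hp : p ≠ 0) (hz : z ^ p = algebraMap X.K L (g : X.K))
    (hind : ∀ f : X.K[X], f.natDegree < p → aeval z f = 0 → f = 0) (f : X.R[X])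
    (h : aeval z f = 0) : ∃ q, f = (Polynomial.X ^ p - C g) * q := by
  obtain ⟨r, q, hr, rfl⟩ := red hp g f
  refine ⟨q, ?_⟩
  rw [map_add, map_mul, map_sub, map_pow, aeval_X, aeval_C, hz, ← map_R, sub_self, zero_mul,
    add_zero] at h
  have h1 : aeval z (r.map (algebraMap X.R X.K)) = 0 := by
    rw [aeval_map_algebraMap, h]
  have hinj : Function.Injective (algebraMap X.R X.K) := Subtype.val_injective
  have h2 := hind _ (lt_of_le_of_lt (natDegree_map_le) hr) h1
  rw [Polynomial.map_eq_zero_iff hinj] at h2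
  rw [h2, zero_add]

theorem int_z (hp : p ≠ 0) (hz : z ^ p = algebraMap X.K L (g : X.K)) : IsIntegral X.R z := by
  refine ⟨Polynomial.X ^ p - C g, monic_X_pow_sub_C g hp, ?_⟩
  rw [← aeval_def, map_sub, map_pow, aeval_X, aeval_C, hz, ← map_R, sub_self]

/-- The trace of the powers of the root. -/
theorem tr_pow (hp : p.Prime) 
    (hconj : ∀ ζ : ℂ, ζ ^ p = 1 → ∃ σ : L ≃ₐ[X.K] L, σ z = algebraMap ℂ L ζ * z) (m : ℕ)
    (hm : ¬ p ∣ m) : Algebra.trace X.K L (z ^ m) = 0 := by
  have hζ := Complex.isPrimitiveRoot_exp p hp.ne_zero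
  set ζ := Complex.exp (2 * Real.pi * Complex.I / p)
  obtain ⟨σ, hσ⟩ := hconj ζ hζ.pow_eq_one
  have h1 : σ (z ^ m) = (algebraMap ℂ X.K (ζ ^ m)) • z ^ m := by
    rw [map_pow, hσ, mul_pow, Algebra.smul_def, ← IsScalarTower.algebraMap_apply, map_pow]
  have h2 := Algebra.trace_eq_of_algEquiv σ (z ^ m)
  rw [h1, map_smul, smul_eq_mul] at h2
  have h3 : ζ ^ m ≠ 1 := fun h => hm ((hζ.pow_eq_one_iff_dvd m).1 h)
  have h4 : algebraMap ℂ X.K (ζ ^ m) ≠ 1 := by
    intro h
    rw [← map_one (algebraMap ℂ X.K)] at h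
    exact h3 ((algebraMap ℂ X.K).injective h)
  have h5 : (algebraMap ℂ X.K (ζ ^ m) - 1) * Algebra.trace X.K L (z ^ m) = 0 := by
    rw [sub_mul, h2, one_mul, sub_self]
  rcases mul_eq_zero.1 h5 with h | h
  · exact absurd (sub_eq_zero.1 h) h4
  · exact h

/-- Normality. -/
theorem normal' (hp : p.Prime) (hg : IsUnit g) (hz : z ^ p = algebraMap X.K L (g : X.K))
    [FiniteDimensional X.K L]
    (hspan : ∀ a' : L, ∃ f : X.K[X], aeval z f = a')
    (hconj : ∀ ζ : ℂ, ζ ^ p = 1 → ∃ σ : L ≃ₐ[X.K] L, σ z = algebraMap ℂ L ζ * z)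
    (a' : L) (h : IsIntegral (rng X z) a') : a' ∈ rng X z := by
  have hint : Algebra.IsIntegral X.R (Algebra.adjoin X.R {z}) := by
    refine Algebra.IsIntegral.adjoin ?_
    intro x hx
    rw [Set.mem_singleton_iff.1 hx]
    exact int_z hp.ne_zero hz
  have h' : IsIntegral (Algebra.adjoin X.R {z}) a' := h
  have h1 : IsIntegral X.R a' := isIntegral_trans (A := Algebra.adjoin X.R {z}) a' h'
  obtain ⟨a, ha⟩ := span' hp.ne_zero hz hspan a'
  have key : ∀ i, a i ∈ X.R := by
    intro i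
    have h2 : Algebra.trace X.K L (a' * z ^ (p - (i : ℕ))) =
        (Module.finrank X.K L : X.K) * (g : X.K) * a i := by
      rw [ha, Finset.sum_mul, map_sum, Finset.sum_eq_single i]
      · rw [mul_assoc, ← pow_add, Nat.add_sub_cancel' i.2.le, hz, ← map_mul,
          Algebra.trace_algebraMap, nsmul_eq_mul]
        ring
      · intro j _ hj
        rw [mul_assoc, ← pow_add, ← Algebra.smul_def, map_smul, tr_pow hp hconj, smul_zero]
        rintro ⟨k, hk⟩
        have hi := i.2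
        have hj' := j.2
        apply hj
        apply Fin.ext
        have hk1 : k = 1 := by
          rcases k with _ | _ | k
          · omega
          · rfl
          · exfalso
            have : p * (k + 1 + 1) = p * k + 2 * p := by ring
            have h0 : 0 ≤ p * k := Nat.zero_le _
            omega
        rw [hk1] at hk
        omega
      · intro h
        exact absurd (Finset.mem_univ _) h
    have h3 : IsIntegral X.R (Algebra.trace X.K L (a' * z ^ (p - (i : ℕ)))) :=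
      Algebra.isIntegral_trace (h1.mul ((int_z hp.ne_zero hz).pow _))
    have h4 := X.normal _ h3
    rw [h2] at h4
    obtain ⟨g', hg'⟩ := hg.exists_right_inv
    have hg2 : (g : X.K) * (g' : X.K) = 1 := by
      have := congrArg Subtype.val hg'
      simpa using this
    have hN : (Module.finrank X.K L : ℂ) ≠ 0 := by
      exact_mod_cast (Module.finrank_pos (R := X.K) (M := L)).ne'
    have h5 : a i = algebraMap ℂ X.K ((Module.finrank X.K L : ℂ)⁻¹) * (g' : X.K) *
        ((Module.finrank X.K L : X.K) * (g : X.K) * a i) := by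
      have h6 : algebraMap ℂ X.K ((Module.finrank X.K L : ℂ)⁻¹) * (Module.finrank X.K L : X.K) = 1 := by
        have : (Module.finrank X.K L : X.K) = algebraMap ℂ X.K (Module.finrank X.K L : ℂ) := by simp
        rw [this, ← map_mul, inv_mul_cancel₀ hN, map_one]
      calc a i = 1 * 1 * a i := by ring
        _ = (algebraMap ℂ X.K ((Module.finrank X.K L : ℂ)⁻¹) * (Module.finrank X.K L : X.K)) *
            ((g : X.K) * (g' : X.K)) * a i := by rw [h6, hg2]
        _ = _ := by ring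
    rw [h5]
    exact X.R.mul_mem (X.R.mul_mem (X.R.algebraMap_mem _) g'.2) h4
  rw [mem_rng' hp.ne_zero hz]
  exact ⟨fun i => ⟨a i, key i⟩, ha⟩

/-- Fractions. -/
theorem frac' (hp : p.Prime) (hz : z ^ p = algebraMap X.K L (g : X.K))
    (hspan : ∀ a' : L, ∃ f : X.K[X], aeval z f = a') (a' : L) :
    ∃ r ∈ rng X z, ∃ s ∈ rng X z, s ≠ 0 ∧ a' * s = r := by
  obtain ⟨a, rfl⟩ := span' hp.ne_zero hz hspan a'
  have hzm : z ∈ rng X z := (mem_rng X z z).2 ⟨Polynomial.X, aeval_X z⟩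
  have hRm : ∀ a : X.R, algebraMap X.K L (a : X.K) ∈ rng X z := fun a =>
    (mem_rng X z _).2 ⟨C a, aeval_C z a⟩
  refine Finset.sum_induction _ (fun x => ∃ r ∈ rng X z, ∃ s ∈ rng X z, s ≠ 0 ∧ x * s = r)
    ?_ ?_ ?_
  · rintro x y ⟨r, hr, s, hs, hs0, hxs⟩ ⟨r', hr', s', hs', hs0', hxs'⟩
    refine ⟨r * s' + r' * s, add_mem (mul_mem hr hs') (mul_mem hr' hs), s * s', mul_mem hs hs',
      mul_ne_zero hs0 hs0', ?_⟩
    rw [← hxs, ← hxs']
    ring
  · exact ⟨0, zero_mem _, 1, one_mem _, one_ne_zero, by ring⟩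
  · intro i _
    obtain ⟨r, hr, s, hs, hs0, h⟩ := X.frac (a i)
    refine ⟨algebraMap X.K L r * z ^ (i : ℕ), mul_mem (hRm ⟨r, hr⟩) (pow_mem hzm _),
      algebraMap X.K L s, hRm ⟨s, hs⟩, ?_, ?_⟩
    · simpa using hs0
    · rw [← h, map_mul]
      ring

/-- Finite generation. -/
theorem fg' : (rng X z).FG := by
  have hR : Algebra.FiniteType ℂ X.R := X.R.fg_iff_finiteType.1 X.fg
  have h1 : Algebra.FiniteType ℂ X.R[X] := Algebra.FiniteType.trans hR inferInstance
  let φ : X.R[X] →ₐ[ℂ] L := (aeval z : X.R[X] →ₐ[X.R] L).restrictScalars ℂ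
  have h2 : rng X z = (⊤ : Subalgebra ℂ X.R[X]).map φ := by
    ext a'
    rw [mem_rng, Subalgebra.mem_map]
    constructor
    · rintro ⟨f, hf⟩
      exact ⟨f, Algebra.mem_top, hf⟩
    · rintro ⟨f, -, hf⟩
      exact ⟨f, hf⟩
  rw [h2]
  exact h1.out.map φ

/-- Transcendence degree. -/
theorem trdeg' [FiniteDimensional X.K L] : Algebra.trdeg ℂ L = n := by
  rw [← X.trdeg, ← trdeg_add_eq ℂ X.K (A := L), trdeg_eq_zero (R := X.K) (A := L), add_zero]

variable (X z) in
/-- The parametrization of the ring. -/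
def phi : X.R[X] →+* rng X z :=
  (aeval z : X.R[X] →ₐ[X.R] L).toRingHom.codRestrict (rng X z) fun f => (mem_rng X z _).2 ⟨f, rfl⟩

theorem phi_val (f : X.R[X]) : ((phi X z f : rng X z) : L) = aeval z f := rfl

theorem phi_surj : Function.Surjective (phi X z) := by
  rintro ⟨a', ha'⟩
  obtain ⟨f, hf⟩ := (mem_rng X z a').1 ha'
  exact ⟨f, Subtype.ext hf⟩

/-- Evaluation at the point. -/
def psi (X : Germ n) (c : ℂ) : X.R[X] →+* X.R ⧸ X.m :=
  eval₂RingHom (Ideal.Quotient.mk X.m) (Ideal.Quotient.mk X.m (algebraMap ℂ X.R c))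

theorem psi_C (c : ℂ) (a : X.R) : psi X c (C a) = Ideal.Quotient.mk X.m a := by
  rw [psi, coe_eval₂RingHom, eval₂_C]

theorem psi_X (c : ℂ) : psi X c Polynomial.X = Ideal.Quotient.mk X.m (algebraMap ℂ X.R c) := by
  rw [psi, coe_eval₂RingHom, eval₂_X]

theorem psi_surj (c : ℂ) : Function.Surjective (psi X c) := by
  intro b
  obtain ⟨a, rfl⟩ := Ideal.Quotient.mk_surjective b
  exact ⟨C a, psi_C c a⟩

theorem ker_le (hp : p ≠ 0) (hz : z ^ p = algebraMap X.K L (g : X.K))
    (hind : ∀ f : X.K[X], f.natDegree < p → aeval z f = 0 → f = 0) {c : ℂ}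
    (hc : g - algebraMap ℂ X.R (c ^ p) ∈ X.m) : RingHom.ker (phi X z) ≤ RingHom.ker (psi X c) := by
  intro f hf
  rw [RingHom.mem_ker] at hf ⊢
  have h1 : aeval z f = 0 := by rw [← phi_val, hf]; rfl
  obtain ⟨q, rfl⟩ := ker_eq hp hz hind f h1
  have h2 : Ideal.Quotient.mk X.m g = Ideal.Quotient.mk X.m (algebraMap ℂ X.R (c ^ p)) :=
    Ideal.Quotient.eq.2 hc
  rw [map_mul, map_sub, map_pow, psi_X, psi_C, h2, map_pow, map_pow, sub_self, zero_mul]

variable (X z) in
/-- The ideal of the point. -/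
def mm (c : ℂ) : Ideal (rng X z) := Ideal.map (phi X z) (RingHom.ker (psi X c))

theorem mm_max (hp : p ≠ 0) (hz : z ^ p = algebraMap X.K L (g : X.K))
    (hind : ∀ f : X.K[X], f.natDegree < p → aeval z f = 0 → f = 0) {c : ℂ}
    (hc : g - algebraMap ℂ X.R (c ^ p) ∈ X.m) : (mm X z c).IsMaximal := by
  letI : Field (X.R ⧸ X.m) := Ideal.Quotient.field X.m
  have h1 : (RingHom.ker (psi X c)).IsMaximal := RingHom.ker_isMaximal_of_surjective _ (psi_surj c)
  exact Ideal.IsMaximal.map_of_surjective_of_ker_le phi_surj (ker_le hp hz hind hc)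

theorem mem_mm (hp : p ≠ 0) (hz : z ^ p = algebraMap X.K L (g : X.K))
    (hind : ∀ f : X.K[X], f.natDegree < p → aeval z f = 0 → f = 0) {c : ℂ}
    (hc : g - algebraMap ℂ X.R (c ^ p) ∈ X.m) (f : X.R[X]) :
    phi X z f ∈ mm X z c ↔ psi X c f = 0 := by
  constructor
  · intro h
    obtain ⟨f', hf', h'⟩ := (Ideal.mem_map_iff_of_surjective _ phi_surj).1 h
    have h1 : f - f' ∈ RingHom.ker (phi X z) := by
      rw [RingHom.mem_ker, map_sub, h', sub_self]
    have h2 := ker_le hp hz hind hc h1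
    rw [RingHom.mem_ker, map_sub] at h2
    rw [RingHom.mem_ker] at hf'
    rwa [hf', sub_zero] at h2
  · intro h
    exact Ideal.mem_map_of_mem _ h

variable (X z) in
/-- The cover. -/
def germ (c : ℂ) [FiniteDimensional X.K L] (hp : p.Prime) (hg : IsUnit g)
    (hz : z ^ p = algebraMap X.K L (g : X.K))
    (hspan : ∀ a' : L, ∃ f : X.K[X], aeval z f = a')
    (hind : ∀ f : X.K[X], f.natDegree < p → aeval z f = 0 → f = 0)
    (hconj : ∀ ζ : ℂ, ζ ^ p = 1 → ∃ σ : L ≃ₐ[X.K] L, σ z = algebraMap ℂ L ζ * z)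
    (hc : g - algebraMap ℂ X.R (c ^ p) ∈ X.m) : Germ n where
  K := L
  fieldK := inferInstance
  algK := inferInstance
  R := rng X z
  fg := fg'
  frac := frac' hp hz hspan
  normal := normal' hp hg hz hspan hconj
  trdeg := trdeg' (X := X)
  m := mm X z c
  max := mm_max hp.ne_zero hz hind hc

end cover

end KUX

open KUX in
/-- KUX: covers exist. -/
theorem t_KUX (hATH : Stmt_ATH) : Stmt_KUX := by
  intro n X p g hp hg hb
  obtain ⟨L, _, _, _, _, z, hz, _, _, hind, hspan, hconj⟩ := ex_field X.K p hp (g : X.K) hb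
  obtain ⟨c0, hc0⟩ := (hATH X).1 g
  obtain ⟨c, hc1⟩ := IsAlgClosed.exists_pow_nat_eq c0 hp.pos
  have hc : g - algebraMap ℂ X.R (c ^ p) ∈ X.m := by rw [hc1]; exact hc0
  have e1 := mem_rng' hp.ne_zero hz
  have e2 := indep' hp.ne_zero hind
  have e3 := span' hp.ne_zero hz hspan
  refine ⟨{
    X' := germ X z c hp hg hz hspan hind hconj hc
    alg := (inferInstance : Algebra X.K L)
    tower := (inferInstance : IsScalarTower ℂ X.K L)
    finite := (inferInstance : FiniteDimensional X.K L)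
    galois := (inferInstance : IsGalois X.K L)
    z := z
    pow := hz
    mem := e1
    indep := e2
    span := e3
    conj := hconj
    c := c
    pt := ?_
    c_pow := hc }⟩
  intro a h
  have h1 : (⟨∑ i : Fin p, algebraMap X.K L (a i) * z ^ (i : ℕ), h⟩ : rng X z) = phi X z (pol a) :=
    Subtype.ext (aeval_pol z a).symm
  have h2 := mem_mm hp.ne_zero hz hind hc (pol a)
  rw [← h1] at h2
  refine h2.trans ?_
  rw [pol, map_sum, ← Ideal.Quotient.eq_zero_iff_mem, map_sum]
  have h3 : ∀ i : Fin p, psi X c (C (a i) * Polynomial.X ^ (i : ℕ)) =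
      Ideal.Quotient.mk X.m (algebraMap ℂ X.R (c ^ (i : ℕ)) * a i) := by
    intro i
    rw [map_mul, map_pow, psi_C, psi_X, map_mul, map_pow, map_pow, mul_comm]
  rw [Finset.sum_congr rfl fun i _ => h3 i]


end

end MldG
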