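import Pool.Agent.MldG.StmtsZ
import Pool.Agent.MldG.HFK
import Pool.Agent.MldG.HFR
import Pool.Agent.MldG.HLI

/-!
# NGZ: it is enough to test the generators
-/

set_option autoImplicit false

namespace MldG

open MldGeo

namespace NGZ

variable {m : ℕ} {X : Germ (m + 1)} {A : TorusAction X m}

/-- The value of a coefficient `b` of weight `u` is at least `t`. -/
def Good (y : DivVal 1 A.K0) (w : Fin m → ℤ) (l t : ℤ) (u : Fin m → ℤ) (b : A.K0) : Prop :=
  b = 0 ∨ t ≤ l * y.ord b + ip w u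

theorem ip_add (w u u' : Fin m → ℤ) : ip w (u + u') = ip w u + ip w u' := by
  simp [ip, mul_add, Finset.sum_add_distrib]

theorem ip_zero (w : Fin m → ℤ) : ip w 0 = 0 := by simp [ip]

theorem Good.add {y : DivVal 1 A.K0} {w : Fin m → ℤ} {l : ℤ} (hl : 0 ≤ l) {t : ℤ}
    {u : Fin m → ℤ} {a b : A.K0} (ha : Good y w l t u a) (hb : Good y w l t u b) :
    Good y w l t u (a + b) := by
  by_cases ha0 : a = 0
  · rwa [ha0, zero_add]
  by_cases hb0 : b = 0
  · rwa [hb0, add_zero]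
  by_cases hab : a + b = 0
  · exact Or.inl hab
  have h1 := ha.resolve_left ha0
  have h2 := hb.resolve_left hb0
  have h3 := y.ord_add a b ha0 hb0 hab
  refine Or.inr ?_
  rcases min_le_iff.1 h3 with h4 | h4
  · have h5 := mul_le_mul_of_nonneg_left h4 hl
    linarith
  · have h5 := mul_le_mul_of_nonneg_left h4 hl
    linarith

theorem Good.mul {y : DivVal 1 A.K0} {w : Fin m → ℤ} {l : ℤ} {t t' : ℤ}
    {u u' : Fin m → ℤ} {a b : A.K0} (ha : Good y w l t u a) (hb : Good y w l t' u' b) :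
    Good y w l (t + t') (u + u') (a * b) := by
  by_cases ha0 : a = 0
  · exact Or.inl (by rw [ha0, zero_mul])
  by_cases hb0 : b = 0
  · exact Or.inl (by rw [hb0, mul_zero])
  have h1 := ha.resolve_left ha0
  have h2 := hb.resolve_left hb0
  refine Or.inr ?_
  rw [y.ord_mul a b ha0 hb0, ip_add, mul_add]
  linarith

theorem Good.mono {y : DivVal 1 A.K0} {w : Fin m → ℤ} {l : ℤ} {t t' : ℤ}
    {u : Fin m → ℤ} {a : A.K0} (ht : t' ≤ t) (ha : Good y w l t u a) : Good y w l t' u a :=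
  ha.imp_right fun h => ht.trans h

/-- The elements with a good expansion. -/
def GoodK (S : Splitting A) (y : DivVal 1 A.K0) (w : Fin m → ℤ) (l t : ℤ) (a : X.K) : Prop :=
  ∃ (s : Finset (Fin m → ℤ)) (b : (Fin m → ℤ) → A.K0), (∀ u, u ∉ s → b u = 0) ∧
    (∀ u, Good y w l t u (b u)) ∧ a = ∑ u ∈ s, (b u : X.K) * S.χ u

theorem GoodK.mono {S : Splitting A} {y : DivVal 1 A.K0} {w : Fin m → ℤ} {l t t' : ℤ} {a : X.K}
    (ht : t' ≤ t) (h : GoodK S y w l t a) : GoodK S y w l t' a := by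
  obtain ⟨s, b, h1, h2, h3⟩ := h
  exact ⟨s, b, h1, fun u => (h2 u).mono ht, h3⟩

theorem GoodK.single (S : Splitting A) {y : DivVal 1 A.K0} {w : Fin m → ℤ} {l t : ℤ}
    {u : Fin m → ℤ} {b : A.K0} (h : Good y w l t u b) :
    GoodK S y w l t ((b : X.K) * S.χ u) := by
  classical
  refine ⟨{u}, fun u' => if u' = u then b else 0, fun u' hu' => ?_, fun u' => ?_, by simp⟩
  · rw [Finset.mem_singleton] at hu'
    simp [hu']
  · by_cases hu' : u' = u
    · subst hu'; simpa using h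
    · exact Or.inl (by simp [hu'])

theorem GoodK.add {S : Splitting A} {y : DivVal 1 A.K0} {w : Fin m → ℤ} {l : ℤ} (hl : 0 ≤ l)
    {t : ℤ} {a a' : X.K} (h : GoodK S y w l t a) (h' : GoodK S y w l t a') :
    GoodK S y w l t (a + a') := by
  classical
  obtain ⟨s, b, h1, h2, rfl⟩ := h
  obtain ⟨s', b', h1', h2', rfl⟩ := h'
  refine ⟨s ∪ s', fun u => b u + b' u, fun u hu => ?_, fun u => (h2 u).add hl (h2' u), ?_⟩
  · rw [Finset.mem_union, not_or] at hu
    show b u + b' u = 0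
    rw [h1 u hu.1, h1' u hu.2, add_zero]
  · have e1 : ∑ u ∈ s, (b u : X.K) * S.χ u = ∑ u ∈ s ∪ s', (b u : X.K) * S.χ u :=
      Finset.sum_subset Finset.subset_union_left fun u _ hu => by simp [h1 u hu]
    have e2 : ∑ u ∈ s', (b' u : X.K) * S.χ u = ∑ u ∈ s ∪ s', (b' u : X.K) * S.χ u :=
      Finset.sum_subset Finset.subset_union_right fun u _ hu => by simp [h1' u hu]
    rw [e1, e2, ← Finset.sum_add_distrib]
    refine Finset.sum_congr rfl fun u _ => ?_
    push_cast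
    ring

theorem GoodK.zero (S : Splitting A) (y : DivVal 1 A.K0) (w : Fin m → ℤ) (l t : ℤ) :
    GoodK S y w l t 0 :=
  ⟨∅, fun _ => 0, fun _ _ => rfl, fun _ => Or.inl rfl, by simp⟩

theorem GoodK.sum {ι : Type*} {S : Splitting A} {y : DivVal 1 A.K0} {w : Fin m → ℤ} {l : ℤ}
    (hl : 0 ≤ l) {t : ℤ} (s : Finset ι) (f : ι → X.K) (h : ∀ i ∈ s, GoodK S y w l t (f i)) :
    GoodK S y w l t (∑ i ∈ s, f i) := by
  classical
  induction s using Finset.induction_on with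
  | empty => simpa using GoodK.zero S y w l t
  | insert a s ha ih =>
    rw [Finset.sum_insert ha]
    exact (h a (Finset.mem_insert_self a s)).add hl (ih fun i hi => h i (Finset.mem_insert_of_mem hi))

theorem GoodK.mul {S : Splitting A} {y : DivVal 1 A.K0} {w : Fin m → ℤ} {l : ℤ} (hl : 0 ≤ l)
    {t t' : ℤ} {a a' : X.K} (h : GoodK S y w l t a) (h' : GoodK S y w l t' a') :
    GoodK S y w l (t + t') (a * a') := by
  classical
  obtain ⟨s, b, h1, h2, rfl⟩ := h
  obtain ⟨s', b', h1', h2', rfl⟩ := h'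
  rw [Finset.sum_mul_sum]
  refine GoodK.sum hl _ _ fun u _ => GoodK.sum hl _ _ fun u' _ => ?_
  have e : (b u : X.K) * S.χ u * ((b' u' : X.K) * S.χ u') =
      ((b u * b' u' : A.K0) : X.K) * S.χ (u + u') := by
    rw [S.add]; push_cast; ring
  rw [e]
  exact GoodK.single S ((h2 u).mul (h2' u'))

theorem GoodK.const (S : Splitting A) (y : DivVal 1 A.K0) (w : Fin m → ℤ) (l : ℤ) (r : ℂ) :
    GoodK S y w l 0 (algebraMap ℂ X.K r) := by
  have h3 : Good y w l 0 0 (algebraMap ℂ A.K0 r) := by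
    refine Or.inr ?_
    rw [y.ord_const, ip_zero]
    simp
  have h4 := GoodK.single S h3
  rw [S.zero, mul_one] at h4
  exact h4

/-- Comparison of coefficients. -/
theorem GoodK.coeff (hHFK : Stmt_HFK) {S : Splitting A} {y : DivVal 1 A.K0} {w : Fin m → ℤ}
    {l t : ℤ} {c : A.K0} {z : Fin m → ℤ} (hc : c ≠ 0)
    (h1 : GoodK S y w l t ((c : X.K) * S.χ z)) : t ≤ l * y.ord c + ip w z := by
  classical
  obtain ⟨s, f, hf1, hf2, hf3⟩ := h1
  have h4 : ∑ v ∈ insert z s, ((f v - (if v = z then c else 0) : A.K0) : X.K) * S.χ v = 0 := by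
    have e1 : ∑ v ∈ s, (f v : X.K) * S.χ v = ∑ v ∈ insert z s, (f v : X.K) * S.χ v :=
      Finset.sum_subset (Finset.subset_insert _ _) fun v _ hv => by simp [hf1 v hv]
    have e2 : ∑ v ∈ insert z s, ((if v = z then c else 0 : A.K0) : X.K) * S.χ v =
        (c : X.K) * S.χ z := by
      rw [Finset.sum_eq_single z]
      · simp
      · intro v _ hv; simp [hv]
      · intro h; exact absurd (Finset.mem_insert_self z s) h
    have e3 : ∀ v ∈ insert z s, ((f v - (if v = z then c else 0) : A.K0) : X.K) * S.χ v =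
        (f v : X.K) * S.χ v - ((if v = z then c else 0 : A.K0) : X.K) * S.χ v := by
      intro v _
      push_cast
      ring
    rw [Finset.sum_congr rfl e3, Finset.sum_sub_distrib, e2, ← e1, ← hf3, sub_self]
  have h5 := (hHFK A S).2.1 (insert z s) _ h4 z (Finset.mem_insert_self z s)
  rw [if_pos rfl, sub_eq_zero] at h5
  have h6 := hf2 z
  rw [h5] at h6
  exact h6.resolve_left hc

/-- The elements of the maximal ideal, as elements of the function field. -/
def InM (X : Germ (m + 1)) (a : X.K) : Prop := ∃ h : a ∈ X.R, (⟨a, h⟩ : X.R) ∈ X.m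

theorem InM.add {a b : X.K} (ha : InM X a) (hb : InM X b) : InM X (a + b) := by
  obtain ⟨h1, h2⟩ := ha
  obtain ⟨h3, h4⟩ := hb
  exact ⟨X.R.add_mem h1 h3, X.m.add_mem h2 h4⟩

theorem InM.mul {a b : X.K} (ha : a ∈ X.R) (hb : InM X b) : InM X (a * b) := by
  obtain ⟨h3, h4⟩ := hb
  exact ⟨X.R.mul_mem ha h3, X.m.mul_mem_left ⟨a, ha⟩ h4⟩

theorem InM.zero : InM X 0 := ⟨X.R.zero_mem, X.m.zero_mem⟩

/-- a constant in the maximal ideal is zero -/
theorem InM.const {r : ℂ} (h : InM X (algebraMap ℂ X.K r)) : r = 0 := by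
  by_contra hr
  obtain ⟨h1, h2⟩ := h
  apply X.max.ne_top
  rw [Ideal.eq_top_iff_one]
  have h3 := X.m.mul_mem_left (algebraMap ℂ X.R r⁻¹) h2
  have h4 : algebraMap ℂ X.R r⁻¹ * (⟨algebraMap ℂ X.K r, h1⟩ : X.R) = 1 := by
    apply Subtype.ext
    show algebraMap ℂ X.K r⁻¹ * algebraMap ℂ X.K r = 1
    rw [← map_mul, inv_mul_cancel₀ hr, map_one]
  rwa [h4] at h3

theorem InM.neg {a : X.K} (h : InM X a) : InM X (-a) := by
  obtain ⟨h1, h2⟩ := h
  exact ⟨X.R.neg_mem h1, X.m.neg_mem h2⟩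

theorem nonneg (hHFK : Stmt_HFK) (S : Splitting A) (N : ℕ)
    (u : Fin N → Fin m → ℤ) (b : Fin N → A.K0)
    (hgen : ∀ a ∈ X.R, a ∈ Algebra.adjoin ℂ (Set.range fun i => (b i : X.K) * S.χ (u i)))
    (w : Fin m → ℤ) (l : ℤ) (y : DivVal 1 A.K0) (hl : 0 ≤ l)
    (hb : ∀ i, Good y w l 0 (u i) (b i)) (c : A.K0) (z : Fin m → ℤ) (hc : c ≠ 0)
    (hcR : (c : X.K) * S.χ z ∈ X.R) : 0 ≤ l * y.ord c + ip w z := by
  refine GoodK.coeff (S := S) hHFK hc ?_
  refine Algebra.adjoin_induction (p := fun a _ => GoodK S y w l 0 a) ?_ ?_ ?_ ?_ (hgen _ hcR)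
  · rintro _ ⟨i, rfl⟩
    exact GoodK.single S (hb i)
  · intro r
    exact GoodK.const S y w l r
  · intro a a' _ _ h h'
    exact h.add hl h'
  · intro a a' _ _ h h'
    have h1 := h.mul hl h'
    rwa [add_zero] at h1

theorem pos (hHFK : Stmt_HFK) (S : Splitting A) (N : ℕ)
    (u : Fin N → Fin m → ℤ) (b : Fin N → A.K0)
    (hm : ∀ i, InM X ((b i : X.K) * S.χ (u i)))
    (hgen : ∀ a ∈ X.R, a ∈ Algebra.adjoin ℂ (Set.range fun i => (b i : X.K) * S.χ (u i)))
    (w : Fin m → ℤ) (l : ℤ) (y : DivVal 1 A.K0) (hl : 0 ≤ l)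
    (hb : ∀ i, Good y w l 1 (u i) (b i)) (c : A.K0) (z : Fin m → ℤ) (hc : c ≠ 0)
    (hcm : InM X ((c : X.K) * S.χ z)) : 1 ≤ l * y.ord c + ip w z := by
  have h1 : ∃ (k : ℂ) (a' : X.K), GoodK S y w l 1 a' ∧ InM X a' ∧
      (c : X.K) * S.χ z = algebraMap ℂ X.K k + a' := by
    refine Algebra.adjoin_induction (p := fun a _ => ∃ (k : ℂ) (a' : X.K), GoodK S y w l 1 a' ∧
      InM X a' ∧ a = algebraMap ℂ X.K k + a') ?_ ?_ ?_ ?_ (hgen _ hcm.1)
    · rintro _ ⟨i, rfl⟩
      exact ⟨0, _, GoodK.single S (hb i), hm i, by rw [map_zero, zero_add]⟩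
    · intro r
      exact ⟨r, 0, GoodK.zero S y w l 1, InM.zero, by rw [add_zero]⟩
    · rintro _ _ _ _ ⟨k, a, ha, ha', rfl⟩ ⟨k', b, hb, hb', rfl⟩
      refine ⟨k + k', a + b, ha.add hl hb, ha'.add hb', ?_⟩
      rw [map_add]
      ring
    · rintro _ _ _ _ ⟨k, a, ha, ha', rfl⟩ ⟨k', b, hb, hb', rfl⟩
      refine ⟨k * k', algebraMap ℂ X.K k * b + algebraMap ℂ X.K k' * a + a * b, ?_, ?_, ?_⟩
      · have e1 := (GoodK.const S y w l k).mul hl hb
        have e2 := (GoodK.const S y w l k').mul hl ha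
        have e3 := ha.mul hl hb
        rw [zero_add] at e1 e2
        exact (e1.add hl e2).add hl (e3.mono (by norm_num))
      · exact ((hb'.mul (X.R.algebraMap_mem k)).add (ha'.mul (X.R.algebraMap_mem k'))).add
          (hb'.mul ha'.1)
      · rw [map_mul]
        ring
  obtain ⟨k, a', h2, h3, h4⟩ := h1
  have hk : k = 0 := by
    apply InM.const (X := X)
    have h5 := hcm.add h3.neg
    rwa [h4, add_neg_cancel_right] at h5
  rw [hk, map_zero, zero_add] at h4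
  rw [← h4] at h2
  exact GoodK.coeff hHFK hc h2

end NGZ

theorem t_NGZ : Stmt_NGZ := by
  intro m X A S y₀ _ _ N u b hb hm hgen l w hl
  have hHFK : Stmt_HFK := t_HFK t_HLI t_HFR
  refine ⟨fun h c z hc hcR => ?_, fun h c z hcR hc hcm => ?_⟩
  · exact NGZ.nonneg hHFK S N u b hgen w l y₀ hl (fun i => Or.inr (h i)) c z hc hcR
  · exact NGZ.pos hHFK S N u b hm hgen w l y₀ hl (fun i => Or.inr (h i)) c z hc ⟨hcR, hcm⟩

end MldG
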