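import Pool.Agent.MldG.Stmts4
import Pool.Agent.MldGeo.Stmts5
import Pool.Agent.MldGeo.Ord

/-!
# Prime divisors which are not invariant
-/

namespace MldG

open MldGeo

noncomputable section

namespace NHP

open DivVal

theorem core_prime' {ι R : Type} [AddCommMonoid ι] [d : DecidableEq ι] [CommRing R] [Algebra ℂ R]
    (gr : ι → Submodule ℂ R) [GradedAlgebra gr] (P : Ideal R) (hP : P.IsPrime)
    (hl : LinearOrder ι) (ho : @IsOrderedCancelAddMonoid ι _ hl.toPartialOrder.toPreorder) :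
    (P.homogeneousCore gr).toIdeal.IsPrime := by
  have hd : d = hl.toDecidableEq := Subsingleton.elim _ _
  subst hd
  exact Ideal.IsPrime.homogeneousCore hP

theorem core_prime {m : ℕ} {R : Type} [CommRing R] [Algebra ℂ R]
    (gr : (Fin m → ℤ) → Submodule ℂ R) [GradedAlgebra gr] (P : Ideal R) (hP : P.IsPrime) :
    (P.homogeneousCore gr).toIdeal.IsPrime :=
  core_prime' gr P hP (inferInstance : LinearOrder (Lex (Fin m → ℤ)))
    (inferInstance : IsOrderedCancelAddMonoid (Lex (Fin m → ℤ)))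

/-- a prime ideal of height one which is not invariant contains no homogeneous element -/
theorem not_mem {n m : ℕ} {X : Germ n} (A : TorusAction X m) (P : Ideal X.R) (hP : P.IsPrime)
    (hh : P.height = 1) (hinv : ¬ A.Inv P) {u : Fin m → ℤ} {r : X.R} (hr : r ∈ A.gr u)
    (h0 : r ≠ 0) : r ∉ P := by
  intro hrP
  have hQ := core_prime A.gr P hP
  have hle : (P.homogeneousCore A.gr).toIdeal ≤ P := Ideal.toIdeal_homogeneousCore_le A.gr P
  have hne : (P.homogeneousCore A.gr).toIdeal ≠ P := by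
    intro h
    apply hinv
    refine ⟨{a | (∃ w, a ∈ A.gr w) ∧ a ∈ P}, fun a ha => ha.1, ?_⟩
    apply le_antisymm
    · conv_lhs => rw [← h]
      change Ideal.homogeneousCore' A.gr P ≤ _
      unfold Ideal.homogeneousCore'
      apply Ideal.span_mono
      rintro x ⟨y, hy, rfl⟩
      exact ⟨y.2, hy⟩
    · rw [Ideal.span_le]
      exact fun a ha => ha.2
  have hbot : (P.homogeneousCore A.gr).toIdeal = ⊥ := by
    by_contra hb
    have h1 := Ideal.height_add_one_le_of_lt_of_isPrime (bot_lt_iff_ne_bot.2 hb)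
    have h2 := Ideal.height_add_one_le_of_lt_of_isPrime (lt_of_le_of_ne hle hne)
    rw [Ideal.height_bot, zero_add] at h1
    rw [hh] at h2
    have h3 : (1 : ℕ∞) + 1 ≤ 1 := (add_le_add h1 le_rfl).trans h2
    exact absurd h3 (by decide)
  have hmem : r ∈ (P.homogeneousCore A.gr).toIdeal :=
    Ideal.mem_homogeneousCore_of_homogeneous_of_mem ⟨u, hr⟩ hrP
  rw [hbot] at hmem
  exact h0 hmem

theorem deriv_mem (hTBAS : Stmt_TBAS) {F K : Type} [Field F] [Field K] [Algebra ℂ F] [Algebra ℂ K]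
    [Algebra F K] [IsScalarTower ℂ F K] {c : ℕ} (s : Fin c → F) (hs : AlgebraicIndependent ℂ s)
    (htr : Algebra.trdeg ℂ F = (c : Cardinal)) (D : Derivation ℂ K K) (b : F) :
    D (algebraMap F K b) ∈ Submodule.span F (Set.range fun j => D (algebraMap F K (s j))) := by
  let E : Derivation ℂ F K := D.compAlgebraMap F
  have hE : ∀ x, E x = D (algebraMap F K x) := fun x => rfl
  have h1 := (hTBAS htr s hs).2
  have h2 : KaehlerDifferential.D ℂ F b ∈
      Submodule.span F (Set.range fun i => KaehlerDifferential.D ℂ F (s i)) := by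
    rw [h1]
    trivial
  have h3 := Submodule.mem_map_of_mem (f := E.liftKaehlerDifferential) h2
  rw [Submodule.map_span, ← Set.range_comp, Derivation.liftKaehlerDifferential_comp_D] at h3
  have h4 : (E.liftKaehlerDifferential ∘ fun i => KaehlerDifferential.D ℂ F (s i)) =
      fun j => D (algebraMap F K (s j)) := by
    funext j
    simp only [Function.comp_apply]
    rw [Derivation.liftKaehlerDifferential_comp_D]
    rfl
  rw [h4] at h3
  exact h3

section

variable {n : ℕ} {K : Type} [Field K] [Algebra ℂ K] (v : DivVal n K) (D : Derivation ℂ K K)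

/-- units of the valuation ring with regular derivative -/
def Un (x : K) : Prop := x ≠ 0 ∧ v.ord x = 0 ∧ v.Ge 0 (D x)

variable {v D}

theorem Un.one : Un v D 1 := ⟨one_ne_zero, ord_one v, by rw [Derivation.map_one_eq_zero]; exact Ge.zero v 0⟩

theorem Un.mul {x y : K} (hx : Un v D x) (hy : Un v D y) : Un v D (x * y) := by
  refine ⟨mul_ne_zero hx.1 hy.1, ?_, ?_⟩
  · rw [v.ord_mul _ _ hx.1 hy.1, hx.2.1, hy.2.1, add_zero]
  · rw [Derivation.leibniz, smul_eq_mul, smul_eq_mul]
    exact ((Ge.of_le hx.2.1.ge).mul_left hy.2.2).add ((Ge.of_le hy.2.1.ge).mul_left hx.2.2)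

theorem Un.inv {x : K} (hx : Un v D x) : Un v D x⁻¹ := by
  have h1 : v.Ge 0 x⁻¹ := Ge.inv hx.1 hx.2.1
  refine ⟨inv_ne_zero hx.1, by rw [ord_inv, hx.2.1, neg_zero], ?_⟩
  have h2 : D x⁻¹ = -(x⁻¹ * (x⁻¹ * D x)) := by
    have h3 : D (x * x⁻¹) = 0 := by
      rw [mul_inv_cancel₀ hx.1, Derivation.map_one_eq_zero]
    rw [Derivation.leibniz, smul_eq_mul, smul_eq_mul] at h3
    have h4 : D x⁻¹ = x⁻¹ * (x * D x⁻¹) := by
      rw [← mul_assoc, inv_mul_cancel₀ hx.1, one_mul]
    rw [h4, eq_neg_of_add_eq_zero_left h3, mul_neg]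
  rw [h2]
  exact (h1.mul_left (h1.mul_left hx.2.2)).neg

theorem Un.zpow {x : K} (hx : Un v D x) (k : ℤ) : Un v D (x ^ k) := by
  have hn : ∀ k : ℕ, Un v D (x ^ k) := by
    intro k
    induction k with
    | zero => rw [pow_zero]; exact Un.one
    | succ k ih => rw [pow_succ]; exact ih.mul hx
  cases k with
  | ofNat k => simpa using hn k
  | negSucc k =>
    rw [zpow_negSucc]
    exact (hn (k + 1)).inv

theorem Un.prod {ι : Type} (t : Finset ι) (f : ι → K) (h : ∀ i ∈ t, Un v D (f i)) :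
    Un v D (∏ i ∈ t, f i) := by
  classical
  induction t using Finset.induction_on with
  | empty => rw [Finset.prod_empty]; exact Un.one
  | insert a t ha ih =>
    rw [Finset.prod_insert ha]
    exact (h a (Finset.mem_insert_self a t)).mul
      (ih fun i hi => h i (Finset.mem_insert_of_mem hi))

end

section

variable {n m : ℕ} {X : Germ n} {A : TorusAction X m} (S : Splitting A)

theorem chi_ne (u : Fin m → ℤ) : S.χ u ≠ 0 := by
  intro h
  have h1 := S.add u (-u)
  rw [add_neg_cancel, S.zero, h, zero_mul] at h1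
  exact one_ne_zero h1

theorem chi_neg (u : Fin m → ℤ) : S.χ (-u) = (S.χ u)⁻¹ := by
  have h1 := S.add u (-u)
  rw [add_neg_cancel, S.zero] at h1
  exact eq_inv_of_mul_eq_one_right h1.symm

theorem chi_nsmul (u : Fin m → ℤ) (k : ℕ) : S.χ (k • u) = S.χ u ^ k := by
  induction k with
  | zero => rw [zero_smul, S.zero, pow_zero]
  | succ k ih => rw [succ_nsmul, S.add, ih, pow_succ]

theorem chi_zsmul (u : Fin m → ℤ) (k : ℤ) : S.χ (k • u) = S.χ u ^ k := by
  cases k with
  | ofNat k =>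
    simpa using chi_nsmul S u k
  | negSucc k =>
    rw [zpow_negSucc, negSucc_zsmul, chi_neg, chi_nsmul]

theorem chi_sum {ι : Type} (t : Finset ι) (f : ι → Fin m → ℤ) :
    S.χ (∑ i ∈ t, f i) = ∏ i ∈ t, S.χ (f i) := by
  classical
  induction t using Finset.induction_on with
  | empty => rw [Finset.sum_empty, Finset.prod_empty, S.zero]
  | insert a t ha ih => rw [Finset.sum_insert ha, Finset.prod_insert ha, S.add, ih]

theorem chi_eq (u : Fin m → ℤ) : S.χ u = ∏ i, S.χ (Pi.single i 1) ^ u i := by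
  have h1 : u = ∑ i, u i • (Pi.single i 1 : Fin m → ℤ) := by
    funext j
    simp [Finset.sum_apply, Pi.single_apply]
  conv_lhs => rw [h1]
  rw [chi_sum]
  exact Finset.prod_congr rfl fun i _ => chi_zsmul S _ _

end

theorem pos_dim {n : ℕ} {K : Type} [Field K] [Algebra ℂ K]
    (htr : Algebra.trdeg ℂ K = (n : Cardinal)) (v : DivVal n K) : 0 < n := by
  rcases Nat.eq_zero_or_pos n with rfl | h
  · exfalso
    obtain ⟨t, ht, h1⟩ := v.unif
    rw [Nat.cast_zero, trdeg_eq_zero_iff] at htr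
    have h2 : Algebra.IsAlgebraic ℂ K := htr
    obtain ⟨c, hc⟩ := (IsAlgClosed.algebraMap_bijective_of_isIntegral (k := ℂ) (K := K)).2 t
    have := v.ord_const c
    rw [hc] at this
    omega
  · exact h

end NHP

open DivVal NHP in
theorem t_NHP (hHFR : Stmt_HFR) (hHFK : Stmt_HFK) (hTRD : Stmt_TRD) (hTRB : Stmt_TRB)
    (hTBAS : Stmt_TBAS) (hREG : Stmt_REG) (hFSM : Stmt_FSM) (hOLC : Stmt_OLC) : Stmt_NHP := by
  intro n m c X A S s a e hs ha P v hv hinv
  obtain ⟨hP, hh, hnn, hmem⟩ := hv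
  -- (1) homogeneous functions have order zero
  have hR : ∀ (u : Fin m → ℤ) (r : X.R), r ∈ A.gr u → r ≠ 0 → v.ord (r : X.K) = 0 := by
    intro u r hr h0
    have h1 := not_mem A P hP hh hinv hr h0
    have h2 : ¬ 0 < v.ord (r : X.K) := fun h => h1 ((hmem r).2 (Or.inr h))
    have h3 := hnn r
    omega
  have hH : ∀ (u : Fin m → ℤ) (h : X.K), A.Hom u h → h ≠ 0 → v.ord h = 0 := by
    rintro u h ⟨a', b', r, t, hr, ht, h0, hab, he⟩ hne
    have ht0 : (t : X.K) ≠ 0 := TorusAction.coe_ne h0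
    have hr0 : r ≠ 0 := by
      rintro rfl
      rw [ZeroMemClass.coe_zero] at he
      exact (mul_ne_zero hne ht0) he
    have h1 := v.ord_mul h t hne ht0
    rw [he, hR _ _ hr hr0, hR _ _ ht h0] at h1
    omega
  refine ⟨hH, ?_⟩
  have htr : Algebra.trdeg ℂ X.K = (n : Cardinal) := X.trdeg
  have hn : 0 < n := pos_dim htr v
  have hcard : n = c + m := by
    have := Fintype.card_congr e
    simpa using this
  have htr0 : Algebra.trdeg ℂ A.K0 = (c : Cardinal) := by
    have h0 : (n : Cardinal) = (c : Cardinal) + (m : Cardinal) := by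
      rw [← Nat.cast_add, ← hcard]
    have h1 := hTRD A
    rw [h0] at h1
    exact (Cardinal.add_nat_inj m).1 h1
  -- the functions a i
  have hs0 : ∀ j, (s j : X.K) ≠ 0 := by
    intro j h
    exact hs.ne_zero j (Subtype.ext h)
  have ha0 : ∀ i, a i ≠ 0 ∧ v.ord (a i) = 0 := by
    intro i
    rw [ha i]
    rcases e i with j | j
    · exact ⟨hs0 j, hH 0 _ (s j).2 (hs0 j)⟩
    · exact ⟨chi_ne S _, hH _ _ (S.hom _) (chi_ne S _)⟩
  have hai : AlgebraicIndependent ℂ a := by
    have h1 := hTRB A S s hs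
    have h2 := h1.comp e e.injective
    have h3 : (Sum.elim (fun j => (s j : X.K)) fun i : Fin m => S.χ (Pi.single i 1)) ∘ e = a := by
      funext i
      exact (ha i).symm
    rwa [h3] at h2
  -- (2) the derivations
  have hD : ∀ D : Derivation ℂ X.K X.K, (∀ i, v.Ge 0 (D (a i))) →
      ∀ b : X.K, v.Ge 0 b → v.Ge 0 (D b) := by
    intro D hDa
    have hDs : ∀ j, v.Ge 0 (D (s j : X.K)) := by
      intro j
      have h1 := hDa (e.symm (Sum.inl j))
      rw [ha, Equiv.apply_symm_apply] at h1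
      exact h1
    have hDc : ∀ j, v.Ge 0 (D (S.χ (Pi.single j 1))) := by
      intro j
      have h1 := hDa (e.symm (Sum.inr j))
      rw [ha, Equiv.apply_symm_apply] at h1
      exact h1
    have hUc : ∀ u, Un v D (S.χ u) := by
      intro u
      rw [chi_eq]
      refine Un.prod _ _ fun i _ => Un.zpow ?_ _
      exact ⟨chi_ne S _, hH _ _ (S.hom _) (chi_ne S _), hDc i⟩
    have hK0 : ∀ b : A.K0, v.Ge 0 (b : X.K) := by
      intro b
      by_cases hb : (b : X.K) = 0
      · exact Or.inl hb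
      · exact Ge.of_le (hH 0 _ b.2 hb).ge
    have hDb : ∀ b : A.K0, v.Ge 0 (D (b : X.K)) := by
      intro b
      have h1 := deriv_mem hTBAS (F := A.K0) (K := X.K) s hs htr0 D b
      refine Submodule.span_induction (p := fun x _ => v.Ge 0 x) ?_ (Ge.zero v 0) ?_ ?_ h1
      · rintro _ ⟨j, rfl⟩
        exact hDs j
      · intro x y _ _ hx hy
        exact hx.add hy
      · intro b x _ hx
        rw [Algebra.smul_def]
        exact (hK0 b).mul_left hx
    have hDh : ∀ (u : Fin m → ℤ) (h : X.K), A.Hom u h → v.Ge 0 (D h) := by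
      intro u h hu
      obtain ⟨b, rfl⟩ := (hHFK A S).1 u h hu
      rw [Derivation.leibniz, smul_eq_mul, smul_eq_mul]
      exact ((hK0 b).mul_left (hUc u).2.2).add ((Ge.of_le (hUc u).2.1.ge).mul_left (hDb b))
    have hDr : ∀ r : X.R, v.Ge 0 (D (r : X.K)) := by
      intro r
      obtain ⟨t, h, h1, -, h3⟩ := hHFR A r
      rw [h3]
      push_cast
      rw [map_sum]
      exact Ge.sum _ _ fun u _ => hDh u _ (TorusAction.Hom.of_mem (h1 u))
    intro b hb
    obtain ⟨r, t, ht, hbt⟩ := hOLC X P v ⟨hP, hh, hnn, hmem⟩ b hb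
    have ht0 : t ≠ 0 := fun h => ht (by rw [h]; exact P.zero_mem)
    have ht1 : (t : X.K) ≠ 0 := TorusAction.coe_ne ht0
    have ht2 : v.ord (t : X.K) = 0 := by
      have h2 : ¬ 0 < v.ord (t : X.K) := fun h => ht ((hmem t).2 (Or.inr h))
      have h3 := hnn t
      omega
    have h4 : D (b * (t : X.K)) = D (r : X.K) := by rw [hbt]
    rw [Derivation.leibniz, smul_eq_mul, smul_eq_mul] at h4
    have h5 : D b = (t : X.K)⁻¹ * (D (r : X.K) - b * D (t : X.K)) := by
      rw [← h4, add_sub_cancel_left, ← mul_assoc, inv_mul_cancel₀ ht1, one_mul]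
    rw [h5]
    exact (Ge.inv ht1 ht2).mul_left ((hDr r).sub (hb.mul_left (hDr t)))
  -- conclusion
  obtain ⟨h1, h2⟩ := hREG htr v a hn (fun i => Ge.of_le (ha0 i).2.ge) hai
  have h3 := h2 hD
  have hne : dforms a ≠ 0 := by
    intro h
    have h4 : {k : ℤ | ∃ g : X.K, g ≠ 0 ∧ v.ord g = k ∧ ∃ η ∈ v.logForms,
        dforms a = g • η} = Set.univ := by
      ext k
      simp only [Set.mem_ofPred_eq, Set.mem_univ, iff_true]
      obtain ⟨t, ht, ht1⟩ := v.unif
      refine ⟨t ^ k, zpow_ne_zero _ ht, by rw [ord_zpow, ht1, mul_one], 0, zero_mem _, ?_⟩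
      rw [h, smul_zero]
    rw [DivVal.logOrd, h4, Int.csSup_of_not_bddAbove (fun hb => by simp at hb)] at h3
    exact absurd h3 (by norm_num)
  have hdl : dlogs a = (∏ i, a i)⁻¹ • dforms a := by
    unfold dlogs dforms dlog
    rw [← Finset.prod_inv_distrib]
    exact (exteriorPower.ιMulti X.K n).map_smul_univ (fun i => (a i)⁻¹)
      (fun i => KaehlerDifferential.D ℂ X.K (a i))
  have hp0 : (∏ i, a i) ≠ 0 := Finset.prod_ne_zero_iff.2 fun i _ => (ha0 i).1
  rw [hdl, hFSM htr v _ _ hn (inv_ne_zero hp0) hne, h3, ord_inv,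
    ord_prod v _ _ (fun i _ => (ha0 i).1), Finset.sum_eq_zero (fun i _ => (ha0 i).2)]
  norm_num

end

end MldG
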