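import Pool.Agent.MldG.StmtsZ
import Pool.Agent.MldG.HLI
import Pool.Agent.MldG.HFR
import Pool.Agent.MldGeo.LOC
import Pool.Agent.MldGeo.DIV

/-! # NOZ: regular homogeneous functions near a fixed point -/

namespace MldG

open MldGeo

noncomputable section

namespace NOZ

variable {m : ℕ} {X : Germ (m + 1)} {A : TorusAction X m}

/-- the function is regular along the prime divisors through the point -/
theorem loc (hTHZ : Stmt_THZ) (S : Splitting A) (y₀ : DivVal 1 A.K0) (hF : Fixed A)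
    (hC : Centre A y₀) (b : A.K0) (u : Fin m → ℤ) (hb : b ≠ 0)
    (H : ∀ (w : Fin m → ℤ) (l : ℤ), 0 ≤ l → NonnegR S w l y₀ → 0 ≤ l * y₀.ord b + ip w u) :
    ∃ r s : X.R, s ∉ X.m ∧ (b : X.K) * S.χ u * (s : X.K) = r := by
  refine t_LOC t_DIV X _ fun v P hP hv => Or.inr ?_
  have hthr : X.Through v := by
    refine ⟨hv.2.2.1, fun a ha => ?_⟩
    have h1 : a ∉ P := fun h2 => ha (hP h2)
    have h2 : ¬ (a = 0 ∨ 0 < v.ord a) := fun h3 => h1 ((hv.2.2.2 a).2 h3)
    push Not at h2
    exact le_antisymm h2.2 (hv.2.2.1 a)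
  obtain ⟨w, l, hl, hy, hN, -⟩ := (hTHZ A S y₀ hF hC).2 v hthr
  rw [hy b u hb]
  exact H w l hl hN

/-- the component of weight zero of a function which does not vanish at the point -/
theorem comp_zero (hF : Fixed A) (s : X.R) (hs : s ∉ X.m) (t : Finset (Fin m → ℤ))
    (h : (Fin m → ℤ) → X.R) (hh : ∀ u, h u ∈ A.gr u) (e : s = ∑ u ∈ t, h u) : h 0 ∉ X.m := by
  intro hc
  apply hs
  rw [e]
  refine Ideal.sum_mem _ fun u _ => ?_
  by_cases hu : u = 0
  · rw [hu]
    exact hc
  · exact hF u hu _ (hh u)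

end NOZ

theorem t_NOZ (hTHZ : Stmt_THZ) (_hHOU : Stmt_HOU) : Stmt_NOZ := by
  intro m X A S y₀ hF hC b u hb H
  obtain ⟨r, s, hs, e⟩ := NOZ.loc hTHZ S y₀ hF hC b u hb H
  obtain ⟨t, h, hh, ht, es⟩ := t_HFR A s
  obtain ⟨t', h', hh', ht', er⟩ := t_HFR A r
  have h0 := NOZ.comp_zero hF s hs t h hh es
  set a : X.K := (b : X.K) * S.χ u with ha
  have haH : A.Hom u a := by
    have h1 := (show A.Hom 0 (b : X.K) from b.2).mul (S.hom u)
    rwa [zero_add] at h1
  let T : Finset (Fin m → ℤ) := t.image (fun w => u + w) ∪ t' ∪ {u}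
  have hsum1 : ∑ w ∈ T, a * (h (w - u) : X.K) = a * s := by
    have h1 : ∑ w ∈ t.image (fun w => u + w), a * (h (w - u) : X.K) =
        ∑ w ∈ T, a * (h (w - u) : X.K) := by
      refine Finset.sum_subset ?_ ?_
      · intro w hw
        exact Finset.mem_union_left _ (Finset.mem_union_left _ hw)
      · intro w _ hw
        have h2 : w - u ∉ t := by
          intro h3
          exact hw (Finset.mem_image.2 ⟨w - u, h3, by abel⟩)
        rw [ht _ h2]
        simp
    rw [← h1, Finset.sum_image (fun x _ y _ hxy => add_left_cancel hxy), es]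
    push_cast
    rw [Finset.mul_sum]
    refine Finset.sum_congr rfl fun w _ => ?_
    rw [add_sub_cancel_left]
  have hsum2 : ∑ w ∈ T, (h' w : X.K) = r := by
    have h1 : ∑ w ∈ t', (h' w : X.K) = ∑ w ∈ T, (h' w : X.K) := by
      refine Finset.sum_subset ?_ ?_
      · intro w hw
        exact Finset.mem_union_left _ (Finset.mem_union_right _ hw)
      · intro w _ hw
        rw [ht' _ hw]
        simp
    rw [← h1, er]
    push_cast
    rfl
  have hT : ∑ w ∈ T, (a * (h (w - u) : X.K) - (h' w : X.K)) = 0 := by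
    rw [Finset.sum_sub_distrib, hsum1, hsum2, e, sub_self]
  have hhom : ∀ w ∈ T, A.Hom w (a * (h (w - u) : X.K) - (h' w : X.K)) := by
    intro w _
    refine TorusAction.Hom.sub ?_ (TorusAction.Hom.of_mem (hh' w))
    have h1 := haH.mul (TorusAction.Hom.of_mem (hh (w - u)))
    rwa [add_sub_cancel] at h1
  have hu : u ∈ T := Finset.mem_union_right _ (Finset.mem_singleton_self u)
  have h1 := t_HLI A T (fun w => a * (h (w - u) : X.K) - (h' w : X.K)) hhom hT u hu
  simp only [sub_self] at h1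
  have h2 : a * (h 0 : X.K) = (h' u : X.K) := sub_eq_zero.1 h1
  have hK : (h 0 : X.K) ∈ A.K0 := TorusAction.Hom.of_mem (hh 0)
  refine ⟨⟨(h 0 : X.K), hK⟩, ?_, hC.zero _ (h 0).2 h0, ?_⟩
  · intro h3
    apply h0
    have h4 : (h 0 : X.K) = 0 := congrArg Subtype.val h3
    have h5 : h 0 = 0 := Subtype.ext h4
    rw [h5]
    exact zero_mem _
  · rw [mul_comm]
    show a * (h 0 : X.K) ∈ X.R
    rw [h2]
    exact (h' u).2

end

end MldG
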