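import Pool.Agent.MldG.StmtsF
import Pool.Agent.MldGeo.HT1

/-!
# OLI: orders along prime divisors

If every function which is regular along `v` is a fraction of regular functions whose denominator
has order zero, then `v` is the order along a prime divisor.
-/

namespace MldG

open MldGeo

open MvPolynomial

namespace OLI

/-- a prime ideal which is properly contained in the centre is zero -/
theorem eq_bot {n : ℕ} (X : Germ n) (v : DivVal n X.K) (h0 : ∀ a : X.R, 0 ≤ v.ord a)
    (h : ∀ a : X.K, v.Ge 0 a → ∃ r s : X.R, s ≠ 0 ∧ v.ord s = 0 ∧ a * (s : X.K) = r)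
    (Q : Ideal X.R) (hQ : Q.IsPrime) (hlt : Q < HT1.centre X v h0) : Q = ⊥ := by
  by_contra hQ0
  obtain ⟨a, haP, haQ⟩ := SetLike.exists_of_lt hlt
  obtain ⟨b, hbQ, hb0⟩ := Submodule.exists_mem_ne_zero_of_ne_bot hQ0
  have ha0 : a ≠ 0 := by
    intro ha
    rw [ha] at haQ
    exact haQ Q.zero_mem
  have ha0' : (a : X.K) ≠ 0 := by exact_mod_cast ha0
  have hb0' : (b : X.K) ≠ 0 := by exact_mod_cast hb0
  have ha1 : 0 < v.ord (a : X.K) := by
    rcases (HT1.mem_centre X v h0 a).mp haP with h1 | h1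
    · exact absurd h1 ha0
    · exact h1
  obtain ⟨k, hk⟩ := Int.eq_ofNat_of_zero_le (h0 b)
  have h1 : v.Ge 0 ((a : X.K) ^ k / (b : X.K)) := by
    right
    rw [DivVal.ord_div v (pow_ne_zero _ ha0') hb0', DivVal.ord_pow, hk]
    have h2 : (k : ℤ) * 1 ≤ (k : ℤ) * v.ord (a : X.K) :=
      mul_le_mul_of_nonneg_left ha1 (Int.natCast_nonneg k)
    rw [mul_one] at h2
    exact sub_nonneg.mpr h2
  obtain ⟨r, s, hs0, hs1, hrs⟩ := h _ h1
  have h2 : a ^ k * s = r * b := by
    apply Subtype.ext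
    change (a : X.K) ^ k * (s : X.K) = (r : X.K) * (b : X.K)
    rw [← hrs]
    field_simp
  have h3 : a ^ k * s ∈ Q := by
    rw [h2]
    exact Q.mul_mem_left r hbQ
  rcases hQ.mem_or_mem h3 with h4 | h4
  · exact haQ (hQ.mem_of_pow_mem k h4)
  · rcases (HT1.mem_centre X v h0 s).mp (hlt.le h4) with h5 | h5
    · exact hs0 h5
    · rw [hs1] at h5
      exact lt_irrefl _ h5

end OLI

theorem t_OLI : Stmt_OLI := by
  intro n X v h0 h
  refine ⟨HT1.centre X v h0, HT1.centre_prime X v h0, ?_, h0, HT1.mem_centre X v h0⟩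
  apply le_antisymm
  · have h1 : (HT1.centre X v h0).height ≤ ((1 : ℕ) : ℕ∞) := by
      have hP := HT1.centre_prime X v h0
      rw [Ideal.height_le_iff]
      intro Q hQ hQP
      rw [OLI.eq_bot X v h0 h Q hQ hQP, Ideal.height_bot]
      exact_mod_cast Nat.one_pos
    simpa using h1
  · rw [Order.one_le_iff_ne_zero]
    intro h1
    have hP := HT1.centre_prime X v h0
    rw [Ideal.height_eq_zero_iff_eq_bot] at h1
    exact HT1.centre_ne_bot X v h0 h1

end MldG
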