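import Pool.Agent.MldG.StmtsZ
import Pool.Agent.MldG.HFK
import Pool.Agent.MldG.HFR
import Pool.Agent.MldG.HLI
import Pool.Agent.MldGeo.HT1
import Pool.Agent.MldGeo.HTV
import Pool.Agent.MldGeo.Ord

/-!
# RAZ: toroidal valuations which are orders along prime divisors, for fixed points with nonconstant
invariant functions
-/

namespace MldG

open MldGeo

open MvPolynomial

noncomputable section

namespace RAZ

theorem chi_nsmul {n m : ℕ} {X : Germ n} {A : TorusAction X m} (S : Splitting A)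
    (u : Fin m → ℤ) (k : ℕ) : S.χ (k • u) = S.χ u ^ k := by
  induction k with
  | zero => rw [zero_smul, S.zero, pow_zero]
  | succ k ih => rw [succ_nsmul, S.add, ih, pow_succ]

theorem chi_sum {n m : ℕ} {X : Germ n} {A : TorusAction X m} (S : Splitting A) {ι : Type}
    (s : Finset ι) (u : ι → Fin m → ℤ) : S.χ (∑ i ∈ s, u i) = ∏ i ∈ s, S.χ (u i) := by
  classical
  induction s using Finset.induction_on with
  | empty => rw [Finset.sum_empty, Finset.prod_empty, S.zero]
  | insert i s hi ih => rw [Finset.sum_insert hi, Finset.prod_insert hi, S.add, ih]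

/-- A nonempty sum of nonzero elements of different orders has the order of one of them. -/
theorem ord_sum {K : Type} [Field K] [Algebra ℂ K] {n : ℕ} (v : DivVal n K) {ι : Type}
    (f : ι → K) (s : Finset ι) (hs : s.Nonempty) (hf : ∀ i ∈ s, f i ≠ 0)
    (h : ∀ i ∈ s, ∀ j ∈ s, v.ord (f i) = v.ord (f j) → i = j) :
    ∑ i ∈ s, f i ≠ 0 ∧ ∃ i ∈ s, v.ord (∑ i ∈ s, f i) = v.ord (f i) := by
  classical
  induction hs using Finset.Nonempty.cons_induction with
  | singleton a =>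
    rw [Finset.sum_singleton]
    exact ⟨hf a (Finset.mem_singleton_self a), a, Finset.mem_singleton_self a, rfl⟩
  | cons a s ha hs ih =>
    obtain ⟨h1, i, hi, h2⟩ := ih (fun i hi => hf i (Finset.mem_cons_of_mem hi))
      (fun i hi j hj => h i (Finset.mem_cons_of_mem hi) j (Finset.mem_cons_of_mem hj))
    have ha0 := hf a (Finset.mem_cons_self a s)
    have h3 : v.ord (f a) ≠ v.ord (∑ i ∈ s, f i) := by
      rw [h2]
      intro h4
      have h5 := h a (Finset.mem_cons_self a s) i (Finset.mem_cons_of_mem hi) h4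
      exact ha (h5 ▸ hi)
    rw [Finset.sum_cons]
    rcases lt_or_gt_of_ne h3 with h4 | h4
    · obtain ⟨h5, h6⟩ := DivVal.ord_add_eq_of_ord_lt (v := v) ha0 h4
      exact ⟨h5, a, Finset.mem_cons_self a s, h6⟩
    · obtain ⟨h5, h6⟩ := DivVal.ord_add_eq_of_ord_lt (v := v) h1 h4
      rw [add_comm] at h5 h6
      exact ⟨h5, i, Finset.mem_cons_of_mem hi, h6.trans h2⟩

/-- Homogeneous regular functions with independent (order, weight) of order zero. -/
theorem residue {n m : ℕ} {X : Germ n} {A : TorusAction X m} (S : Splitting A)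
    (v : DivVal n X.K) (w : Fin m → ℤ) (l : ℤ) (y : DivVal 1 A.K0) (hv : IsTor S v w l y)
    {r : ℕ} (U : Fin r → (Fin m → ℤ)) (h : Fin r → A.K0) (hh : ∀ k, h k ≠ 0)
    (hU : LinearIndependent ℤ fun k => (Fin.cons (y.ord (h k)) (U k) : Fin (m + 1) → ℤ))
    (h0 : ∀ k, l * y.ord (h k) + ip w (U k) = 0)
    (hR : ∀ k, (h k : X.K) * S.χ (U k) ∈ X.R) (p : MvPolynomial (Fin r) ℂ) (hp : p ≠ 0) :
    (aeval (fun k => (⟨(h k : X.K) * S.χ (U k), hR k⟩ : X.R)) p : X.R) ≠ 0 ∧
      v.ord (aeval (fun k => (⟨(h k : X.K) * S.χ (U k), hR k⟩ : X.R)) p : X.R) = 0 := by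
  classical
  obtain ⟨φ, hφ⟩ : ∃ φ : (Fin r →₀ ℕ) → (Fin m → ℤ), ∀ d, φ d = ∑ k, d k • U k :=
    ⟨fun d => ∑ k, d k • U k, fun _ => rfl⟩
  have hinj : ∀ d d' : Fin r →₀ ℕ, ∑ k, (d k : ℤ) * y.ord (h k) = ∑ k, (d' k : ℤ) * y.ord (h k) →
      φ d = φ d' → d = d' := by
    intro d d' he hd
    rw [hφ, hφ] at hd
    have h1 : ∑ k, ((d k : ℤ) - d' k) •
        (Fin.cons (y.ord (h k)) (U k) : Fin (m + 1) → ℤ) = 0 := by
      funext i
      rw [Finset.sum_apply]
      refine Fin.cases ?_ (fun j => ?_) i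
      · simp only [Pi.smul_apply, Fin.cons_zero, smul_eq_mul, sub_mul, Finset.sum_sub_distrib,
          Pi.zero_apply]
        rw [he, sub_self]
      · simp only [Pi.smul_apply, Fin.cons_succ, smul_eq_mul, sub_mul, Finset.sum_sub_distrib,
          Pi.zero_apply]
        have h2 := congrFun hd j
        simp only [Finset.sum_apply] at h2
        have h3 : ∀ (d : Fin r →₀ ℕ) (k : Fin r), (d k • U k) j = (d k : ℤ) * U k j := by
          intro d k
          rw [Pi.smul_apply, nsmul_eq_mul]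
        simp only [h3] at h2
        rw [h2, sub_self]
    have h2 := Fintype.linearIndependent_iff.1 hU _ h1
    ext k
    have h3 := h2 k
    omega
  obtain ⟨val, hval⟩ : ∃ val : (Fin r →₀ ℕ) → A.K0,
      ∀ d, val d = algebraMap ℂ A.K0 (coeff d p) * ∏ k, h k ^ d k :=
    ⟨fun d => algebraMap ℂ A.K0 (coeff d p) * ∏ k, h k ^ d k, fun _ => rfl⟩
  have hval0 : ∀ d ∈ p.support, val d ≠ 0 := by
    intro d hd
    rw [hval]
    refine mul_ne_zero ?_ (Finset.prod_ne_zero_iff.2 fun k _ => pow_ne_zero _ (hh k))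
    rw [Ne, map_eq_zero]
    exact mem_support_iff.1 hd
  have hvo : ∀ d ∈ p.support, y.ord (val d) = ∑ k, (d k : ℤ) * y.ord (h k) := by
    intro d hd
    rw [hval, DivVal.ord_const_mul y (mem_support_iff.1 hd),
      DivVal.ord_prod y _ _ fun k _ => pow_ne_zero _ (hh k)]
    refine Finset.sum_congr rfl fun k _ => ?_
    rw [DivVal.ord_pow]
  have hvord : ∀ d ∈ p.support, l * y.ord (val d) + ip w (φ d) = 0 := by
    intro d hd
    rw [hvo d hd, hφ, HTV.ip_sum, Finset.mul_sum, ← Finset.sum_add_distrib]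
    refine Finset.sum_eq_zero fun k _ => ?_
    rw [HTV.ip_nsmul]
    have h2 := h0 k
    linear_combination (d k : ℤ) * h2
  obtain ⟨b, hb⟩ : ∃ b : (Fin m → ℤ) → A.K0,
      ∀ z, b z = ∑ d ∈ p.support with φ d = z, val d :=
    ⟨fun z => ∑ d ∈ p.support with φ d = z, val d, fun _ => rfl⟩
  have hbφ : ∀ z ∈ p.support.image φ, b z ≠ 0 ∧ l * y.ord (b z) + ip w z = 0 := by
    intro z hz
    obtain ⟨d₀, hd₀, hz₀⟩ := Finset.mem_image.1 hz
    obtain ⟨h1, d, hd, h2⟩ := ord_sum y val (p.support.filter fun d => φ d = z)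
      ⟨d₀, Finset.mem_filter.2 ⟨hd₀, hz₀⟩⟩ (fun d hd => hval0 d (Finset.mem_filter.1 hd).1)
      (fun d hd d' hd' he => by
        rw [hvo d (Finset.mem_filter.1 hd).1, hvo d' (Finset.mem_filter.1 hd').1] at he
        exact hinj d d' he ((Finset.mem_filter.1 hd).2.trans (Finset.mem_filter.1 hd').2.symm))
    rw [← hb] at h1 h2
    refine ⟨h1, ?_⟩
    rw [h2, ← (Finset.mem_filter.1 hd).2]
    exact hvord d (Finset.mem_filter.1 hd).1
  have hsum : ((aeval (fun k => (⟨(h k : X.K) * S.χ (U k), hR k⟩ : X.R)) p : X.R) : X.K) =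
      ∑ z ∈ p.support.image φ, (b z : X.K) * S.χ z := by
    have h1 : ((aeval (fun k => (⟨(h k : X.K) * S.χ (U k), hR k⟩ : X.R)) p : X.R) : X.K) =
        aeval (fun k => (h k : X.K) * S.χ (U k)) p := by
      have h2 := comp_aeval_apply (fun k => (⟨(h k : X.K) * S.χ (U k), hR k⟩ : X.R)) X.R.val p
      exact h2
    rw [h1, aeval_def, eval₂_eq']
    have h3 : ∀ d ∈ p.support, algebraMap ℂ X.K (coeff d p) *
        ∏ k, ((h k : X.K) * S.χ (U k)) ^ d k = (val d : X.K) * S.χ (φ d) := by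
      intro d _
      rw [hval, hφ, chi_sum]
      simp only [chi_nsmul, mul_pow, Finset.prod_mul_distrib]
      push_cast
      rw [mul_assoc]
    rw [Finset.sum_congr rfl h3, ← Finset.sum_fiberwise_of_maps_to
      (s := p.support) (t := p.support.image φ) (g := φ)
      fun d hd => Finset.mem_image_of_mem φ hd]
    refine Finset.sum_congr rfl fun z _ => ?_
    rw [hb]
    push_cast
    rw [Finset.sum_mul]
    refine Finset.sum_congr rfl fun d hd => ?_
    rw [(Finset.mem_filter.1 hd).2]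
  obtain ⟨d₀, hd₀⟩ : p.support.Nonempty := support_nonempty.2 hp
  have hd₁ := Finset.mem_image_of_mem φ hd₀
  have hne : ∑ z ∈ p.support.image φ, (b z : X.K) * S.χ z ≠ 0 := by
    intro h1
    have h2 := (t_HFK t_HLI t_HFR A S).2.1 _ b h1 (φ d₀) hd₁
    exact (hbφ _ hd₁).1 h2
  constructor
  · intro h1
    rw [h1, ZeroMemClass.coe_zero] at hsum
    exact hne hsum.symm
  · rw [hsum]
    have h1 := hv (p.support.image φ) b ⟨φ d₀, hd₁, (hbφ _ hd₁).1⟩
    obtain ⟨z, hz, -, hz2⟩ := h1.1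
    rw [hz2]
    exact (hbφ z hz).2

end RAZ

theorem t_RAZ (hNOZ : Stmt_NOZ) (hTHZ : Stmt_THZ) : Stmt_RAZ := by
  intro m X A S y₀ hF hC v w l hl hv hnn u e hu hbd hval
  obtain ⟨t, ht, ht1⟩ := y₀.unif
  have hex : ∀ k, ∃ h : A.K0, h ≠ 0 ∧ y₀.ord h = e k ∧ (h : X.K) * S.χ (u k) ∈ X.R := by
    intro k
    have h1 : y₀.ord (t ^ e k) = e k := by rw [DivVal.ord_zpow, ht1, mul_one]
    obtain ⟨s, hs, hs0, hsR⟩ := hNOZ A S y₀ hF hC (t ^ e k) (u k) (zpow_ne_zero _ ht)
      fun w' l' hl' hn => by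
        rw [h1]
        exact hbd k w' l' hl' hn
    refine ⟨s * t ^ e k, mul_ne_zero hs (zpow_ne_zero _ ht), ?_, ?_⟩
    · rw [y₀.ord_mul _ _ hs (zpow_ne_zero _ ht), hs0, h1, zero_add]
    · rw [← mul_assoc] at hsR
      exact hsR
  choose h hh hord hR using hex
  have hthr := ((hTHZ A S y₀ hF hC).1 v w l hl hv hnn).1
  refine t_HT1 X v (Nat.succ_pos m) hthr.1 ⟨fun k => ⟨(h k : X.K) * S.χ (u k), hR k⟩, ?_⟩
  intro p hp
  refine RAZ.residue S v w l y₀ hv u h hh ?_ (fun k => ?_) hR p hp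
  · simp only [hord]
    exact hu
  · rw [hord]
    exact hval k

end

end MldG
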