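import Pool.Agent.MldG.Stmts4
import Pool.Agent.MldGeo.FRM
import Pool.Agent.MldGeo.Ord

/-!
# RED: the log discrepancies of an invariant triple
-/

namespace MldG

open MldGeo

open MvPolynomial

noncomputable section

namespace RED

/-- The logarithmic differentials of a transcendence basis are a basis of the differentials. -/
theorem dlog_basis (hTBAS : Stmt_TBAS) {n : ℕ} {K : Type} [Field K] [Algebra ℂ K]
    (htr : Algebra.trdeg ℂ K = (n : Cardinal)) (a : Fin n → K) (ha : AlgebraicIndependent ℂ a) :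
    ∃ e : Module.Basis (Fin n) K (Ω[K⁄ℂ]), ∀ i, e i = dlog (a i) := by
  obtain ⟨hli, hsp⟩ := hTBAS htr a ha
  have hne : ∀ i, a i ≠ 0 := fun i => ha.ne_zero i
  refine ⟨(Module.Basis.mk hli hsp.ge).unitsSMul
    (fun i => Units.mk0 (a i)⁻¹ (inv_ne_zero (hne i))), fun i => ?_⟩
  rw [Module.Basis.unitsSMul_apply, Module.Basis.mk_apply]
  rfl

/-- A real linear combination of orders as a combination of orders with coefficients which are
linearly independent over the integers. -/
theorem lin_comb {n : ℕ} {K : Type} [Field K] [Algebra ℂ K] {ι : Type} [Fintype ι] (f : ι → K)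
    (c : ι → ℝ) (hf : ∀ i, f i ≠ 0) :
    ∃ (q : ℕ) (l : Fin q → ℝ) (h : Fin q → K), (∀ k, h k ≠ 0) ∧
      (∀ m : Fin q → ℤ, ∑ k, l k * (m k : ℝ) = 0 → ∀ k, m k = 0) ∧
      ∀ w : DivVal n K, ∑ i, c i * w.ord (f i) = ∑ k, l k * w.ord (h k) := by
  classical
  let M : Submodule ℤ ℝ := Submodule.span ℤ (Set.range c)
  have : Module.Finite ℤ M := Module.Finite.span_of_finite ℤ (Set.finite_range c)
  let b := Module.finBasis ℤ M
  have hmem : ∀ i, c i ∈ M := fun i => Submodule.subset_span ⟨i, rfl⟩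
  let z : ι → Fin (Module.finrank ℤ M) → ℤ := fun i k => b.repr ⟨c i, hmem i⟩ k
  have hcz : ∀ i, c i = ∑ k, (z i k : ℝ) * (b k : ℝ) := by
    intro i
    have h1 := b.sum_repr ⟨c i, hmem i⟩
    have h2 := congrArg (fun x : M => (x : ℝ)) h1
    simp only [Submodule.coe_sum, Submodule.coe_smul, zsmul_eq_mul] at h2
    exact h2.symm
  refine ⟨Module.finrank ℤ M, fun k => (b k : ℝ), fun k => ∏ i, f i ^ z i k,
    fun k => Finset.prod_ne_zero_iff.2 fun i _ => zpow_ne_zero _ (hf i), ?_, ?_⟩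
  · intro m hm
    have h1 : ∑ k, m k • b k = 0 := by
      apply Subtype.ext
      simp only [Submodule.coe_sum, Submodule.coe_smul, zsmul_eq_mul, ZeroMemClass.coe_zero]
      rw [← hm]
      exact Finset.sum_congr rfl fun k _ => mul_comm _ _
    exact fun k => Fintype.linearIndependent_iff.1 b.linearIndependent m h1 k
  · intro w
    have h1 : ∀ k, (w.ord (∏ i, f i ^ z i k) : ℤ) = ∑ i, z i k * w.ord (f i) := by
      intro k
      rw [DivVal.ord_prod w _ _ fun i _ => zpow_ne_zero _ (hf i)]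
      exact Finset.sum_congr rfl fun i _ => DivVal.ord_zpow w (f i) _
    simp_rw [h1]
    push_cast
    simp_rw [Finset.mul_sum]
    rw [Finset.sum_comm]
    refine Finset.sum_congr rfl fun i _ => ?_
    conv_lhs => rw [hcz i]
    rw [Finset.sum_mul]
    exact Finset.sum_congr rfl fun k _ => by ring

end RED

theorem t_RED (hNHP : Stmt_NHP) (hGHO : Stmt_GHO) (hTRB : Stmt_TRB) (hTBAS : Stmt_TBAS)
    (hFSM : Stmt_FSM) (hTXT : Stmt_TXT) (hDIV : Stmt_DIV) : Stmt_RED := by
  intro n m c X A S s a e hn hs ha T hT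
  have hai : AlgebraicIndependent ℂ a := by
    have h1 := (hTRB A S s hs).comp e e.injective
    have h2 : a = (Sum.elim (fun j => (s j : X.K)) fun i : Fin m => S.χ (Pi.single i 1)) ∘ e :=
      funext ha
    rw [h2]
    exact h1
  obtain ⟨E, hE⟩ := RED.dlog_basis hTBAS X.trdeg a hai
  have hEd : dlogs a = exteriorPower.ιMulti X.K n (E : Fin n → Ω[X.K⁄ℂ]) := by
    rw [dlogs]
    exact congrArg _ (funext fun i => (hE i).symm)
  have hd0 : dlogs a ≠ 0 := by
    rw [hEd]
    exact FRM.iota_ne E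
  refine ⟨hd0, ?_⟩
  obtain ⟨g, hg⟩ := FRM.exists_smul E T.ω
  rw [← hEd] at hg
  have hg0 : g ≠ 0 := by
    rintro rfl
    apply T.ω_ne
    rw [hg, zero_smul]
  -- the log discrepancies
  let c' : Option T.I → ℝ := fun o => o.elim 1 T.c
  let f' : Option T.I → X.K := fun o => o.elim g T.f
  have hf' : ∀ o, f' o ≠ 0 := by
    intro o
    cases o with
    | none => exact hg0
    | some i => exact T.f_ne i
  have hdisc : ∀ v : DivVal n X.K, T.logDisc v =
      v.logOrd (dlogs a) + ∑ o, c' o * v.ord (f' o) := by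
    intro v
    have h1 := hTXT X.trdeg v T.ω hn T.ω_ne
    have h2 := hFSM X.trdeg v g (dlogs a) hn hg0 hd0
    rw [Triple.logDisc, Fintype.sum_option, h1]
    show 1 + ((v.logOrd T.ω - 1 : ℤ) : ℝ) + ∑ i, T.c i * v.ord (T.f i) =
      v.logOrd (dlogs a) + (1 * (v.ord g : ℝ) + ∑ i, T.c i * v.ord (T.f i))
    rw [← hg] at h2
    rw [h2]
    push_cast
    ring
  obtain ⟨q, l, h, hh0, hli, hsum⟩ := RED.lin_comb (n := n) f' c' hf'
  have hnon : ∀ (P : Ideal X.R) (v : DivVal n X.K), X.IsOrdAlong v P → P ≤ X.m → ¬ A.Inv P →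
      ∀ k, v.ord (h k) = 0 := by
    intro P v hv hP hinv
    have h1 : T.logDisc v = 1 := by
      by_contra hne
      apply hinv
      refine hT.1 P (1 - T.logDisc v) ⟨hP, v, hv, by ring⟩ ?_
      intro h0
      exact hne (by linarith)
    have h2 := (hNHP A S s a e hs ha P v hv hinv).2
    rw [hdisc v, h2, hsum v] at h1
    apply hli
    push_cast at h1
    linarith
  choose u H hH using fun k => hGHO A (h k) (hh0 k) (fun P v hv hP hinv => hnon P v hv hP hinv k)
  refine ⟨q, l, u, H, fun k => ⟨(hH k).1, (hH k).2.1⟩, ?_⟩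
  intro v hv
  rw [hdisc v, hsum v]
  congr 1
  exact Finset.sum_congr rfl fun k _ => by rw [(hH k).2.2 v hv]

end

end MldG
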