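import Pool.Agent.MldG.Stmts8
import Pool.Agent.MldGeo.Ord
import Pool.Agent.MldG.HFK

/-!
# RSV: the restriction of a valuation to the homogeneous functions
-/

namespace MldG

open MldGeo

open MvPolynomial

noncomputable section

namespace RSV

variable {m : ℕ} {X : Germ (m + 1)} {A : TorusAction X m}

/-- The orders of the characters are additive. -/
theorem ord_chi (S : Splitting A) (v : DivVal (m + 1) X.K) (u : Fin m → ℤ) :
    v.ord (S.χ u) = ip (fun i => v.ord (S.χ (Pi.single i 1))) u := by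
  let φ : (Fin m → ℤ) →+ ℤ :=
    { toFun := fun u => v.ord (S.χ u)
      map_zero' := by
        change v.ord (S.χ 0) = 0
        rw [S.zero, DivVal.ord_one]
      map_add' := fun a b => by
        change v.ord (S.χ (a + b)) = v.ord (S.χ a) + v.ord (S.χ b)
        rw [S.add, v.ord_mul _ _ (HFK.chi_ne S a) (HFK.chi_ne S b)] }
  have h := LinearMap.pi_apply_eq_sum_univ φ.toIntLinearMap u
  have e1 : φ.toIntLinearMap u = v.ord (S.χ u) := rfl
  rw [e1] at h
  rw [h]
  unfold ip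
  refine Finset.sum_congr rfl fun i _ => ?_
  have e2 : (fun j => if i = j then (1 : ℤ) else 0) = Pi.single i 1 := by
    funext j
    by_cases hij : i = j
    · subst hij; simp
    · rw [if_neg hij, Pi.single_eq_of_ne (fun h => hij h.symm)]
  rw [e2, smul_eq_mul, mul_comm]
  rfl

variable (A) in
/-- The orders of the nonzero invariant functions. -/
def vals (v : DivVal (m + 1) X.K) : AddSubgroup ℤ where
  carrier := {k | ∃ b : A.K0, b ≠ 0 ∧ v.ord (b : X.K) = k}
  zero_mem' := ⟨1, one_ne_zero, by rw [show ((1 : A.K0) : X.K) = 1 from rfl, DivVal.ord_one]⟩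
  add_mem' := by
    rintro _ _ ⟨a, ha, rfl⟩ ⟨b, hb, rfl⟩
    refine ⟨a * b, mul_ne_zero ha hb, ?_⟩
    rw [show ((a * b : A.K0) : X.K) = (a : X.K) * b from rfl, v.ord_mul]
    · exact fun h => ha (Subtype.ext h)
    · exact fun h => hb (Subtype.ext h)
  neg_mem' := by
    rintro _ ⟨a, ha, rfl⟩
    refine ⟨a⁻¹, inv_ne_zero ha, ?_⟩
    rw [show ((a⁻¹ : A.K0) : X.K) = (a : X.K)⁻¹ from rfl, DivVal.ord_inv]

theorem coe_ne {b : A.K0} (h : b ≠ 0) : (b : X.K) ≠ 0 := fun h' => h (Subtype.ext h')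

/-- The place of the field of invariants. -/
def place (v : DivVal (m + 1) X.K) (l : ℤ) (hl : 0 < l)
    (h : ∀ b : A.K0, b ≠ 0 → l ∣ v.ord (b : X.K)) (ht : ∃ t : A.K0, t ≠ 0 ∧ v.ord (t : X.K) = l) :
    DivVal 1 A.K0 where
  ord b := v.ord (b : X.K) / l
  ord_zero := by
    change v.ord (((0 : A.K0)) : X.K) / l = 0
    rw [show ((0 : A.K0) : X.K) = 0 from rfl, v.ord_zero, Int.zero_ediv]
  ord_mul a b ha hb := by
    change v.ord ((a * b : A.K0) : X.K) / l = v.ord (a : X.K) / l + v.ord (b : X.K) / l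
    rw [show ((a * b : A.K0) : X.K) = (a : X.K) * b from rfl,
      v.ord_mul _ _ (coe_ne ha) (coe_ne hb), Int.add_ediv_of_dvd_left (h a ha)]
  ord_add a b ha hb hab := by
    change min (v.ord (a : X.K) / l) (v.ord (b : X.K) / l) ≤ v.ord ((a + b : A.K0) : X.K) / l
    have h1 := v.ord_add _ _ (coe_ne ha) (coe_ne hb) (coe_ne hab)
    rcases min_le_iff.1 h1 with h2 | h2
    · exact (min_le_left _ _).trans (Int.ediv_le_ediv hl h2)
    · exact (min_le_right _ _).trans (Int.ediv_le_ediv hl h2)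
  ord_const c := by
    change v.ord ((algebraMap ℂ A.K0 c : A.K0) : X.K) / l = 0
    rw [show ((algebraMap ℂ A.K0 c : A.K0) : X.K) = algebraMap ℂ X.K c from rfl, v.ord_const,
      Int.zero_ediv]
  unif := by
    obtain ⟨t, ht, hv⟩ := ht
    refine ⟨t, ht, ?_⟩
    change v.ord (t : X.K) / l = 1
    rw [hv, Int.ediv_self hl.ne']
  res := by
    refine ⟨fun _ => 0, fun p hp => ?_⟩
    have : IsEmpty (Fin (1 - 1)) := by
      rw [Nat.sub_self]; infer_instance
    have e := MvPolynomial.eq_C_of_isEmpty p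
    have hc : MvPolynomial.coeff 0 p ≠ 0 := by
      intro h0
      rw [h0, map_zero] at e
      exact hp e
    rw [e, MvPolynomial.aeval_C]
    refine ⟨?_, ?_⟩
    · rw [Ne, map_eq_zero]
      exact hc
    · change v.ord ((algebraMap ℂ A.K0 (MvPolynomial.coeff 0 p) : A.K0) : X.K) / l = 0
      rw [show ((algebraMap ℂ A.K0 (MvPolynomial.coeff 0 p) : A.K0) : X.K) =
        algebraMap ℂ X.K (MvPolynomial.coeff 0 p) from rfl, v.ord_const, Int.zero_ediv]

end RSV

open RSV in
theorem t_RSV (hK0C : Stmt_K0C) (hPRF : Stmt_PRF) : Stmt_RSV := by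
  intro m X A S v
  have hal : ∀ (b : A.K0) (u : Fin m → ℤ), b ≠ 0 → v.ord ((b : X.K) * S.χ u) =
      v.ord (b : X.K) + ip (fun i => v.ord (S.χ (Pi.single i 1))) u := by
    intro b u hb
    rw [v.ord_mul _ _ (coe_ne hb) (HFK.chi_ne S u), ord_chi]
  obtain ⟨a, ha⟩ := Int.subgroup_cyclic (vals A v)
  rw [← AddSubgroup.zmultiples_eq_closure] at ha
  have hmem : ∀ b : A.K0, b ≠ 0 → a ∣ v.ord (b : X.K) := by
    intro b hb
    have h1 : v.ord (b : X.K) ∈ vals A v := ⟨b, hb, rfl⟩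
    rw [ha, Int.mem_zmultiples_iff] at h1
    exact h1
  by_cases ha0 : a = 0
  · subst ha0
    obtain ⟨y, -⟩ := (hPRF (hK0C A)).2.2 ∅
    refine ⟨fun i => v.ord (S.χ (Pi.single i 1)), 0, y, le_rfl, fun b u hb => ?_⟩
    rw [hal b u hb, zero_dvd_iff.1 (hmem b hb), zero_mul]
  · have hl : 0 < |a| := abs_pos.2 ha0
    have hdv : ∀ b : A.K0, b ≠ 0 → |a| ∣ v.ord (b : X.K) := fun b hb =>
      (abs_dvd _ _).2 (hmem b hb)
    have ht : ∃ t : A.K0, t ≠ 0 ∧ v.ord (t : X.K) = |a| := by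
      have h1 : |a| ∈ vals A v := by
        rw [ha, Int.mem_zmultiples_iff]
        exact (dvd_abs _ _).2 dvd_rfl
      exact h1
    refine ⟨fun i => v.ord (S.χ (Pi.single i 1)), |a|, place v |a| hl hdv ht, hl.le,
      fun b u hb => ?_⟩
    rw [hal b u hb]
    change _ = |a| * (v.ord (b : X.K) / |a|) + _
    rw [Int.mul_ediv_cancel' (hdv b hb)]

end

end MldG
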