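import Pool.Agent.MldG.StmtsZ
import Pool.Agent.MldGeo.Ord
import Pool.Agent.MldG.HFK
import Pool.Agent.MldG.HFR

/-!
# THZ: the centres of the valuations, formally toric case
-/

namespace MldG

open MldGeo

noncomputable section

namespace THZ

variable {n m : ℕ} {X : Germ n} {A : TorusAction X m}

/-- A regular function as a sum of homogeneous regular functions. -/
theorem split (S : Splitting A) (r : X.R) :
    ∃ (s : Finset (Fin m → ℤ)) (h : (Fin m → ℤ) → X.R) (b : (Fin m → ℤ) → A.K0),
      (∀ u, h u ∈ A.gr u) ∧ (∀ u, (h u : X.K) = (b u : X.K) * S.χ u) ∧ (∀ u, u ∉ s → h u = 0) ∧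
      r = ∑ u ∈ s, h u ∧ (r : X.K) = ∑ u ∈ s, (b u : X.K) * S.χ u := by
  obtain ⟨s, h, h1, h2, h3⟩ := t_HFR A r
  choose b hb using fun u => HFK.exists_coeff S u (h u : X.K) (TorusAction.Hom.of_mem (h1 u))
  refine ⟨s, h, b, h1, hb, h2, h3, ?_⟩
  rw [h3, HFK.coe_sum_R]
  exact Finset.sum_congr rfl fun u _ => hb u

/-- At a fixed point a function vanishes if and only if its component of weight zero vanishes. -/
theorem zero_comp (hF : Fixed A) {s : Finset (Fin m → ℤ)} {h : (Fin m → ℤ) → X.R}
    (h1 : ∀ u, h u ∈ A.gr u) (h2 : ∀ u, u ∉ s → h u = 0) :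
    ∑ u ∈ s, h u - h 0 ∈ X.m := by
  classical
  by_cases h0 : (0 : Fin m → ℤ) ∈ s
  · rw [← Finset.add_sum_erase _ _ h0, add_sub_cancel_left]
    exact Ideal.sum_mem _ fun u hu => hF u (Finset.ne_of_mem_erase hu) _ (h1 u)
  · rw [h2 0 h0, sub_zero]
    exact Ideal.sum_mem _ fun u hu => hF u (fun h3 => h0 (h3 ▸ hu)) _ (h1 u)

theorem ip_zero (w : Fin m → ℤ) : ip w (0 : Fin m → ℤ) = 0 := by
  simp [ip]

end THZ

/-- THZ: the centres of the valuations. -/
theorem t_THZ (_hATH : Stmt_ATH) (hRSV : Stmt_RSV) : Stmt_THZ := by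
  intro m X A S y₀ hF hC
  constructor
  · intro v w l hl hT hN
    have key : ∀ a : X.R, a ≠ 0 → ∃ (s : Finset (Fin m → ℤ)) (h : (Fin m → ℤ) → X.R)
        (b : (Fin m → ℤ) → A.K0), (∀ u, h u ∈ A.gr u) ∧
        (∀ u, (h u : X.K) = (b u : X.K) * S.χ u) ∧ (∀ u, u ∉ s → h u = 0) ∧
        a = ∑ u ∈ s, h u ∧
        IsLeast {k : ℤ | ∃ u ∈ s, b u ≠ 0 ∧ k = l * y₀.ord (b u) + ip w u} (v.ord a) := by
      intro a ha
      obtain ⟨s, h, b, h1, h2, h3, h4, h5⟩ := THZ.split S a
      refine ⟨s, h, b, h1, h2, h3, h4, ?_⟩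
      rw [h5]
      refine hT s b ?_
      by_contra hcon
      push Not at hcon
      apply ha
      apply Subtype.ext
      rw [h5, ZeroMemClass.coe_zero]
      refine Finset.sum_eq_zero fun u hu => ?_
      rw [hcon u hu, ZeroMemClass.coe_zero, zero_mul]
    have hnn : ∀ a : X.R, 0 ≤ v.ord a := by
      intro a
      by_cases ha : a = 0
      · rw [ha, ZeroMemClass.coe_zero, v.ord_zero]
      · obtain ⟨s, h, b, -, h2, -, -, h5⟩ := key a ha
        obtain ⟨u, -, hb, e⟩ := h5.1
        rw [e]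
        exact hN (b u) u hb (by rw [← h2 u]; exact (h u).2)
    refine ⟨⟨hnn, fun a ha => ?_⟩, fun hP => ⟨hnn, fun a ha ha0 => ?_⟩⟩
    · have ha0 : a ≠ 0 := by
        rintro rfl
        exact ha X.m.zero_mem
      obtain ⟨s, h, b, h1, h2, h3, h4, h5⟩ := key a ha0
      have h6 := THZ.zero_comp hF h1 h3
      rw [← h4] at h6
      have h0m : h 0 ∉ X.m := by
        intro h7
        apply ha
        have h8 := X.m.add_mem h6 h7
        rwa [sub_add_cancel] at h8
      have h00 : h 0 ≠ 0 := by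
        intro h7
        exact h0m (by rw [h7]; exact X.m.zero_mem)
      have h0s : (0 : Fin m → ℤ) ∈ s := by
        by_contra h7
        exact h00 (h3 0 h7)
      have hb0 : (h 0 : X.K) = (b 0 : X.K) := by
        rw [h2 0, S.zero, mul_one]
      have hbR : (b 0 : X.K) ∈ X.R := by
        rw [← hb0]
        exact (h 0).2
      have hbm : (⟨(b 0 : X.K), hbR⟩ : X.R) ∉ X.m := by
        have h7 : (⟨(b 0 : X.K), hbR⟩ : X.R) = h 0 := Subtype.ext hb0.symm
        rw [h7]
        exact h0m
      have hbne : b 0 ≠ 0 := by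
        intro h7
        apply h00
        apply Subtype.ext
        rw [hb0, h7, ZeroMemClass.coe_zero, ZeroMemClass.coe_zero]
      have h8 := h5.2 ⟨0, h0s, hbne, rfl⟩
      rw [hC.zero (b 0) hbR hbm, mul_zero, THZ.ip_zero, add_zero] at h8
      exact le_antisymm h8 (hnn a)
    · obtain ⟨s, h, b, h1, h2, h3, h4, h5⟩ := key a ha0
      obtain ⟨u, hu, hb, e⟩ := h5.1
      have h6 := THZ.zero_comp hF h1 h3
      rw [← h4] at h6
      have hum : h u ∈ X.m := by
        by_cases hu0 : u = 0
        · rw [hu0]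
          have h7 := X.m.sub_mem ha h6
          rwa [sub_sub_cancel] at h7
        · exact hF u hu0 _ (h1 u)
      have hR : (b u : X.K) * S.χ u ∈ X.R := by
        rw [← h2 u]
        exact (h u).2
      have h7 : (⟨(b u : X.K) * S.χ u, hR⟩ : X.R) = h u := Subtype.ext (h2 u).symm
      rw [e]
      exact hP (b u) u hR hb (by rw [h7]; exact hum)
  · intro v hv
    obtain ⟨w, l, y, hl, hA⟩ := hRSV S v
    have hK0 : ∀ b : A.K0, b ≠ 0 → v.ord (b : X.K) = l * y.ord b := by
      intro b hb
      have h1 := hA b 0 hb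
      rwa [S.zero, mul_one, THZ.ip_zero, add_zero] at h1
    have hA' : Along S v w l y₀ := by
      rcases lt_or_eq_of_le hl with h0 | h0
      · have h1 : y = y₀ := by
          refine hC.unique y (fun b hb => ?_) (fun b hb hbm => ?_)
          · by_cases hb0 : b = 0
            · rw [hb0, y.ord_zero]
            · have h2 := hv.1 ⟨(b : X.K), hb⟩
              have h3 : v.ord (b : X.K) = l * y.ord b := hK0 b hb0
              have h4 : 0 ≤ l * y.ord b := by rw [← h3]; exact h2
              exact nonneg_of_mul_nonneg_right h4 h0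
          · have hb0 : b ≠ 0 := by
              intro h2
              apply hbm
              have h3' : ((b : A.K0) : X.K) = 0 := by rw [h2]; rfl
              have h3 : (⟨((b : A.K0) : X.K), hb⟩ : X.R) = 0 := Subtype.ext h3'
              rw [h3]
              exact X.m.zero_mem
            have h2 : v.ord (b : X.K) = 0 := hv.2 ⟨(b : X.K), hb⟩ hbm
            rw [hK0 b hb0] at h2
            exact (mul_eq_zero.1 h2).resolve_left h0.ne'
        rw [← h1]
        exact hA
      · intro b u hb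
        rw [hA b u hb, ← h0, zero_mul, zero_mul]
    refine ⟨w, l, hl, hA', ?_, ?_⟩
    · intro b u hb hbu
      rw [← hA' b u hb]
      exact hv.1 ⟨_, hbu⟩
    · intro hAt c z h hc hm
      rw [← hA' c z hc]
      refine hAt.2 ⟨_, h⟩ hm ?_
      intro h0
      have h1 : (c : X.K) * S.χ z = 0 := congrArg Subtype.val h0
      rcases mul_eq_zero.1 h1 with h2 | h2
      · exact hc (Subtype.ext h2)
      · exact HFK.chi_ne S z h2

end

end MldG
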