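import Pool.Agent.MldG.TRB

/-!
# The transcendence degree of the field of invariant rational functions
-/

namespace MldG

open MldGeo

open MvPolynomial

noncomputable section

namespace TRD

variable {n m : ℕ} {X : Germ n} {A : TorusAction X m} (S : Splitting A)

/-- the field generated by the characters over the invariants -/
abbrev F : IntermediateField A.K0 X.K :=
  IntermediateField.adjoin A.K0 (Set.range fun i : Fin m => S.χ (Pi.single i 1))

lemma chi_zsmul (u : Fin m → ℤ) (k : ℤ) : S.χ (k • u) = S.χ u ^ k := by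
  rcases k with k | k
  · rw [Int.ofNat_eq_natCast, natCast_zsmul, TRB.chi_nsmul, zpow_natCast]
  · rw [negSucc_zsmul, zpow_negSucc, ← TRB.chi_nsmul]
    have h1 := S.add ((k + 1) • u) (-((k + 1) • u))
    rw [add_neg_cancel, S.zero] at h1
    exact eq_inv_of_mul_eq_one_right h1.symm

lemma chi_mem (u : Fin m → ℤ) : S.χ u ∈ F S := by
  have e : u = ∑ i, u i • (Pi.single i 1 : Fin m → ℤ) := by
    funext j
    rw [Finset.sum_apply]
    simp only [Pi.smul_apply, smul_eq_mul]
    rw [Finset.sum_eq_single j]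
    · rw [Pi.single_eq_same, mul_one]
    · intro b _ hb
      rw [Pi.single_eq_of_ne hb.symm, mul_zero]
    · intro h
      exact absurd (Finset.mem_univ j) h
  rw [e, TRB.chi_sum]
  refine prod_mem fun i _ => ?_
  rw [chi_zsmul]
  have h1 : S.χ (Pi.single i 1) ∈ F S := IntermediateField.subset_adjoin _ _ (Set.mem_range_self i)
  exact zpow_mem h1 _

lemma sum_mem' (s : Finset (Fin m → ℤ)) (b : (Fin m → ℤ) → A.K0) :
    ∑ u ∈ s, (b u : X.K) * S.χ u ∈ F S :=
  sum_mem fun u _ => mul_mem ((F S).algebraMap_mem (b u)) (chi_mem S u)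

/-- the characters and the invariants generate the function field -/
lemma adjoin_eq_top (hHFK : Stmt_HFK) : F S = ⊤ := by
  rw [eq_top_iff]
  intro x _
  obtain ⟨s, b, b', h0, h⟩ := (hHFK A S).2.2 x
  have e : x = (∑ u ∈ s, (b u : X.K) * S.χ u) / ∑ u ∈ s, (b' u : X.K) * S.χ u :=
    eq_div_of_mul_eq h0 h
  rw [e]
  exact div_mem (sum_mem' S s b) (sum_mem' S s b')

lemma alg (hHFK : Stmt_HFK) :
    Algebra.IsAlgebraic (Algebra.adjoin A.K0 (Set.range fun i : Fin m => S.χ (Pi.single i 1)))
      X.K := by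
  constructor
  intro x
  have hx : x ∈ F S := by
    rw [adjoin_eq_top S hHFK]
    trivial
  obtain ⟨r, hr, s, hs, e⟩ := IntermediateField.mem_adjoin_iff_div.1 hx
  by_cases h0 : s = 0
  · rw [h0, div_zero] at e
    rw [e]
    exact isAlgebraic_zero
  · refine ⟨Polynomial.C (⟨s, hs⟩ : Algebra.adjoin A.K0 _) * Polynomial.X -
      Polynomial.C (⟨r, hr⟩ : Algebra.adjoin A.K0 _), ?_, ?_⟩
    · intro h
      have h1 := congrArg (fun p => Polynomial.coeff p 1) h
      simp only [Polynomial.coeff_sub, Polynomial.coeff_C_mul, Polynomial.coeff_X_one, mul_one,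
        Polynomial.coeff_C_of_ne_zero one_ne_zero, sub_zero, Polynomial.coeff_zero] at h1
      exact h0 (congrArg Subtype.val h1)
    · simp only [map_sub, map_mul, Polynomial.aeval_C, Polynomial.aeval_X]
      show s * x - r = 0
      rw [e]
      field_simp
      ring

end TRD

theorem t_TRD (hSPL : Stmt_SPL) (hHFK : Stmt_HFK) : Stmt_TRD := by
  intro n m X A
  obtain ⟨S⟩ := hSPL A
  have h1 := TRB.indep S hHFK
  have h2 : IsTranscendenceBasis A.K0 (fun i : Fin m => S.χ (Pi.single i 1)) :=
    h1.isTranscendenceBasis_iff_isAlgebraic.2 (TRD.alg S hHFK)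
  have h3 : (m : Cardinal) = Algebra.trdeg A.K0 X.K := by
    rw [← h2.cardinalMk_eq_trdeg, Cardinal.mk_fin]
  rw [h3, trdeg_add_eq, X.trdeg]

end

end MldG
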