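import Pool.Agent.MldG.StmtsF

/-!
# TRF: transfer along an isomorphism of the function fields
-/

namespace MldG

open MldGeo

noncomputable section

namespace TRF

/-- A valuation is determined by the orders. -/
theorem ext_ord {n : ℕ} {K : Type} [Field K] [Algebra ℂ K] {v w : DivVal n K}
    (h : ∀ a, v.ord a = w.ord a) : v = w := by
  obtain ⟨o, _, _, _, _, _, _⟩ := v
  obtain ⟨o', _, _, _, _, _, _⟩ := w
  have e : o = o' := funext h
  subst e
  rfl

/-- Every valuation of `K` is of the form `comap j v`. -/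
theorem comap_comap {n : ℕ} {K L : Type} [Field K] [Algebra ℂ K] [Field L] [Algebra ℂ L]
    (j : K ≃ₐ[ℂ] L) (v : DivVal n K) : comap j (comap j.symm v) = v := by
  apply ext_ord
  intro a
  change v.ord (j.symm (j a)) = v.ord a
  rw [AlgEquiv.symm_apply_apply]

/-- The centre of the order along a prime divisor through `x` contains `x`. -/
theorem through_of_ordAlong {n : ℕ} {X : Germ n} {v : DivVal n X.K} {P : Ideal X.R}
    (h : X.IsOrdAlong v P) (hP : P ≤ X.m) : X.Through v := by
  obtain ⟨-, -, h1, h2⟩ := h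
  refine ⟨h1, fun a ha => ?_⟩
  have h3 : a ∉ P := fun h4 => ha (hP h4)
  have h4 := h1 a
  by_contra h5
  exact h3 ((h2 a).mpr (Or.inr (lt_of_le_of_ne h4 (Ne.symm h5))))

/-- The divisor contains `x` if its centre contains `x`. -/
theorem le_of_through {n : ℕ} {X : Germ n} {v : DivVal n X.K} {P : Ideal X.R}
    (h : X.IsOrdAlong v P) (hv : X.Through v) : P ≤ X.m := by
  obtain ⟨-, -, h1, h2⟩ := h
  intro a ha
  by_contra h3
  rcases (h2 a).mp ha with h4 | h4
  · apply h3
    rw [h4]
    exact X.m.zero_mem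
  · have h5 := hv.2 a h3
    omega

end TRF

open TRF in
/-- TRF: transfer of the hypotheses and of the minimal log discrepancy. -/
theorem t_TRF : Stmt_TRF := by
  intro n m m' X X' j A A' T T' S _ hTh hAt hAT hD hr hA' hP hg
  have key : ∀ (P' : Ideal X'.R) (b : ℝ), T'.Coeff P' b →
      ∃ P : Ideal X.R, T.Coeff P b ∧ (A.Inv P → A'.Inv P') := by
    rintro P' b ⟨hP', v', hv', hl⟩
    have e : comap j (comap j.symm v') = v' := comap_comap j v'
    have h1 : X'.Through v' := through_of_ordAlong hv' hP'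
    have h2 : X.Through (comap j.symm v') := by
      rw [hTh, e]
      exact h1
    obtain ⟨P, hPo, hPi⟩ := hP (comap j.symm v') P' h2 (by rw [e]; exact hv')
    refine ⟨P, ⟨le_of_through hPo h2, comap j.symm v', hPo, ?_⟩, hPi⟩
    have h3 := (hD _ h2).1
    rw [e] at h3
    rw [← h3, hl]
  refine ⟨⟨⟨fun P' b hb hb0 => ?_, hA'⟩, fun P' b hb => ?_, fun v' hv' => ?_,
    fun P' b hb hb0 => ?_, fun i hi => ?_⟩, ?_⟩
  · obtain ⟨P, h1, h2⟩ := key P' b hb
    exact h2 (hg.inv.1 P b h1 hb0)
  · obtain ⟨P, h1, h2⟩ := key P' b hb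
    exact hg.eff P b h1
  · have e : comap j (comap j.symm v') = v' := comap_comap j v'
    have h2 : X.Through (comap j.symm v') := by
      rw [hTh, e]
      exact hv'
    have h3 := (hD _ h2).2
    rw [e] at h3
    rw [h3]
    exact hg.lc _ h2
  · obtain ⟨P, h1, h2⟩ := key P' b hb
    exact hg.coeff.1 P b h1 hb0
  · obtain ⟨k, hk⟩ := hr i
    rw [hk] at hi ⊢
    exact hg.coeff.2 k hi
  · have e : {a : ℝ | ∃ v, X'.At v ∧ T'.disc v = a} = {a : ℝ | ∃ v, X.At v ∧ T.disc v = a} := by
      ext a
      constructor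
      · rintro ⟨v', hv', rfl⟩
        have e : comap j (comap j.symm v') = v' := comap_comap j v'
        have h1 : X.At (comap j.symm v') := by
          rw [hAt, e]
          exact hv'
        have h3 := (hD _ (hAT _ h1)).2
        rw [e] at h3
        exact ⟨_, h1, h3.symm⟩
      · rintro ⟨v, hv, rfl⟩
        exact ⟨comap j v, (hAt v).mp hv, (hD v (hAT v hv)).2⟩
    unfold Triple.mld
    rw [e]

end

end MldG
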