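import Pool.Agent.MldGeo.Fin1
import Pool.Agent.MldGeo.DEG
import Pool.Agent.MldGeo.MNR
import Pool.Agent.MldG.SPL
import Pool.Agent.MldG.HLI
import Pool.Agent.MldG.HFR
import Pool.Agent.MldG.HFK
import Pool.Agent.MldG.TRD
import Pool.Agent.MldG.TRB
import Pool.Agent.MldG.NHP
import Pool.Agent.MldG.GHO
import Pool.Agent.MldG.RED
import Pool.Agent.MldG.K0C
import Pool.Agent.MldG.RSV
import Pool.Agent.MldG.TOX
import Pool.Agent.MldG.LGO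
import Pool.Agent.MldG.RD1
import Pool.Agent.MldG.IDL
import Pool.Agent.MldG.TRF
import Pool.Agent.MldG.HTC
import Pool.Agent.MldG.OLI
import Pool.Agent.MldG.ATH
import Pool.Agent.MldG.HOU
import Pool.Agent.MldG.LCZ
import Pool.Agent.MldG.KUX
import Pool.Agent.MldG.KUV
import Pool.Agent.MldG.KUT
import Pool.Agent.MldG.KUA
import Pool.Agent.MldG.KM1
import Pool.Agent.MldG.KMS
import Pool.Agent.MldG.ISO
import Pool.Agent.MldG.AF1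
import Pool.Agent.MldG.AFX
import Pool.Agent.MldG.NGZ
import Pool.Agent.MldG.FXP
import Pool.Agent.MldG.CYZ
import Pool.Agent.MldG.THZ
import Pool.Agent.MldG.NOZ
import Pool.Agent.MldG.RAZ
import Pool.Agent.MldG.DAZ
import Pool.Agent.MldG.NRG
import Pool.Agent.MldG.GEZ
import Pool.Agent.MldG.CMZ
import Pool.Agent.MldG.TAG

/-!
# Assembly: the ascending chain condition for varieties with torus action of complexity at most one
-/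

namespace MldG

open MldGeo

theorem fxp : Stmt_FXP := by
  have hAFX : Stmt_AFX := t_AFX t_ATH t_HOU t_OLI
  have hKM1 : Stmt_KM1 := t_KM1 (t_KUX t_ATH) (t_KUV t_HTC t_ATH) t_KUT (t_KUA t_HOU) t_ATH t_HOU
  have hAF1 : Stmt_AF1 := t_AF1 hAFX t_TRF t_ISO t_HOU t_ATH
  intro n m X
  exact t_FXP (t_LCZ t_TRF t_OLI t_ATH t_HOU) (t_KMS hKM1 t_HOU) hAF1 t_HOU

theorem daz : Stmt_DAZ := by
  have hGEZ : Stmt_GEZ := t_GEZ t_ATH
  have hNGZ : Stmt_NGZ := t_NGZ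
  have hTBAS : Stmt_TBAS := t_TBAS
  have hFRA : Stmt_FRA := t_FRA
  have hLOGD : Stmt_LOGD := t_LOGD hFRA
  have hCOE : Stmt_COE := t_COE hFRA hLOGD hTBAS
  have hFRM : Stmt_FRM := t_FRM hFRA hTBAS hCOE
  have hFSM : Stmt_FSM := t_FSM hFRA hFRM
  have hFDL : Stmt_FDL := t_FDL hFRA hFRM
  have hREG : Stmt_REG := t_REG hFRA hLOGD hTBAS hFRM
  have hTXT : Stmt_TXT := t_TXT hFRA hLOGD hTBAS hFRM
  have hDIV : Stmt_DIV := t_DIV
  have hLOC : Stmt_LOC := t_LOC hDIV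
  have hOLC : Stmt_OLC := t_OLC
  have hSPL : Stmt_SPL := t_SPL
  have hHLI : Stmt_HLI := t_HLI
  have hHFR : Stmt_HFR := t_HFR
  have hHFK : Stmt_HFK := t_HFK hHLI hHFR
  have hTRD : Stmt_TRD := t_TRD hSPL hHFK
  have hTRB : Stmt_TRB := t_TRB hHFK
  have hNHP : Stmt_NHP := t_NHP hHFR hHFK hTRD hTRB hTBAS hREG hFSM hOLC
  have hGHO : Stmt_GHO := t_GHO hHFR hOLC hDIV hLOC
  have hRED : Stmt_RED := t_RED hNHP hGHO hTRB hTBAS hFSM hTXT hDIV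
  have hPRF : Stmt_PRF := t_PRF t_DEG
  have hDLO : Stmt_DLO := t_DLO t_RS1 hLOGD
  have hCAN : Stmt_CAN := t_CAN t_RS1 hPRF t_AFF hDLO
  have hK0C : Stmt_K0C := t_K0C hSPL hHFK hTRD
  have hDER : Stmt_DER := t_DER hTBAS
  have hRSV : Stmt_RSV := t_RSV hK0C hPRF
  have hTOX : Stmt_TOX := t_TOX hHFK hK0C t_GAU
  have hMNL : Stmt_MNL := t_MNL hFRM
  have hLGO : Stmt_LGO := t_LGO hMNL hTRB hTBAS hFSM hFDL hHFK
  have hRD1 : Stmt_RD1 := t_RD1 hRED hHFK hK0C hPRF hLGO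
  have hIDL : Stmt_IDL := t_IDL hHFK
  have hCYZ : Stmt_CYZ := t_CYZ t_ATH t_HOU hK0C t_AFF hRSV
  have hTHZ : Stmt_THZ := t_THZ t_ATH hRSV
  have hNOZ : Stmt_NOZ := t_NOZ hTHZ t_HOU
  have hRAZ : Stmt_RAZ := t_RAZ hNOZ hTHZ
  intro m X
  exact t_DAZ hSPL hK0C hDER hCAN hRD1 hIDL hTOX hCYZ hGEZ hNGZ hTHZ hRAZ

theorem tag : Stmt_TAG := by
  have hCMZ : Stmt_CMZ := t_CMZ t_NRG
  have hHFK : Stmt_HFK := t_HFK t_HLI t_HFR
  have hTRD : Stmt_TRD := t_TRD t_SPL hHFK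
  have hHFK' : MldGeo.Stmt_HFK := MldGeo.t_HFK MldGeo.t_HLI MldGeo.t_HFR
  have hGEN : MldGeo.Stmt_GEN := MldGeo.t_GEN MldGeo.t_HFR hHFK' MldGeo.t_ATT
  have hCRS : MldGeo.Stmt_CRS := MldGeo.t_CRS MldGeo.t_HFR MldGeo.t_ATT hGEN MldGeo.t_SPL
  exact t_TAG fxp hTRD hCRS (MldGeo.dat_of MldGeo.t_DEG) (MldGeo.cmb_of MldGeo.t_MNR)
    (MldGeo.t_DM1 MldGeo.t_DIV MldGeo.t_UNI MldGeo.t_IDO) daz hCMZ

end MldG
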