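import Pool.Agent.MldGeo.Stmts1
import Pool.Agent.MldG.Act

/-!
# Homogeneous rational functions on a variety with torus action
-/

namespace MldG

open MldGeo

noncomputable section

variable {n m : ℕ} {X : Germ n} (A : TorusAction X m)

attribute [instance] TorusAction.graded

/-- `h` is a homogeneous rational function of weight `u`. -/
def TorusAction.Hom (u : Fin m → ℤ) (h : X.K) : Prop :=
  ∃ (a b : Fin m → ℤ) (r s : X.R), r ∈ A.gr a ∧ s ∈ A.gr b ∧ s ≠ 0 ∧ a = u + b ∧
    h * (s : X.K) = r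

namespace TorusAction

variable {A}

theorem coe_ne {s : X.R} (h : s ≠ 0) : (s : X.K) ≠ 0 := fun h' => h (Subtype.ext h')

theorem Hom.of_mem {u : Fin m → ℤ} {r : X.R} (h : r ∈ A.gr u) : A.Hom u (r : X.K) :=
  ⟨u, 0, r, 1, h, SetLike.GradedOne.one_mem, one_ne_zero, by simp, by simp⟩

theorem Hom.const (c : ℂ) : A.Hom 0 (algebraMap ℂ X.K c) := by
  have h : algebraMap ℂ X.R c ∈ A.gr 0 := SetLike.algebraMap_mem_graded A.gr c
  exact Hom.of_mem h

theorem Hom.zero (u : Fin m → ℤ) : A.Hom u (0 : X.K) :=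
  ⟨u, 0, 0, 1, (A.gr u).zero_mem, SetLike.GradedOne.one_mem, one_ne_zero, by simp, by simp⟩

theorem Hom.one : A.Hom 0 (1 : X.K) := by
  have h := Hom.const (A := A) 1
  rwa [map_one] at h

theorem Hom.mul {u u' : Fin m → ℤ} {h h' : X.K} (H : A.Hom u h) (H' : A.Hom u' h') :
    A.Hom (u + u') (h * h') := by
  obtain ⟨a, b, r, s, hr, hs, h0, hab, e⟩ := H
  obtain ⟨a', b', r', s', hr', hs', h0', hab', e'⟩ := H'
  refine ⟨a + a', b + b', r * r', s * s', SetLike.GradedMul.mul_mem hr hr',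
    SetLike.GradedMul.mul_mem hs hs', mul_ne_zero h0 h0', by rw [hab, hab']; abel, ?_⟩
  push_cast
  rw [← e, ← e']
  ring

theorem Hom.add {u : Fin m → ℤ} {h h' : X.K} (H : A.Hom u h) (H' : A.Hom u h') :
    A.Hom u (h + h') := by
  obtain ⟨a, b, r, s, hr, hs, h0, hab, e⟩ := H
  obtain ⟨a', b', r', s', hr', hs', h0', hab', e'⟩ := H'
  refine ⟨a + b', b + b', r * s' + r' * s, s * s', ?_,
    SetLike.GradedMul.mul_mem hs hs', mul_ne_zero h0 h0', by rw [hab]; abel, ?_⟩
  · refine add_mem (SetLike.GradedMul.mul_mem hr hs') ?_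
    have h1 := SetLike.GradedMul.mul_mem (A := A.gr) hr' hs
    rwa [show a' + b = a + b' by rw [hab, hab']; abel] at h1
  · push_cast
    rw [← e, ← e']
    ring

theorem Hom.neg {u : Fin m → ℤ} {h : X.K} (H : A.Hom u h) : A.Hom u (-h) := by
  obtain ⟨a, b, r, s, hr, hs, h0, hab, e⟩ := H
  exact ⟨a, b, -r, s, neg_mem hr, hs, h0, hab, by push_cast; rw [← e]; ring⟩

theorem Hom.sub {u : Fin m → ℤ} {h h' : X.K} (H : A.Hom u h) (H' : A.Hom u h') :
    A.Hom u (h - h') := by
  rw [sub_eq_add_neg]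
  exact H.add H'.neg

theorem Hom.inv {u : Fin m → ℤ} {h : X.K} (H : A.Hom u h) (hne : h ≠ 0) : A.Hom (-u) h⁻¹ := by
  obtain ⟨a, b, r, s, hr, hs, h0, hab, e⟩ := H
  have hr0 : r ≠ 0 := by
    rintro rfl
    rw [ZeroMemClass.coe_zero] at e
    exact (mul_ne_zero hne (coe_ne h0)) e
  refine ⟨b, a, s, r, hs, hr, hr0, by rw [hab]; abel, ?_⟩
  rw [← e]
  field_simp

theorem Hom.eq_weight {u u' : Fin m → ℤ} {h : X.K} (H : A.Hom u h) (H' : A.Hom u' h)
    (hne : h ≠ 0) : u = u' := by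
  obtain ⟨a, b, r, s, hr, hs, h0, hab, e⟩ := H
  obtain ⟨a', b', r', s', hr', hs', h0', hab', e'⟩ := H'
  have e2 : r * s' = r' * s := by
    apply Subtype.ext
    push_cast
    rw [← e, ← e']
    ring
  have hne2 : r * s' ≠ 0 := by
    intro h1
    have h2 : (r : X.K) * s' = 0 := by exact_mod_cast congrArg Subtype.val h1
    rw [← e] at h2
    exact (mul_ne_zero (mul_ne_zero hne (coe_ne h0)) (coe_ne h0')) h2
  have m1 : r * s' ∈ A.gr (a + b') := SetLike.GradedMul.mul_mem hr hs'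
  have m2 : r * s' ∈ A.gr (a' + b) := by
    rw [e2]
    exact SetLike.GradedMul.mul_mem hr' hs
  have h3 := DirectSum.degree_eq_of_mem_mem A.gr m1 m2 hne2
  rw [hab, hab'] at h3
  have : u + b + b' - b - b' = u' + b' + b - b - b' := by rw [h3]
  simpa [add_sub_cancel_right] using (by
    calc u = u + b + b' - b - b' := by abel
      _ = u' + b' + b - b - b' := this
      _ = u' := by abel)

theorem Hom.pow {u : Fin m → ℤ} {h : X.K} (H : A.Hom u h) (k : ℕ) : A.Hom (k • u) (h ^ k) := by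
  induction k with
  | zero => simpa using Hom.one
  | succ k ih =>
    rw [pow_succ, succ_nsmul]
    exact ih.mul H

theorem Hom.zpow {u : Fin m → ℤ} {h : X.K} (H : A.Hom u h) (hne : h ≠ 0) (k : ℤ) :
    A.Hom (k • u) (h ^ k) := by
  cases k with
  | ofNat k => simpa using H.pow k
  | negSucc k =>
    rw [zpow_negSucc, negSucc_zsmul]
    exact (H.pow (k + 1)).inv (pow_ne_zero _ hne)

variable (A)

/-- The field of invariant rational functions. -/
def K0 : IntermediateField ℂ X.K where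
  carrier := {h | A.Hom 0 h}
  mul_mem' := fun ha hb => by simpa using Hom.mul ha hb
  one_mem' := Hom.one
  add_mem' := fun ha hb => Hom.add ha hb
  zero_mem' := Hom.zero 0
  algebraMap_mem' := Hom.const
  inv_mem' := fun a ha => by
    by_cases h : a = 0
    · rw [h, inv_zero]
      exact Hom.zero 0
    · simpa using Hom.inv ha h

theorem mem_K0 {h : X.K} : h ∈ A.K0 ↔ A.Hom 0 h := Iff.rfl

end TorusAction

end

end MldG
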