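import Pool.Agent.MldG.Stmts8
import Pool.Agent.MldGeo.Ord
import Pool.Agent.MldGeo.FRM
import Pool.Agent.MldG.NHP

/-!
# LGO: the order of the invariant form
-/

namespace MldG

open MldGeo

open MvPolynomial

noncomputable section

namespace LGO

/-! ### forms -/

theorem dforms_eq {n : ℕ} {K : Type} [Field K] [Algebra ℂ K] (a : Fin n → K)
    (ha : ∀ i, a i ≠ 0) : dforms a = (∏ i, a i) • dlogs a := by
  unfold dforms dlogs dlog
  rw [← AlternatingMap.map_smul_univ]
  congr 1
  funext i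
  rw [smul_smul, mul_inv_cancel₀ (ha i), one_smul]

theorem D_ne (hTBAS : Stmt_TBAS) {n : ℕ} {K : Type} [Field K] [Algebra ℂ K]
    (htr : Algebra.trdeg ℂ K = (n : Cardinal)) (a : Fin n → K) (ha : AlgebraicIndependent ℂ a)
    (i : Fin n) : KaehlerDifferential.D ℂ K (a i) ≠ 0 :=
  (hTBAS htr a ha).1.ne_zero i

theorem dlogs_ne (hTBAS : Stmt_TBAS) {n : ℕ} {K : Type} [Field K] [Algebra ℂ K]
    (htr : Algebra.trdeg ℂ K = (n : Cardinal)) (a : Fin n → K) (ha : AlgebraicIndependent ℂ a) :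
    dlogs a ≠ 0 := by
  obtain ⟨hl, hs⟩ := hTBAS htr a ha
  let e : Module.Basis (Fin n) K (Ω[K⁄ℂ]) := Module.Basis.mk hl hs.ge
  have he : (e : Fin n → Ω[K⁄ℂ]) = fun i => KaehlerDifferential.D ℂ K (a i) :=
    Module.Basis.coe_mk hl hs.ge
  have h := FRM.iota_ne e
  rw [he] at h
  intro h0
  apply h
  have h1 := dforms_eq a fun i => ha.ne_zero i
  rw [h0, smul_zero] at h1
  exact h1

theorem dlogs_cons {m : ℕ} {K : Type} [Field K] [Algebra ℂ K] (a b : K) (x : Fin m → K) (c : K)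
    (h : dlog a = c • dlog b) : dlogs (Fin.cons a x : Fin (m + 1) → K) =
      c • dlogs (Fin.cons b x : Fin (m + 1) → K) := by
  have e : ∀ a : K, (fun i => dlog ((Fin.cons a x : Fin (m + 1) → K) i)) =
      Fin.cons (dlog a) (fun i => dlog (x i)) := by
    intro a
    funext i
    refine Fin.cases ?_ (fun i => ?_) i
    · rfl
    · rfl
  unfold dlogs
  rw [e a, e b, h]
  exact (exteriorPower.ιMulti K (m + 1)).toMultilinearMap.cons_smul _ _ _

/-! ### Laurent polynomials -/

theorem laurent {L ι : Type} [Field L] [Algebra ℂ L] {τ : L} (hτ : Transcendental ℂ τ)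
    (s : Finset ι) (k : ι → ℤ) (hk : ∀ i ∈ s, ∀ j ∈ s, k i = k j → i = j) (c : ι → ℂ)
    (h : ∑ i ∈ s, algebraMap ℂ L (c i) * τ ^ k i = 0) : ∀ i ∈ s, c i = 0 := by
  classical
  have hτ0 : τ ≠ 0 := by
    rintro rfl
    exact hτ (isAlgebraic_zero)
  obtain ⟨N, hN⟩ : ∃ N : ℕ, ∀ i ∈ s, 0 ≤ k i + N := by
    refine ⟨∑ i ∈ s, (k i).natAbs, fun i hi => ?_⟩
    have h1 : (k i).natAbs ≤ ∑ i ∈ s, (k i).natAbs :=
      Finset.single_le_sum (f := fun i => (k i).natAbs) (fun _ _ => Nat.zero_le _) hi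
    omega
  set p : Polynomial ℂ := ∑ i ∈ s, Polynomial.monomial (k i + N).toNat (c i) with hp
  have hpe : Polynomial.aeval τ p = 0 := by
    rw [hp, map_sum]
    have h2 : ∑ i ∈ s, Polynomial.aeval τ (Polynomial.monomial (k i + N).toNat (c i)) =
        (∑ i ∈ s, algebraMap ℂ L (c i) * τ ^ k i) * τ ^ N := by
      rw [Finset.sum_mul]
      refine Finset.sum_congr rfl fun i hi => ?_
      rw [Polynomial.aeval_monomial, mul_assoc]
      congr 1
      rw [← zpow_natCast τ N, ← zpow_add₀ hτ0, ← zpow_natCast, Int.toNat_of_nonneg (hN i hi)]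
    rw [h2, h, zero_mul]
  have hp0 : p = 0 := by
    by_contra hne
    exact hτ ⟨p, hne, hpe⟩
  intro i hi
  have h3 : p.coeff (k i + N).toNat = c i := by
    rw [hp, Polynomial.finsetSum_coeff, Finset.sum_eq_single i]
    · rw [Polynomial.coeff_monomial, if_pos rfl]
    · intro j hj hji
      rw [Polynomial.coeff_monomial, if_neg]
      intro h4
      apply hji
      apply hk j hj i hi
      have h5 := hN i hi
      have h6 := hN j hj
      omega
    · intro h4
      exact absurd hi h4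
  rw [← h3, hp0, Polynomial.coeff_zero]

/-! ### toroidal valuations -/

section tor

variable {m : ℕ} {X : Germ (m + 1)} {A : TorusAction X m} (S : Splitting A)

theorem along_of_tor {v : DivVal (m + 1) X.K} {w : Fin m → ℤ} {l : ℤ} {y : DivVal 1 A.K0}
    (h : IsTor S v w l y) : Along S v w l y := by
  intro b u hb
  obtain ⟨u', hu', -, h1⟩ := (h {u} (fun _ => b) ⟨u, Finset.mem_singleton_self u, hb⟩).1
  rw [Finset.mem_singleton] at hu'
  rw [Finset.sum_singleton, hu'] at h1
  exact h1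

theorem ord_coe {v : DivVal (m + 1) X.K} {w : Fin m → ℤ} {l : ℤ} {y : DivVal 1 A.K0}
    (h : Along S v w l y) (b : A.K0) (hb : b ≠ 0) : v.ord (b : X.K) = l * y.ord b := by
  have h1 := h b 0 hb
  rw [S.zero, mul_one] at h1
  rw [h1]
  simp [ip]

theorem ord_chi {v : DivVal (m + 1) X.K} {w : Fin m → ℤ} {l : ℤ} {y : DivVal 1 A.K0}
    (h : Along S v w l y) (i : Fin m) : v.ord (S.χ (Pi.single i 1)) = w i := by
  have h1 := h 1 (Pi.single i 1) one_ne_zero
  rw [DivVal.ord_one] at h1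
  have h2 : ((1 : A.K0) : X.K) = 1 := rfl
  rw [h2, one_mul] at h1
  rw [h1]
  simp [ip, Pi.single_apply]

/-- the coordinates -/
def xs (τ : A.K0) : Fin (m + 1) → X.K :=
  Fin.cons (τ : X.K) fun i => S.χ (Pi.single i 1)

theorem xs_indep (hTRB : Stmt_TRB) {τ : A.K0} (hτ : Transcendental ℂ τ) :
    AlgebraicIndependent ℂ (xs S τ) := by
  have h1 : AlgebraicIndependent ℂ (fun _ : Fin 1 => τ) := by
    rw [algebraicIndependent_unique_type_iff]
    exact hτ
  have h2 := hTRB A S (fun _ : Fin 1 => τ) h1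
  let e : Fin (m + 1) → Fin 1 ⊕ Fin m := Fin.cons (Sum.inl 0) Sum.inr
  have he : Function.Injective e := by
    intro a b
    refine Fin.cases ?_ (fun a => ?_) a
    · refine Fin.cases ?_ (fun b => ?_) b
      · intro _
        rfl
      · intro h
        exact absurd h (by simp [e])
    · refine Fin.cases ?_ (fun b => ?_) b
      · intro h
        exact absurd h (by simp [e])
      · intro h
        have h' : (Sum.inr a : Fin 1 ⊕ Fin m) = Sum.inr b := h
        rw [Sum.inr.inj h']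
  have h3 := h2.comp e he
  have h4 : xs S τ = (Sum.elim (fun _ : Fin 1 => (τ : X.K)) fun i : Fin m =>
      S.χ (Pi.single i 1)) ∘ e := by
    funext i
    refine Fin.cases ?_ (fun i => ?_) i
    · rfl
    · rfl
  rw [h4]
  exact h3

theorem prod_xs (τ : A.K0) (e : Fin (m + 1) → ℤ) :
    ∏ i, xs S τ i ^ e i = ((τ ^ e 0 : A.K0) : X.K) * S.χ (fun i => e i.succ) := by
  rw [Fin.prod_univ_succ, NHP.chi_eq S (fun i => e i.succ)]
  rfl

theorem sum_ord {v : DivVal (m + 1) X.K} {w : Fin m → ℤ} {l : ℤ} {y : DivVal 1 A.K0}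
    (h : Along S v w l y) (τ : A.K0) (hτ : τ ≠ 0) (e : Fin (m + 1) → ℤ) :
    ∑ i, e i * v.ord (xs S τ i) = e 0 * (l * y.ord τ) + ip w (fun i => e i.succ) := by
  rw [Fin.sum_univ_succ]
  have h1 : v.ord (xs S τ 0) = l * y.ord τ := ord_coe S h τ hτ
  rw [h1]
  congr 1
  unfold ip
  refine Finset.sum_congr rfl fun i _ => ?_
  have h2 : v.ord (xs S τ i.succ) = w i := ord_chi S h i
  rw [h2, mul_comm]

theorem logOrd_xs (hMNL : Stmt_MNL) (hHFK : Stmt_HFK) {v : DivVal (m + 1) X.K} {w : Fin m → ℤ}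
    {l : ℤ} {y : DivVal 1 A.K0} (h : IsTor S v w l y) (τ : A.K0) (hτ : Transcendental ℂ τ)
    (hl : l = 0 ∨ y.ord τ = 1) : v.logOrd (dlogs (xs S τ)) = 0 := by
  classical
  have hal := along_of_tor S h
  have hτ0 : τ ≠ 0 := by
    rintro rfl
    exact hτ (isAlgebraic_zero)
  have hlτ : l * y.ord τ = l := by
    rcases hl with hl | hl
    · rw [hl, zero_mul]
    · rw [hl, mul_one]
  refine hMNL X.trdeg v (xs S τ) ?_ ?_ ?_
  · intro i
    refine Fin.cases ?_ (fun i => ?_) i
    · show (τ : X.K) ≠ 0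
      intro h1
      exact hτ0 (Subtype.ext h1)
    · exact NHP.chi_ne S _
  · -- a uniformizer
    obtain ⟨f, hf0, hf1⟩ := v.unif
    obtain ⟨s, b, b', h1, h2⟩ := (hHFK A S).2.2 f
    have hne : ∀ (c : (Fin m → ℤ) → A.K0), ∑ u ∈ s, (c u : X.K) * S.χ u ≠ 0 →
        ∃ u ∈ s, c u ≠ 0 := by
      intro c hc
      by_contra hno
      push Not at hno
      apply hc
      refine Finset.sum_eq_zero fun u hu => ?_
      rw [hno u hu]
      simp
    have h3 : ∑ u ∈ s, (b u : X.K) * S.χ u ≠ 0 := by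
      rw [← h2]
      exact mul_ne_zero hf0 h1
    obtain ⟨u1, -, -, e1⟩ := (h s b (hne b h3)).1
    obtain ⟨u2, -, -, e2⟩ := (h s b' (hne b' h1)).1
    have h4 := v.ord_mul _ _ hf0 h1
    rw [h2, e1, e2, hf1] at h4
    refine ⟨Fin.cons (y.ord (b u1) - y.ord (b' u2)) fun i => u1 i - u2 i, ?_⟩
    rw [sum_ord S hal τ hτ0, hlτ]
    have h5 : ip w (fun i => (Fin.cons (y.ord (b u1) - y.ord (b' u2))
        (fun i => u1 i - u2 i) : Fin (m + 1) → ℤ) i.succ) = ip w u1 - ip w u2 := by
      unfold ip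
      rw [← Finset.sum_sub_distrib]
      refine Finset.sum_congr rfl fun i _ => ?_
      show w i * (u1 i - u2 i) = w i * u1 i - w i * u2 i
      ring
    rw [h5, Fin.cons_zero]
    linarith
  · intro s c hc hs
    set r : (Fin (m + 1) → ℤ) → (Fin m → ℤ) := fun e i => e i.succ with hr
    set b : (Fin m → ℤ) → A.K0 := fun u =>
      ∑ e ∈ s with r e = u, algebraMap ℂ A.K0 (c e) * τ ^ e 0 with hb
    have hsum : ∑ e ∈ s, algebraMap ℂ X.K (c e) * ∏ i, xs S τ i ^ e i =
        ∑ u ∈ s.image r, (b u : X.K) * S.χ u := by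
      rw [← Finset.sum_fiberwise_of_maps_to (s := s) (t := s.image r) (g := r)
        (fun e he => Finset.mem_image_of_mem r he)]
      refine Finset.sum_congr rfl fun u _ => ?_
      have h1 : (b u : X.K) = ∑ e ∈ s with r e = u,
          algebraMap ℂ X.K (c e) * ((τ ^ e 0 : A.K0) : X.K) := by
        rw [hb]
        push_cast
        rfl
      rw [h1, Finset.sum_mul]
      refine Finset.sum_congr rfl fun e he => ?_
      have h2 : r e = u := (Finset.mem_filter.1 he).2
      rw [prod_xs, mul_assoc, ← h2]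
    have hbn : ∀ e ∈ s, c e ≠ 0 → b (r e) ≠ 0 := by
      intro e he hce h0
      have h1 := laurent hτ (s.filter fun e' => r e' = r e) (fun e' => e' 0) ?_ c h0 e
        (Finset.mem_filter.2 ⟨he, rfl⟩)
      · exact hce h1
      · intro i hi j hj hij
        have h2 := (Finset.mem_filter.1 hi).2
        have h3 := (Finset.mem_filter.1 hj).2
        funext a
        refine Fin.cases ?_ (fun a => ?_) a
        · exact hij
        · exact congrFun (h2.trans h3.symm) a
    obtain ⟨e0, he0, hce0⟩ := hc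
    have hex : ∃ u ∈ s.image r, b u ≠ 0 :=
      ⟨r e0, Finset.mem_image_of_mem r he0, hbn e0 he0 hce0⟩
    have hval : ∀ u ∈ s.image r, b u ≠ 0 → l * y.ord (b u) + ip w u = 0 := by
      intro u hu hbu
      obtain ⟨e, he, rfl⟩ := Finset.mem_image.1 hu
      have h1 := hs e he
      rw [sum_ord S hal τ hτ0, hlτ] at h1
      have h1' : e 0 * l + ip w (r e) = 0 := h1
      by_cases hl0 : l = 0
      · rw [hl0, mul_zero, zero_add] at h1'
        rw [hl0, zero_mul, zero_add]
        exact h1'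
      · have hy1 : y.ord τ = 1 := hl.resolve_left hl0
        have h2 : ∀ e' ∈ s.filter (fun e' => r e' = r e), e' 0 = e 0 := by
          intro e' he'
          obtain ⟨h3, h4⟩ := Finset.mem_filter.1 he'
          have h5 := hs e' h3
          rw [sum_ord S hal τ hτ0, hlτ] at h5
          have h5' : e' 0 * l + ip w (r e') = 0 := h5
          rw [h4] at h5'
          have h6 : e' 0 * l = e 0 * l := by linarith
          exact mul_right_cancel₀ hl0 h6
        have h3 : b (r e) = algebraMap ℂ A.K0 (∑ e' ∈ s with r e' = r e, c e') * τ ^ e 0 := by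
          rw [map_sum, Finset.sum_mul]
          refine Finset.sum_congr rfl fun e' he' => ?_
          rw [h2 e' he']
        have h4 : (∑ e' ∈ s with r e' = r e, c e') ≠ 0 := by
          intro h5
          rw [h5, map_zero, zero_mul] at h3
          exact hbu h3
        rw [h3, DivVal.ord_const_mul y h4, DivVal.ord_zpow, hy1]
        linarith
    have hleast := h (s.image r) b hex
    rw [hsum]
    constructor
    · intro h0
      obtain ⟨u, hu, hbu⟩ := hex
      exact hbu ((hHFK A S).2.1 _ b h0 u hu)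
    · obtain ⟨u, hu, hbu, h1⟩ := hleast.1
      rw [h1]
      exact hval u hu hbu

/-- the invariant form in terms of another function -/
theorem form_eq (s t : A.K0) (hs : s ≠ 0) (ht : t ≠ 0) (d : A.K0) (hd : d ≠ 0)
    (h : KaehlerDifferential.D ℂ A.K0 t = d • KaehlerDifferential.D ℂ A.K0 s) :
    form0 S s = ((t / (s * d) : A.K0) : X.K) • dlogs (xs S t) := by
  have h1 := congrArg (KaehlerDifferential.map ℂ ℂ A.K0 X.K) h
  rw [map_smul, KaehlerDifferential.map_D, KaehlerDifferential.map_D] at h1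
  have h2 : KaehlerDifferential.D ℂ X.K (t : X.K) =
      (d : X.K) • KaehlerDifferential.D ℂ X.K (s : X.K) := by
    have h3 : (d : A.K0) • KaehlerDifferential.D ℂ X.K (algebraMap A.K0 X.K s) =
        (algebraMap A.K0 X.K d) • KaehlerDifferential.D ℂ X.K (algebraMap A.K0 X.K s) :=
      (algebraMap_smul X.K d _).symm
    rw [h3] at h1
    exact h1
  have hs' : (s : X.K) ≠ 0 := fun h => hs (Subtype.ext h)
  have ht' : (t : X.K) ≠ 0 := fun h => ht (Subtype.ext h)
  have hd' : (d : X.K) ≠ 0 := fun h => hd (Subtype.ext h)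
  refine dlogs_cons (s : X.K) (t : X.K) _ _ ?_
  unfold dlog
  rw [h2, smul_smul, smul_smul]
  congr 1
  push_cast
  field_simp

end tor

theorem transc {F : Type} [Field F] [Algebra ℂ F] (y : DivVal 1 F) {t : F} (h : y.ord t = 1) :
    Transcendental ℂ t := by
  intro hal
  have hint : IsIntegral ℂ t := hal.isIntegral
  obtain ⟨c, hc⟩ := minpoly.mem_range_of_degree_eq_one ℂ t
    (IsAlgClosed.degree_eq_one_of_irreducible ℂ (minpoly.irreducible hint))
  have := y.ord_const c
  rw [hc] at this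
  omega

end LGO

open LGO in
theorem t_LGO (hMNL : Stmt_MNL) (hTRB : Stmt_TRB) (hTBAS : Stmt_TBAS) (hFSM : Stmt_FSM)
    (hFDL : Stmt_FDL) (hHFK : Stmt_HFK) : Stmt_LGO := by
  intro m X A S s hs D hD κ hκ
  have hs0 : s ≠ 0 := by
    rintro rfl
    exact hs (isAlgebraic_zero)
  have hne : form0 S s ≠ 0 := dlogs_ne hTBAS X.trdeg _ (xs_indep S hTRB hs)
  -- a uniformizer
  have hun : ∀ y : DivVal 1 A.K0, ∃ t : A.K0, t ≠ 0 ∧ y.ord t = 1 ∧ D t ≠ 0 ∧
      Transcendental ℂ t ∧ form0 S s = ((t / (s * D t) : A.K0) : X.K) • dlogs (xs S t) ∧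
      y.ord (t / (s * D t)) = 1 - y.ord s + κ y := by
    intro y
    obtain ⟨t, ht0, ht1⟩ := y.unif
    have htr := transc y ht1
    have hDt : D t ≠ 0 := by
      intro h0
      have h1 := hD.2 t
      rw [h0, zero_smul] at h1
      have h2 := congrArg (KaehlerDifferential.map ℂ ℂ A.K0 X.K) h1
      rw [map_zero, KaehlerDifferential.map_D] at h2
      exact D_ne hTBAS X.trdeg _ (xs_indep S hTRB htr) 0 h2
    refine ⟨t, ht0, ht1, hDt, htr, form_eq S s t hs0 ht0 (D t) hDt (hD.2 t), ?_⟩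
    rw [DivVal.ord_div y ht0 (mul_ne_zero hs0 hDt), y.ord_mul _ _ hs0 hDt, hκ y t ht1, ht1]
    ring
  have hord : ∀ (v : DivVal (m + 1) X.K) (w : Fin m → ℤ) (l : ℤ) (y : DivVal 1 A.K0),
      Along S v w l y → ∃ t : A.K0, Transcendental ℂ t ∧ y.ord t = 1 ∧
        v.logOrd (form0 S s) = l * (1 - y.ord s + κ y) + v.logOrd (dlogs (xs S t)) := by
    intro v w l y hal
    obtain ⟨t, ht0, ht1, hDt, htr, hf, ho⟩ := hun y
    refine ⟨t, htr, ht1, ?_⟩
    have hc0 : t / (s * D t) ≠ 0 := div_ne_zero ht0 (mul_ne_zero hs0 hDt)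
    have hc : ((t / (s * D t) : A.K0) : X.K) ≠ 0 := fun h => hc0 (Subtype.ext h)
    rw [hf, hFSM X.trdeg v _ _ (Nat.succ_pos m) hc
      (dlogs_ne hTBAS X.trdeg _ (xs_indep S hTRB htr)), ord_coe S hal _ hc0, ho]
  refine ⟨hne, ?_, ?_⟩
  · intro v w l y hl htor
    rcases hl.eq_or_lt with h0 | h0
    · rw [← h0, zero_mul]
      exact logOrd_xs S hMNL hHFK htor s hs (Or.inl h0.symm)
    · obtain ⟨t, htr, ht1, h1⟩ := hord v w l y (along_of_tor S htor)
      rw [h1, logOrd_xs S hMNL hHFK htor t htr (Or.inr ht1), add_zero]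
  · intro v w l y hl hal
    obtain ⟨t, htr, ht1, h1⟩ := hord v w l y hal
    rw [h1]
    have h2 := xs_indep S hTRB htr
    have h3 := hFDL X.trdeg v (xs S t) (Nat.succ_pos m) (fun i => h2.ne_zero i)
      (dlogs_ne hTBAS X.trdeg _ h2)
    linarith

end

end MldG
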