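import Pool.Agent.MldG.Act
import Pool.Agent.MldGeo.Stmts2b
import Pool.Agent.MldGap.Defs

/-!
# Sets of minimal log discrepancies
-/

namespace MldG

open MldGeo MldGap

noncomputable section

/-- The minimal log discrepancies of the toric pairs `(X, B)` of dimension `n` at closed points `x`:
the torus of dimension `n` acts effectively on `X`, `B` is invariant, and its coefficients are of the
form `1 - (c/q)/m` with `0 ≤ c ≤ q` and `m ≥ 1`. -/
def toricMlds (n q : ℕ) : Set ℝ :=
  {μ | ∃ (X : Germ n) (A : TorusAction X n) (T : Triple X), IsEmpty T.J ∧ A.InvTriple T ∧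
    T.Hyperstandard q ∧ T.mld = μ}

/-- The minimal log discrepancies of the log quotients `(ℂⁿ / G, B)` at the image of the origin, `G`
a finite group of linear maps. -/
def quotientMlds (n : ℕ) : Set ℝ :=
  {μ | ∃ (G : Subgroup (GL (Fin n) ℂ)) (X : Germ n) (T : Triple X), Finite G ∧
    T.IsLogQuotient G ∧ T.mld = μ}

/-- The minimal log discrepancies of the isolated quotient singularities `ℂⁿ / G`, `G` a finite
group of linear maps which acts freely on `ℂⁿ ∖ 0` (without boundary). -/
def isolatedQuotientMlds (n : ℕ) : Set ℝ :=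
  {μ | ∃ (G : Subgroup (GL (Fin n) ℂ)) (X : Germ n) (T : Triple X), Finite G ∧ ActsFreely G ∧
    X.IsQuotient G ∧ IsEmpty T.J ∧ T.NoBoundary ∧ T.mld = μ}

end

end MldG
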