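import Pool.Agent.MldG.SGDefs
import Pool.Agent.MldG.FXE
import Pool.Agent.MldGeo.Closed5

/-!
# Sharp gaps: assembly for arbitrary closed points of toric varieties
-/

namespace MldG

open MldGeo MldGap

noncomputable section

/-- Toric pairs: reduction to fixed points. -/
theorem toric_fixed {n : ℕ} (hn : 0 < n) {X : Germ n} (A : TorusAction X n) (T : Triple X)
    (hJ : IsEmpty T.J) (hA : A.InvTriple T) {q : ℕ} (hT : T.Hyperstandard q) :
    ∃ (X' : Germ n) (A' : MldGeo.TorusAction X' n) (T' : Triple X'), IsEmpty T'.J ∧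
      A'.InvTriple T' ∧ T'.Hyperstandard q ∧ T'.mld = T.mld := by
  obtain ⟨X', A', T', hG, hm, hF⟩ := fxe A T
    (fun b => ∃ c m : ℕ, c ≤ q ∧ 0 < m ∧ b = 1 - (c : ℝ) / q / m) hn ⟨hA, hT, hJ⟩
  have hHFK : Stmt_HFK := t_HFK t_HLI t_HFR
  have hTRD : Stmt_TRD := t_TRD t_SPL hHFK
  exact ⟨X', TAG.toGeo A' (TAG.const_of_full hTRD A') hF, T', hG.emp,
    TAG.inv_toGeo A' (TAG.const_of_full hTRD A') hF hG.inv, hG.co, hm⟩

theorem toric_le {n p q : ℕ} (hn : 0 < n) (hp : 0 < p) (hq : 0 < q) {μ : ℝ}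
    (hμ : μ ∈ toricMlds n q) (hlt : μ < (p : ℝ) / q) : μ ≤ levelBound n p q := by
  obtain ⟨X, A, T, hJ, hA, hT, rfl⟩ := hμ
  obtain ⟨X', A', T', hJ', hA', hT', hm⟩ := toric_fixed hn A T hJ hA hT
  rw [← hm] at hlt ⊢
  exact toric_part c_TDG hn hp hq A' T' hJ' hA' hT' hlt

/-- An action with an attractive fixed point. -/
def ofGeo {n m : ℕ} {X : Germ n} (A : MldGeo.TorusAction X m) : TorusAction X m where
  gr := A.gr
  graded := A.graded
  effective := A.effective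

theorem toric_greatest {n l : ℕ} (hl : 1 ≤ l) (hln : l ≤ n) :
    IsGreatest {μ ∈ toricMlds n 1 | μ < l} ((l : ℝ) - 1 / ((sylvester (n - l + 1) : ℝ) - 1)) := by
  constructor
  · obtain ⟨X, A, T, hJ, hA, hT, hm, hlt⟩ := (toric_part2 c_TDG c_EXA hl hln).1
    exact ⟨⟨X, ofGeo A, T, hJ, hA, hT, hm⟩, hlt⟩
  · rintro μ ⟨hμ, hlt⟩
    have := toric_le (p := l) (q := 1) (by omega) (by omega) one_pos hμ (by simpa using hlt)
    rwa [levelBound_int n l hl hln] at this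

theorem quotient_greatest {n l : ℕ} (hl : 1 ≤ l) (hln : l ≤ n) :
    IsGreatest {μ ∈ quotientMlds n | μ < l} ((l : ℝ) - 1 / ((sylvester (n - l + 1) : ℝ) - 1)) := by
  have h := quot_part c_MLQ c_GEX c_TEX hl hln
  constructor
  · obtain ⟨G, X, T, hG, hT, hm, hlt⟩ := h.1
    exact ⟨⟨G, X, T, hG, hT, hm⟩, hlt⟩
  · rintro μ ⟨⟨G, X, T, hG, hT, hm⟩, hlt⟩
    exact h.2 ⟨G, X, T, hG, hT, hm, hlt⟩

theorem isolated_mem {n : ℕ} (hn : 2 ≤ n) :
    1 - 4 / ((sylvester (n - 1) : ℝ) ^ 2 + 3) ∈ isolatedQuotientMlds n :=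
  free_part c_MLQ c_GEX c_TEX c_FRE hn

end

end MldG
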