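import Pool.Agent.MldG.Grad

/-!
# Varieties with torus action: statements
-/

namespace MldG

open MldGeo

open MvPolynomial

noncomputable section

/-- A homogeneous splitting: nonzero homogeneous functions `χ u` of weight `u`, multiplicative
in `u`. -/
structure Splitting {n m : ℕ} {X : Germ n} (A : TorusAction X m) where
  /-- the function of weight `u` -/
  χ : (Fin m → ℤ) → X.K
  zero : χ 0 = 1
  add : ∀ u w, χ (u + w) = χ u * χ w
  hom : ∀ u, A.Hom u (χ u)

/-- SPL: homogeneous splittings exist. -/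
def Stmt_SPL : Prop :=
  ∀ {n m : ℕ} {X : Germ n} (A : TorusAction X m), Nonempty (Splitting A)

/-- HLI: homogeneous functions of different weights are linearly independent. -/
def Stmt_HLI : Prop :=
  ∀ {n m : ℕ} {X : Germ n} (A : TorusAction X m) (s : Finset (Fin m → ℤ))
    (h : (Fin m → ℤ) → X.K), (∀ u ∈ s, A.Hom u (h u)) → ∑ u ∈ s, h u = 0 → ∀ u ∈ s, h u = 0

/-- HFR: regular functions are sums of homogeneous regular functions. -/
def Stmt_HFR : Prop :=
  ∀ {n m : ℕ} {X : Germ n} (A : TorusAction X m) (r : X.R),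
    ∃ (s : Finset (Fin m → ℤ)) (h : (Fin m → ℤ) → X.R), (∀ u, h u ∈ A.gr u) ∧
      (∀ u, u ∉ s → h u = 0) ∧ r = ∑ u ∈ s, h u

/-- HFK: rational functions in terms of a splitting. -/
def Stmt_HFK : Prop :=
  ∀ {n m : ℕ} {X : Germ n} (A : TorusAction X m) (S : Splitting A),
    (∀ (u : Fin m → ℤ) (h : X.K), A.Hom u h → ∃ b : A.K0, h = (b : X.K) * S.χ u) ∧
    (∀ (s : Finset (Fin m → ℤ)) (b : (Fin m → ℤ) → A.K0),
      ∑ u ∈ s, (b u : X.K) * S.χ u = 0 → ∀ u ∈ s, b u = 0) ∧
    ∀ x : X.K, ∃ (s : Finset (Fin m → ℤ)) (b b' : (Fin m → ℤ) → A.K0),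
      ∑ u ∈ s, (b' u : X.K) * S.χ u ≠ 0 ∧
      x * ∑ u ∈ s, (b' u : X.K) * S.χ u = ∑ u ∈ s, (b u : X.K) * S.χ u

/-- TRD: the transcendence degree of the field of invariant functions. -/
def Stmt_TRD : Prop :=
  ∀ {n m : ℕ} {X : Germ n} (A : TorusAction X m),
    Algebra.trdeg ℂ A.K0 + (m : Cardinal) = (n : Cardinal)

/-- TRB: a transcendence basis of the field of invariant functions and a basis of the characters
give a transcendence basis of the function field. -/
def Stmt_TRB : Prop :=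
  ∀ {n m c : ℕ} {X : Germ n} (A : TorusAction X m) (S : Splitting A) (s : Fin c → A.K0),
    AlgebraicIndependent ℂ s →
    AlgebraicIndependent ℂ (Sum.elim (fun j => (s j : X.K)) fun i : Fin m => S.χ (Pi.single i 1))

/-- NHP: along a prime divisor which is not invariant homogeneous functions have order zero, and the
order of the invariant form with respect to logarithmic forms is one. -/
def Stmt_NHP : Prop :=
  ∀ {n m c : ℕ} {X : Germ n} (A : TorusAction X m) (S : Splitting A) (s : Fin c → A.K0)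
    (a : Fin n → X.K) (e : Fin n ≃ Fin c ⊕ Fin m), AlgebraicIndependent ℂ s →
    (∀ i, a i = Sum.elim (fun j => (s j : X.K)) (fun i : Fin m => S.χ (Pi.single i 1)) (e i)) →
    ∀ (P : Ideal X.R) (v : DivVal n X.K), X.IsOrdAlong v P → ¬ A.Inv P →
      (∀ (u : Fin m → ℤ) (h : X.K), A.Hom u h → h ≠ 0 → v.ord h = 0) ∧
      v.logOrd (dlogs a) = 1

/-- GHO: a function whose divisor near `x` is invariant is, near `x`, a homogeneous function times
an invertible function. -/
def Stmt_GHO : Prop :=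
  ∀ {n m : ℕ} {X : Germ n} (A : TorusAction X m) (h : X.K), h ≠ 0 →
    (∀ (P : Ideal X.R) (v : DivVal n X.K), X.IsOrdAlong v P → P ≤ X.m → ¬ A.Inv P →
      v.ord h = 0) →
    ∃ (u : Fin m → ℤ) (H : X.K), A.Hom u H ∧ H ≠ 0 ∧ ∀ v, X.Through v → v.ord h = v.ord H

/-- RED: the log discrepancies of an invariant triple. -/
def Stmt_RED : Prop :=
  ∀ {n m c : ℕ} {X : Germ n} (A : TorusAction X m) (S : Splitting A) (s : Fin c → A.K0)
    (a : Fin n → X.K) (e : Fin n ≃ Fin c ⊕ Fin m), 0 < n → AlgebraicIndependent ℂ s →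
    (∀ i, a i = Sum.elim (fun j => (s j : X.K)) (fun i : Fin m => S.χ (Pi.single i 1)) (e i)) →
    ∀ T : Triple X, A.InvTriple T →
      dlogs a ≠ 0 ∧
      ∃ (q : ℕ) (l : Fin q → ℝ) (u : Fin q → (Fin m → ℤ)) (H : Fin q → X.K),
        (∀ k, A.Hom (u k) (H k) ∧ H k ≠ 0) ∧
        ∀ v, X.Through v → T.logDisc v = v.logOrd (dlogs a) + ∑ k, l k * v.ord (H k)

end

end MldG
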