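import Pool.Agent.MldG.Stmts4
import Pool.Agent.MldGeo.Stmts8

/-!
# Varieties with torus action: statements about valuations
-/

namespace MldG

open MldGeo

open MvPolynomial

noncomputable section

section

variable {n m : ℕ} {X : Germ n} {A : TorusAction X m} (S : Splitting A) (v : DivVal n X.K)
  (w : Fin m → ℤ) (l : ℤ) (y : DivVal 1 A.K0)

/-- On homogeneous functions `v` is given by `(w, l, y)`. -/
def Along : Prop :=
  ∀ (b : A.K0) (u : Fin m → ℤ), b ≠ 0 → v.ord ((b : X.K) * S.χ u) = l * y.ord b + ip w u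

/-- `v` is the toroidal valuation `(w, l, y)`: the order of a sum of homogeneous functions of
different weights is the least order. -/
def IsTor : Prop :=
  ∀ (s : Finset (Fin m → ℤ)) (b : (Fin m → ℤ) → A.K0), (∃ u ∈ s, b u ≠ 0) →
    IsLeast {k : ℤ | ∃ u ∈ s, b u ≠ 0 ∧ k = l * y.ord (b u) + ip w u}
      (v.ord (∑ u ∈ s, (b u : X.K) * S.χ u))

/-- `(w, l, y)` is nonnegative on the regular functions. -/
def NonnegR : Prop :=
  ∀ (b : A.K0) (u : Fin m → ℤ), b ≠ 0 → (b : X.K) * S.χ u ∈ X.R → 0 ≤ l * y.ord b + ip w u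

/-- `(w, l, y)` is positive on the regular functions of nonzero weight. -/
def PosR : Prop :=
  ∀ (b : A.K0) (u : Fin m → ℤ), b ≠ 0 → u ≠ 0 → (b : X.K) * S.χ u ∈ X.R →
    0 < l * y.ord b + ip w u

end

/-- The invariant form `dlog s ∧ dlog χ₁ ∧ … ∧ dlog χ_m`. -/
def form0 {m : ℕ} {X : Germ (m + 1)} {A : TorusAction X m} (S : Splitting A) (s : A.K0) :
    Forms (m + 1) X.K :=
  dlogs (Fin.cons (s : X.K) fun i => S.χ (Pi.single i 1))

/-- K0C: the field of invariants is a function field of one variable. -/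
def Stmt_K0C : Prop := ∀ {m : ℕ} {X : Germ (m + 1)} (A : TorusAction X m), IsCurve A.K0

/-- RSV: the restriction of a valuation to the homogeneous functions. -/
def Stmt_RSV : Prop :=
  ∀ {m : ℕ} {X : Germ (m + 1)} {A : TorusAction X m} (S : Splitting A) (v : DivVal (m + 1) X.K),
    ∃ (w : Fin m → ℤ) (l : ℤ) (y : DivVal 1 A.K0), 0 ≤ l ∧ Along S v w l y

/-- TOX: toroidal valuations exist. -/
def Stmt_TOX : Prop :=
  ∀ {m : ℕ} {X : Germ (m + 1)} {A : TorusAction X m} (S : Splitting A) (w : Fin m → ℤ) (l : ℤ)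
    (y : DivVal 1 A.K0), 0 ≤ l → Primv w l → ∃ v : DivVal (m + 1) X.K, IsTor S v w l y

/-- LGO: the order of the invariant form. -/
def Stmt_LGO : Prop :=
  ∀ {m : ℕ} {X : Germ (m + 1)} {A : TorusAction X m} (S : Splitting A) (s : A.K0),
    Transcendental ℂ s → ∀ D : Derivation ℂ A.K0 A.K0,
    (D s = 1 ∧ ∀ t : A.K0, KaehlerDifferential.D ℂ A.K0 t = D t • KaehlerDifferential.D ℂ A.K0 s) →
    ∀ κ : DivVal 1 A.K0 → ℤ, (∀ (y : DivVal 1 A.K0) (t : A.K0), y.ord t = 1 →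
      y.ord (D t) = - κ y) →
    form0 S s ≠ 0 ∧
    (∀ v w l y, 0 ≤ l → IsTor S v w l y → v.logOrd (form0 S s) = l * (1 - y.ord s + κ y)) ∧
    ∀ v w l y, 0 ≤ l → Along S v w l y → l * (1 - y.ord s + κ y) ≤ v.logOrd (form0 S s)

/-- RD1: the log discrepancies of the toroidal valuations, and a lower bound for the others. -/
def Stmt_RD1 : Prop :=
  ∀ {m : ℕ} {X : Germ (m + 1)} {A : TorusAction X m} (S : Splitting A) (s : A.K0),
    Transcendental ℂ s → ∀ D : Derivation ℂ A.K0 A.K0,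
    (D s = 1 ∧ ∀ t : A.K0, KaehlerDifferential.D ℂ A.K0 t = D t • KaehlerDifferential.D ℂ A.K0 s) →
    ∀ κ : DivVal 1 A.K0 →₀ ℤ, (∀ (y : DivVal 1 A.K0) (t : A.K0), y.ord t = 1 →
      y.ord (D t) = - κ y) →
    ∀ T : Triple X, A.InvTriple T →
    ∃ (ψ : Fin m → ℝ) (α : DivVal 1 A.K0 → ℝ) (P : Finset (DivVal 1 A.K0)),
      (∀ y, y ∉ P → α y = 1) ∧ ∑ y ∈ P, (1 - α y) = - (deg κ : ℝ) ∧
      (∀ v w l y, 0 ≤ l → IsTor S v w l y → X.Through v →
        T.logDisc v = ∑ i, ψ i * w i + l * α y) ∧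
      ∀ v w l y, 0 ≤ l → Along S v w l y → X.Through v →
        ∑ i, ψ i * w i + l * α y ≤ T.logDisc v

/-- IDL: the order of an invariant ideal. -/
def Stmt_IDL : Prop :=
  ∀ {n m : ℕ} {X : Germ n} {A : TorusAction X m} (S : Splitting A) (I : Ideal X.R), I ≠ ⊥ →
    A.Inv I → ∃ (N : ℕ) (z : Fin N → Fin m → ℤ) (c : Fin N → A.K0), 0 < N ∧ (∀ j, c j ≠ 0) ∧
      (∀ j, (c j : X.K) * S.χ (z j) ∈ X.R) ∧
      ∀ v w l y, (∀ a : X.R, 0 ≤ v.ord a) → Along S v w l y →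
        IsLeast {k : ℤ | ∃ j, k = l * y.ord (c j) + ip w (z j)} (idealOrd v I)

end

end MldG
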